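import Mathlib
import Pool.Agent.H75.Perc.RswD

set_option autoImplicit false
open Finset

/-! Two arms: shared definitions. Label lattice `ℤ × ℤ`: a vertex `v` of the square lattice is the
point `dbl v = 2v`, an edge `uv` is the point `u + v` (odd coordinate sum), a face is a point with two
odd coordinates; the face with index `(i,j)` is the point `(2i-1, 2j-1)`. A corner `c = (a,b)` is the
unit square `[a-1,a] × [b-1,b]` of the label lattice: it is the incidence of the vertex `vx c` and of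
the face `fce c = 2 • fi c - (1,1)`; its two other points are the edges `lab c` (met by the next step
of the exploration `nx`) and `plab c` (met by the previous step `pv`). -/

namespace Pool.Agent.H75.TwoArm

open Pool.Agent.H75.Perc

/-- Label of the edge met at the previous step (by `pv`) from the corner `c`. -/
def plab (c : ℤ × ℤ) : ℤ × ℤ :=
  if c.2 % 2 = 0 then (if c.1 % 2 = 0 then (c.1 - 1, c.2) else (c.1 - 1, c.2 - 1))
  else (if c.1 % 2 = 0 then (c.1, c.2) else (c.1, c.2 - 1))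

/-- index of the face of a corner -/
def fi (c : ℤ × ℤ) : ℤ × ℤ := ((c.1 + 1) / 2, (c.2 + 1) / 2)

/-- shift of labels by `(1,1)` -/
def sh1 : (ℤ × ℤ) ↪ (ℤ × ℤ) where
  toFun e := (e.1 + 1, e.2 + 1)
  inj' := by
    intro a b h
    have h1 := congrArg Prod.fst h
    have h2 := congrArg Prod.snd h
    simp only at h1 h2
    exact Prod.ext (by omega) (by omega)

/-- The dual configuration of `ω` inside the set `E` of edges, in face indices: `Ad (du E ω) f g` says
that the faces with indices `f`, `g` are neighbours and are separated by a closed edge of `E`. -/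
noncomputable def du (E ω : Finset (ℤ × ℤ)) : Finset (ℤ × ℤ) := (E \ ω).map sh1

/-- the box `[-r,r]²` (labels of its edges) -/
noncomputable def BB (r : ℤ) : Finset (ℤ × ℤ) := Bx (-r) r (-r) r

/-- the box `[-L,r] × [-L,L]` -/
noncomputable def BE (r L : ℤ) : Finset (ℤ × ℤ) := Bx (-L) r (-L) L

/-- The loop (orbit) through the corner `c` meets an edge outside `B`. -/
def Leave (B ω : Finset (ℤ × ℤ)) (c : ℤ × ℤ) : Prop := ∃ j : ℕ, lab ((nx ω)^[j] c) ∉ B

/-- Forward exit: `x` is the corner at which the forward strand from `c` meets an edge outside `B` for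
the first time. -/
def FX (B ω : Finset (ℤ × ℤ)) (c x : ℤ × ℤ) : Prop :=
  ∃ j : ℕ, (nx ω)^[j] c = x ∧ lab x ∉ B ∧ ∀ i < j, lab ((nx ω)^[i] c) ∈ B

/-- Backward exit. -/
def BX (B ω : Finset (ℤ × ℤ)) (c x : ℤ × ℤ) : Prop :=
  ∃ j : ℕ, (pv ω)^[j] c = x ∧ plab x ∉ B ∧ ∀ i < j, plab ((pv ω)^[i] c) ∈ B

/-- The corners of the two strands from `c` up to their exits from `B`. -/
def Str (B ω : Finset (ℤ × ℤ)) (c z : ℤ × ℤ) : Prop :=
  (∃ j : ℕ, (nx ω)^[j] c = z ∧ ∀ i < j, lab ((nx ω)^[i] c) ∈ B) ∨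
  (∃ j : ℕ, (pv ω)^[j] c = z ∧ ∀ i < j, plab ((pv ω)^[i] c) ∈ B)

open Classical in
/-- The explored edges. -/
noncomputable def UU (B ω : Finset (ℤ × ℤ)) (c : ℤ × ℤ) : Finset (ℤ × ℤ) :=
  B.filter (fun e => ∃ z, Str B ω c z ∧ (lab z = e ∨ plab z = e))

/-- The corner `c` lies at the origin (four possibilities). -/
def C0 (c : ℤ × ℤ) : Prop := c = (0, 0) ∨ c = (1, 0) ∨ c = (0, 1) ∨ c = (1, 1)

/-- Both strands leave `[-L,r] × [-L,L]` through the right side, the forward one at the vertex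
`(r, y1)`, the backward one at the vertex `(r, y2)`. -/
def East (r L : ℤ) (ω : Finset (ℤ × ℤ)) (c : ℤ × ℤ) (y1 y2 : ℤ) : Prop :=
  FX (BE r L) ω c (2 * r + 1, 2 * y1) ∧ BX (BE r L) ω c (2 * r + 1, 2 * y2 + 1)

/-- `Z`: the two strands and the two horizontal rays starting at their ends. -/
def ZZ (r L : ℤ) (ω : Finset (ℤ × ℤ)) (c : ℤ × ℤ) (y1 y2 : ℤ) (z : ℤ × ℤ) : Prop :=
  Str (BE r L) ω c z ∨ (2 * r + 2 ≤ z.1 ∧ (z.2 = 2 * y1 ∨ z.2 = 2 * y2 + 1))

/-- `S` is a colouring of the vertices and faces which changes exactly across the corners in `Z`. -/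
def Col (Z : ℤ × ℤ → Prop) (S : ℤ × ℤ → Bool) : Prop :=
  ∀ z, (Z z ↔ S (dbl (vx z)) ≠ S (fce z))

/-- The probability (summed over the four corners of a vertex) that the loop leaves the box of radius
`r`. -/
noncomputable def aa (r : ℤ) : ℝ :=
  Pr (BB r) (fun ω => Leave (BB r) ω (0, 0)) + Pr (BB r) (fun ω => Leave (BB r) ω (1, 0)) +
  Pr (BB r) (fun ω => Leave (BB r) ω (0, 1)) + Pr (BB r) (fun ω => Leave (BB r) ω (1, 1))

/-- open arm from the origin and dual arm from the face of the corner `c`, to distance `r` -/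
def Arms (r : ℤ) (E ω : Finset (ℤ × ℤ)) (c : ℤ × ℤ) : Prop :=
  (∃ v : ℤ × ℤ, (|v.1| = r ∨ |v.2| = r) ∧ Co ω (vx c) v) ∧
  (∃ f : ℤ × ℤ, (|f.1| = r ∨ |f.2| = r) ∧ Co (du E ω) (fi c) f)

/-- the point of the label lattice of the face with index `f` -/
def fp (f : ℤ × ℤ) : ℤ × ℤ := (2 * f.1 - 1, 2 * f.2 - 1)

/-- The two-colouring of the plane cut along the two strands (explored up to their exits through the
right side of `[-L,r] × [-L,L]`) and the two horizontal rays. `S = true` at the vertices of the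
strands, `S = false` at their faces. -/
structure TC (r L : ℤ) (ω : Finset (ℤ × ℤ)) (c : ℤ × ℤ) (y1 y2 : ℤ) (S : ℤ × ℤ → Bool) : Prop where
  str : ∀ z, Str (BE r L) ω c z → S (dbl (vx z)) = true ∧ S (fce z) = false
  fresh : ∀ u v, IsUnit4 (v - u) → u + v ∈ BE r L → u + v ∉ UU (BE r L) ω c →
    S (dbl u) = S (dbl v)
  freshd : ∀ f g, IsUnit4 (g - f) → f + g - (1, 1) ∈ BE r L → f + g - (1, 1) ∉ UU (BE r L) ω c →
    S (fp f) = S (fp g)
  hit : ∀ u v, IsUnit4 (v - u) → u + v ∈ UU (BE r L) ω c → S (dbl u) = true →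
    ∃ z, Str (BE r L) ω c z ∧ vx z = u
  hitd : ∀ f g, IsUnit4 (g - f) → f + g - (1, 1) ∈ UU (BE r L) ω c → S (fp f) = false →
    ∃ z, Str (BE r L) ω c z ∧ fi z = f
  east : ∀ x y, r ≤ x → (S (dbl (x, y)) = true ↔
    (y1 ≤ y ∧ y ≤ y2) ∨ (y2 < y1 ∧ (y1 ≤ y ∨ y ≤ y2)))
  eastd : ∀ x y, r + 1 ≤ x → (S (fp (x, y)) = false ↔
    (y2 + 1 ≤ y ∧ y ≤ y1) ∨ (y1 ≤ y2 ∧ (y ≤ y1 ∨ y2 + 1 ≤ y)))

/-- rotation by a right angle, on corners -/
def rotc (c : ℤ × ℤ) : ℤ × ℤ := (1 - c.2, c.1)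
/-- reflection in the horizontal axis, on corners -/
def refc (c : ℤ × ℤ) : ℤ × ℤ := (c.1, 1 - c.2)
/-- rotation on labels -/
def rotL : (ℤ × ℤ) ↪ (ℤ × ℤ) where
  toFun e := (-e.2, e.1)
  inj' := by
    intro a b h
    have h1 := congrArg Prod.fst h
    have h2 := congrArg Prod.snd h
    simp only at h1 h2
    exact Prod.ext (by omega) (by omega)
/-- reflection on labels -/
def refL : (ℤ × ℤ) ↪ (ℤ × ℤ) where
  toFun e := (e.1, -e.2)
  inj' := by
    intro a b h
    have h1 := congrArg Prod.fst h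
    have h2 := congrArg Prod.snd h
    simp only at h1 h2
    exact Prod.ext (by omega) (by omega)

/-- the forward strand leaves the box `[-R,R]²` through its right side -/
def EF (R : ℤ) (ω : Finset (ℤ × ℤ)) (c : ℤ × ℤ) : Prop :=
  ∃ x, FX (BB R) ω c x ∧ (lab x).1 = 2 * R + 1

/-- good exits: both strands leave `[-2L,r] × [-2L,2L]` through the right side, at heights of modulus
at most `L` and at distance at least `w` -/
def Good (r L w : ℤ) (ω : Finset (ℤ × ℤ)) (c : ℤ × ℤ) : Prop :=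
  ∃ y1 y2, East r (2 * L) ω c y1 y2 ∧ |y1| ≤ L ∧ |y2| ≤ L ∧ w ≤ |y1 - y2|

/-- probability of good exits, summed over the four corners of the origin -/
noncomputable def gg (r L w : ℤ) : ℝ :=
  Pr (BB (2 * L)) (fun ω => Good r L w ω (0, 0)) + Pr (BB (2 * L)) (fun ω => Good r L w ω (1, 0)) +
  Pr (BB (2 * L)) (fun ω => Good r L w ω (0, 1)) + Pr (BB (2 * L)) (fun ω => Good r L w ω (1, 1))

end Pool.Agent.H75.TwoArm
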