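import Mathlib
import Pool.Agent.H75.TwoArm.Defs

set_option autoImplicit false
open Finset

/-! Two arms, part TA5: symmetries of the exploration. -/

namespace Pool.Agent.H75.TwoArm

open Pool.Agent.H75.Perc

namespace SymmAux

/-- Previous corner, open edge. -/
def pvO (c : ℤ × ℤ) : ℤ × ℤ :=
  if c.2 % 2 = 0 then (if c.1 % 2 = 0 then (c.1 - 1, c.2) else (c.1, c.2 - 1))
  else (if c.1 % 2 = 0 then (c.1, c.2 + 1) else (c.1 + 1, c.2))

/-- Previous corner, closed edge. -/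
def pvC (c : ℤ × ℤ) : ℤ × ℤ :=
  if c.2 % 2 = 0 then (if c.1 % 2 = 0 then (c.1, c.2 + 1) else (c.1 - 1, c.2))
  else (if c.1 % 2 = 0 then (c.1 + 1, c.2) else (c.1, c.2 - 1))

lemma pv_eq (ω : Finset (ℤ × ℤ)) (c : ℤ × ℤ) : pv ω c = if plab c ∈ ω then pvO c else pvC c := by
  unfold pv plab pvO pvC
  split_ifs <;> rfl

lemma lab_rot (c : ℤ × ℤ) : lab (rotc c) = rotL (lab c) := by
  obtain ⟨a, b⟩ := c
  unfold lab rotc rotL
  simp only [Function.Embedding.coeFn_mk]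
  split_ifs <;> first | (exfalso; omega) | (refine Prod.ext ?_ ?_ <;> simp only <;> omega)

lemma nxO_rot (c : ℤ × ℤ) : nxO (rotc c) = rotc (nxO c) := by
  obtain ⟨a, b⟩ := c
  unfold nxO rotc
  simp only
  split_ifs <;> first | (exfalso; omega) | (refine Prod.ext ?_ ?_ <;> simp only <;> omega)

lemma nxC_rot (c : ℤ × ℤ) : nxC (rotc c) = rotc (nxC c) := by
  obtain ⟨a, b⟩ := c
  unfold nxC rotc
  simp only
  split_ifs <;> first | (exfalso; omega) | (refine Prod.ext ?_ ?_ <;> simp only <;> omega)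

lemma lab_ref (c : ℤ × ℤ) : lab (refc c) = refL (plab c) := by
  obtain ⟨a, b⟩ := c
  unfold lab plab refc refL
  simp only [Function.Embedding.coeFn_mk]
  split_ifs <;> first | (exfalso; omega) | (refine Prod.ext ?_ ?_ <;> simp only <;> omega)

lemma plab_ref (c : ℤ × ℤ) : plab (refc c) = refL (lab c) := by
  obtain ⟨a, b⟩ := c
  unfold lab plab refc refL
  simp only [Function.Embedding.coeFn_mk]
  split_ifs <;> first | (exfalso; omega) | (refine Prod.ext ?_ ?_ <;> simp only <;> omega)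

lemma nxO_ref (c : ℤ × ℤ) : nxO (refc c) = refc (pvO c) := by
  obtain ⟨a, b⟩ := c
  unfold nxO pvO refc
  simp only
  split_ifs <;> first | (exfalso; omega) | (refine Prod.ext ?_ ?_ <;> simp only <;> omega)

lemma nxC_ref (c : ℤ × ℤ) : nxC (refc c) = refc (pvC c) := by
  obtain ⟨a, b⟩ := c
  unfold nxC pvC refc
  simp only
  split_ifs <;> first | (exfalso; omega) | (refine Prod.ext ?_ ?_ <;> simp only <;> omega)

lemma pvO_ref (c : ℤ × ℤ) : pvO (refc c) = refc (nxO c) := by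
  obtain ⟨a, b⟩ := c
  unfold nxO pvO refc
  simp only
  split_ifs <;> first | (exfalso; omega) | (refine Prod.ext ?_ ?_ <;> simp only <;> omega)

lemma pvC_ref (c : ℤ × ℤ) : pvC (refc c) = refc (nxC c) := by
  obtain ⟨a, b⟩ := c
  unfold nxC pvC refc
  simp only
  split_ifs <;> first | (exfalso; omega) | (refine Prod.ext ?_ ?_ <;> simp only <;> omega)

end SymmAux

open SymmAux

lemma nx_rot (ω : Finset (ℤ × ℤ)) (c : ℤ × ℤ) : nx (ω.map rotL) (rotc c) = rotc (nx ω c) := by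
  unfold nx
  rw [lab_rot, nxO_rot, nxC_rot]
  by_cases h : lab c ∈ ω
  · rw [if_pos h, if_pos ((mem_map' rotL).2 h)]
  · rw [if_neg h, if_neg (fun h' => h ((mem_map' rotL).1 h'))]

lemma nx_ref (ω : Finset (ℤ × ℤ)) (c : ℤ × ℤ) : nx (ω.map refL) (refc c) = refc (pv ω c) := by
  unfold nx
  rw [lab_ref, nxO_ref, nxC_ref, pv_eq]
  by_cases h : plab c ∈ ω
  · rw [if_pos h, if_pos ((mem_map' refL).2 h)]
  · rw [if_neg h, if_neg (fun h' => h ((mem_map' refL).1 h'))]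

lemma pv_ref (ω : Finset (ℤ × ℤ)) (c : ℤ × ℤ) : pv (ω.map refL) (refc c) = refc (nx ω c) := by
  rw [pv_eq]
  unfold nx
  rw [plab_ref, pvO_ref, pvC_ref]
  by_cases h : lab c ∈ ω
  · rw [if_pos h, if_pos ((mem_map' refL).2 h)]
  · rw [if_neg h, if_neg (fun h' => h ((mem_map' refL).1 h'))]

namespace SymmAux

lemma nx_rot_iter (ω : Finset (ℤ × ℤ)) (c : ℤ × ℤ) (j : ℕ) :
    (nx (ω.map rotL))^[j] (rotc c) = rotc ((nx ω)^[j] c) := by
  induction j with
  | zero => rfl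
  | succ j ih => rw [Function.iterate_succ_apply', Function.iterate_succ_apply', ih, nx_rot]

lemma nx_ref_iter (ω : Finset (ℤ × ℤ)) (c : ℤ × ℤ) (j : ℕ) :
    (nx (ω.map refL))^[j] (refc c) = refc ((pv ω)^[j] c) := by
  induction j with
  | zero => rfl
  | succ j ih => rw [Function.iterate_succ_apply', Function.iterate_succ_apply', ih, nx_ref]

lemma pv_ref_iter (ω : Finset (ℤ × ℤ)) (c : ℤ × ℤ) (j : ℕ) :
    (pv (ω.map refL))^[j] (refc c) = refc ((nx ω)^[j] c) := by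
  induction j with
  | zero => rfl
  | succ j ih => rw [Function.iterate_succ_apply', Function.iterate_succ_apply', ih, pv_ref]

lemma refc_inj {c d : ℤ × ℤ} : refc c = refc d ↔ c = d := by
  unfold refc
  simp only [Prod.ext_iff]
  omega

lemma rotc_inj {c d : ℤ × ℤ} : rotc c = rotc d ↔ c = d := by
  unfold rotc
  simp only [Prod.ext_iff]
  omega

lemma refL_mem_BE {r L : ℤ} {e : ℤ × ℤ} : refL e ∈ BE r L ↔ e ∈ BE r L := by
  unfold BE refL
  rw [mem_Bx, mem_Bx]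
  simp only [Function.Embedding.coeFn_mk]
  omega

lemma rotL_mem_BB {R : ℤ} {e : ℤ × ℤ} : rotL e ∈ BB R ↔ e ∈ BB R := by
  unfold BB rotL
  rw [mem_Bx, mem_Bx]
  simp only [Function.Embedding.coeFn_mk]
  omega

lemma map_rotL_BB (R : ℤ) : (BB R).map rotL = BB R := by
  ext e
  rw [mem_map]
  constructor
  · rintro ⟨x, hx, rfl⟩
    exact rotL_mem_BB.2 hx
  · intro he
    refine ⟨(e.2, -e.1), ?_, ?_⟩
    · rw [← rotL_mem_BB]
      have : rotL (e.2, -e.1) = e := by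
        unfold rotL
        refine Prod.ext ?_ ?_ <;> simp only [Function.Embedding.coeFn_mk] ; omega
      rwa [this]
    · unfold rotL
      refine Prod.ext ?_ ?_ <;> simp only [Function.Embedding.coeFn_mk] ; omega

lemma FX_ref {r L : ℤ} {ω : Finset (ℤ × ℤ)} {c x : ℤ × ℤ} :
    FX (BE r L) (ω.map refL) (refc c) (refc x) ↔ BX (BE r L) ω c x := by
  unfold FX BX
  simp only [nx_ref_iter, refc_inj, lab_ref, refL_mem_BE]

lemma BX_ref {r L : ℤ} {ω : Finset (ℤ × ℤ)} {c x : ℤ × ℤ} :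
    BX (BE r L) (ω.map refL) (refc c) (refc x) ↔ FX (BE r L) ω c x := by
  unfold FX BX
  simp only [pv_ref_iter, refc_inj, plab_ref, refL_mem_BE]

lemma FX_rot {R : ℤ} {ω : Finset (ℤ × ℤ)} {c x : ℤ × ℤ} :
    FX (BB R) (ω.map rotL) (rotc c) (rotc x) ↔ FX (BB R) ω c x := by
  unfold FX
  simp only [nx_rot_iter, rotc_inj, lab_rot, rotL_mem_BB]

/-- exit through a side described by a predicate on labels -/
def Side (R : ℤ) (s : ℤ × ℤ → Prop) (ω : Finset (ℤ × ℤ)) (c : ℤ × ℤ) : Prop :=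
  ∃ x, FX (BB R) ω c x ∧ s (lab x)

lemma Side_rot {R : ℤ} {s t : ℤ × ℤ → Prop} (hst : ∀ e, t (rotL e) ↔ s e)
    {ω : Finset (ℤ × ℤ)} {c : ℤ × ℤ} : Side R t (ω.map rotL) (rotc c) ↔ Side R s ω c := by
  constructor
  · rintro ⟨x, hx, hx'⟩
    have h1 : rotc (x.2, 1 - x.1) = x := by
      unfold rotc
      refine Prod.ext ?_ ?_ <;> simp only ; omega
    refine ⟨(x.2, 1 - x.1), ?_, ?_⟩
    · rw [← FX_rot, h1]; exact hx
    · rw [← hst, ← lab_rot, h1]; exact hx'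
  · rintro ⟨x, hx, hx'⟩
    exact ⟨rotc x, FX_rot.2 hx, by rw [lab_rot, hst]; exact hx'⟩

lemma Pr_Side_rot {R : ℤ} {s t : ℤ × ℤ → Prop} (hst : ∀ e, t (rotL e) ↔ s e) (c : ℤ × ℤ) :
    Pr (BB R) (fun ω => Side R t ω (rotc c)) = Pr (BB R) (fun ω => Side R s ω c) := by
  conv_lhs => rw [← map_rotL_BB R]
  rw [Pr_map]
  exact Pr_congr fun ω _ => Side_rot hst

lemma lab_cases (c : ℤ × ℤ) : ((lab c).1 + (lab c).2) % 2 = 1 ∧
    ((lab c).1 = c.1 ∨ (lab c).1 = c.1 - 1) ∧ ((lab c).2 = c.2 ∨ (lab c).2 = c.2 - 1) := by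
  obtain ⟨a, b⟩ := c
  unfold lab
  simp only
  split_ifs <;> refine ⟨?_, ?_, ?_⟩ <;> omega

lemma plab_cases (c : ℤ × ℤ) :
    ((plab c).1 = c.1 ∨ (plab c).1 = c.1 - 1) ∧ ((plab c).2 = c.2 ∨ (plab c).2 = c.2 - 1) := by
  obtain ⟨a, b⟩ := c
  unfold plab
  simp only
  split_ifs <;> refine ⟨?_, ?_⟩ <;> omega

lemma plab_nx' (ω : Finset (ℤ × ℤ)) (c : ℤ × ℤ) : plab (nx ω c) = lab c := by
  obtain ⟨a, b⟩ := c
  unfold nx
  split_ifs with h
  · unfold plab nxO lab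
    simp only
    split_ifs <;> first | (exfalso; omega) | (refine Prod.ext ?_ ?_ <;> simp only <;> omega)
  · unfold plab nxC lab
    simp only
    split_ifs <;> first | (exfalso; omega) | (refine Prod.ext ?_ ?_ <;> simp only <;> omega)

lemma leave_side {R : ℤ} (hR : 1 ≤ R) {ω : Finset (ℤ × ℤ)} {c : ℤ × ℤ} (hc : C0 c)
    (h : Leave (BB R) ω c) :
    ((Side R (fun e => e.1 = 2 * R + 1) ω c ∨ Side R (fun e => e.2 = 2 * R + 1) ω c) ∨
      Side R (fun e => e.1 = -(2 * R + 1)) ω c) ∨ Side R (fun e => e.2 = -(2 * R + 1)) ω c := by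
  classical
  have hex : ∃ j : ℕ, lab ((nx ω)^[j] c) ∉ BB R := h
  set j := Nat.find hex with hj
  have hj1 : lab ((nx ω)^[j] c) ∉ BB R := Nat.find_spec hex
  have hj2 : ∀ i < j, lab ((nx ω)^[i] c) ∈ BB R := fun i hi => by
    by_contra h'
    exact Nat.find_min hex hi h'
  set x := (nx ω)^[j] c with hx
  have hF : FX (BB R) ω c x := ⟨j, rfl, hj1, hj2⟩
  have hj0 : j ≠ 0 := by
    intro h0
    rw [h0, Function.iterate_zero, id] at hx
    rw [hx] at hj1
    apply hj1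
    have h2 := lab_cases c
    unfold BB
    rw [mem_Bx]
    rcases hc with hc | hc | hc | hc <;> rw [hc] at h2 ⊢ <;> simp only at h2 <;>
      refine ⟨?_, ?_, h2.1⟩ <;> omega
  obtain ⟨i, hi⟩ := Nat.exists_eq_succ_of_ne_zero hj0
  have hi2 := hj2 i (by omega)
  have hx2 : x = nx ω ((nx ω)^[i] c) := by
    rw [hx, hi, Function.iterate_succ_apply']
  rw [← plab_nx' ω, ← hx2] at hi2
  have h3 := lab_cases x
  have h4 := plab_cases x
  unfold BB at hi2 hj1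
  rw [mem_Bx] at hi2 hj1
  have h5 : (lab x).1 = 2 * R + 1 ∨ (lab x).2 = 2 * R + 1 ∨ (lab x).1 = -(2 * R + 1) ∨
      (lab x).2 = -(2 * R + 1) := by
    by_contra hcon
    push Not at hcon
    apply hj1
    refine ⟨⟨?_, ?_⟩, ⟨?_, ?_⟩, h3.1⟩ <;> omega
  rcases h5 with h5 | h5 | h5 | h5
  · exact Or.inl (Or.inl (Or.inl ⟨x, hF, h5⟩))
  · exact Or.inl (Or.inl (Or.inr ⟨x, hF, h5⟩))
  · exact Or.inl (Or.inr ⟨x, hF, h5⟩)
  · exact Or.inr ⟨x, hF, h5⟩

lemma leave_le {R : ℤ} (hR : 1 ≤ R) {c : ℤ × ℤ} (hc : C0 c) :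
    Pr (BB R) (fun ω => Leave (BB R) ω c) ≤
      Pr (BB R) (fun ω => Side R (fun e => e.1 = 2 * R + 1) ω c) +
      Pr (BB R) (fun ω => Side R (fun e => e.2 = 2 * R + 1) ω c) +
      Pr (BB R) (fun ω => Side R (fun e => e.1 = -(2 * R + 1)) ω c) +
      Pr (BB R) (fun ω => Side R (fun e => e.2 = -(2 * R + 1)) ω c) := by
  refine (Pr_mono fun ω _ h => leave_side hR hc h).trans ?_
  refine (Pr_or_le _ _ _).trans ?_
  gcongr
  refine (Pr_or_le _ _ _).trans ?_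
  gcongr
  exact Pr_or_le _ _ _

end SymmAux

theorem aa_le (R : ℤ) (hR : 1 ≤ R) : aa R ≤ 4 *
    (Pr (BB R) (fun ω => EF R ω (0, 0)) + Pr (BB R) (fun ω => EF R ω (1, 0)) +
    Pr (BB R) (fun ω => EF R ω (0, 1)) + Pr (BB R) (fun ω => EF R ω (1, 1))) := by
  have r0 : rotc (0, 0) = (1, 0) := by unfold rotc; simp
  have r1 : rotc (1, 0) = (1, 1) := by unfold rotc; simp
  have r2 : rotc (1, 1) = (0, 1) := by unfold rotc; simp
  have r3 : rotc (0, 1) = (0, 0) := by unfold rotc; simp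
  have hEF : ∀ c, Pr (BB R) (fun ω => EF R ω c) =
      Pr (BB R) (fun ω => Side R (fun e => e.1 = 2 * R + 1) ω c) := fun c => rfl
  have a1 : ∀ c, Pr (BB R) (fun ω => Side R (fun e => e.2 = 2 * R + 1) ω (rotc c)) =
      Pr (BB R) (fun ω => Side R (fun e => e.1 = 2 * R + 1) ω c) := fun c =>
    Pr_Side_rot (fun e => by unfold rotL; simp) c
  have a2 : ∀ c, Pr (BB R) (fun ω => Side R (fun e => e.1 = -(2 * R + 1)) ω (rotc c)) =
      Pr (BB R) (fun ω => Side R (fun e => e.2 = 2 * R + 1) ω c) := fun c =>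
    Pr_Side_rot (fun e => by unfold rotL; simp only [Function.Embedding.coeFn_mk]; omega) c
  have a3 : ∀ c, Pr (BB R) (fun ω => Side R (fun e => e.2 = -(2 * R + 1)) ω (rotc c)) =
      Pr (BB R) (fun ω => Side R (fun e => e.1 = -(2 * R + 1)) ω c) := fun c =>
    Pr_Side_rot (fun e => by unfold rotL; simp) c
  have b00 := leave_le hR (c := (0, 0)) (Or.inl rfl)
  have b10 := leave_le hR (c := (1, 0)) (Or.inr (Or.inl rfl))
  have b01 := leave_le hR (c := (0, 1)) (Or.inr (Or.inr (Or.inl rfl)))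
  have b11 := leave_le hR (c := (1, 1)) (Or.inr (Or.inr (Or.inr rfl)))
  have c1 := a1 (0, 0)
  have c2 := a1 (1, 0)
  have c3 := a1 (1, 1)
  have c4 := a1 (0, 1)
  have d1 := a2 (0, 0)
  have d2 := a2 (1, 0)
  have d3 := a2 (1, 1)
  have d4 := a2 (0, 1)
  have e1 := a3 (0, 0)
  have e2 := a3 (1, 0)
  have e3 := a3 (1, 1)
  have e4 := a3 (0, 1)
  rw [r0] at c1 d1 e1
  rw [r1] at c2 d2 e2
  rw [r2] at c3 d3 e3
  rw [r3] at c4 d4 e4
  unfold aa
  rw [hEF, hEF, hEF, hEF]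
  linarith

theorem east_ref {r L : ℤ} {ω : Finset (ℤ × ℤ)} {c : ℤ × ℤ} {y1 y2 : ℤ} :
    East r L (ω.map refL) (refc c) (-y2) (-y1) ↔ East r L ω c y1 y2 := by
  unfold East
  have h1 : ((2 * r + 1, 2 * -y2) : ℤ × ℤ) = refc (2 * r + 1, 2 * y2 + 1) := by
    unfold refc
    refine Prod.ext ?_ ?_ <;> simp only ; omega
  have h2 : ((2 * r + 1, 2 * -y1 + 1) : ℤ × ℤ) = refc (2 * r + 1, 2 * y1) := by
    unfold refc
    refine Prod.ext ?_ ?_ <;> simp only ; omega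
  rw [h1, h2, FX_ref, BX_ref, and_comm]

end Pool.Agent.H75.TwoArm
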