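import Mathlib
import Pool.Agent.H75.TwoArm.Defs

set_option autoImplicit false
open Finset

/-! Decay of the one-arm event in annuli: four dual crossings of the sides of an annulus block every
open path through it. -/

namespace Pool.Agent.H75.TwoArm

open Pool.Agent.H75.Perc

namespace DecayAux

/-- Complements are uniform. -/
lemma Pr_compl {α : Type*} [DecidableEq α] (E : Finset α) (B : Finset α → Prop) :
    Pr E (fun ω => B (E \ ω)) = Pr E B := by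
  classical
  rw [Pr_eq, Pr_eq]
  congr 2
  apply card_nbij' (fun ω => E \ ω) (fun ω => E \ ω)
  · intro ω hω
    rw [mem_coe, mem_filter, mem_powerset] at hω ⊢
    exact ⟨sdiff_subset, hω.2⟩
  · intro ω hω
    rw [mem_coe, mem_filter, mem_powerset] at hω ⊢
    refine ⟨sdiff_subset, ?_⟩
    have e : E \ (E \ ω) = ω := by
      rw [Finset.sdiff_sdiff_eq_self hω.1]
    rw [e]; exact hω.2
  · intro ω hω
    rw [mem_coe, mem_filter, mem_powerset] at hω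
    exact Finset.sdiff_sdiff_eq_self hω.1
  · intro ω hω
    rw [mem_coe, mem_filter, mem_powerset] at hω
    exact Finset.sdiff_sdiff_eq_self hω.1

lemma mem_du {E ω : Finset (ℤ × ℤ)} {l : ℤ × ℤ} (h : l ∈ du E ω) :
    ((l.1 - 1, l.2 - 1) : ℤ × ℤ) ∉ ω := by
  unfold du at h
  rw [mem_map] at h
  obtain ⟨e, he, rfl⟩ := h
  rw [mem_sdiff] at he
  have : (((sh1 e).1 - 1, (sh1 e).2 - 1) : ℤ × ℤ) = e := by
    refine Prod.ext ?_ ?_ <;> simp [sh1]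
  rw [this]
  exact he.2

/-- An open path in the label lattice. -/
lemma lift_open {ω : Finset (ℤ × ℤ)} {a b c d : ℤ} {p q : ℤ × ℤ}
    (hp : inB a b c d p) (h : Co (ω ∩ Bx a b c d) p q) :
    Relation.ReflTransGen (fun u v : ℤ × ℤ => IsUnit4 (v - u) ∧
      ((∃ w, v = (2 * w.1, 2 * w.2) ∧ inB a b c d w) ∨ (v ∈ ω ∧ v ∈ Bx a b c d)))
      ((2 * p.1, 2 * p.2) : ℤ × ℤ) (2 * q.1, 2 * q.2) := by
  induction h with
  | refl => exact Relation.ReflTransGen.refl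
  | @tail y z hab hbc ih =>
    have hl := mem_inter.1 hbc.2
    have h1 := unit_cases hbc.1
    have hz := (hbc.inB inter_subset_right).2
    refine (ih.tail (c := y + z) ⟨?_, Or.inr hl⟩).tail ⟨?_, Or.inl ⟨z, rfl, hz⟩⟩
    · unfold IsUnit4
      simp only [Prod.ext_iff, Prod.fst_sub, Prod.snd_sub, Prod.fst_add, Prod.snd_add]
      omega
    · unfold IsUnit4
      simp only [Prod.ext_iff, Prod.fst_sub, Prod.snd_sub, Prod.fst_add, Prod.snd_add]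
      omega

/-- A dual path in the label lattice. -/
lemma lift_dual {E ω : Finset (ℤ × ℤ)} {a b c d : ℤ} {f g : ℤ × ℤ}
    (hf : inB a b c d f) (h : Co (du E ω ∩ Bx a b c d) f g) :
    Relation.ReflTransGen (fun u v : ℤ × ℤ => IsUnit4 (v - u) ∧
      ((∃ w, v = (2 * w.1 - 1, 2 * w.2 - 1) ∧ inB a b c d w) ∨
        (v ∉ ω ∧ ((v.1 + 1, v.2 + 1) : ℤ × ℤ) ∈ Bx a b c d)))
      ((2 * f.1 - 1, 2 * f.2 - 1) : ℤ × ℤ) (2 * g.1 - 1, 2 * g.2 - 1) := by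
  induction h with
  | refl => exact Relation.ReflTransGen.refl
  | @tail y z hab hbc ih =>
    have hl := mem_inter.1 hbc.2
    have h1 := unit_cases hbc.1
    have hz := (hbc.inB inter_subset_right).2
    refine (ih.tail (c := ((y + z).1 - 1, (y + z).2 - 1)) ⟨?_, Or.inr ⟨mem_du hl.1, ?_⟩⟩).tail
      ⟨?_, Or.inl ⟨z, rfl, hz⟩⟩
    · unfold IsUnit4
      simp only [Prod.ext_iff, Prod.fst_sub, Prod.snd_sub, Prod.fst_add, Prod.snd_add]
      omega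
    · have e : (((y + z).1 - 1 + 1, (y + z).2 - 1 + 1) : ℤ × ℤ) = y + z := by
        refine Prod.ext ?_ ?_ <;> simp
      simp only
      rw [e]; exact hl.2
    · unfold IsUnit4
      simp only [Prod.ext_iff, Prod.fst_sub, Prod.snd_sub, Prod.fst_add, Prod.snd_add]
      omega

lemma king_lift {A : ℤ × ℤ → Prop} {p q : ℤ × ℤ}
    (h : Relation.ReflTransGen (fun u v : ℤ × ℤ => IsUnit4 (v - u) ∧ A v) p q) :
    Relation.ReflTransGen (fun u v : ℤ × ℤ => King (v - u) ∧ A v) p q := by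
  induction h with
  | refl => exact Relation.ReflTransGen.refl
  | tail _ hbc ih => exact ih.tail ⟨hbc.1.king, hbc.2⟩

end DecayAux

open DecayAux

theorem Pr_du (E : Finset (ℤ × ℤ)) (A : Finset (ℤ × ℤ) → Prop) :
    Pr E (fun ω => A (du E ω)) = Pr (E.map sh1) A := by
  rw [Pr_map]
  exact Pr_compl E (fun ω => A (ω.map sh1))

theorem no_cross {E ω : Finset (ℤ × ℤ)} {a b c d : ℤ}
    (h1 : HC a b c d ω) (h2 : VC (a + 1) b c (d + 1) (du E ω)) : False := by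
  obtain ⟨p, q, p1, p2, p3, p4⟩ := h1
  obtain ⟨f, g, f1, f2, f3, f4⟩ := h2
  have hP := king_lift (lift_open p1 p4)
  have hQ := lift_dual f1 f4
  obtain ⟨z, hz1, hz2⟩ := cross_set (a := 2 * a) (b := 2 * b) (c := 2 * c - 1) (d := 2 * d + 1)
    hP (Or.inl ⟨p, rfl, p1⟩) hQ (Or.inl ⟨f, rfl, f1⟩)
    (by
      rintro z (⟨w, rfl, hw⟩ | ⟨hw1, hw2⟩)
      · unfold inB at hw; simp only; omega
      · rw [mem_Bx] at hw2; omega)
    (by
      rintro z (⟨w, rfl, hw⟩ | ⟨hw1, hw2⟩)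
      · unfold inB at hw; simp only; omega
      · rw [mem_Bx] at hw2; simp only at hw2; omega)
    (by simp only; omega) (by simp only; omega) (by simp only; omega) (by simp only; omega)
  rcases hz1 with ⟨w, hw, -⟩ | ⟨hw1, hw2⟩ <;> rcases hz2 with ⟨w', hw', -⟩ | ⟨hw1', hw2'⟩
  · rw [hw] at hw'
    simp only [Prod.ext_iff] at hw'
    omega
  · rw [mem_Bx, hw] at hw2'
    simp only at hw2'
    omega
  · rw [mem_Bx, hw'] at hw2
    simp only at hw2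
    omega
  · exact hw1' hw1

namespace DecayAux

theorem no_cross' {E ω : Finset (ℤ × ℤ)} {a b c d : ℤ}
    (h1 : VC a b c d ω) (h2 : HC a (b + 1) (c + 1) d (du E ω)) : False := by
  obtain ⟨p, q, p1, p2, p3, p4⟩ := h1
  obtain ⟨f, g, f1, f2, f3, f4⟩ := h2
  have hP := king_lift (lift_dual f1 f4)
  have hQ := lift_open p1 p4
  obtain ⟨z, hz2, hz1⟩ := cross_set (a := 2 * a - 1) (b := 2 * b + 1) (c := 2 * c) (d := 2 * d)
    hP (Or.inl ⟨f, rfl, f1⟩) hQ (Or.inl ⟨p, rfl, p1⟩)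
    (by
      rintro z (⟨w, rfl, hw⟩ | ⟨hw1, hw2⟩)
      · unfold inB at hw; simp only; omega
      · rw [mem_Bx] at hw2; simp only at hw2; omega)
    (by
      rintro z (⟨w, rfl, hw⟩ | ⟨hw1, hw2⟩)
      · unfold inB at hw; simp only; omega
      · rw [mem_Bx] at hw2; omega)
    (by simp only; omega) (by simp only; omega) (by simp only; omega) (by simp only; omega)
  rcases hz1 with ⟨w, hw, -⟩ | ⟨hw1, hw2⟩ <;> rcases hz2 with ⟨w', hw', -⟩ | ⟨hw1', hw2'⟩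
  · rw [hw] at hw'
    simp only [Prod.ext_iff] at hw'
    omega
  · rw [mem_Bx, hw] at hw2'
    simp only at hw2'
    omega
  · rw [mem_Bx, hw'] at hw2
    simp only at hw2
    omega
  · exact hw1' hw1

/-- The four dual crossings around the annulus of radii `m` and `4m` about `x`. -/
def GG (x : ℤ × ℤ) (m : ℤ) (η : Finset (ℤ × ℤ)) : Prop :=
  VC (x.1 + m + 1) (x.1 + 4 * m) (x.2 - 4 * m + 1) (x.2 + 4 * m) η ∧
  VC (x.1 - 4 * m + 1) (x.1 - m) (x.2 - 4 * m + 1) (x.2 + 4 * m) η ∧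
  HC (x.1 - 4 * m + 1) (x.1 + 4 * m) (x.2 + m + 1) (x.2 + 4 * m) η ∧
  HC (x.1 - 4 * m + 1) (x.1 + 4 * m) (x.2 - 4 * m + 1) (x.2 - m) η

/-- the last piece of a path before it leaves a box -/
lemma seg_box {ω : Finset (ℤ × ℤ)} {a b c d a' b' c' d' A B C D : ℤ} {z z' u : ℤ × ℤ}
    (hz : inB a b c d z) (h : Co (ω ∩ Bx A B C D) z u) (hu : ¬ inB a b c d u)
    (hzz : Ad ω z z') (hz' : inB a' b' c' d' z')
    (hY : ∀ w, inB a b c d w → inB a' b' c' d' w)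
    (hexit : ∀ w w', inB a b c d w → ¬ inB a b c d w' → IsUnit4 (w' - w) → inB A B C D w' →
      inB a' b' c' d' w') :
    ∃ w w', inB a b c d w ∧ ¬ inB a b c d w' ∧ inB A B C D w' ∧ IsUnit4 (w' - w) ∧
      inB a' b' c' d' w' ∧ Co (ω ∩ Bx a' b' c' d') w' z' := by
  obtain ⟨w, w', hw, hw', had, hcx, -⟩ := exit_co (X := inB a b c d) h hz hu
  have hw3 := (had.inB inter_subset_right).2
  have hw4 := hexit w w' hw hw' had.1 hw3
  refine ⟨w, w', hw, hw', hw3, had.1, hw4, ?_⟩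
  have h1 : Co (ω ∩ Bx a' b' c' d') z w :=
    (hcx.box hY hz).mono (inter_subset_inter_right inter_subset_left)
  have h2 : Ad (ω ∩ Bx a' b' c' d') w w' :=
    ⟨had.1, mem_inter.2 ⟨(mem_inter.1 had.2).1, add_mem_Bx had.1 (hY w hw) hw4⟩⟩
  have h3 : Ad (ω ∩ Bx a' b' c' d') z z' :=
    ⟨hzz.1, mem_inter.2 ⟨hzz.2, add_mem_Bx hzz.1 (hY z hz) hz'⟩⟩
  exact ((Co.symm h1).trans (Relation.ReflTransGen.single h3)) |> fun h4 =>
    (Relation.ReflTransGen.single h2.symm : Co (ω ∩ Bx a' b' c' d') w' w).trans h4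

/-- An open path through the annulus crosses one of the four sides. -/
lemma arm_cross {ω : Finset (ℤ × ℤ)} {x u v : ℤ × ℤ} {m : ℤ} (hm : 1 ≤ m)
    (hu1 : |u.1 - x.1| ≤ m) (hu2 : |u.2 - x.2| ≤ m)
    (hv : 4 * m ≤ |v.1 - x.1| ∨ 4 * m ≤ |v.2 - x.2|) (h : Co ω u v) :
    HC (x.1 + m) (x.1 + 4 * m) (x.2 - 4 * m + 1) (x.2 + 4 * m - 1) ω ∨
    HC (x.1 - 4 * m) (x.1 - m) (x.2 - 4 * m + 1) (x.2 + 4 * m - 1) ω ∨
    VC (x.1 - 4 * m + 1) (x.1 + 4 * m - 1) (x.2 + m) (x.2 + 4 * m) ω ∨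
    VC (x.1 - 4 * m + 1) (x.1 + 4 * m - 1) (x.2 - 4 * m) (x.2 - m) ω := by
  rw [abs_le] at hu1 hu2
  rw [le_abs, le_abs] at hv
  have huX : inB (x.1 - 4 * m + 1) (x.1 + 4 * m - 1) (x.2 - 4 * m + 1) (x.2 + 4 * m - 1) u := by
    unfold inB; omega
  have hvX : ¬ inB (x.1 - 4 * m + 1) (x.1 + 4 * m - 1) (x.2 - 4 * m + 1) (x.2 + 4 * m - 1) v := by
    unfold inB; omega
  obtain ⟨z, z', hz, hz', had, hcx, -⟩ := exit_co h huX hvX
  have hco := Co.symm (hcx.box (fun w hw => hw) huX)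
  have hst := unit_cases had.1
  unfold inB at hz hz'
  have hcase : z'.1 = x.1 + 4 * m ∨ z'.1 = x.1 - 4 * m ∨ z'.2 = x.2 + 4 * m ∨
      z'.2 = x.2 - 4 * m := by omega
  rcases hcase with hc | hc | hc | hc
  · left
    obtain ⟨w, w', hw1, hw2, hw3, hw4, hw5, hw6⟩ := seg_box (a := x.1 + m + 1)
      (b := x.1 + 4 * m - 1) (c := x.2 - 4 * m + 1) (d := x.2 + 4 * m - 1) (a' := x.1 + m)
      (b' := x.1 + 4 * m) (c' := x.2 - 4 * m + 1) (d' := x.2 + 4 * m - 1) (z' := z')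
      (by unfold inB; omega) hco (by unfold inB; omega) had (by unfold inB; omega)
      (fun w hw => by unfold inB at hw ⊢; omega)
      (fun w w' h1 h2 h3 h4 => by
        have := unit_cases h3
        unfold inB at h1 h2 h4 ⊢; omega)
    have := unit_cases hw4
    refine ⟨w', z', hw5, ?_, hc, hw6⟩
    unfold inB at hw1 hw2 hw3 hw5
    omega
  · right; left
    obtain ⟨w, w', hw1, hw2, hw3, hw4, hw5, hw6⟩ := seg_box (a := x.1 - 4 * m + 1)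
      (b := x.1 - m - 1) (c := x.2 - 4 * m + 1) (d := x.2 + 4 * m - 1) (a' := x.1 - 4 * m)
      (b' := x.1 - m) (c' := x.2 - 4 * m + 1) (d' := x.2 + 4 * m - 1) (z' := z')
      (by unfold inB; omega) hco (by unfold inB; omega) had (by unfold inB; omega)
      (fun w hw => by unfold inB at hw ⊢; omega)
      (fun w w' h1 h2 h3 h4 => by
        have := unit_cases h3
        unfold inB at h1 h2 h4 ⊢; omega)
    have := unit_cases hw4
    refine ⟨z', w', by unfold inB; omega, hc, ?_, Co.symm hw6⟩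
    unfold inB at hw1 hw2 hw3 hw5
    omega
  · right; right; left
    obtain ⟨w, w', hw1, hw2, hw3, hw4, hw5, hw6⟩ := seg_box (a := x.1 - 4 * m + 1)
      (b := x.1 + 4 * m - 1) (c := x.2 + m + 1) (d := x.2 + 4 * m - 1) (a' := x.1 - 4 * m + 1)
      (b' := x.1 + 4 * m - 1) (c' := x.2 + m) (d' := x.2 + 4 * m) (z' := z')
      (by unfold inB; omega) hco (by unfold inB; omega) had (by unfold inB; omega)
      (fun w hw => by unfold inB at hw ⊢; omega)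
      (fun w w' h1 h2 h3 h4 => by
        have := unit_cases h3
        unfold inB at h1 h2 h4 ⊢; omega)
    have := unit_cases hw4
    refine ⟨w', z', hw5, ?_, hc, hw6⟩
    unfold inB at hw1 hw2 hw3 hw5
    omega
  · right; right; right
    obtain ⟨w, w', hw1, hw2, hw3, hw4, hw5, hw6⟩ := seg_box (a := x.1 - 4 * m + 1)
      (b := x.1 + 4 * m - 1) (c := x.2 - 4 * m + 1) (d := x.2 - m - 1) (a' := x.1 - 4 * m + 1)
      (b' := x.1 + 4 * m - 1) (c' := x.2 - 4 * m) (d' := x.2 - m) (z' := z')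
      (by unfold inB; omega) hco (by unfold inB; omega) had (by unfold inB; omega)
      (fun w hw => by unfold inB at hw ⊢; omega)
      (fun w w' h1 h2 h3 h4 => by
        have := unit_cases h3
        unfold inB at h1 h2 h4 ⊢; omega)
    have := unit_cases hw4
    refine ⟨z', w', by unfold inB; omega, hc, ?_, Co.symm hw6⟩
    unfold inB at hw1 hw2 hw3 hw5
    omega

lemma not_GG {E ω : Finset (ℤ × ℤ)} {x u v : ℤ × ℤ} {m : ℤ} (hm : 1 ≤ m)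
    (hu1 : |u.1 - x.1| ≤ m) (hu2 : |u.2 - x.2| ≤ m)
    (hv : 4 * m ≤ |v.1 - x.1| ∨ 4 * m ≤ |v.2 - x.2|) (h : Co ω u v) : ¬ GG x m (du E ω) := by
  rintro ⟨g1, g2, g3, g4⟩
  rcases arm_cross hm hu1 hu2 hv h with h1 | h1 | h1 | h1
  · apply no_cross (E := E) h1
    rw [show x.2 + 4 * m - 1 + 1 = x.2 + 4 * m by ring]
    exact g1
  · apply no_cross (E := E) h1
    rw [show x.2 + 4 * m - 1 + 1 = x.2 + 4 * m by ring]
    exact g2
  · apply no_cross' (E := E) h1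
    rw [show x.1 + 4 * m - 1 + 1 = x.1 + 4 * m by ring]
    exact g3
  · apply no_cross' (E := E) h1
    rw [show x.1 + 4 * m - 1 + 1 = x.1 + 4 * m by ring]
    exact g4

lemma GG_inc (x : ℤ × ℤ) (m : ℤ) : Inc (GG x m) := fun ω ω' h h' =>
  ⟨VC_inc _ _ _ _ _ _ h h'.1, VC_inc _ _ _ _ _ _ h h'.2.1, HC_inc _ _ _ _ _ _ h h'.2.2.1,
    HC_inc _ _ _ _ _ _ h h'.2.2.2⟩

/-- The square of radius `m` in face indices. -/
noncomputable def SS (x : ℤ × ℤ) (m : ℤ) : Finset (ℤ × ℤ) :=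
  Bx (x.1 - m + 1) (x.1 + m) (x.2 - m + 1) (x.2 + m)

lemma VC_inter {a b c d : ℤ} {T : Finset (ℤ × ℤ)} (h : Bx a b c d ⊆ T) (η : Finset (ℤ × ℤ)) :
    VC a b c d (η ∩ T) ↔ VC a b c d η := by
  have e : η ∩ T ∩ Bx a b c d = η ∩ Bx a b c d := by
    rw [inter_assoc, inter_eq_right.2 h]
  unfold VC
  rw [e]

lemma HC_inter {a b c d : ℤ} {T : Finset (ℤ × ℤ)} (h : Bx a b c d ⊆ T) (η : Finset (ℤ × ℤ)) :
    HC a b c d (η ∩ T) ↔ HC a b c d η := by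
  have e : η ∩ T ∩ Bx a b c d = η ∩ Bx a b c d := by
    rw [inter_assoc, inter_eq_right.2 h]
  unfold HC
  rw [e]

lemma sub_ring (x : ℤ × ℤ) {m : ℤ} (hm : 1 ≤ m) :
    Bx (x.1 + m + 1) (x.1 + 4 * m) (x.2 - 4 * m + 1) (x.2 + 4 * m) ⊆ SS x (4 * m) \ SS x m ∧
    Bx (x.1 - 4 * m + 1) (x.1 - m) (x.2 - 4 * m + 1) (x.2 + 4 * m) ⊆ SS x (4 * m) \ SS x m ∧
    Bx (x.1 - 4 * m + 1) (x.1 + 4 * m) (x.2 + m + 1) (x.2 + 4 * m) ⊆ SS x (4 * m) \ SS x m ∧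
    Bx (x.1 - 4 * m + 1) (x.1 + 4 * m) (x.2 - 4 * m + 1) (x.2 - m) ⊆ SS x (4 * m) \ SS x m := by
  refine ⟨?_, ?_, ?_, ?_⟩ <;>
  · intro l hl
    unfold SS
    rw [mem_sdiff, mem_Bx, mem_Bx]
    rw [mem_Bx] at hl
    omega

lemma GG_inter {x : ℤ × ℤ} {m : ℤ} (hm : 1 ≤ m) {T : Finset (ℤ × ℤ)}
    (hT : SS x (4 * m) \ SS x m ⊆ T) (η : Finset (ℤ × ℤ)) : GG x m (η ∩ T) ↔ GG x m η := by
  obtain ⟨s1, s2, s3, s4⟩ := sub_ring x hm
  unfold GG
  rw [VC_inter (s1.trans hT), VC_inter (s2.trans hT), HC_inter (s3.trans hT),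
    HC_inter (s4.trans hT)]

lemma fc_bound {m : ℤ} (hm : 1 ≤ m) : (1 : ℝ) / 2 ^ 47 ≤ fc (8 * m - 1) (3 * m - 1) := by
  obtain ⟨n, rfl⟩ := Int.eq_ofNat_of_zero_le (show 0 ≤ m by omega)
  have hn : 1 ≤ n := by exact_mod_cast hm
  have h1 := fc_eight hn
  have h2 : fc (8 * n) (2 * n) ≤ fc (8 * n - 1) (2 * n) := fc_anti (by omega) (by omega)
  have h3 : fc (8 * (n : ℤ) - 1) (2 * n) ≤ fc (8 * n - 1) (3 * n - 1) := fc_mono (by omega)
  exact h1.trans (h2.trans h3)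

lemma Pr_GG {x : ℤ × ℤ} {m : ℤ} (hm : 1 ≤ m) :
    ((1 : ℝ) / 2 ^ 47) ^ 4 ≤ Pr (SS x (4 * m) \ SS x m) (GG x m) := by
  obtain ⟨s1, s2, s3, s4⟩ := sub_ring x hm
  have hf := fc_bound hm
  have p1 := Pr_VC s1
  have p2 := Pr_VC s2
  have p3 := Pr_HC' s3
  have p4 := Pr_HC' s4
  rw [show x.2 + 4 * m - (x.2 - 4 * m + 1) = 8 * m - 1 by ring,
    show x.1 + 4 * m - (x.1 + m + 1) = 3 * m - 1 by ring] at p1
  rw [show x.2 + 4 * m - (x.2 - 4 * m + 1) = 8 * m - 1 by ring,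
    show x.1 - m - (x.1 - 4 * m + 1) = 3 * m - 1 by ring] at p2
  rw [show x.1 + 4 * m - (x.1 - 4 * m + 1) = 8 * m - 1 by ring,
    show x.2 + 4 * m - (x.2 + m + 1) = 3 * m - 1 by ring] at p3
  rw [show x.1 + 4 * m - (x.1 - 4 * m + 1) = 8 * m - 1 by ring,
    show x.2 - m - (x.2 - 4 * m + 1) = 3 * m - 1 by ring] at p4
  set F := fc (8 * m - 1) (3 * m - 1) with hF
  have h34 := Pr_harris (SS x (4 * m) \ SS x m)
    (HC_inc (x.1 - 4 * m + 1) (x.1 + 4 * m) (x.2 + m + 1) (x.2 + 4 * m))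
    (HC_inc (x.1 - 4 * m + 1) (x.1 + 4 * m) (x.2 - 4 * m + 1) (x.2 - m))
  have h1234 := harris3 (SS x (4 * m) \ SS x m)
    (VC_inc (x.1 + m + 1) (x.1 + 4 * m) (x.2 - 4 * m + 1) (x.2 + 4 * m))
    (VC_inc (x.1 - 4 * m + 1) (x.1 - m) (x.2 - 4 * m + 1) (x.2 + 4 * m))
    (C := fun η => HC (x.1 - 4 * m + 1) (x.1 + 4 * m) (x.2 + m + 1) (x.2 + 4 * m) η ∧
      HC (x.1 - 4 * m + 1) (x.1 + 4 * m) (x.2 - 4 * m + 1) (x.2 - m) η)
    (fun ω ω' h h' => ⟨HC_inc _ _ _ _ _ _ h h'.1, HC_inc _ _ _ _ _ _ h h'.2⟩)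
  rw [p3, p4] at h34
  rw [p1, p2] at h1234
  have hF0 : 0 ≤ F := fc_nonneg _ _
  calc ((1 : ℝ) / 2 ^ 47) ^ 4 ≤ F ^ 4 := pow_le_pow_left₀ (by positivity) hf 4
    _ = F * F * (F * F) := by ring
    _ ≤ F * F * _ := mul_le_mul_of_nonneg_left h34 (mul_nonneg hF0 hF0)
    _ ≤ _ := h1234

lemma Pr_not (E : Finset (ℤ × ℤ)) (A : Finset (ℤ × ℤ) → Prop) :
    Pr E (fun ω => ¬ A ω) = 1 - Pr E A := by
  classical
  have h1 : Pr E A + Pr E (fun ω => ¬ A ω) = 1 := by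
    rw [Pr_eq, Pr_eq, ← add_div]
    rw [div_eq_one_iff_eq (by positivity)]
    have := card_filter_add_card_filter_not (s := E.powerset) A
    rw [card_powerset] at this
    exact_mod_cast this
  linarith

/-- no blocking circuit at the scales `< k` -/
def FF (x : ℤ × ℤ) (ρ : ℤ) (k : ℕ) (η : Finset (ℤ × ℤ)) : Prop :=
  ∀ i < k, ¬ GG x (4 ^ i * ρ) η

lemma one_le_scale {ρ : ℤ} (hρ : 1 ≤ ρ) (i : ℕ) : 1 ≤ 4 ^ i * ρ := by
  have : (1 : ℤ) ≤ 4 ^ i := one_le_pow₀ (by norm_num)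
  nlinarith

lemma scale_mono {ρ : ℤ} (hρ : 1 ≤ ρ) {i j : ℕ} (h : i ≤ j) : (4 : ℤ) ^ i * ρ ≤ 4 ^ j * ρ := by
  have : (4 : ℤ) ^ i ≤ 4 ^ j := pow_le_pow_right₀ (by norm_num) h
  exact mul_le_mul_of_nonneg_right this (by omega)

lemma SS_sub (x : ℤ × ℤ) {m m' : ℤ} (h : m ≤ m') : SS x m ⊆ SS x m' := by
  unfold SS
  exact Bx_sub (by omega) (by omega) (by omega) (by omega)

lemma FF_inter {x : ℤ × ℤ} {ρ : ℤ} (hρ : 1 ≤ ρ) {k : ℕ} {T : Finset (ℤ × ℤ)}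
    (hT : SS x (4 ^ k * ρ) ⊆ T) (η : Finset (ℤ × ℤ)) : FF x ρ k (η ∩ T) ↔ FF x ρ k η := by
  unfold FF
  refine forall_congr' fun i => forall_congr' fun hi => not_congr ?_
  apply GG_inter (one_le_scale hρ i)
  have h1 : 4 * (4 ^ i * ρ) ≤ 4 ^ k * ρ := by
    have := scale_mono hρ (show i + 1 ≤ k by omega)
    rw [pow_succ] at this
    linarith
  exact sdiff_subset.trans ((SS_sub x h1).trans hT)

lemma Pr_FF (x : ℤ × ℤ) {ρ : ℤ} (hρ : 1 ≤ ρ) (k : ℕ) :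
    Pr (SS x (4 ^ k * ρ)) (FF x ρ k) ≤ (1 - ((1 : ℝ) / 2 ^ 47) ^ 4) ^ k := by
  induction k with
  | zero => simpa using Pr_le_one _ _
  | succ k ih =>
    have e4 : (4 : ℤ) ^ (k + 1) * ρ = 4 * (4 ^ k * ρ) := by ring
    have hm := one_le_scale hρ k
    rw [e4]
    set m := (4 : ℤ) ^ k * ρ with hmdef
    have hsub : SS x m ⊆ SS x (4 * m) := SS_sub x (by omega)
    have h1 : Pr (SS x (4 * m)) (FF x ρ (k + 1)) =
        Pr (SS x (4 * m)) (fun η => FF x ρ k (η ∩ SS x m) ∧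
          ¬ GG x m (η ∩ (SS x (4 * m) \ SS x m))) := by
      apply Pr_congr
      intro η _
      rw [FF_inter hρ (subset_refl _), GG_inter hm (subset_refl _)]
      unfold FF
      constructor
      · intro h
        exact ⟨fun i hi => h i (by omega), h k (by omega)⟩
      · rintro ⟨h, h'⟩ i hi
        rcases Nat.lt_succ_iff_lt_or_eq.1 hi with h2 | h2
        · exact h i h2
        · rw [h2]; exact h'
    rw [h1, Pr_indep hsub sdiff_subset disjoint_sdiff (FF x ρ k) (fun η => ¬ GG x m η), Pr_not,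
      pow_succ]
    have h2 := Pr_GG (x := x) hm
    apply mul_le_mul ih (by linarith)
    · have := Pr_le_one (SS x (4 * m) \ SS x m) (GG x m)
      linarith
    · exact (Pr_nonneg _ _).trans ih

end DecayAux

theorem open_arm_decay : ∃ δ : ℝ, 0 < δ ∧ δ < 1 ∧ ∀ (E : Finset (ℤ × ℤ)),
    (∀ e ∈ E, (e.1 + e.2) % 2 = 1) → ∀ (x : ℤ × ℤ) (ρ : ℤ), 1 ≤ ρ → ∀ k : ℕ,
    Pr E (fun ω => ∃ u v : ℤ × ℤ, |u.1 - x.1| ≤ ρ ∧ |u.2 - x.2| ≤ ρ ∧
      (4 ^ k * ρ ≤ |v.1 - x.1| ∨ 4 ^ k * ρ ≤ |v.2 - x.2|) ∧ Co ω u v) ≤ (1 - δ) ^ k := by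
  refine ⟨((1 : ℝ) / 2 ^ 47) ^ 4, by positivity, by norm_num, ?_⟩
  intro E _ x ρ hρ k
  set M := (4 : ℤ) ^ k * ρ with hM
  set E' := E ∪ Bx (x.1 - M) (x.1 + M) (x.2 - M) (x.2 + M) with hE'
  have hinc : Inc (fun ω : Finset (ℤ × ℤ) => ∃ u v : ℤ × ℤ, |u.1 - x.1| ≤ ρ ∧ |u.2 - x.2| ≤ ρ ∧
      (M ≤ |v.1 - x.1| ∨ M ≤ |v.2 - x.2|) ∧ Co ω u v) := by
    rintro ω ω' h ⟨u, v, h1, h2, h3, h4⟩
    exact ⟨u, v, h1, h2, h3, h4.mono h⟩
  refine (Pr_inc (show E ⊆ E' from subset_union_left) hinc).trans ?_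
  have h1 : Pr E' (fun ω => ∃ u v : ℤ × ℤ, |u.1 - x.1| ≤ ρ ∧ |u.2 - x.2| ≤ ρ ∧
      (M ≤ |v.1 - x.1| ∨ M ≤ |v.2 - x.2|) ∧ Co ω u v) ≤
      Pr E' (fun ω => FF x ρ k (du E' ω)) := by
    apply Pr_mono
    rintro ω _ ⟨u, v, hu1, hu2, hv, hco⟩ i hi
    have hs0 := scale_mono hρ (Nat.zero_le i)
    have hs1 := scale_mono hρ (show i + 1 ≤ k by omega)
    rw [pow_succ] at hs1
    rw [pow_zero, one_mul] at hs0
    apply not_GG (one_le_scale hρ i) (hu1.trans hs0) (hu2.trans hs0) _ hco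
    rcases hv with hv | hv
    · left; linarith
    · right; linarith
  refine h1.trans ?_
  rw [Pr_du E' (FF x ρ k)]
  have hsub : SS x M ⊆ E'.map sh1 := by
    intro l hl
    rw [mem_map]
    refine ⟨(l.1 - 1, l.2 - 1), ?_, ?_⟩
    · rw [hE', mem_union]
      right
      unfold SS at hl
      rw [mem_Bx] at hl ⊢
      simp only
      omega
    · refine Prod.ext ?_ ?_ <;> simp [sh1]
  have h2 : Pr (E'.map sh1) (FF x ρ k) = Pr (SS x M) (FF x ρ k) := by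
    rw [← Pr_restrict hsub]
    exact Pr_congr fun η _ => (FF_inter hρ (subset_refl _) η).symm
  rw [h2]
  exact Pr_FF x hρ k

end Pool.Agent.H75.TwoArm
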