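import Mathlib
import Pool.Agent.H75.TwoArm.Defs

set_option autoImplicit false
open Finset

/-! TA2 (helper52): the strands of the exploration, locality and the resampling inequality. -/

namespace Pool.Agent.H75.TwoArm

open Pool.Agent.H75.Perc

lemma plab_nx (w : Finset (ℤ × ℤ)) (c : ℤ × ℤ) : plab (nx w c) = lab c := by
  obtain ⟨a, b⟩ := c
  unfold nx
  rcases ty_cases (a, b) with ⟨-, h1, h2, h3, h4, h5⟩ | ⟨-, h1, h2, h3, h4, h5⟩ |
      ⟨-, h1, h2, h3, h4, h5⟩ | ⟨-, h1, h2, h3, h4, h5⟩ <;>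
  simp only at h1 h2 h3 h4 h5 <;> rw [h3, h4, h5] <;>
  split_ifs <;> unfold plab <;> simp only <;> split_ifs <;> first
    | rfl
    | (exfalso; omega)
    | (refine Prod.ext ?_ ?_ <;> simp only <;> omega)

lemma lab_pv (w : Finset (ℤ × ℤ)) (c : ℤ × ℤ) : lab (pv w c) = plab c := by
  obtain ⟨a, b⟩ := c
  unfold pv plab
  simp only
  split_ifs <;> unfold lab <;> simp only <;> split_ifs <;> first
    | rfl
    | (exfalso; omega)
    | (refine Prod.ext ?_ ?_ <;> simp only <;> omega)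

namespace StrandAux

lemma nx_pv_aux (w : Finset (ℤ × ℤ)) (c : ℤ × ℤ) :
    (plab c ∈ w → nxO (pv w c) = c) ∧ (plab c ∉ w → nxC (pv w c) = c) := by
  obtain ⟨a, b⟩ := c
  constructor
  · intro h
    unfold plab at h
    unfold pv
    simp only at h ⊢
    split_ifs at h ⊢ <;> first
      | contradiction
      | (unfold nxO; simp only; split_ifs <;> first
          | rfl
          | (exfalso; omega)
          | (refine Prod.ext ?_ ?_ <;> simp only <;> omega))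
  · intro h
    unfold plab at h
    unfold pv
    simp only at h ⊢
    split_ifs at h ⊢ <;> first
      | contradiction
      | (unfold nxC; simp only; split_ifs <;> first
          | rfl
          | (exfalso; omega)
          | (refine Prod.ext ?_ ?_ <;> simp only <;> omega))

end StrandAux

lemma nx_pv (w : Finset (ℤ × ℤ)) (c : ℤ × ℤ) : nx w (pv w c) = c := by
  unfold nx
  rw [lab_pv]
  split_ifs with h
  · exact (StrandAux.nx_pv_aux w c).1 h
  · exact (StrandAux.nx_pv_aux w c).2 h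

lemma corners_iff {e z : ℤ × ℤ} (he : (e.1 + e.2) % 2 = 1) : (lab z = e ∨ plab z = e) ↔
    (z = e ∨ z = (e.1 + 1, e.2) ∨ z = (e.1, e.2 + 1) ∨ z = (e.1 + 1, e.2 + 1)) := by
  obtain ⟨e1, e2⟩ := e
  obtain ⟨z1, z2⟩ := z
  unfold lab plab
  simp only at he ⊢
  split_ifs <;> simp only [Prod.mk.injEq] <;> omega

namespace StrandAux

lemma mem_UU {B ω : Finset (ℤ × ℤ)} {c e : ℤ × ℤ} : e ∈ UU B ω c ↔
    e ∈ B ∧ ∃ z, Str B ω c z ∧ (lab z = e ∨ plab z = e) := by
  classical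
  unfold UU
  rw [mem_filter]

lemma Str_self (B ω : Finset (ℤ × ℤ)) (c : ℤ × ℤ) : Str B ω c c :=
  Or.inl ⟨0, rfl, fun i hi => absurd hi (Nat.not_lt_zero i)⟩

end StrandAux

open StrandAux

lemma Str_nx {B ω : Finset (ℤ × ℤ)} {c z : ℤ × ℤ} (h : Str B ω c z) (hB : lab z ∈ B) :
    Str B ω c (nx ω z) ∧ lab z ∈ UU B ω c := by
  refine ⟨?_, mem_UU.2 ⟨hB, z, h, Or.inl rfl⟩⟩
  have fw : ∀ j : ℕ, (nx ω)^[j] c = z → (∀ i < j, lab ((nx ω)^[i] c) ∈ B) →
      Str B ω c (nx ω z) := by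
    intro j h1 h2
    refine Or.inl ⟨j + 1, by rw [Function.iterate_succ_apply', h1], fun i hi => ?_⟩
    rcases Nat.lt_succ_iff_lt_or_eq.1 hi with h3 | h3
    · exact h2 i h3
    · rw [h3, h1]; exact hB
  rcases h with ⟨j, h1, h2⟩ | ⟨j, h1, h2⟩
  · exact fw j h1 h2
  · rcases j with _ | j
    · exact fw 0 h1 (fun i hi => absurd hi (Nat.not_lt_zero i))
    · refine Or.inr ⟨j, ?_, fun i hi => h2 i (by omega)⟩
      rw [← h1, Function.iterate_succ_apply', nx_pv]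

lemma Str_pv {B ω : Finset (ℤ × ℤ)} {c z : ℤ × ℤ} (h : Str B ω c z) (hB : plab z ∈ B) :
    Str B ω c (pv ω z) ∧ plab z ∈ UU B ω c := by
  refine ⟨?_, mem_UU.2 ⟨hB, z, h, Or.inr rfl⟩⟩
  have bw : ∀ j : ℕ, (pv ω)^[j] c = z → (∀ i < j, plab ((pv ω)^[i] c) ∈ B) →
      Str B ω c (pv ω z) := by
    intro j h1 h2
    refine Or.inr ⟨j + 1, by rw [Function.iterate_succ_apply', h1], fun i hi => ?_⟩
    rcases Nat.lt_succ_iff_lt_or_eq.1 hi with h3 | h3
    · exact h2 i h3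
    · rw [h3, h1]; exact hB
  rcases h with ⟨j, h1, h2⟩ | ⟨j, h1, h2⟩
  · rcases j with _ | j
    · exact bw 0 h1 (fun i hi => absurd hi (Nat.not_lt_zero i))
    · refine Or.inl ⟨j, ?_, fun i hi => h2 i (by omega)⟩
      rw [← h1, Function.iterate_succ_apply', pv_nx]
  · exact bw j h1 h2

/-- a corner of the strands whose next edge is outside is the forward exit -/
lemma Str_FX {B ω : Finset (ℤ × ℤ)} {c z x : ℤ × ℤ} (hx : FX B ω c x) (h : Str B ω c z)
    (hB : lab z ∉ B) : z = x := by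
  obtain ⟨j, hj, hxB, hj2⟩ := hx
  have fw : ∀ i : ℕ, (nx ω)^[i] c = z → (∀ i' < i, lab ((nx ω)^[i'] c) ∈ B) → z = x := by
    intro i h1 h2
    rcases lt_trichotomy i j with h3 | h3 | h3
    · exact absurd (by rw [← h1]; exact hj2 i h3) hB
    · rw [← h1, h3, hj]
    · exact absurd (by rw [← hj]; exact h2 j h3) hxB
  rcases h with ⟨i, h1, h2⟩ | ⟨i, h1, h2⟩
  · exact fw i h1 h2
  · rcases i with _ | i
    · exact fw 0 h1 (fun i hi => absurd hi (Nat.not_lt_zero i))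
    · exfalso
      apply hB
      rw [← h1, Function.iterate_succ_apply', lab_pv]
      exact h2 i (by omega)

lemma Str_BX {B ω : Finset (ℤ × ℤ)} {c z x : ℤ × ℤ} (hx : BX B ω c x) (h : Str B ω c z)
    (hB : plab z ∉ B) : z = x := by
  obtain ⟨j, hj, hxB, hj2⟩ := hx
  have bw : ∀ i : ℕ, (pv ω)^[i] c = z → (∀ i' < i, plab ((pv ω)^[i'] c) ∈ B) → z = x := by
    intro i h1 h2
    rcases lt_trichotomy i j with h3 | h3 | h3
    · exact absurd (by rw [← h1]; exact hj2 i h3) hB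
    · rw [← h1, h3, hj]
    · exact absurd (by rw [← hj]; exact h2 j h3) hxB
  rcases h with ⟨i, h1, h2⟩ | ⟨i, h1, h2⟩
  · rcases i with _ | i
    · exact bw 0 h1 (fun i hi => absurd hi (Nat.not_lt_zero i))
    · exfalso
      apply hB
      rw [← h1, Function.iterate_succ_apply', plab_nx]
      exact h2 i (by omega)
  · exact bw i h1 h2

namespace StrandAux

lemma mem_du {E ω : Finset (ℤ × ℤ)} {e : ℤ × ℤ} (h1 : e ∈ E) (h2 : e ∉ ω) :
    e + (1, 1) ∈ du E ω := by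
  unfold du
  rw [mem_map]
  exact ⟨e, mem_sdiff.2 ⟨h1, h2⟩, rfl⟩

lemma vx_nxC (c : ℤ × ℤ) : vx (nxC c) = vx c := by
  obtain ⟨a, b⟩ := c
  unfold vx
  rcases ty_cases (a, b) with ⟨h0, h1, h2, h3, h4, h5⟩ | ⟨h0, h1, h2, h3, h4, h5⟩ |
    ⟨h0, h1, h2, h3, h4, h5⟩ | ⟨h0, h1, h2, h3, h4, h5⟩ <;> rw [h4] <;>
  simp only at h1 h2 ⊢ <;> refine Prod.ext ?_ ?_ <;> simp only <;> omega

lemma fi_nxO (c : ℤ × ℤ) : fi (nxO c) = fi c := by
  obtain ⟨a, b⟩ := c
  unfold fi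
  rcases ty_cases (a, b) with ⟨h0, h1, h2, h3, h4, h5⟩ | ⟨h0, h1, h2, h3, h4, h5⟩ |
    ⟨h0, h1, h2, h3, h4, h5⟩ | ⟨h0, h1, h2, h3, h4, h5⟩ <;> rw [h5] <;>
  simp only at h1 h2 ⊢ <;> refine Prod.ext ?_ ?_ <;> simp only <;> omega

lemma fi_nxC (c : ℤ × ℤ) : IsUnit4 (fi (nxC c) - fi c) ∧ fi c + fi (nxC c) = lab c + (1, 1) := by
  obtain ⟨a, b⟩ := c
  unfold fi
  rcases ty_cases (a, b) with ⟨h0, h1, h2, h3, h4, h5⟩ | ⟨h0, h1, h2, h3, h4, h5⟩ |
    ⟨h0, h1, h2, h3, h4, h5⟩ | ⟨h0, h1, h2, h3, h4, h5⟩ <;> rw [h3, h4] <;>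
  simp only at h1 h2 ⊢ <;> refine ⟨?_, ?_⟩ <;>
  simp only [IsUnit4, Prod.ext_iff, Prod.mk_sub_mk, Prod.mk_add_mk] <;> omega

/-- one step along the strand -/
lemma step_co {B ω : Finset (ℤ × ℤ)} {c z : ℤ × ℤ} (h : lab z ∈ UU B ω c) :
    Co (ω ∩ UU B ω c) (vx z) (vx (nx ω z)) ∧ Co (du (UU B ω c) ω) (fi z) (fi (nx ω z)) := by
  unfold nx
  split_ifs with hω
  · obtain ⟨h1, h2⟩ := vx_nxO z
    refine ⟨Relation.ReflTransGen.single ⟨h1, by rw [h2]; exact mem_inter.2 ⟨hω, h⟩⟩, ?_⟩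
    rw [fi_nxO]
    exact Co.refl _ _
  · obtain ⟨h1, h2⟩ := fi_nxC z
    refine ⟨by rw [vx_nxC]; exact Co.refl _ _,
      Relation.ReflTransGen.single ⟨h1, by rw [h2]; exact mem_du h hω⟩⟩

end StrandAux

lemma Str_co {B ω : Finset (ℤ × ℤ)} {c z : ℤ × ℤ} (h : Str B ω c z) :
    Co (ω ∩ UU B ω c) (vx c) (vx z) ∧ Co (du (UU B ω c) ω) (fi c) (fi z) := by
  rcases h with ⟨j, h1, h2⟩ | ⟨j, h1, h2⟩
  · subst h1
    induction j with
    | zero => exact ⟨Co.refl _ _, Co.refl _ _⟩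
    | succ j ih =>
      obtain ⟨h3, h4⟩ := ih (fun i hi => h2 i (by omega))
      have hs : Str B ω c ((nx ω)^[j] c) := Or.inl ⟨j, rfl, fun i hi => h2 i (by omega)⟩
      obtain ⟨h5, h6⟩ := step_co (Str_nx hs (h2 j (by omega))).2
      rw [Function.iterate_succ_apply']
      exact ⟨h3.trans h5, h4.trans h6⟩
  · subst h1
    induction j with
    | zero => exact ⟨Co.refl _ _, Co.refl _ _⟩
    | succ j ih =>
      obtain ⟨h3, h4⟩ := ih (fun i hi => h2 i (by omega))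
      have hs : Str B ω c ((pv ω)^[j] c) := Or.inr ⟨j, rfl, fun i hi => h2 i (by omega)⟩
      have hl : lab (pv ω ((pv ω)^[j] c)) ∈ UU B ω c := by
        rw [lab_pv]
        exact (Str_pv hs (h2 j (by omega))).2
      obtain ⟨h5, h6⟩ := step_co hl
      rw [nx_pv] at h5 h6
      rw [Function.iterate_succ_apply']
      exact ⟨h3.trans h5.symm, h4.trans h6.symm⟩

namespace StrandAux

section loc

variable {B ω ω1 : Finset (ℤ × ℤ)} {c : ℤ × ℤ} (h : ∀ e ∈ UU B ω c, (e ∈ ω1 ↔ e ∈ ω))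

lemma nx_congr {z : ℤ × ℤ} (hz : lab z ∈ ω1 ↔ lab z ∈ ω) : nx ω1 z = nx ω z := by
  unfold nx
  by_cases h1 : lab z ∈ ω
  · rw [if_pos h1, if_pos (hz.2 h1)]
  · rw [if_neg h1, if_neg (fun h2 => h1 (hz.1 h2))]

lemma pv_congr {z : ℤ × ℤ} (hz : plab z ∈ ω1 ↔ plab z ∈ ω) : pv ω1 z = pv ω z := by
  have h1 : nx ω1 (pv ω z) = z := by
    rw [nx_congr (ω := ω) (ω1 := ω1) (by rw [lab_pv]; exact hz), nx_pv]
  conv_lhs => rw [← h1]
  rw [pv_nx]

include h in
lemma fwd1 : ∀ j : ℕ, (∀ i < j, lab ((nx ω)^[i] c) ∈ B) → (nx ω1)^[j] c = (nx ω)^[j] c := by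
  intro j
  induction j with
  | zero => intro _; rfl
  | succ j ih =>
    intro hj
    have hs : Str B ω c ((nx ω)^[j] c) := Or.inl ⟨j, rfl, fun i hi => hj i (by omega)⟩
    rw [Function.iterate_succ_apply', Function.iterate_succ_apply',
      ih (fun i hi => hj i (by omega))]
    exact nx_congr (h _ (Str_nx hs (hj j (by omega))).2)

include h in
lemma fwd_iff (j : ℕ) : (∀ i < j, lab ((nx ω1)^[i] c) ∈ B) ↔
    (∀ i < j, lab ((nx ω)^[i] c) ∈ B) := by
  constructor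
  · induction j with
    | zero => intro _ i hi; exact absurd hi (Nat.not_lt_zero i)
    | succ j ih =>
      intro hj i hi
      have h1 := ih (fun i hi => hj i (by omega))
      rcases Nat.lt_succ_iff_lt_or_eq.1 hi with h3 | h3
      · exact h1 i h3
      · rw [h3, ← fwd1 h j h1]
        exact hj j (by omega)
  · intro hj i hi
    rw [fwd1 h i (fun i' hi' => hj i' (by omega))]
    exact hj i hi

include h in
lemma bwd1 : ∀ j : ℕ, (∀ i < j, plab ((pv ω)^[i] c) ∈ B) → (pv ω1)^[j] c = (pv ω)^[j] c := by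
  intro j
  induction j with
  | zero => intro _; rfl
  | succ j ih =>
    intro hj
    have hs : Str B ω c ((pv ω)^[j] c) := Or.inr ⟨j, rfl, fun i hi => hj i (by omega)⟩
    rw [Function.iterate_succ_apply', Function.iterate_succ_apply',
      ih (fun i hi => hj i (by omega))]
    exact pv_congr (h _ (Str_pv hs (hj j (by omega))).2)

include h in
lemma bwd_iff (j : ℕ) : (∀ i < j, plab ((pv ω1)^[i] c) ∈ B) ↔
    (∀ i < j, plab ((pv ω)^[i] c) ∈ B) := by
  constructor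
  · induction j with
    | zero => intro _ i hi; exact absurd hi (Nat.not_lt_zero i)
    | succ j ih =>
      intro hj i hi
      have h1 := ih (fun i hi => hj i (by omega))
      rcases Nat.lt_succ_iff_lt_or_eq.1 hi with h3 | h3
      · exact h1 i h3
      · rw [h3, ← bwd1 h j h1]
        exact hj j (by omega)
  · intro hj i hi
    rw [bwd1 h i (fun i' hi' => hj i' (by omega))]
    exact hj i hi

lemma leave_iff (B ω : Finset (ℤ × ℤ)) (c : ℤ × ℤ) : Leave B ω c ↔ ∃ x, FX B ω c x := by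
  classical
  constructor
  · intro hl
    have hl' : ∃ j : ℕ, lab ((nx ω)^[j] c) ∉ B := hl
    refine ⟨(nx ω)^[Nat.find hl'] c, Nat.find hl', rfl, Nat.find_spec hl', fun i hi => ?_⟩
    exact not_not.1 (Nat.find_min hl' hi)
  · rintro ⟨x, j, rfl, h2, -⟩
    exact ⟨j, h2⟩

end loc

end StrandAux

theorem local_UU {B ω ω1 : Finset (ℤ × ℤ)} {c : ℤ × ℤ}
    (h : ∀ e ∈ UU B ω c, (e ∈ ω1 ↔ e ∈ ω)) :
    (∀ z, Str B ω1 c z ↔ Str B ω c z) ∧ UU B ω1 c = UU B ω c ∧
    (∀ x, FX B ω1 c x ↔ FX B ω c x) ∧ (∀ x, BX B ω1 c x ↔ BX B ω c x) ∧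
    (Leave B ω1 c ↔ Leave B ω c) := by
  have hS : ∀ z, Str B ω1 c z ↔ Str B ω c z := by
    intro z
    unfold Str
    apply or_congr
    · apply exists_congr
      intro j
      rw [fwd_iff h j]
      constructor
      · rintro ⟨h1, h2⟩; exact ⟨by rw [← fwd1 h j h2]; exact h1, h2⟩
      · rintro ⟨h1, h2⟩; exact ⟨by rw [fwd1 h j h2]; exact h1, h2⟩
    · apply exists_congr
      intro j
      rw [bwd_iff h j]
      constructor
      · rintro ⟨h1, h2⟩; exact ⟨by rw [← bwd1 h j h2]; exact h1, h2⟩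
      · rintro ⟨h1, h2⟩; exact ⟨by rw [bwd1 h j h2]; exact h1, h2⟩
  have hF : ∀ x, FX B ω1 c x ↔ FX B ω c x := by
    intro x
    unfold FX
    apply exists_congr
    intro j
    rw [fwd_iff h j]
    constructor
    · rintro ⟨h1, h0, h2⟩; exact ⟨by rw [← fwd1 h j h2]; exact h1, h0, h2⟩
    · rintro ⟨h1, h0, h2⟩; exact ⟨by rw [fwd1 h j h2]; exact h1, h0, h2⟩
  have hB : ∀ x, BX B ω1 c x ↔ BX B ω c x := by
    intro x
    unfold BX
    apply exists_congr
    intro j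
    rw [bwd_iff h j]
    constructor
    · rintro ⟨h1, h0, h2⟩; exact ⟨by rw [← bwd1 h j h2]; exact h1, h0, h2⟩
    · rintro ⟨h1, h0, h2⟩; exact ⟨by rw [bwd1 h j h2]; exact h1, h0, h2⟩
  refine ⟨hS, ?_, hF, hB, ?_⟩
  · ext e
    rw [mem_UU, mem_UU]
    simp only [hS]
  · rw [leave_iff, leave_iff]
    simp only [hF]

theorem UU_mix (B ω ω' : Finset (ℤ × ℤ)) (c : ℤ × ℤ) :
    UU B (mix (UU B ω c) ω ω') c = UU B ω c := by
  refine (local_UU (B := B) (ω := ω) (ω1 := mix (UU B ω c) ω ω') (c := c) ?_).2.1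
  intro e he
  rw [mem_mix]
  tauto

theorem resample_le {α : Type*} [DecidableEq α] (E : Finset α) (U : Finset α → Finset α)
    (hU : ∀ ω ω', ω ⊆ E → ω' ⊆ E → U (mix (U ω) ω ω') = U ω)
    (A B : Finset α → Prop) (Y : Finset α → Finset α → Prop) (q : ℝ)
    (hB : ∀ ω ω', ω ⊆ E → ω' ⊆ E → B (mix (U ω) ω ω') → B ω)
    (hq : ∀ ω, ω ⊆ E → B ω → Pr E (Y ω) ≤ q)
    (hY : ∀ ω ω', ω ⊆ E → ω' ⊆ E → B ω → A (mix (U ω) ω ω') → Y ω ω') :
    Pr E (fun ω => A ω ∧ B ω) ≤ Pr E B * q := by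
  classical
  have hsub : ∀ V ω ω' : Finset α, ω ⊆ E → ω' ⊆ E → mix V ω ω' ⊆ E := by
    intro V ω ω' h1 h2 e he
    rw [mem_mix] at he
    rcases he with he | he
    · exact h1 he.1
    · exact h2 he.1
  set P := E.powerset ×ˢ E.powerset with hP
  have c1 : (P.filter (fun p => A (mix (U p.1) p.1 p.2) ∧ B (mix (U p.1) p.1 p.2))).card =
      (P.filter (fun p => A p.1 ∧ B p.1)).card := by
    apply card_nbij' (fun p => (mix (U p.1) p.1 p.2, mix (U p.1) p.2 p.1))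
      (fun p => (mix (U p.1) p.1 p.2, mix (U p.1) p.2 p.1))
    · intro p hp
      rw [mem_coe, mem_filter, hP, mem_product, mem_powerset, mem_powerset] at hp ⊢
      exact ⟨⟨hsub _ _ _ hp.1.1 hp.1.2, hsub _ _ _ hp.1.2 hp.1.1⟩, hp.2⟩
    · intro p hp
      rw [mem_coe, mem_filter, hP, mem_product, mem_powerset, mem_powerset] at hp ⊢
      refine ⟨⟨hsub _ _ _ hp.1.1 hp.1.2, hsub _ _ _ hp.1.2 hp.1.1⟩, ?_⟩
      simp only
      rw [hU _ _ hp.1.1 hp.1.2, mix_mix]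
      exact hp.2
    · intro p hp
      rw [mem_coe, mem_filter, hP, mem_product, mem_powerset, mem_powerset] at hp
      simp only
      rw [hU _ _ hp.1.1 hp.1.2, mix_mix, mix_mix]
    · intro p hp
      rw [mem_coe, mem_filter, hP, mem_product, mem_powerset, mem_powerset] at hp
      simp only
      rw [hU _ _ hp.1.1 hp.1.2, mix_mix, mix_mix]
  have c2 : (P.filter (fun p => A p.1 ∧ B p.1)).card =
      (E.powerset.filter (fun ω => A ω ∧ B ω)).card * 2 ^ E.card := by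
    have : P.filter (fun p => A p.1 ∧ B p.1) =
        (E.powerset.filter (fun ω => A ω ∧ B ω)) ×ˢ E.powerset := by
      ext p
      simp only [hP, mem_filter, mem_product]
      tauto
    rw [this, card_product, card_powerset]
  have c3 : (P.filter (fun p => A (mix (U p.1) p.1 p.2) ∧ B (mix (U p.1) p.1 p.2))).card ≤
      (P.filter (fun p => B p.1 ∧ Y p.1 p.2)).card := by
    apply card_le_card
    intro p hp
    rw [mem_filter, hP, mem_product, mem_powerset, mem_powerset] at hp ⊢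
    have hb := hB _ _ hp.1.1 hp.1.2 hp.2.2
    exact ⟨hp.1, hb, hY _ _ hp.1.1 hp.1.2 hb hp.2.1⟩
  have c4 : (P.filter (fun p => B p.1 ∧ Y p.1 p.2)).card =
      ∑ ω ∈ E.powerset.filter B, (E.powerset.filter (Y ω)).card := by
    rw [← card_sigma]
    apply card_nbij' (fun p => (⟨p.1, p.2⟩ : Sigma fun _ : Finset α => Finset α))
      (fun s => (s.1, s.2))
    · intro p hp
      rw [mem_coe, mem_filter, hP, mem_product] at hp
      rw [mem_coe, mem_sigma, mem_filter, mem_filter]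
      exact ⟨⟨hp.1.1, hp.2.1⟩, hp.1.2, hp.2.2⟩
    · intro s hs
      rw [mem_coe, mem_sigma, mem_filter, mem_filter] at hs
      rw [mem_coe, mem_filter, hP, mem_product]
      exact ⟨⟨hs.1.1, hs.2.1⟩, hs.1.2, hs.2.2⟩
    · intro p _; rfl
    · intro s _; rfl
  have c5 : ((∑ ω ∈ E.powerset.filter B, (E.powerset.filter (Y ω)).card : ℕ) : ℝ) ≤
      ((E.powerset.filter B).card : ℝ) * (q * 2 ^ E.card) := by
    push_cast
    rw [← nsmul_eq_mul]
    apply Finset.sum_le_card_nsmul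
    intro ω hω
    rw [mem_filter, mem_powerset] at hω
    have := hq ω hω.1 hω.2
    rw [Pr_eq, div_le_iff₀ (by positivity)] at this
    exact this
  have c6 : ((E.powerset.filter (fun ω => A ω ∧ B ω)).card : ℝ) * 2 ^ E.card ≤
      ((E.powerset.filter B).card : ℝ) * (q * 2 ^ E.card) := by
    refine le_trans ?_ c5
    rw [← c4]
    have : (E.powerset.filter (fun ω => A ω ∧ B ω)).card * 2 ^ E.card ≤
        (P.filter (fun p => B p.1 ∧ Y p.1 p.2)).card := by rw [← c2, ← c1]; exact c3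
    exact_mod_cast this
  have hpos : (0 : ℝ) < 2 ^ E.card := by positivity
  rw [Pr_eq, Pr_eq, div_mul_eq_mul_div, div_le_div_iff_of_pos_right hpos]
  have c7 : ((E.powerset.filter (fun ω => A ω ∧ B ω)).card : ℝ) * 2 ^ E.card ≤
      ((E.powerset.filter B).card : ℝ) * q * 2 ^ E.card := by rw [mul_assoc]; exact c6
  exact le_of_mul_le_mul_right c7 hpos

end Pool.Agent.H75.TwoArm
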