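import Mathlib
import Pool.Agent.H75.TwoArm.Defs
import Pool.Agent.H75.TwoArm.Strand

set_option autoImplicit false
open Finset

/-! Exits of the two strands from boxes (job TA8). -/

namespace Pool.Agent.H75.TwoArm

open Pool.Agent.H75.Perc

namespace ExitAux

lemma vals (c : ℤ × ℤ) :
    (c.1 % 2 = 0 ∧ c.2 % 2 = 0 ∧ (lab c).1 = c.1 ∧ (lab c).2 = c.2 - 1 ∧
      (plab c).1 = c.1 - 1 ∧ (plab c).2 = c.2) ∨
    (c.1 % 2 = 1 ∧ c.2 % 2 = 0 ∧ (lab c).1 = c.1 ∧ (lab c).2 = c.2 ∧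
      (plab c).1 = c.1 - 1 ∧ (plab c).2 = c.2 - 1) ∨
    (c.1 % 2 = 1 ∧ c.2 % 2 = 1 ∧ (lab c).1 = c.1 - 1 ∧ (lab c).2 = c.2 ∧
      (plab c).1 = c.1 ∧ (plab c).2 = c.2 - 1) ∨
    (c.1 % 2 = 0 ∧ c.2 % 2 = 1 ∧ (lab c).1 = c.1 - 1 ∧ (lab c).2 = c.2 - 1 ∧
      (plab c).1 = c.1 ∧ (plab c).2 = c.2) := by
  unfold lab plab
  have h1 : c.1 % 2 = 0 ∨ c.1 % 2 = 1 := by omega
  have h2 : c.2 % 2 = 0 ∨ c.2 % 2 = 1 := by omega
  rcases h1 with h1 | h1 <;> rcases h2 with h2 | h2 <;> simp [h1, h2]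

lemma C0_bd {c : ℤ × ℤ} (hc : C0 c) : 0 ≤ c.1 ∧ c.1 ≤ 1 ∧ 0 ≤ c.2 ∧ c.2 ≤ 1 := by
  rcases hc with rfl | rfl | rfl | rfl <;> simp

/-- The labels of the corners at the origin belong to every box around the origin. -/
lemma lab_mem_of_C0 {a b u v : ℤ} (ha : a ≤ -1) (hb : 1 ≤ b) (hu : u ≤ -1) (hv : 1 ≤ v)
    {c : ℤ × ℤ} (hc : C0 c) : lab c ∈ Bx a b u v ∧ plab c ∈ Bx a b u v := by
  have h1 := C0_bd hc
  rw [mem_Bx, mem_Bx]
  rcases vals c with h | h | h | h <;> omega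

/-- The forward exit is entered through an edge of the box. -/
lemma FX_plab {B ω : Finset (ℤ × ℤ)} {c x : ℤ × ℤ} (h : FX B ω c x) (hc : lab c ∈ B) :
    plab x ∈ B ∧ lab x ∉ B := by
  obtain ⟨j, hj, hx, hB⟩ := h
  refine ⟨?_, hx⟩
  rcases j with _ | j
  · rw [Function.iterate_zero, id] at hj
    rw [hj] at hc
    exact absurd hc hx
  · rw [Function.iterate_succ_apply'] at hj
    rw [← hj, plab_nx]
    exact hB j (Nat.lt_succ_self j)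

lemma BX_lab {B ω : Finset (ℤ × ℤ)} {c x : ℤ × ℤ} (h : BX B ω c x) (hc : plab c ∈ B) :
    lab x ∈ B ∧ plab x ∉ B := by
  obtain ⟨j, hj, hx, hB⟩ := h
  refine ⟨?_, hx⟩
  rcases j with _ | j
  · rw [Function.iterate_zero, id] at hj
    rw [hj] at hc
    exact absurd hc hx
  · rw [Function.iterate_succ_apply'] at hj
    rw [← hj, lab_pv]
    exact hB j (Nat.lt_succ_self j)

lemma FX_str {B ω : Finset (ℤ × ℤ)} {c x : ℤ × ℤ} (h : FX B ω c x) : Str B ω c x := by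
  obtain ⟨j, hj, _, hB⟩ := h
  exact Or.inl ⟨j, hj, hB⟩

lemma exists_FX {B ω : Finset (ℤ × ℤ)} {c : ℤ × ℤ} (h : Leave B ω c) : ∃ x, FX B ω c x := by
  classical
  have h' : ∃ j : ℕ, lab ((nx ω)^[j] c) ∉ B := h
  exact ⟨_, Nat.find h', rfl, Nat.find_spec h', fun i hi => not_not.1 (Nat.find_min h' hi)⟩

lemma exists_BX {B ω : Finset (ℤ × ℤ)} {c : ℤ × ℤ} (h : ∃ j : ℕ, plab ((pv ω)^[j] c) ∉ B) :
    ∃ x, BX B ω c x := by
  classical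
  exact ⟨_, Nat.find h, rfl, Nat.find_spec h, fun i hi => not_not.1 (Nat.find_min h hi)⟩

lemma UU_sub (B ω : Finset (ℤ × ℤ)) (c : ℤ × ℤ) : UU B ω c ⊆ B := by
  classical
  intro e he
  unfold UU at he
  exact (mem_filter.1 he).1

lemma du_mono {E E' : Finset (ℤ × ℤ)} (h : E ⊆ E') (ω : Finset (ℤ × ℤ)) : du E ω ⊆ du E' ω := by
  unfold du
  exact map_subset_map.2 (sdiff_subset_sdiff h (Subset.refl _))

/-- Orbits are finite. -/
lemma exists_period (ω : Finset (ℤ × ℤ)) (c : ℤ × ℤ) : ∃ M, Orb (nx ω) c M := by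
  obtain ⟨N, hN⟩ : ∃ N : ℤ, ∀ e ∈ ω, (-N ≤ e.1 ∧ e.1 ≤ N) ∧ (-N ≤ e.2 ∧ e.2 ≤ N) := by
    refine ⟨∑ e ∈ ω, (|e.1| + |e.2|), ?_⟩
    intro e he
    have h1 : |e.1| + |e.2| ≤ ∑ e ∈ ω, (|e.1| + |e.2|) :=
      single_le_sum (f := fun e : ℤ × ℤ => |e.1| + |e.2|) (fun _ _ => by positivity) he
    have h2 := abs_le.1 (le_refl |e.1|)
    have h3 := abs_le.1 (le_refl |e.2|)
    have h4 := abs_nonneg e.1
    have h5 := abs_nonneg e.2
    omega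
  obtain ⟨M, hM⟩ : ∃ M : ℤ, N ≤ 2 * M ∧ -2 * M ≤ c.1 ∧ c.1 ≤ 2 * M + 1 ∧ -2 * M ≤ c.2 ∧
      c.2 ≤ 2 * M + 1 := by
    refine ⟨|N| + |c.1| + |c.2|, ?_⟩
    have h1 := abs_le.1 (le_refl |N|)
    have h2 := abs_le.1 (le_refl |c.1|)
    have h3 := abs_le.1 (le_refl |c.2|)
    have h4 := abs_nonneg c.1
    have h5 := abs_nonneg c.2
    have h6 := abs_nonneg N
    omega
  refine exists_orb (nx ω) (nx_injective ω)
    ((Icc (-2 * M) (2 * M + 1)) ×ˢ (Icc (-2 * M) (2 * M + 1))) ?_ c ?_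
  · intro x hx
    rw [mem_product, mem_Icc, mem_Icc] at hx ⊢
    unfold nx
    by_cases hl : lab x ∈ ω
    · rw [if_pos hl]
      have he := hN _ hl
      rcases ty_cases x with ⟨h0, h1, h2, h3, h4, h5⟩ | ⟨h0, h1, h2, h3, h4, h5⟩ |
        ⟨h0, h1, h2, h3, h4, h5⟩ | ⟨h0, h1, h2, h3, h4, h5⟩ <;> rw [h3] at he <;> rw [h5] <;>
      simp only at he ⊢ <;> omega
    · rw [if_neg hl]
      rcases ty_cases x with ⟨h0, h1, h2, h3, h4, h5⟩ | ⟨h0, h1, h2, h3, h4, h5⟩ |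
        ⟨h0, h1, h2, h3, h4, h5⟩ | ⟨h0, h1, h2, h3, h4, h5⟩ <;> rw [h4] <;>
      simp only <;> omega
  · rw [mem_product, mem_Icc, mem_Icc]
    omega

/-- Backward iterates are forward iterates. -/
lemma pv_eq_nx (ω : Finset (ℤ × ℤ)) (c : ℤ × ℤ) (j : ℕ) : ∃ k : ℕ, (pv ω)^[j] c = (nx ω)^[k] c := by
  obtain ⟨M, hM⟩ := exists_period ω c
  induction j with
  | zero => exact ⟨0, rfl⟩
  | succ j ih =>
    obtain ⟨k, hk⟩ := ih
    refine ⟨k + (M - 1), ?_⟩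
    rw [Function.iterate_succ_apply', hk]
    have h1 : (nx ω)^[k] c = nx ω ((nx ω)^[k + (M - 1)] c) := by
      rw [← Function.iterate_succ_apply' (nx ω)]
      have h2 : (k + (M - 1)).succ = k + M := by have := hM.pos; omega
      rw [h2, hM.add]
    rw [h1, pv_nx]

/-- Forward iterates are backward iterates. -/
lemma nx_eq_pv (ω : Finset (ℤ × ℤ)) (c : ℤ × ℤ) (j : ℕ) : ∃ k : ℕ, (nx ω)^[j] c = (pv ω)^[k] c := by
  obtain ⟨M, hM⟩ := exists_period ω c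
  have h1 : ∀ (k : ℕ) (z : ℤ × ℤ), (pv ω)^[k] ((nx ω)^[k] z) = z := by
    intro k
    induction k with
    | zero => intro z; rfl
    | succ k ih =>
      intro z
      rw [Function.iterate_succ_apply, Function.iterate_succ_apply' (nx ω), pv_nx]
      exact ih z
  obtain ⟨t, ht⟩ : ∃ t, j + t = j * M := by
    refine ⟨j * M - j, ?_⟩
    have := Nat.le_mul_of_pos_right j hM.pos
    omega
  refine ⟨t, ?_⟩
  have h2 : (nx ω)^[t] ((nx ω)^[j] c) = c := by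
    rw [← Function.iterate_add_apply, add_comm, ht, ← hM.mod, Nat.mul_mod_left]
    rfl
  have h3 := h1 t ((nx ω)^[j] c)
  rw [h2] at h3
  exact h3.symm

end ExitAux

open ExitAux

theorem EF_co {R : ℤ} (hR : 1 ≤ R) {ω : Finset (ℤ × ℤ)} {c : ℤ × ℤ} (hc : C0 c) (h : EF R ω c) :
    (∃ q : ℤ × ℤ, q.1 = R ∧ Co (ω ∩ BB R) (vx c) q) ∧
    (∃ g : ℤ × ℤ, g.1 = R + 1 ∧ Co (du (BB R) ω) (fi c) g) := by
  obtain ⟨x, hx, hx1⟩ := h
  obtain ⟨h1, h2⟩ := Str_co (FX_str hx)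
  obtain ⟨h3, h4⟩ := FX_plab hx (lab_mem_of_C0 (a := -R) (b := R) (u := -R) (v := R) (by omega)
    hR (by omega) hR hc).1
  unfold BB at h3 h4
  rw [mem_Bx] at h3 h4
  refine ⟨⟨vx x, ?_, h1.mono (inter_subset_inter_left (UU_sub _ _ _))⟩,
    ⟨fi x, ?_, h2.mono (du_mono (UU_sub _ _ _) _)⟩⟩
  · unfold vx
    rcases vals x with h | h | h | h <;> simp only <;> omega
  · unfold fi
    rcases vals x with h | h | h | h <;> simp only <;> omega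

theorem leave_co {R : ℤ} (hR : 1 ≤ R) {ω : Finset (ℤ × ℤ)} {c : ℤ × ℤ} (hc : C0 c)
    (h : Leave (BB R) ω c) : ∃ q : ℤ × ℤ, (|q.1| = R ∨ |q.2| = R) ∧ Co (ω ∩ BB R) (vx c) q := by
  obtain ⟨x, hx⟩ := exists_FX h
  obtain ⟨h1, h2⟩ := Str_co (FX_str hx)
  obtain ⟨h3, h4⟩ := FX_plab hx (lab_mem_of_C0 (a := -R) (b := R) (u := -R) (v := R) (by omega)
    hR (by omega) hR hc).1
  unfold BB at h3 h4
  rw [mem_Bx] at h3 h4
  refine ⟨vx x, ?_, h1.mono (inter_subset_inter_left (UU_sub _ _ _))⟩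
  have key : (x.1 / 2 = R ∨ x.1 / 2 = -R) ∨ (x.2 / 2 = R ∨ x.2 / 2 = -R) := by
    rcases vals x with h | h | h | h <;> omega
  rcases key with (h | h) | (h | h)
  · left; unfold vx; simp only; rw [h]; exact abs_of_nonneg (by omega)
  · left; unfold vx; simp only; rw [h, abs_neg]; exact abs_of_nonneg (by omega)
  · right; unfold vx; simp only; rw [h]; exact abs_of_nonneg (by omega)
  · right; unfold vx; simp only; rw [h, abs_neg]; exact abs_of_nonneg (by omega)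

theorem EF_east {r L : ℤ} (hr : 1 ≤ r) (hL : 4 * r ≤ L) {ω : Finset (ℤ × ℤ)} {c : ℤ × ℤ}
    (hc : C0 c) (h : EF (2 * r) ω c) :
    (∃ y1 y2, East r (2 * L) ω c y1 y2 ∧ |y1| ≤ L ∧ |y2| ≤ L) ∨ Leave (BB L) ω c := by
  obtain ⟨x, ⟨j, hj, -, -⟩, hx⟩ := h
  have hB : ∀ e : ℤ × ℤ, 2 * r < e.1 → e ∉ BE r (2 * L) := by
    intro e he h1
    unfold BE at h1
    rw [mem_Bx] at h1
    omega
  obtain ⟨x1, hx1⟩ := exists_FX (B := BE r (2 * L)) (ω := ω) (c := c)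
    ⟨j, by rw [hj]; exact hB _ (by omega)⟩
  obtain ⟨x2, hx2⟩ := exists_BX (B := BE r (2 * L)) (ω := ω) (c := c) (by
    obtain ⟨k, hk⟩ := nx_eq_pv ω c (j + 1)
    refine ⟨k, ?_⟩
    rw [← hk, Function.iterate_succ_apply', plab_nx, hj]
    exact hB _ (by omega))
  have hc1 := lab_mem_of_C0 (a := -(2 * L)) (b := r) (u := -(2 * L)) (v := 2 * L) (by omega)
    hr (by omega) (by omega) hc
  obtain ⟨h3, h4⟩ := FX_plab hx1 hc1.1
  obtain ⟨h5, h6⟩ := BX_lab hx2 hc1.2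
  by_cases hleave : Leave (BB L) ω c
  · exact Or.inr hleave
  left
  have h7 : lab x1 ∈ BB L := by
    by_contra hcon
    apply hleave
    obtain ⟨i, hi, -, -⟩ := hx1
    exact ⟨i, by rw [hi]; exact hcon⟩
  have h8 : plab x2 ∈ BB L := by
    by_contra hcon
    apply hleave
    obtain ⟨i, hi, -, -⟩ := hx2
    obtain ⟨k, hk⟩ := pv_eq_nx ω c (i + 1)
    refine ⟨k, ?_⟩
    rw [← hk, Function.iterate_succ_apply', lab_pv, hi]
    exact hcon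
  unfold BE at h3 h4 h5 h6
  unfold BB at h7 h8
  rw [mem_Bx] at h3 h4 h5 h6 h7 h8
  obtain ⟨y1, e1, hy1⟩ : ∃ y1, x1 = (2 * r + 1, 2 * y1) ∧ (-L ≤ y1 ∧ y1 ≤ L) := by
    refine ⟨x1.2 / 2, Prod.ext ?_ ?_, ?_⟩ <;> (try simp only) <;>
      rcases vals x1 with h | h | h | h <;> omega
  obtain ⟨y2, e2, hy2⟩ : ∃ y2, x2 = (2 * r + 1, 2 * y2 + 1) ∧ (-L ≤ y2 ∧ y2 ≤ L) := by
    refine ⟨x2.2 / 2, Prod.ext ?_ ?_, ?_⟩ <;> (try simp only) <;>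
      rcases vals x2 with h | h | h | h <;> omega
  rw [e1] at hx1
  rw [e2] at hx2
  exact ⟨y1, y2, ⟨hx1, hx2⟩, abs_le.2 hy1, abs_le.2 hy2⟩

end Pool.Agent.H75.TwoArm
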