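import Mathlib
import Pool.Agent.H75.TwoArm.Defs
import Pool.Agent.H75.Perc.Hist

set_option autoImplicit false
open Finset

/-! Two-colouring of vertices and faces which changes exactly across the corners of a given set. -/

namespace Pool.Agent.H75.TwoArm

open Pool.Agent.H75.Perc

namespace ColorAux

/-- the number of members of `Z` on the diagonal which starts at `p` -/
noncomputable def cnt (Z : ℤ × ℤ → Prop) (p : ℤ × ℤ) : ℕ :=
  Set.ncard {k : ℕ | Z (p.1 + k, p.2 + k)}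

open Classical in
lemma cnt_step {Z : ℤ × ℤ → Prop}
    (hfin : ∀ p : ℤ × ℤ, {k : ℕ | Z (p.1 + k, p.2 + k)}.Finite) (x y : ℤ) :
    cnt Z (x, y) = cnt Z (x + 1, y + 1) + (if Z (x, y) then 1 else 0) := by
  unfold cnt
  simp only
  have himg : ((fun k : ℕ => k + 1) '' {k : ℕ | Z (x + 1 + k, y + 1 + k)}).ncard =
      ({k : ℕ | Z (x + 1 + k, y + 1 + k)}).ncard :=
    Set.ncard_image_of_injective _ (fun a b h => by simpa using h)
  have hf : ((fun k : ℕ => k + 1) '' {k : ℕ | Z (x + 1 + k, y + 1 + k)}).Finite :=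
    (hfin (x + 1, y + 1)).image _
  have hnot : 0 ∉ ((fun k : ℕ => k + 1) '' {k : ℕ | Z (x + 1 + k, y + 1 + k)}) := by
    rintro ⟨k, -, hk⟩
    simp at hk
  by_cases hz : Z (x, y)
  · rw [if_pos hz]
    have hset : {k : ℕ | Z (x + k, y + k)} =
        insert 0 ((fun k : ℕ => k + 1) '' {k : ℕ | Z (x + 1 + k, y + 1 + k)}) := by
      ext k
      simp only [Set.mem_ofPred_eq, Set.mem_insert_iff, Set.mem_image]
      constructor
      · intro h
        rcases Nat.eq_zero_or_pos k with h0 | h0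
        · left; exact h0
        · right
          refine ⟨k - 1, ?_, by omega⟩
          have e1 : x + 1 + ((k - 1 : ℕ) : ℤ) = x + k := by omega
          have e2 : y + 1 + ((k - 1 : ℕ) : ℤ) = y + k := by omega
          rw [e1, e2]; exact h
      · rintro (h | ⟨j, hj, rfl⟩)
        · subst h; simpa using hz
        · have e1 : x + ((j + 1 : ℕ) : ℤ) = x + 1 + j := by push_cast; ring
          have e2 : y + ((j + 1 : ℕ) : ℤ) = y + 1 + j := by push_cast; ring
          rw [e1, e2]; exact hj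
    rw [hset, Set.ncard_insert_of_notMem hnot hf, himg]
  · rw [if_neg hz, add_zero, ← himg]
    congr 1
    ext k
    simp only [Set.mem_ofPred_eq, Set.mem_image]
    constructor
    · intro h
      rcases Nat.eq_zero_or_pos k with h0 | h0
      · subst h0; exact absurd (by simpa using h) hz
      · refine ⟨k - 1, ?_, by omega⟩
        have e1 : x + 1 + ((k - 1 : ℕ) : ℤ) = x + k := by omega
        have e2 : y + 1 + ((k - 1 : ℕ) : ℤ) = y + k := by omega
        rw [e1, e2]; exact h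
    · rintro ⟨j, hj, rfl⟩
      have e1 : x + ((j + 1 : ℕ) : ℤ) = x + 1 + j := by push_cast; ring
      have e2 : y + ((j + 1 : ℕ) : ℤ) = y + 1 + j := by push_cast; ring
      rw [e1, e2]; exact hj

lemma cnt_zero {Z : ℤ × ℤ → Prop} {x y : ℤ} (h : ∀ k : ℕ, ¬ Z (x + k, y + k)) :
    cnt Z (x, y) = 0 := by
  unfold cnt
  have : {k : ℕ | Z (x + k, y + k)} = ∅ := by
    ext k; simp [h k]
  simp only [this, Set.ncard_empty]

open Classical in
lemma cnt_key {Z : ℤ × ℤ → Prop}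
    (hfin : ∀ p : ℤ × ℤ, {k : ℕ | Z (p.1 + k, p.2 + k)}.Finite)
    (heven : ∀ e : ℤ × ℤ, (e.1 + e.2) % 2 = 1 →
      ((Z e ↔ Z (e.1 + 1, e.2 + 1)) ↔ (Z (e.1 + 1, e.2) ↔ Z (e.1, e.2 + 1)))) (n : ℕ) :
    ∀ a b : ℤ, (a + b) % 2 = 1 → (∀ k : ℕ, n ≤ k → ¬ Z (a + k, b + k)) →
      (∀ k : ℕ, n ≤ k → ¬ Z (a + k, b + 1 + k)) → (∀ k : ℕ, n ≤ k → ¬ Z (a + 1 + k, b + k)) →
      (cnt Z (a, b + 1) + cnt Z (a + 1, b) + (if Z (a, b) then 1 else 0)) % 2 = 0 := by
  induction n with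
  | zero =>
    intro a b _ h1 h2 h3
    rw [cnt_zero (fun k => h2 k (Nat.zero_le _)), cnt_zero (fun k => h3 k (Nat.zero_le _)),
      if_neg (by simpa using h1 0 le_rfl)]
  | succ n ih =>
    intro a b hab h1 h2 h3
    have h4 := ih (a + 1) (b + 1) (by omega)
      (fun k hk => by
        have := h1 (k + 1) (by omega)
        have e1 : a + ((k + 1 : ℕ) : ℤ) = a + 1 + k := by push_cast; ring
        have e2 : b + ((k + 1 : ℕ) : ℤ) = b + 1 + k := by push_cast; ring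
        rw [e1, e2] at this; exact this)
      (fun k hk => by
        have := h2 (k + 1) (by omega)
        have e1 : a + ((k + 1 : ℕ) : ℤ) = a + 1 + k := by push_cast; ring
        have e2 : b + 1 + ((k + 1 : ℕ) : ℤ) = b + 1 + 1 + k := by push_cast; ring
        rw [e1, e2] at this; exact this)
      (fun k hk => by
        have := h3 (k + 1) (by omega)
        have e1 : a + 1 + ((k + 1 : ℕ) : ℤ) = a + 1 + 1 + k := by push_cast; ring
        have e2 : b + ((k + 1 : ℕ) : ℤ) = b + 1 + k := by push_cast; ring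
        rw [e1, e2] at this; exact this)
    rw [cnt_step hfin a (b + 1), cnt_step hfin (a + 1) b]
    have h5 := heven (a, b) hab
    simp only at h5
    by_cases z1 : Z (a, b) <;> by_cases z2 : Z (a + 1, b + 1) <;> by_cases z3 : Z (a + 1, b) <;>
      by_cases z4 : Z (a, b + 1) <;> simp only [z1, z2, z3, z4, if_true, if_false] at h4 h5 ⊢ <;>
      first | omega | (exfalso; simp at h5)

/-- half plane -/
lemma half_const {S : ℤ × ℤ → Bool} {a : ℤ}
    (h1 : ∀ x y : ℤ, (x + y) % 2 = 0 → a ≤ x → S (x, y) = S (x + 1, y + 1))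
    (h2 : ∀ x y : ℤ, (x + y) % 2 = 0 → a ≤ x → S (x, y) = S (x + 1, y - 1))
    {x y x' y' : ℤ} (he : (x + y) % 2 = 0) (he' : (x' + y') % 2 = 0) (hx : a ≤ x) (hx' : a ≤ x') :
    S (x, y) = S (x', y') := by
  have A : ∀ n : ℕ, ∀ x y : ℤ, (x + y) % 2 = 0 → a ≤ x → S (x, y) = S (x + n, y + n) := by
    intro n
    induction n with
    | zero => intro x y _ _; simp
    | succ n ih =>
      intro x y hxy hx
      rw [ih x y hxy hx, h1 (x + n) (y + n) (by omega) (by omega)]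
      congr 2 <;> push_cast <;> ring
  have B0 : ∀ x y : ℤ, (x + y) % 2 = 0 → a ≤ x → S (x, y) = S (x, y + 2) := by
    intro x y hxy hx
    have g1 := h1 x y hxy hx
    have g2 := h2 x (y + 2) (by omega) hx
    have e : y + 2 - 1 = y + 1 := by ring
    rw [e] at g2
    rw [g1, g2]
  have B : ∀ n : ℕ, ∀ x y : ℤ, (x + y) % 2 = 0 → a ≤ x → S (x, y) = S (x, y + 2 * n) := by
    intro n
    induction n with
    | zero => intro x y _ _; simp
    | succ n ih =>
      intro x y hxy hx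
      rw [ih x y hxy hx, B0 x (y + 2 * n) (by omega) (by omega)]
      congr 2; push_cast; ring
  have C : ∀ x y y' : ℤ, (x + y) % 2 = 0 → (x + y') % 2 = 0 → a ≤ x → S (x, y) = S (x, y') := by
    intro x y y' h h' hx
    rcases le_total y y' with hy | hy
    · rw [B ((y' - y) / 2).toNat x y h hx]
      congr 2; omega
    · rw [B ((y - y') / 2).toNat x y' h' hx]
      congr 2; omega
  have D : ∀ x y x' y' : ℤ, (x + y) % 2 = 0 → (x' + y') % 2 = 0 → a ≤ x → x ≤ x' →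
      S (x, y) = S (x', y') := by
    intro x y x' y' h h' hx hxx
    rw [A (x' - x).toNat x y h hx]
    have e : x + ((x' - x).toNat : ℤ) = x' := by omega
    rw [e]
    exact C _ _ _ (by omega) h' (by omega)
  rcases le_total x x' with h | h
  · exact D x y x' y' he he' hx h
  · exact (D x' y' x y he' he hx' h).symm

/-- the two diagonal neighbours in direction NE -/
lemma diag1 {Z : ℤ × ℤ → Prop} {S : ℤ × ℤ → Bool} (h : Col Z S) {x y : ℤ} (he : (x + y) % 2 = 0) :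
    Z (x + 1, y + 1) ↔ S (x, y) ≠ S (x + 1, y + 1) := by
  have h1 := h (x + 1, y + 1)
  rw [h1]
  unfold vx fce dbl
  simp only
  have hx : x % 2 = 0 ∨ x % 2 = 1 := by omega
  rcases hx with hx | hx
  · have e1 : 2 * ((x + 1) / 2) = x := by omega
    have e2 : 2 * ((y + 1) / 2) = y := by omega
    have e3 : 2 * ((x + 1 + 1) / 2) - 1 = x + 1 := by omega
    have e4 : 2 * ((y + 1 + 1) / 2) - 1 = y + 1 := by omega
    rw [e1, e2, e3, e4]
  · have e1 : 2 * ((x + 1) / 2) = x + 1 := by omega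
    have e2 : 2 * ((y + 1) / 2) = y + 1 := by omega
    have e3 : 2 * ((x + 1 + 1) / 2) - 1 = x := by omega
    have e4 : 2 * ((y + 1 + 1) / 2) - 1 = y := by omega
    rw [e1, e2, e3, e4]
    exact ne_comm

/-- the two diagonal neighbours in direction SE -/
lemma diag2 {Z : ℤ × ℤ → Prop} {S : ℤ × ℤ → Bool} (h : Col Z S) {x y : ℤ} (he : (x + y) % 2 = 0) :
    Z (x + 1, y) ↔ S (x, y) ≠ S (x + 1, y - 1) := by
  have h1 := h (x + 1, y)
  rw [h1]
  unfold vx fce dbl
  simp only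
  have hx : x % 2 = 0 ∨ x % 2 = 1 := by omega
  rcases hx with hx | hx
  · have e1 : 2 * ((x + 1) / 2) = x := by omega
    have e2 : 2 * (y / 2) = y := by omega
    have e3 : 2 * ((x + 1 + 1) / 2) - 1 = x + 1 := by omega
    have e4 : 2 * ((y + 1) / 2) - 1 = y - 1 := by omega
    rw [e1, e2, e3, e4]
  · have e1 : 2 * ((x + 1) / 2) = x + 1 := by omega
    have e2 : 2 * (y / 2) = y - 1 := by omega
    have e3 : 2 * ((x + 1 + 1) / 2) - 1 = x := by omega
    have e4 : 2 * ((y + 1) / 2) - 1 = y := by omega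
    rw [e1, e2, e3, e4]
    exact ne_comm

end ColorAux

open ColorAux in
theorem exists_Col (Z : ℤ × ℤ → Prop)
    (hfin : ∀ p : ℤ × ℤ, {k : ℕ | Z (p.1 + k, p.2 + k)}.Finite)
    (heven : ∀ e : ℤ × ℤ, (e.1 + e.2) % 2 = 1 →
      ((Z e ↔ Z (e.1 + 1, e.2 + 1)) ↔ (Z (e.1 + 1, e.2) ↔ Z (e.1, e.2 + 1)))) :
    ∃ S : ℤ × ℤ → Bool, Col Z S := by
  classical
  have key : ∀ a b : ℤ, (a + b) % 2 = 1 →
      (cnt Z (a, b + 1) + cnt Z (a + 1, b) + (if Z (a, b) then 1 else 0)) % 2 = 0 := by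
    intro a b hab
    have hex : ∀ p : ℤ × ℤ, ∃ n : ℕ, ∀ k : ℕ, n ≤ k → ¬ Z (p.1 + k, p.2 + k) := by
      intro p
      obtain ⟨n, hn⟩ := (hfin p).bddAbove
      refine ⟨n + 1, fun k hk hz => ?_⟩
      have := hn (show k ∈ {k : ℕ | Z (p.1 + k, p.2 + k)} from hz)
      omega
    obtain ⟨n1, h1⟩ := hex (a, b)
    obtain ⟨n2, h2⟩ := hex (a, b + 1)
    obtain ⟨n3, h3⟩ := hex (a + 1, b)
    exact cnt_key hfin heven (n1 + n2 + n3) a b hab (fun k hk => h1 k (by omega))
      (fun k hk => h2 k (by omega)) (fun k hk => h3 k (by omega))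
  refine ⟨fun p => decide (cnt Z (p.1 + 1, p.2 + 1) % 2 = 1), ?_⟩
  rintro ⟨a, b⟩
  unfold vx fce dbl
  simp only
  have ha : a % 2 = 0 ∨ a % 2 = 1 := by omega
  have hb : b % 2 = 0 ∨ b % 2 = 1 := by omega
  rcases ha with ha | ha <;> rcases hb with hb | hb
  · have e1 : 2 * (a / 2) + 1 = a + 1 := by omega
    have e2 : 2 * (b / 2) + 1 = b + 1 := by omega
    have e3 : 2 * ((a + 1) / 2) - 1 + 1 = a := by omega
    have e4 : 2 * ((b + 1) / 2) - 1 + 1 = b := by omega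
    rw [e1, e2, e3, e4, cnt_step hfin a b]
    by_cases hz : Z (a, b) <;> simp only [hz, if_true, if_false, true_iff, false_iff, ne_eq,
      decide_eq_decide, add_zero, not_true, not_not] <;> omega
  · have e1 : 2 * (a / 2) + 1 = a + 1 := by omega
    have e2 : 2 * (b / 2) + 1 = b := by omega
    have e3 : 2 * ((a + 1) / 2) - 1 + 1 = a := by omega
    have e4 : 2 * ((b + 1) / 2) - 1 + 1 = b + 1 := by omega
    rw [e1, e2, e3, e4]
    have h := key a b (by omega)
    by_cases hz : Z (a, b) <;> simp only [hz, if_true, if_false, true_iff, false_iff, ne_eq,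
      decide_eq_decide, add_zero, not_true, not_not] at h ⊢ <;> omega
  · have e1 : 2 * (a / 2) + 1 = a := by omega
    have e2 : 2 * (b / 2) + 1 = b + 1 := by omega
    have e3 : 2 * ((a + 1) / 2) - 1 + 1 = a + 1 := by omega
    have e4 : 2 * ((b + 1) / 2) - 1 + 1 = b := by omega
    rw [e1, e2, e3, e4]
    have h := key a b (by omega)
    by_cases hz : Z (a, b) <;> simp only [hz, if_true, if_false, true_iff, false_iff, ne_eq,
      decide_eq_decide, add_zero, not_true, not_not] at h ⊢ <;> omega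
  · have e1 : 2 * (a / 2) + 1 = a := by omega
    have e2 : 2 * (b / 2) + 1 = b := by omega
    have e3 : 2 * ((a + 1) / 2) - 1 + 1 = a + 1 := by omega
    have e4 : 2 * ((b + 1) / 2) - 1 + 1 = b + 1 := by omega
    rw [e1, e2, e3, e4, cnt_step hfin a b]
    by_cases hz : Z (a, b) <;> simp only [hz, if_true, if_false, true_iff, false_iff, ne_eq,
      decide_eq_decide, add_zero, not_true, not_not] <;> omega

open ColorAux in
theorem Col_far {Z : ℤ × ℤ → Prop} {S : ℤ × ℤ → Bool} (h : Col Z S) {R : ℤ}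
    (hZ : ∀ z, Z z → |z.1| ≤ R ∧ |z.2| ≤ R) {p q : ℤ × ℤ}
    (hp0 : (p.1 + p.2) % 2 = 0) (hq0 : (q.1 + q.2) % 2 = 0)
    (hp : R + 2 ≤ |p.1| ∨ R + 2 ≤ |p.2|) (hq : R + 2 ≤ |q.1| ∨ R + 2 ≤ |q.2|) : S p = S q := by
  have D1 : ∀ x y : ℤ, (x + y) % 2 = 0 → ¬ (|x + 1| ≤ R ∧ |y + 1| ≤ R) →
      S (x, y) = S (x + 1, y + 1) := by
    intro x y hxy hn
    by_contra hne
    exact hn (hZ _ ((diag1 h hxy).2 hne))
  have D2 : ∀ x y : ℤ, (x + y) % 2 = 0 → ¬ (|x + 1| ≤ R ∧ |y| ≤ R) →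
      S (x, y) = S (x + 1, y - 1) := by
    intro x y hxy hn
    by_contra hne
    exact hn (hZ _ ((diag2 h hxy).2 hne))
  -- the four half planes
  have HE : ∀ x y x' y' : ℤ, (x + y) % 2 = 0 → (x' + y') % 2 = 0 → R ≤ x → R ≤ x' →
      S (x, y) = S (x', y') := by
    intro x y x' y' he he' hx hx'
    refine half_const (a := R) (fun x y hxy hx => D1 x y hxy ?_) (fun x y hxy hx => D2 x y hxy ?_)
      he he' hx hx'
    · rintro ⟨h1, -⟩; have := le_abs_self (x + 1); omega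
    · rintro ⟨h1, -⟩; have := le_abs_self (x + 1); omega
  have HW : ∀ x y x' y' : ℤ, (x + y) % 2 = 0 → (x' + y') % 2 = 0 → x ≤ -R - 1 → x' ≤ -R - 1 →
      S (x, y) = S (x', y') := by
    intro x y x' y' he he' hx hx'
    have h0 := half_const (S := fun p => S (-p.1, p.2)) (a := R + 1)
      (fun x y hxy hx => by
        have h1 := D2 (-(x + 1)) (y + 1) (by omega) (by
          rintro ⟨h1, -⟩
          have := neg_abs_le (-(x + 1) + 1)
          omega)
        have e1 : -(x + 1) + 1 = -x := by ring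
        have e2 : y + 1 - 1 = y := by ring
        rw [e1, e2] at h1
        exact h1.symm)
      (fun x y hxy hx => by
        have h1 := D1 (-(x + 1)) (y - 1) (by omega) (by
          rintro ⟨h1, -⟩
          have := neg_abs_le (-(x + 1) + 1)
          omega)
        have e1 : -(x + 1) + 1 = -x := by ring
        have e2 : y - 1 + 1 = y := by ring
        rw [e1, e2] at h1
        exact h1.symm)
      (x := -x) (y := y) (x' := -x') (y' := y') (by omega) (by omega) (by omega) (by omega)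
    simpa using h0
  have HN : ∀ x y x' y' : ℤ, (x + y) % 2 = 0 → (x' + y') % 2 = 0 → R ≤ y → R ≤ y' →
      S (x, y) = S (x', y') := by
    intro x y x' y' he he' hx hx'
    have h0 := half_const (S := fun p => S (p.2, p.1)) (a := R)
      (fun x y hxy hx => D1 y x (by omega) (by
          rintro ⟨-, h1⟩
          have := le_abs_self (x + 1)
          omega))
      (fun x y hxy hx => by
        have h1 := D2 (y - 1) (x + 1) (by omega) (by
          rintro ⟨-, h1⟩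
          have := le_abs_self (x + 1)
          omega)
        have e1 : y - 1 + 1 = y := by ring
        have e2 : x + 1 - 1 = x := by ring
        rw [e1, e2] at h1
        exact h1.symm)
      (x := y) (y := x) (x' := y') (y' := x') (by omega) (by omega) (by omega) (by omega)
    exact h0
  have HS : ∀ x y x' y' : ℤ, (x + y) % 2 = 0 → (x' + y') % 2 = 0 → y ≤ -R - 1 → y' ≤ -R - 1 →
      S (x, y) = S (x', y') := by
    intro x y x' y' he he' hx hx'
    have h0 := half_const (S := fun p => S (p.2, -p.1)) (a := R + 1)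
      (fun x y hxy hx => by
        have h1 := D2 y (-x) (by omega) (by
          rintro ⟨-, h1⟩
          have := neg_abs_le (-x)
          omega)
        have e1 : -x - 1 = -(x + 1) := by ring
        rw [e1] at h1
        exact h1)
      (fun x y hxy hx => by
        have h1 := D1 (y - 1) (-(x + 1)) (by omega) (by
          rintro ⟨-, h1⟩
          have := neg_abs_le (-(x + 1) + 1)
          omega)
        have e1 : y - 1 + 1 = y := by ring
        have e2 : -(x + 1) + 1 = -x := by ring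
        rw [e1, e2] at h1
        exact h1.symm)
      (x := -y) (y := x) (x' := -y') (y' := x') (by omega) (by omega) (by omega) (by omega)
    simpa using h0
  -- every far point has the colour of the point `(M, M)`
  have key : ∀ p : ℤ × ℤ, (p.1 + p.2) % 2 = 0 → (R + 2 ≤ |p.1| ∨ R + 2 ≤ |p.2|) →
      S p = S (|R| + 1, |R| + 1) := by
    rintro ⟨x, y⟩ hxy hfar
    simp only at hxy hfar
    have hM := le_abs_self R
    have hM2 := abs_nonneg R
    have n1 := neg_abs_le R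
    rcases hfar with hf | hf
    · rcases abs_cases x with ⟨e, -⟩ | ⟨e, -⟩
      · exact HE _ _ _ _ hxy (by omega) (by omega) (by omega)
      · rw [HW x y (-|R| - 1) (|R| + 1) hxy (by omega) (by omega) (by omega)]
        exact HN _ _ _ _ (by omega) (by omega) (by omega) (by omega)
    · rcases abs_cases y with ⟨e, -⟩ | ⟨e, -⟩
      · exact HN _ _ _ _ hxy (by omega) (by omega) (by omega)
      · rw [HS x y (|R| + 1) (-|R| - 1) hxy (by omega) (by omega) (by omega)]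
        exact HE _ _ _ _ (by omega) (by omega) (by omega) (by omega)
  rw [key p hp0 hp, key q hq0 hq]

namespace ColorAux

/-- the four corners around an edge are paired by the exploration -/
lemma pairs {ω : Finset (ℤ × ℤ)} {Z : ℤ × ℤ → Prop} (hZ : ∀ z, Z z ↔ Z (nx ω z)) (x y : ℤ) :
    (((2 * x + 1, 2 * y) : ℤ × ℤ) ∈ ω → (Z (2 * x + 1, 2 * y) ↔ Z (2 * x + 2, 2 * y)) ∧
      (Z (2 * x + 2, 2 * y + 1) ↔ Z (2 * x + 1, 2 * y + 1))) ∧
    (((2 * x + 1, 2 * y) : ℤ × ℤ) ∉ ω → (Z (2 * x + 1, 2 * y) ↔ Z (2 * x + 1, 2 * y + 1)) ∧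
      (Z (2 * x + 2, 2 * y + 1) ↔ Z (2 * x + 2, 2 * y))) ∧
    (((2 * x, 2 * y + 1) : ℤ × ℤ) ∈ ω → (Z (2 * x + 1, 2 * y + 1) ↔ Z (2 * x + 1, 2 * y + 2)) ∧
      (Z (2 * x, 2 * y + 2) ↔ Z (2 * x, 2 * y + 1))) ∧
    (((2 * x, 2 * y + 1) : ℤ × ℤ) ∉ ω → (Z (2 * x + 1, 2 * y + 1) ↔ Z (2 * x, 2 * y + 1)) ∧
      (Z (2 * x, 2 * y + 2) ↔ Z (2 * x + 1, 2 * y + 2))) := by
  have a1 := nx_c1 ω x y
  have a2 := nx_c3 ω (x + 1) y
  have a3 := nx_c2 ω x y
  have a4 := nx_c0 ω x (y + 1)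
  have e1 : 2 * (x + 1) = 2 * x + 2 := by ring
  have e2 : 2 * x + 2 - 1 = 2 * x + 1 := by ring
  have e3 : 2 * (y + 1) = 2 * y + 2 := by ring
  have e4 : 2 * y + 2 - 1 = 2 * y + 1 := by ring
  rw [e1, e2] at a2
  rw [e3, e4] at a4
  have b1 := hZ (2 * x + 1, 2 * y)
  have b2 := hZ (2 * x + 2, 2 * y + 1)
  have b3 := hZ (2 * x + 1, 2 * y + 1)
  have b4 := hZ (2 * x, 2 * y + 2)
  rw [a1] at b1
  rw [a2] at b2
  rw [a3] at b3
  rw [a4] at b4
  refine ⟨fun h => ?_, fun h => ?_, fun h => ?_, fun h => ?_⟩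
  · rw [if_pos h] at b1 b2; exact ⟨b1, b2⟩
  · rw [if_neg h] at b1 b2; exact ⟨b1, b2⟩
  · rw [if_pos h] at b3 b4; exact ⟨b3, b4⟩
  · rw [if_neg h] at b3 b4; exact ⟨b3, b4⟩

lemma even_of_pairs {ω : Finset (ℤ × ℤ)} {Z : ℤ × ℤ → Prop} (hZ : ∀ z, Z z ↔ Z (nx ω z))
    (e : ℤ × ℤ) (he : (e.1 + e.2) % 2 = 1) :
    (Z e ↔ Z (e.1 + 1, e.2 + 1)) ↔ (Z (e.1 + 1, e.2) ↔ Z (e.1, e.2 + 1)) := by
  obtain ⟨a, b⟩ := e
  simp only at he ⊢
  have h1 : a % 2 = 0 ∨ a % 2 = 1 := by omega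
  rcases h1 with h1 | h1
  · obtain ⟨x, rfl⟩ : ∃ x, a = 2 * x := ⟨a / 2, by omega⟩
    obtain ⟨y, rfl⟩ : ∃ y, b = 2 * y + 1 := ⟨b / 2, by omega⟩
    have hp := (pairs hZ x y).2.2
    have e1 : 2 * y + 1 + 1 = 2 * y + 2 := by ring
    rw [e1]
    by_cases hw : ((2 * x, 2 * y + 1) : ℤ × ℤ) ∈ ω
    · rw [(hp.1 hw).1, (hp.1 hw).2]
      exact ⟨Iff.symm, Iff.symm⟩
    · rw [(hp.2 hw).1, (hp.2 hw).2]
  · obtain ⟨x, rfl⟩ : ∃ x, a = 2 * x + 1 := ⟨a / 2, by omega⟩
    obtain ⟨y, rfl⟩ : ∃ y, b = 2 * y := ⟨b / 2, by omega⟩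
    have hp := pairs hZ x y
    have e1 : 2 * x + 1 + 1 = 2 * x + 2 := by ring
    rw [e1]
    by_cases hw : ((2 * x + 1, 2 * y) : ℤ × ℤ) ∈ ω
    · rw [(hp.1 hw).1, (hp.1 hw).2]
    · rw [(hp.2.1 hw).1, (hp.2.1 hw).2]
      exact ⟨Iff.symm, Iff.symm⟩

/-- colours at the four corners around the edge `(2x+1, 2y)`, `(2x, 2y+1)` -/
lemma col_corner {Z : ℤ × ℤ → Prop} {S : ℤ × ℤ → Bool} (h : Col Z S) (x y : ℤ) :
    (Z (2 * x, 2 * y) ↔ S (2 * x, 2 * y) ≠ S (2 * x - 1, 2 * y - 1)) ∧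
    (Z (2 * x + 1, 2 * y) ↔ S (2 * x, 2 * y) ≠ S (2 * x + 1, 2 * y - 1)) ∧
    (Z (2 * x + 1, 2 * y + 1) ↔ S (2 * x, 2 * y) ≠ S (2 * x + 1, 2 * y + 1)) ∧
    (Z (2 * x, 2 * y + 1) ↔ S (2 * x, 2 * y) ≠ S (2 * x - 1, 2 * y + 1)) := by
  have d1 := diag1 h (x := 2 * x - 1) (y := 2 * y - 1) (by omega)
  have d2 := diag2 h (x := 2 * x) (y := 2 * y) (by omega)
  have d3 := diag1 h (x := 2 * x) (y := 2 * y) (by omega)
  have d4 := diag2 h (x := 2 * x - 1) (y := 2 * y + 1) (by omega)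
  have e1 : 2 * x - 1 + 1 = 2 * x := by ring
  have e2 : 2 * y - 1 + 1 = 2 * y := by ring
  have e3 : 2 * y + 1 - 1 = 2 * y := by ring
  rw [e1, e2] at d1
  rw [e1, e3] at d4
  exact ⟨d1.trans ne_comm, d2, d3, d4.trans ne_comm⟩

/-- open edges do not change the colour of their ends -/
lemma col_open {ω : Finset (ℤ × ℤ)} {Z : ℤ × ℤ → Prop} {S : ℤ × ℤ → Bool} (h : Col Z S)
    (hZ : ∀ z, Z z ↔ Z (nx ω z)) {u v : ℤ × ℤ} (ha : Ad ω u v) : S (dbl u) = S (dbl v) := by
  have key : ∀ u v : ℤ × ℤ, u + v ∈ ω → ((v.1 = u.1 + 1 ∧ v.2 = u.2) ∨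
      (v.1 = u.1 ∧ v.2 = u.2 + 1)) → S (dbl u) = S (dbl v) := by
    rintro ⟨x, y⟩ ⟨x', y'⟩ hw hc
    simp only at hc
    rcases hc with ⟨rfl, rfl⟩ | ⟨rfl, rfl⟩
    · have e0 : ((x, y') + (x + 1, y') : ℤ × ℤ) = (2 * x + 1, 2 * y') := by
        refine Prod.ext ?_ ?_ <;> simp only [Prod.mk_add_mk] <;> ring
      rw [e0] at hw
      have hp := ((pairs hZ x y').1 hw).2
      have c1 := (col_corner h x y').2.2.1
      have c2 := (col_corner h (x + 1) y').2.2.2
      have e1 : 2 * (x + 1) = 2 * x + 2 := by ring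
      have e2 : 2 * x + 2 - 1 = 2 * x + 1 := by ring
      rw [e1, e2] at c2
      rw [c1, c2] at hp
      unfold dbl
      simp only [e1]
      revert hp
      cases S (2 * x, 2 * y') <;> cases S (2 * x + 2, 2 * y') <;>
        cases S (2 * x + 1, 2 * y' + 1) <;> simp
    · have e0 : ((x', y) + (x', y + 1) : ℤ × ℤ) = (2 * x', 2 * y + 1) := by
        refine Prod.ext ?_ ?_ <;> simp only [Prod.mk_add_mk] <;> ring
      rw [e0] at hw
      have hp := ((pairs hZ x' y).2.2.1 hw).1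
      have c1 := (col_corner h x' y).2.2.1
      have c2 := (col_corner h x' (y + 1)).2.1
      have e1 : 2 * (y + 1) = 2 * y + 2 := by ring
      have e2 : 2 * y + 2 - 1 = 2 * y + 1 := by ring
      rw [e1, e2] at c2
      rw [c1, c2] at hp
      unfold dbl
      simp only [e1]
      revert hp
      cases S (2 * x', 2 * y) <;> cases S (2 * x', 2 * y + 2) <;>
        cases S (2 * x' + 1, 2 * y + 1) <;> simp
  rcases unit_cases ha.1 with h1 | h1 | h1 | h1
  · exact key u v ha.2 (Or.inl h1)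
  · exact key u v ha.2 (Or.inr h1)
  · refine (key v u (by rw [add_comm]; exact ha.2) (Or.inl ⟨by omega, by omega⟩)).symm
  · refine (key v u (by rw [add_comm]; exact ha.2) (Or.inr ⟨by omega, by omega⟩)).symm

/-- closed edges do not change the colour of the adjacent faces -/
lemma col_closed {ω : Finset (ℤ × ℤ)} {Z : ℤ × ℤ → Prop} {S : ℤ × ℤ → Bool} (h : Col Z S)
    (hZ : ∀ z, Z z ↔ Z (nx ω z)) {f g : ℤ × ℤ} (hu : IsUnit4 (g - f))
    (hn : f + g - (1, 1) ∉ ω) : S (fp f) = S (fp g) := by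
  have key : ∀ u v : ℤ × ℤ, u + v - (1, 1) ∉ ω → ((v.1 = u.1 + 1 ∧ v.2 = u.2) ∨
      (v.1 = u.1 ∧ v.2 = u.2 + 1)) → S (fp u) = S (fp v) := by
    rintro ⟨x, y⟩ ⟨x', y'⟩ hw hc
    simp only at hc
    rcases hc with ⟨rfl, rfl⟩ | ⟨rfl, rfl⟩
    · obtain ⟨y, rfl⟩ : ∃ y, y' = y + 1 := ⟨y' - 1, by ring⟩
      have e0 : ((x, y + 1) + (x + 1, y + 1) - (1, 1) : ℤ × ℤ) = (2 * x, 2 * y + 1) := by
        refine Prod.ext ?_ ?_ <;> simp only [Prod.mk_add_mk, Prod.mk_sub_mk] <;> ring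
      rw [e0] at hw
      have hp := ((pairs hZ x y).2.2.2 hw).1
      have c1 := (col_corner h x y).2.2.1
      have c2 := (col_corner h x y).2.2.2
      rw [c1, c2] at hp
      unfold fp
      simp only
      have e1 : 2 * (y + 1) - 1 = 2 * y + 1 := by ring
      have e2 : 2 * (x + 1) - 1 = 2 * x + 1 := by ring
      rw [e1, e2]
      revert hp
      cases S (2 * x, 2 * y) <;> cases S (2 * x + 1, 2 * y + 1) <;>
        cases S (2 * x - 1, 2 * y + 1) <;> simp
    · obtain ⟨x, rfl⟩ : ∃ x, x' = x + 1 := ⟨x' - 1, by ring⟩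
      have e0 : ((x + 1, y) + (x + 1, y + 1) - (1, 1) : ℤ × ℤ) = (2 * x + 1, 2 * y) := by
        refine Prod.ext ?_ ?_ <;> simp only [Prod.mk_add_mk, Prod.mk_sub_mk] <;> ring
      rw [e0] at hw
      have hp := ((pairs hZ x y).2.1 hw).1
      have c1 := (col_corner h x y).2.1
      have c2 := (col_corner h x y).2.2.1
      rw [c1, c2] at hp
      unfold fp
      simp only
      have e1 : 2 * (y + 1) - 1 = 2 * y + 1 := by ring
      have e2 : 2 * (x + 1) - 1 = 2 * x + 1 := by ring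
      rw [e1, e2]
      revert hp
      cases S (2 * x, 2 * y) <;> cases S (2 * x + 1, 2 * y + 1) <;>
        cases S (2 * x + 1, 2 * y - 1) <;> simp
  rcases unit_cases hu with h1 | h1 | h1 | h1
  · exact key f g hn (Or.inl h1)
  · exact key f g hn (Or.inr h1)
  · refine (key g f (by rw [add_comm g f]; exact hn) (Or.inl ⟨by omega, by omega⟩)).symm
  · refine (key g f (by rw [add_comm g f]; exact hn) (Or.inr ⟨by omega, by omega⟩)).symm

lemma mem_du {E ω : Finset (ℤ × ℤ)} {e : ℤ × ℤ} : e ∈ du E ω ↔ e - (1, 1) ∈ E ∧ e - (1, 1) ∉ ω := by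
  unfold du
  rw [mem_map]
  constructor
  · rintro ⟨a, ha, rfl⟩
    have : (sh1 a - (1, 1) : ℤ × ℤ) = a := by
      refine Prod.ext ?_ ?_ <;> simp [sh1]
    rw [this]
    exact ⟨(mem_sdiff.1 ha).1, (mem_sdiff.1 ha).2⟩
  · intro h
    refine ⟨e - (1, 1), mem_sdiff.2 h, ?_⟩
    refine Prod.ext ?_ ?_ <;> simp [sh1]

end ColorAux

open ColorAux in
theorem arms_leave {r : ℤ} (hr : 1 ≤ r) {E ω : Finset (ℤ × ℤ)}
    (hE : ∀ e ∈ E, (e.1 + e.2) % 2 = 1) (hω : ω ⊆ E) {c : ℤ × ℤ} (hc : C0 c)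
    (h : Arms (r + 2) E ω c) : Leave (BB r) ω c := by
  classical
  by_contra hcon
  have hin : ∀ j : ℕ, lab ((nx ω)^[j] c) ∈ BB r := by
    intro j
    by_contra hj
    exact hcon ⟨j, hj⟩
  have hbox : ∀ j : ℕ, (-(2 * r + 1) ≤ ((nx ω)^[j] c).1 ∧ ((nx ω)^[j] c).1 ≤ 2 * r + 1) ∧
      (-(2 * r + 1) ≤ ((nx ω)^[j] c).2 ∧ ((nx ω)^[j] c).2 ≤ 2 * r + 1) := by
    intro j
    have h1 := hin j
    unfold BB at h1
    rw [mem_Bx] at h1
    rcases ty_cases ((nx ω)^[j] c) with ⟨h0, g1, g2, g3, g4, g5⟩ | ⟨h0, g1, g2, g3, g4, g5⟩ |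
      ⟨h0, g1, g2, g3, g4, g5⟩ | ⟨h0, g1, g2, g3, g4, g5⟩ <;> rw [g3] at h1 <;>
      simp only at h1 <;> omega
  -- periodicity
  obtain ⟨L, hL⟩ := exists_orb (nx ω) (nx_injective ω)
    (((Icc (-(2 * r + 1)) (2 * r + 1)) ×ˢ (Icc (-(2 * r + 1)) (2 * r + 1))).filter
      (fun z => ∃ j : ℕ, (nx ω)^[j] c = z))
    (by
      intro x hx
      obtain ⟨-, j, rfl⟩ := mem_filter.1 hx
      have h1 := hbox (j + 1)
      rw [Function.iterate_succ_apply'] at h1
      refine mem_filter.2 ⟨mem_product.2 ⟨mem_Icc.2 h1.1, mem_Icc.2 h1.2⟩, j + 1, ?_⟩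
      rw [Function.iterate_succ_apply'])
    c (by
      have h1 := hbox 0
      rw [Function.iterate_zero, id] at h1
      exact mem_filter.2 ⟨mem_product.2 ⟨mem_Icc.2 h1.1, mem_Icc.2 h1.2⟩, 0, rfl⟩)
  obtain ⟨Z, hZdef⟩ : ∃ Z : ℤ × ℤ → Prop, ∀ z, Z z ↔ ∃ j : ℕ, (nx ω)^[j] c = z :=
    ⟨_, fun z => Iff.rfl⟩
  have hZ : ∀ z, Z z ↔ Z (nx ω z) := by
    intro z
    rw [hZdef, hZdef]
    constructor
    · rintro ⟨j, rfl⟩
      exact ⟨j + 1, by rw [Function.iterate_succ_apply']⟩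
    · rintro ⟨j, hj⟩
      have h1 : (nx ω)^[j + L] c = nx ω z := by rw [hL.add, hj]
      have hpos := hL.pos
      have e1 : j + L = (j + L - 1) + 1 := by omega
      rw [e1, Function.iterate_succ_apply'] at h1
      exact ⟨j + L - 1, nx_injective ω h1⟩
  have hZbox : ∀ z, Z z → |z.1| ≤ 2 * r + 1 ∧ |z.2| ≤ 2 * r + 1 := by
    intro z hz
    obtain ⟨j, rfl⟩ := (hZdef z).1 hz
    have h1 := hbox j
    exact ⟨abs_le.2 h1.1, abs_le.2 h1.2⟩
  obtain ⟨S, hS⟩ := exists_Col Z (by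
      intro p
      refine Set.Finite.subset (Set.finite_Iic (2 * r + 1 - p.1).toNat) ?_
      intro k hk
      have h1 := (hZbox _ hk).1
      simp only at h1
      have h2 := le_abs_self (p.1 + (k : ℤ))
      rw [Set.mem_Iic]
      omega)
    (even_of_pairs hZ)
  obtain ⟨⟨v, hv1, hv2⟩, ⟨f, hf1, hf2⟩⟩ := h
  have s1 : S (dbl (vx c)) = S (dbl v) := by
    clear hv1
    induction hv2 with
    | refl => rfl
    | tail _ hbc ih => exact ih.trans (col_open hS hZ hbc)
  have s2 : S (fp (fi c)) = S (fp f) := by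
    clear hf1
    induction hf2 with
    | refl => rfl
    | tail _ hbc ih => exact ih.trans (col_closed hS hZ hbc.1 (mem_du.1 hbc.2).2)
  have s3 : S (dbl v) = S (fp f) := by
    refine Col_far hS hZbox ?_ ?_ ?_ ?_
    · unfold dbl; simp only; omega
    · unfold fp; simp only; omega
    · unfold dbl
      simp only
      rcases hv1 with h1 | h1
      · left
        rw [le_abs']
        rcases eq_or_eq_neg_of_abs_eq h1 with h2 | h2 <;> omega
      · right
        rw [le_abs']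
        rcases eq_or_eq_neg_of_abs_eq h1 with h2 | h2 <;> omega
    · unfold fp
      simp only
      rcases hf1 with h1 | h1
      · left
        rw [le_abs']
        rcases eq_or_eq_neg_of_abs_eq h1 with h2 | h2 <;> omega
      · right
        rw [le_abs']
        rcases eq_or_eq_neg_of_abs_eq h1 with h2 | h2 <;> omega
  have hcZ : Z c := (hZdef c).2 ⟨0, rfl⟩
  have h4 := (hS c).1 hcZ
  apply h4
  have e5 : fce c = fp (fi c) := rfl
  rw [e5, s1, s2, s3]

end Pool.Agent.H75.TwoArm
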