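import Mathlib
import Pool.Agent.H75.TwoArm.Color
import Pool.Agent.H75.TwoArm.Strand

set_option autoImplicit false
open Finset

/-! Existence of the two-colouring of the plane cut along the two strands of the exploration and the
two horizontal rays starting at their ends (this replaces the Jordan curve theorem). -/

namespace Pool.Agent.H75.TwoArm

open Pool.Agent.H75.Perc

namespace TrackAux

/-- The four corners around an edge `e`: `z1, z2` at the vertex `u`, `z3, z4` at the vertex `v`,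
`z1, z3` at the face `f`, `z2, z4` at the face `g`. -/
structure Quad (e u v f g z1 z2 z3 z4 : ℤ × ℤ) : Prop where
  v1 : vx z1 = u
  v2 : vx z2 = u
  v3 : vx z3 = v
  v4 : vx z4 = v
  f1 : fce z1 = f
  f3 : fce z3 = f
  f2 : fce z2 = g
  f4 : fce z4 = g
  l1 : lab z1 = e
  l4 : lab z4 = e
  p2 : plab z2 = e
  p3 : plab z3 = e
  o1 : nxO z1 = z3
  c1 : nxC z1 = z2
  o4 : nxO z4 = z2
  c4 : nxC z4 = z3
  all : ∀ z, (z = e ∨ z = (e.1 + 1, e.2) ∨ z = (e.1, e.2 + 1) ∨ z = (e.1 + 1, e.2 + 1)) ↔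
    (z = z1 ∨ z = z2 ∨ z = z3 ∨ z = z4)
  odd : (e.1 + e.2) % 2 = 1

lemma Quad.symm {e u v f g z1 z2 z3 z4 : ℤ × ℤ} (h : Quad e u v f g z1 z2 z3 z4) :
    Quad e v u g f z4 z3 z2 z1 where
  v1 := h.v4
  v2 := h.v3
  v3 := h.v2
  v4 := h.v1
  f1 := h.f4
  f3 := h.f2
  f2 := h.f3
  f4 := h.f1
  l1 := h.l4
  l4 := h.l1
  p2 := h.p3
  p3 := h.p2
  o1 := h.o4
  c1 := h.c4
  o4 := h.o1
  c4 := h.c1
  all := fun z => by rw [h.all z]; tauto
  odd := h.odd

lemma quad_h (x y : ℤ) : Quad (2 * x + 1, 2 * y) (x, y) (x + 1, y) (2 * x + 1, 2 * y - 1)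
    (2 * x + 1, 2 * y + 1) (2 * x + 1, 2 * y) (2 * x + 1, 2 * y + 1) (2 * x + 2, 2 * y)
    (2 * x + 2, 2 * y + 1) := by
  have e1 : (2 * x + 1) % 2 = 1 := by omega
  have e2 : (2 * y) % 2 = 0 := by omega
  have e3 : (2 * x + 2) % 2 = 0 := by omega
  have e4 : (2 * y + 1) % 2 = 1 := by omega
  constructor
  all_goals first
    | (unfold vx; refine Prod.ext ?_ ?_ <;> simp only <;> omega)
    | (unfold fce; refine Prod.ext ?_ ?_ <;> simp only <;> omega)
    | (unfold lab; simp only [e1, e2, e3, e4]; refine Prod.ext ?_ ?_ <;> simp <;> omega)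
    | (unfold plab; simp only [e1, e2, e3, e4]; refine Prod.ext ?_ ?_ <;> simp <;> omega)
    | (unfold nxO; simp only [e1, e2, e3, e4]; refine Prod.ext ?_ ?_ <;> simp <;> omega)
    | (unfold nxC; simp only [e1, e2, e3, e4]; refine Prod.ext ?_ ?_ <;> simp <;> omega)
    | (rintro ⟨a, b⟩; simp only [Prod.mk.injEq]; omega)
    | (simp only; omega)

lemma quad_v (x y : ℤ) : Quad (2 * x, 2 * y + 1) (x, y) (x, y + 1) (2 * x + 1, 2 * y + 1)
    (2 * x - 1, 2 * y + 1) (2 * x + 1, 2 * y + 1) (2 * x, 2 * y + 1) (2 * x + 1, 2 * y + 2)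
    (2 * x, 2 * y + 2) := by
  have e1 : (2 * x + 1) % 2 = 1 := by omega
  have e2 : (2 * x) % 2 = 0 := by omega
  have e3 : (2 * y + 2) % 2 = 0 := by omega
  have e4 : (2 * y + 1) % 2 = 1 := by omega
  constructor
  all_goals first
    | (unfold vx; refine Prod.ext ?_ ?_ <;> simp only <;> omega)
    | (unfold fce; refine Prod.ext ?_ ?_ <;> simp only <;> omega)
    | (unfold lab; simp only [e1, e2, e3, e4]; refine Prod.ext ?_ ?_ <;> simp <;> omega)
    | (unfold plab; simp only [e1, e2, e3, e4]; refine Prod.ext ?_ ?_ <;> simp <;> omega)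
    | (unfold nxO; simp only [e1, e2, e3, e4]; refine Prod.ext ?_ ?_ <;> simp <;> omega)
    | (unfold nxC; simp only [e1, e2, e3, e4]; refine Prod.ext ?_ ?_ <;> simp <;> omega)
    | (rintro ⟨a, b⟩; simp only [Prod.mk.injEq]; omega)
    | (simp only; omega)

lemma quad_of_uv {u v : ℤ × ℤ} (h : IsUnit4 (v - u)) :
    ∃ f g z1 z2 z3 z4, Quad (u + v) u v f g z1 z2 z3 z4 := by
  obtain ⟨x, y⟩ := u
  obtain ⟨x', y'⟩ := v
  rcases unit_cases h with ⟨h1, h2⟩ | ⟨h1, h2⟩ | ⟨h1, h2⟩ | ⟨h1, h2⟩ <;> simp only at h1 h2 <;>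
    rw [h1, h2]
  · have := quad_h x y
    have e : ((x, y) : ℤ × ℤ) + (x + 1, y) = (2 * x + 1, 2 * y) := by
      refine Prod.ext ?_ ?_ <;> simp <;> ring
    rw [e]
    exact ⟨_, _, _, _, _, _, this⟩
  · have := quad_v x y
    have e : ((x, y) : ℤ × ℤ) + (x, y + 1) = (2 * x, 2 * y + 1) := by
      refine Prod.ext ?_ ?_ <;> simp <;> ring
    rw [e]
    exact ⟨_, _, _, _, _, _, this⟩
  · have := (quad_h (x - 1) y).symm
    have e : ((x, y) : ℤ × ℤ) + (x - 1, y) = (2 * (x - 1) + 1, 2 * y) := by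
      refine Prod.ext ?_ ?_ <;> simp <;> ring
    have e' : x - 1 + 1 = x := by ring
    rw [e]
    rw [e'] at this
    exact ⟨_, _, _, _, _, _, this⟩
  · have := (quad_v x (y - 1)).symm
    have e : ((x, y) : ℤ × ℤ) + (x, y - 1) = (2 * x, 2 * (y - 1) + 1) := by
      refine Prod.ext ?_ ?_ <;> simp <;> ring
    have e' : y - 1 + 1 = y := by ring
    rw [e]
    rw [e'] at this
    exact ⟨_, _, _, _, _, _, this⟩

lemma quad_of_fg {f g : ℤ × ℤ} (h : IsUnit4 (g - f)) :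
    ∃ u v z1 z2 z3 z4, Quad (f + g - (1, 1)) u v (fp f) (fp g) z1 z2 z3 z4 := by
  obtain ⟨x, y⟩ := f
  obtain ⟨x', y'⟩ := g
  rcases unit_cases h with ⟨h1, h2⟩ | ⟨h1, h2⟩ | ⟨h1, h2⟩ | ⟨h1, h2⟩ <;> simp only at h1 h2 <;>
    rw [h1, h2]
  · -- g = f + (1,0): vertical edge (2x, 2y-1), f is on its left
    have := (quad_v x (y - 1)).symm
    have e : ((x, y) : ℤ × ℤ) + (x + 1, y) - (1, 1) = (2 * x, 2 * (y - 1) + 1) := by
      refine Prod.ext ?_ ?_ <;> simp <;> ring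
    have e1 : fp (x, y) = (2 * x - 1, 2 * (y - 1) + 1) := by
      unfold fp; refine Prod.ext ?_ ?_ <;> simp only <;> ring
    have e2 : fp (x + 1, y) = (2 * x + 1, 2 * (y - 1) + 1) := by
      unfold fp; refine Prod.ext ?_ ?_ <;> simp only <;> ring
    rw [e, e1, e2]
    exact ⟨_, _, _, _, _, _, this⟩
  · -- g = f + (0,1): horizontal edge (2x-1, 2y)
    have := quad_h (x - 1) y
    have e : ((x, y) : ℤ × ℤ) + (x, y + 1) - (1, 1) = (2 * (x - 1) + 1, 2 * y) := by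
      refine Prod.ext ?_ ?_ <;> simp <;> ring
    have e1 : fp (x, y) = (2 * (x - 1) + 1, 2 * y - 1) := by
      unfold fp; refine Prod.ext ?_ ?_ <;> simp only <;> ring
    have e2 : fp (x, y + 1) = (2 * (x - 1) + 1, 2 * y + 1) := by
      unfold fp; refine Prod.ext ?_ ?_ <;> simp only <;> ring
    rw [e, e1, e2]
    exact ⟨_, _, _, _, _, _, this⟩
  · have := quad_v (x - 1) (y - 1)
    have e : ((x, y) : ℤ × ℤ) + (x - 1, y) - (1, 1) = (2 * (x - 1), 2 * (y - 1) + 1) := by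
      refine Prod.ext ?_ ?_ <;> simp <;> ring
    have e1 : fp (x, y) = (2 * (x - 1) + 1, 2 * (y - 1) + 1) := by
      unfold fp; refine Prod.ext ?_ ?_ <;> simp only <;> ring
    have e2 : fp (x - 1, y) = (2 * (x - 1) - 1, 2 * (y - 1) + 1) := by
      unfold fp; refine Prod.ext ?_ ?_ <;> simp only <;> ring
    rw [e, e1, e2]
    exact ⟨_, _, _, _, _, _, this⟩
  · have := (quad_h (x - 1) (y - 1)).symm
    have e : ((x, y) : ℤ × ℤ) + (x, y - 1) - (1, 1) = (2 * (x - 1) + 1, 2 * (y - 1)) := by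
      refine Prod.ext ?_ ?_ <;> simp <;> ring
    have e1 : fp (x, y) = (2 * (x - 1) + 1, 2 * (y - 1) + 1) := by
      unfold fp; refine Prod.ext ?_ ?_ <;> simp only <;> ring
    have e2 : fp (x, y - 1) = (2 * (x - 1) + 1, 2 * (y - 1) - 1) := by
      unfold fp; refine Prod.ext ?_ ?_ <;> simp only <;> ring
    rw [e, e1, e2]
    exact ⟨_, _, _, _, _, _, this⟩

lemma quad_of_e {e : ℤ × ℤ} (h : (e.1 + e.2) % 2 = 1) :
    ∃ u v f g z1 z2 z3 z4, Quad e u v f g z1 z2 z3 z4 := by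
  obtain ⟨a, b⟩ := e
  simp only at h
  rcases Int.even_or_odd' a with ⟨x, rfl | rfl⟩
  · obtain ⟨y, rfl⟩ : ∃ y, b = 2 * y + 1 := ⟨(b - 1) / 2, by omega⟩
    exact ⟨_, _, _, _, _, _, _, _, quad_v x y⟩
  · obtain ⟨y, rfl⟩ : ∃ y, b = 2 * y := ⟨b / 2, by omega⟩
    exact ⟨_, _, _, _, _, _, _, _, quad_h x y⟩

lemma Quad.z1_cases {e u v f g z1 z2 z3 z4 : ℤ × ℤ} (h : Quad e u v f g z1 z2 z3 z4) {z : ℤ × ℤ}
    (hz : z = z1 ∨ z = z2 ∨ z = z3 ∨ z = z4) : e.1 ≤ z.1 ∧ z.1 ≤ e.1 + 1 := by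
  have := (h.all z).2 hz
  obtain ⟨a, b⟩ := z
  obtain ⟨a', b'⟩ := e
  simp only [Prod.mk.injEq] at this
  simp only
  omega

/-- membership in the strands is invariant under a step across an edge of the box -/
lemma Str_nx_iff {B ω : Finset (ℤ × ℤ)} {c z : ℤ × ℤ} (hB : lab z ∈ B) :
    Str B ω c (nx ω z) ↔ Str B ω c z := by
  constructor
  · intro h
    have h1 : plab (nx ω z) ∈ B := by rw [plab_nx]; exact hB
    have := (Str_pv h h1).1
    rwa [pv_nx] at this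
  · intro h
    exact (Str_nx h hB).1

lemma Quad.n1 {e u v f g z1 z2 z3 z4 : ℤ × ℤ} (h : Quad e u v f g z1 z2 z3 z4)
    (ω : Finset (ℤ × ℤ)) : nx ω z1 = if e ∈ ω then z3 else z2 := by
  unfold nx; rw [h.l1, h.o1, h.c1]

lemma Quad.n4 {e u v f g z1 z2 z3 z4 : ℤ × ℤ} (h : Quad e u v f g z1 z2 z3 z4)
    (ω : Finset (ℤ × ℤ)) : nx ω z4 = if e ∈ ω then z2 else z3 := by
  unfold nx; rw [h.l4, h.o4, h.c4]

lemma Quad.open_iff {e u v f g z1 z2 z3 z4 : ℤ × ℤ} (h : Quad e u v f g z1 z2 z3 z4)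
    {B ω : Finset (ℤ × ℤ)} {c : ℤ × ℤ} (hB : e ∈ B) (ho : e ∈ ω) :
    (Str B ω c z3 ↔ Str B ω c z1) ∧ (Str B ω c z2 ↔ Str B ω c z4) := by
  have h1 := Str_nx_iff (B := B) (ω := ω) (c := c) (z := z1) (by rw [h.l1]; exact hB)
  have h4 := Str_nx_iff (B := B) (ω := ω) (c := c) (z := z4) (by rw [h.l4]; exact hB)
  rw [h.n1, if_pos ho] at h1
  rw [h.n4, if_pos ho] at h4
  exact ⟨h1, h4⟩

lemma Quad.closed_iff {e u v f g z1 z2 z3 z4 : ℤ × ℤ} (h : Quad e u v f g z1 z2 z3 z4)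
    {B ω : Finset (ℤ × ℤ)} {c : ℤ × ℤ} (hB : e ∈ B) (ho : e ∉ ω) :
    (Str B ω c z2 ↔ Str B ω c z1) ∧ (Str B ω c z3 ↔ Str B ω c z4) := by
  have h1 := Str_nx_iff (B := B) (ω := ω) (c := c) (z := z1) (by rw [h.l1]; exact hB)
  have h4 := Str_nx_iff (B := B) (ω := ω) (c := c) (z := z4) (by rw [h.l4]; exact hB)
  rw [h.n1, if_neg ho] at h1
  rw [h.n4, if_neg ho] at h4
  exact ⟨h1, h4⟩

/-- an edge is explored iff one of its corners is on the strands -/
lemma Quad.mem_UU {e u v f g z1 z2 z3 z4 : ℤ × ℤ} (h : Quad e u v f g z1 z2 z3 z4)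
    {B ω : Finset (ℤ × ℤ)} {c : ℤ × ℤ} : e ∈ UU B ω c ↔ e ∈ B ∧
      (Str B ω c z1 ∨ Str B ω c z2 ∨ Str B ω c z3 ∨ Str B ω c z4) := by
  classical
  unfold UU
  rw [mem_filter]
  refine and_congr_right fun hB => ?_
  constructor
  · rintro ⟨z, hz, hl⟩
    rw [corners_iff h.odd, h.all z] at hl
    rcases hl with rfl | rfl | rfl | rfl
    · exact Or.inl hz
    · exact Or.inr (Or.inl hz)
    · exact Or.inr (Or.inr (Or.inl hz))
    · exact Or.inr (Or.inr (Or.inr hz))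
  · rintro (hz | hz | hz | hz)
    · exact ⟨_, hz, Or.inl h.l1⟩
    · exact ⟨_, hz, Or.inr h.p2⟩
    · exact ⟨_, hz, Or.inr h.p3⟩
    · exact ⟨_, hz, Or.inl h.l4⟩

lemma lab_bd (z : ℤ × ℤ) : z.1 - 1 ≤ (lab z).1 ∧ (lab z).1 ≤ z.1 ∧ z.2 - 1 ≤ (lab z).2 ∧
    (lab z).2 ≤ z.2 := by
  rcases ty_cases z with ⟨-, h1, h2, h3, h4, h5⟩ | ⟨-, h1, h2, h3, h4, h5⟩ |
      ⟨-, h1, h2, h3, h4, h5⟩ | ⟨-, h1, h2, h3, h4, h5⟩ <;> rw [h3] <;> simp only <;> omega

section main

variable {r L : ℤ} {ω : Finset (ℤ × ℤ)} {c : ℤ × ℤ} {y1 y2 : ℤ}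

lemma FX_Str {B : Finset (ℤ × ℤ)} {x : ℤ × ℤ} (h : FX B ω c x) : Str B ω c x := by
  obtain ⟨j, h1, h2, h3⟩ := h
  exact Or.inl ⟨j, h1, h3⟩

lemma BX_Str {B : Finset (ℤ × ℤ)} {x : ℤ × ℤ} (h : BX B ω c x) : Str B ω c x := by
  obtain ⟨j, h1, h2, h3⟩ := h
  exact Or.inr ⟨j, h1, h3⟩

lemma lab_se (x y : ℤ) : lab (2 * x + 1, 2 * y) = (2 * x + 1, 2 * y) := by
  have e1 : (2 * x + 1) % 2 = 1 := by omega
  have e4 : (2 * y) % 2 = 0 := by omega
  unfold lab; simp only [e1, e4]; refine Prod.ext ?_ ?_ <;> simp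

lemma lab_out (y : ℤ) : lab (2 * r + 1, 2 * y) ∉ BE r L := by
  rw [lab_se, BE, mem_Bx]; simp only; omega

lemma plab_c2 (x y : ℤ) : plab (2 * x + 1, 2 * y + 1) = (2 * x + 1, 2 * y) := by
  have e1 : (2 * x + 1) % 2 = 1 := by omega
  have e4 : (2 * y + 1) % 2 = 1 := by omega
  unfold plab; simp only [e1, e4]; refine Prod.ext ?_ ?_ <;> simp

lemma plab_out (y : ℤ) : plab (2 * r + 1, 2 * y + 1) ∉ BE r L := by
  rw [plab_c2, BE, mem_Bx]; simp only; omega

/-- membership in `Z` for the columns `≥ 2r+1` -/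
lemma ZZ_far (h : East r L ω c y1 y2) {z : ℤ × ℤ} (hz : 2 * r + 1 ≤ z.1) :
    ZZ r L ω c y1 y2 z ↔ (z.2 = 2 * y1 ∨ z.2 = 2 * y2 + 1) := by
  obtain ⟨hF, hX⟩ := h
  obtain ⟨a, b⟩ := z
  simp only at hz ⊢
  unfold ZZ
  simp only
  rcases eq_or_lt_of_le hz with rfl | hlt
  · constructor
    · rintro (hs | hs)
      · rcases Int.even_or_odd' b with ⟨y, rfl | rfl⟩
        · have := Str_FX hF hs (lab_out y)
          simp only [Prod.mk.injEq] at this
          left; exact this.2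
        · have := Str_BX hX hs (plab_out y)
          simp only [Prod.mk.injEq] at this
          right; exact this.2
      · exact hs.2
    · rintro (rfl | rfl)
      · exact Or.inl (FX_Str hF)
      · exact Or.inl (BX_Str hX)
  · constructor
    · rintro (hs | hs)
      · exfalso
        have hl : lab (a, b) ∉ BE r L := by
          have := lab_bd (a, b)
          rw [BE, mem_Bx]; simp only at this ⊢; omega
        have := Str_FX hF hs hl
        simp only [Prod.mk.injEq] at this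
        omega
      · exact hs.2
    · intro hs
      exact Or.inr ⟨by omega, hs⟩

lemma ZZ_near {z : ℤ × ℤ} (hz : z.1 ≤ 2 * r + 1) :
    ZZ r L ω c y1 y2 z ↔ Str (BE r L) ω c z := by
  unfold ZZ
  constructor
  · rintro (h | h)
    · exact h
    · omega
  · exact Or.inl

lemma mem_BE_fst {e : ℤ × ℤ} (he : e ∈ BE r L) : e.1 ≤ 2 * r := by
  rw [BE, mem_Bx] at he; omega

lemma hfin_aux (h : East r L ω c y1 y2) (p : ℤ × ℤ) :
    {k : ℕ | ZZ r L ω c y1 y2 (p.1 + k, p.2 + k)}.Finite := by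
  refine (Set.finite_le_nat ((|2 * L + 1| + |2 * y1| + |2 * y2 + 1| - p.2).toNat)).subset ?_
  intro k hk
  simp only [Set.mem_ofPred_eq] at hk ⊢
  have a0 := le_abs_self (2 * L + 1)
  have a5 := abs_nonneg (2 * L + 1)
  have a1 := le_abs_self (2 * y1)
  have a2 := le_abs_self (2 * y2 + 1)
  have a3 := abs_nonneg (2 * y1)
  have a4 := abs_nonneg (2 * y2 + 1)
  have key : p.2 + k ≤ 2 * L + 1 ∨ p.2 + k ≤ 2 * y1 ∨ p.2 + k ≤ 2 * y2 + 1 := by
    rcases hk with hs | hs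
    · by_cases hl : lab (p.1 + k, p.2 + k) ∈ BE r L
      · have h1 := lab_bd (p.1 + k, p.2 + k)
        rw [BE, mem_Bx] at hl
        simp only at h1
        left; omega
      · have := Str_FX h.1 hs hl
        simp only [Prod.mk.injEq] at this
        right; left; omega
    · simp only at hs
      omega
  generalize |2 * y1| = A at *
  generalize |2 * y2 + 1| = A' at *
  generalize |2 * L + 1| = A'' at *
  omega

lemma Quad.even {e u v f g z1 z2 z3 z4 : ℤ × ℤ} (q : Quad e u v f g z1 z2 z3 z4)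
    {B : Finset (ℤ × ℤ)} (hB : e ∈ B) : ((Str B ω c z1 ↔ Str B ω c z4) ↔
      (Str B ω c z2 ↔ Str B ω c z3)) := by
  by_cases ho : e ∈ ω
  · have := q.open_iff (c := c) hB ho
    rw [this.1, this.2]
    exact iff_comm
  · have := q.closed_iff (c := c) hB ho
    rw [this.1, this.2]

lemma heven_aux (h : East r L ω c y1 y2) (e : ℤ × ℤ) (he : (e.1 + e.2) % 2 = 1) :
    ((ZZ r L ω c y1 y2 e ↔ ZZ r L ω c y1 y2 (e.1 + 1, e.2 + 1)) ↔
      (ZZ r L ω c y1 y2 (e.1 + 1, e.2) ↔ ZZ r L ω c y1 y2 (e.1, e.2 + 1))) := by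
  rcases le_or_gt (2 * r + 1) e.1 with hr | hr
  · rw [ZZ_far h hr, ZZ_far h (z := (e.1 + 1, e.2 + 1)) (by simp only; omega),
      ZZ_far h (z := (e.1 + 1, e.2)) (by simp only; omega),
      ZZ_far h (z := (e.1, e.2 + 1)) (by simp only; omega)]
  · rw [ZZ_near (z := e) (by omega), ZZ_near (z := (e.1 + 1, e.2 + 1)) (by simp only; omega),
      ZZ_near (z := (e.1 + 1, e.2)) (by simp only; omega),
      ZZ_near (z := (e.1, e.2 + 1)) (by simp only; omega)]
    by_cases hB : e ∈ BE r L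
    · obtain ⟨a, b⟩ := e
      simp only at he ⊢
      rcases Int.even_or_odd' a with ⟨x, rfl | rfl⟩
      · obtain ⟨y, rfl⟩ : ∃ y, b = 2 * y + 1 := ⟨(b - 1) / 2, by omega⟩
        have key := (quad_v x y).even (ω := ω) (c := c) hB
        have e1 : 2 * y + 1 + 1 = 2 * y + 2 := by ring
        rw [e1]
        exact key.symm
      · obtain ⟨y, rfl⟩ : ∃ y, b = 2 * y := ⟨b / 2, by omega⟩
        have key := (quad_h x y).even (ω := ω) (c := c) hB
        have e1 : 2 * x + 1 + 1 = 2 * x + 2 := by ring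
        rw [e1]
        exact key.trans iff_comm
    · have hno : ∀ z, (z = e ∨ z = (e.1 + 1, e.2) ∨ z = (e.1, e.2 + 1) ∨ z = (e.1 + 1, e.2 + 1)) →
          ¬ Str (BE r L) ω c z := by
        intro z hz hs
        rcases (corners_iff he).2 hz with hl | hl
        · have h1 := Str_FX h.1 hs (by rw [hl]; exact hB)
          rw [h1, lab_se] at hl
          rw [← hl] at hr; simp only at hr; omega
        · have h1 := Str_BX h.2 hs (by rw [hl]; exact hB)
          rw [h1, plab_c2] at hl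
          rw [← hl] at hr; simp only at hr; omega
      have n1 := hno e (Or.inl rfl)
      have n2 := hno _ (Or.inr (Or.inl rfl))
      have n3 := hno _ (Or.inr (Or.inr (Or.inl rfl)))
      have n4 := hno _ (Or.inr (Or.inr (Or.inr rfl)))
      tauto

/-- two consecutive corners of `Z` have the same colour at their vertices -/
lemma Col_step {Z : ℤ × ℤ → Prop} {S : ℤ × ℤ → Bool} (hS : Col Z S) {z : ℤ × ℤ} (h1 : Z z)
    (h2 : Z (nx ω z)) : S (dbl (vx (nx ω z))) = S (dbl (vx z)) := by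
  have a1 := (hS _).1 h1
  have a2 := (hS _).1 h2
  unfold nx at a2 ⊢
  by_cases ho : lab z ∈ ω
  · rw [if_pos ho] at a2 ⊢
    rw [fce_nxO] at a2
    revert a1 a2
    cases S (dbl (vx (nxO z))) <;> cases S (dbl (vx z)) <;> cases S (fce z) <;> simp
  · rw [if_neg ho] at a2 ⊢
    have : vx (nxC z) = vx z := by
      unfold vx
      rcases ty_cases z with ⟨-, h1, h2, h3, h4, h5⟩ | ⟨-, h1, h2, h3, h4, h5⟩ |
        ⟨-, h1, h2, h3, h4, h5⟩ | ⟨-, h1, h2, h3, h4, h5⟩ <;> rw [h4] <;>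
      refine Prod.ext ?_ ?_ <;> simp only <;> omega
    rw [this]

lemma Col_str {Z : ℤ × ℤ → Prop} {S : ℤ × ℤ → Bool} (hS : Col Z S) {B : Finset (ℤ × ℤ)}
    (hZ : ∀ z, Str B ω c z → Z z) (z : ℤ × ℤ) (hz : Str B ω c z) :
    S (dbl (vx z)) = S (dbl (vx c)) := by
  rcases hz with ⟨j, rfl, hj⟩ | ⟨j, rfl, hj⟩
  · induction j with
    | zero => rfl
    | succ j ih =>
      have h1 : Str B ω c ((nx ω)^[j] c) := Or.inl ⟨j, rfl, fun i hi => hj i (by omega)⟩
      have h2 : Str B ω c ((nx ω)^[j + 1] c) := Or.inl ⟨j + 1, rfl, hj⟩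
      rw [← ih (fun i hi => hj i (by omega))]
      rw [Function.iterate_succ_apply'] at h2 ⊢
      exact Col_step hS (hZ _ h1) (hZ _ h2)
  · induction j with
    | zero => rfl
    | succ j ih =>
      have h1 : Str B ω c ((pv ω)^[j] c) := Or.inr ⟨j, rfl, fun i hi => hj i (by omega)⟩
      have h2 : Str B ω c ((pv ω)^[j + 1] c) := Or.inr ⟨j + 1, rfl, hj⟩
      rw [← ih (fun i hi => hj i (by omega))]
      rw [Function.iterate_succ_apply'] at h2 ⊢
      have h3 := Col_step (ω := ω) hS (hZ _ h2) (by rw [nx_pv]; exact hZ _ h1)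
      rw [nx_pv] at h3
      exact h3.symm

/-- existence of the colouring with `S = true` at the vertices of the strands -/
lemma exists_S (h : East r L ω c y1 y2) : ∃ S : ℤ × ℤ → Bool, Col (ZZ r L ω c y1 y2) S ∧
    ∀ z, Str (BE r L) ω c z → S (dbl (vx z)) = true ∧ S (fce z) = false := by
  obtain ⟨S, hS⟩ := exists_Col (ZZ r L ω c y1 y2) (hfin_aux h) (heven_aux h)
  have hZ : ∀ z, Str (BE r L) ω c z → ZZ r L ω c y1 y2 z := fun z hz => Or.inl hz
  have key := Col_str hS hZ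
  cases hc : S (dbl (vx c)) with
  | true =>
    refine ⟨S, hS, fun z hz => ?_⟩
    have h1 := key z hz
    rw [hc] at h1
    have h2 := (hS z).1 (hZ z hz)
    rw [h1] at h2
    refine ⟨h1, ?_⟩
    cases hf : S (fce z) with
    | true => exact absurd hf.symm h2
    | false => rfl
  | false =>
    refine ⟨fun p => ! S p, ?_, fun z hz => ?_⟩
    · intro z
      rw [hS z]
      simp only
      cases S (dbl (vx z)) <;> cases S (fce z) <;> simp
    · have h1 := key z hz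
      rw [hc] at h1
      have h2 := (hS z).1 (hZ z hz)
      rw [h1] at h2
      simp only [h1, Bool.not_false, true_and]
      cases hf : S (fce z) with
      | true => rfl
      | false => exact absurd hf.symm h2

lemma Col_eq {Z : ℤ × ℤ → Prop} {S : ℤ × ℤ → Bool} (hS : Col Z S) {z : ℤ × ℤ} (h : ¬ Z z) :
    S (dbl (vx z)) = S (fce z) := by
  by_contra h'
  exact h ((hS z).2 h')

lemma Quad.Z_iff {e u v f g z1 z2 z3 z4 : ℤ × ℤ} (q : Quad e u v f g z1 z2 z3 z4)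
    (hB : e ∈ BE r L) {z : ℤ × ℤ} (hz : z = z1 ∨ z = z2 ∨ z = z3 ∨ z = z4) :
    ZZ r L ω c y1 y2 z ↔ Str (BE r L) ω c z := by
  have h1 := q.z1_cases hz
  have h2 := mem_BE_fst hB
  exact ZZ_near (by omega)

lemma V_step (y : ℤ) {S : ℤ × ℤ → Bool} (h : East r L ω c y1 y2)
    (hS : Col (ZZ r L ω c y1 y2) S) {x : ℤ} (hx : r ≤ x) :
    ((S (dbl (x, y)) ≠ S (fp (x + 1, y))) ↔ y = y1) ∧
    ((S (dbl (x, y)) ≠ S (fp (x + 1, y + 1))) ↔ y = y2) ∧
    ((S (dbl (x + 1, y)) ≠ S (fp (x + 1, y))) ↔ y = y1) := by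
  have q := quad_h x y
  refine ⟨?_, ?_, ?_⟩
  · have h1 := hS (2 * x + 1, 2 * y)
    rw [ZZ_far h (by simp only; omega), q.v1, q.f1] at h1
    have e1 : fp (x + 1, y) = (2 * x + 1, 2 * y - 1) := by
      unfold fp; refine Prod.ext ?_ ?_ <;> simp only; ring
    rw [e1, ← h1]
    simp only
    omega
  · have h1 := hS (2 * x + 1, 2 * y + 1)
    rw [ZZ_far h (by simp only; omega), q.v2, q.f2] at h1
    have e1 : fp (x + 1, y + 1) = (2 * x + 1, 2 * y + 1) := by
      unfold fp; refine Prod.ext ?_ ?_ <;> simp only <;> ring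
    rw [e1, ← h1]
    simp only
    omega
  · have h1 := hS (2 * x + 2, 2 * y)
    rw [ZZ_far h (by simp only; omega), q.v3, q.f3] at h1
    have e1 : fp (x + 1, y) = (2 * x + 1, 2 * y - 1) := by
      unfold fp; refine Prod.ext ?_ ?_ <;> simp only; ring
    rw [e1, ← h1]
    simp only
    omega

lemma V_hor (y : ℤ) {S : ℤ × ℤ → Bool} (h : East r L ω c y1 y2)
    (hS : Col (ZZ r L ω c y1 y2) S) {x : ℤ} (hx : r ≤ x) : S (dbl (x, y)) = S (dbl (r, y)) := by
  obtain ⟨k, rfl⟩ : ∃ k : ℕ, x = r + k := ⟨(x - r).toNat, by omega⟩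
  induction k with
  | zero => simp
  | succ k ih =>
    rw [← ih (by omega)]
    have h1 := V_step y h hS (x := r + k) (by omega)
    have e1 : r + ((k + 1 : ℕ) : ℤ) = r + k + 1 := by push_cast; ring
    rw [e1]
    obtain ⟨a, -, b⟩ := h1
    by_cases hy : y = y1
    · have a' := a.2 hy
      have b' := b.2 hy
      revert a' b'
      cases S (dbl (r + k, y)) <;> cases S (dbl (r + k + 1, y)) <;>
        cases S (fp (r + k + 1, y)) <;> simp
    · have a' := not_not.1 (fun hh => hy (a.1 hh))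
      have b' := not_not.1 (fun hh => hy (b.1 hh))
      rw [a', b']

/-- the recursion for the colours of the vertices on a column -/
lemma V_rec (y : ℤ) {S : ℤ × ℤ → Bool} (h : East r L ω c y1 y2)
    (hS : Col (ZZ r L ω c y1 y2) S) :
    (S (dbl (r, y + 1)) = true ↔ S (dbl (r, y)) = true) ↔ (y = y2 ↔ y + 1 = y1) := by
  obtain ⟨-, a, -⟩ := V_step y h hS (x := r) le_rfl
  obtain ⟨b, -, -⟩ := V_step (y + 1) h hS (x := r) le_rfl
  rw [← a, ← b]
  cases S (dbl (r, y)) <;> cases S (dbl (r, y + 1)) <;> cases S (fp (r + 1, y + 1)) <;> simp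

lemma V_form {S : ℤ × ℤ → Bool} (h : East r L ω c y1 y2)
    (hS : Col (ZZ r L ω c y1 y2) S) (h1 : S (dbl (r, y1)) = true) (y : ℤ) :
    S (dbl (r, y)) = true ↔ (y1 ≤ y ∧ y ≤ y2) ∨ (y2 < y1 ∧ (y1 ≤ y ∨ y ≤ y2)) := by
  have up : ∀ k : ℕ, S (dbl (r, y1 + k)) = true ↔
      (y1 ≤ y1 + k ∧ y1 + k ≤ y2) ∨ (y2 < y1 ∧ (y1 ≤ y1 + (k : ℤ) ∨ y1 + k ≤ y2)) := by
    intro k
    induction k with
    | zero =>
      have e1 : y1 + ((0 : ℕ) : ℤ) = y1 := by simp
      rw [e1]; simp only [h1, true_iff]; omega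
    | succ k ih =>
      have h2 := V_rec (y1 + k) h hS
      have e1 : y1 + ((k + 1 : ℕ) : ℤ) = y1 + k + 1 := by push_cast; ring
      rw [e1]
      by_cases hy : (y1 + k = y2 ↔ y1 + k + 1 = y1)
      · rw [h2.2 hy, ih]; omega
      · have h3 : S (dbl (r, y1 + k + 1)) = true ↔ ¬ S (dbl (r, y1 + k)) = true := by tauto
        rw [h3, ih]; omega
  have down : ∀ k : ℕ, S (dbl (r, y1 - k)) = true ↔
      (y1 ≤ y1 - k ∧ y1 - k ≤ y2) ∨ (y2 < y1 ∧ (y1 ≤ y1 - (k : ℤ) ∨ y1 - k ≤ y2)) := by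
    intro k
    induction k with
    | zero =>
      have e1 : y1 - ((0 : ℕ) : ℤ) = y1 := by simp
      rw [e1]; simp only [h1, true_iff]; omega
    | succ k ih =>
      have h2 := V_rec (y1 - (k + 1 : ℕ)) h hS
      have e1 : y1 - ((k + 1 : ℕ) : ℤ) + 1 = y1 - k := by push_cast; ring
      rw [e1] at h2
      by_cases hy : (y1 - ((k + 1 : ℕ) : ℤ) = y2 ↔ y1 - (k : ℤ) = y1)
      · rw [← h2.2 hy, ih]; push_cast at hy ⊢; omega
      · have h3 : S (dbl (r, y1 - (k + 1 : ℕ))) = true ↔ ¬ S (dbl (r, y1 - k)) = true := by tauto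
        rw [h3, ih]; push_cast at hy ⊢; omega
  rcases le_total y1 y with hy | hy
  · obtain ⟨k, rfl⟩ : ∃ k : ℕ, y = y1 + k := ⟨(y - y1).toNat, by omega⟩
    exact up k
  · obtain ⟨k, rfl⟩ : ∃ k : ℕ, y = y1 - k := ⟨(y1 - y).toNat, by omega⟩
    exact down k

end main

end TrackAux

open TrackAux in
/-- The two-colouring of the plane cut along the two strands and the two horizontal rays. -/
theorem exists_TC {r L : ℤ} (hr : 1 ≤ r) (hL : r ≤ L) {ω : Finset (ℤ × ℤ)} {c : ℤ × ℤ} (hc : C0 c)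
    {y1 y2 : ℤ} (h : East r L ω c y1 y2) : ∃ S, TC r L ω c y1 y2 S := by
  obtain ⟨S, hS, hstr⟩ := exists_S h
  have hy1 : S (dbl (r, y1)) = true := by
    have h1 := (hstr _ (FX_Str h.1)).1
    rwa [(quad_h r y1).v1] at h1
  refine ⟨S, ⟨hstr, ?_, ?_, ?_, ?_, ?_, ?_⟩⟩
  · intro u v huv hB hU
    obtain ⟨f, g, z1, z2, z3, z4, q⟩ := quad_of_uv huv
    rw [q.mem_UU] at hU
    have n1 : ¬ ZZ r L ω c y1 y2 z1 := by
      rw [q.Z_iff hB (Or.inl rfl)]; tauto
    have n3 : ¬ ZZ r L ω c y1 y2 z3 := by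
      rw [q.Z_iff hB (Or.inr (Or.inr (Or.inl rfl)))]; tauto
    have a1 := Col_eq hS n1
    have a3 := Col_eq hS n3
    rw [q.v1, q.f1] at a1
    rw [q.v3, q.f3] at a3
    rw [a1, a3]
  · intro f g hfg hB hU
    obtain ⟨u, v, z1, z2, z3, z4, q⟩ := quad_of_fg hfg
    rw [q.mem_UU] at hU
    have n1 : ¬ ZZ r L ω c y1 y2 z1 := by
      rw [q.Z_iff hB (Or.inl rfl)]; tauto
    have n2 : ¬ ZZ r L ω c y1 y2 z2 := by
      rw [q.Z_iff hB (Or.inr (Or.inl rfl))]; tauto
    have a1 := Col_eq hS n1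
    have a2 := Col_eq hS n2
    rw [q.v1, q.f1] at a1
    rw [q.v2, q.f2] at a2
    rw [← a1, ← a2]
  · intro u v huv hU hu
    obtain ⟨f, g, z1, z2, z3, z4, q⟩ := quad_of_uv huv
    rw [q.mem_UU] at hU
    obtain ⟨hB, hU⟩ := hU
    by_contra hno
    have n1 : ¬ Str (BE r L) ω c z1 := fun hs => hno ⟨z1, hs, q.v1⟩
    have n2 : ¬ Str (BE r L) ω c z2 := fun hs => hno ⟨z2, hs, q.v2⟩
    by_cases ho : u + v ∈ ω
    · have h3 := q.open_iff (c := c) hB ho
      rcases hU with hU | hU | hU | hU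
      · exact n1 hU
      · exact n2 hU
      · exact n1 (h3.1.1 hU)
      · exact n2 (h3.2.2 hU)
    · have h3 := q.closed_iff (c := c) hB ho
      have s3 : Str (BE r L) ω c z3 := by
        rcases hU with hU | hU | hU | hU
        · exact absurd hU n1
        · exact absurd hU n2
        · exact hU
        · exact h3.2.2 hU
      have m1 : ¬ ZZ r L ω c y1 y2 z1 := by
        rw [q.Z_iff hB (Or.inl rfl)]; exact n1
      have a1 := Col_eq hS m1
      rw [q.v1, q.f1, hu] at a1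
      have a3 := (hstr _ s3).2
      rw [q.f3, ← a1] at a3
      exact absurd a3 (by simp)
  · intro f g hfg hU hf
    obtain ⟨u, v, z1, z2, z3, z4, q⟩ := quad_of_fg hfg
    rw [q.mem_UU] at hU
    obtain ⟨hB, hU⟩ := hU
    by_contra hno
    have hfi : ∀ z, fce z = fp f → fi z = f := by
      intro z hz
      unfold fce fp at hz
      simp only [Prod.mk.injEq] at hz
      unfold fi
      refine Prod.ext ?_ ?_ <;> simp only <;> omega
    have n1 : ¬ Str (BE r L) ω c z1 := fun hs => hno ⟨z1, hs, hfi _ q.f1⟩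
    have n3 : ¬ Str (BE r L) ω c z3 := fun hs => hno ⟨z3, hs, hfi _ q.f3⟩
    by_cases ho : f + g - (1, 1) ∈ ω
    · have h3 := q.open_iff (c := c) hB ho
      have s2 : Str (BE r L) ω c z2 := by
        rcases hU with hU | hU | hU | hU
        · exact absurd hU n1
        · exact hU
        · exact absurd hU n3
        · exact h3.2.2 hU
      have m1 : ¬ ZZ r L ω c y1 y2 z1 := by
        rw [q.Z_iff hB (Or.inl rfl)]; exact n1
      have a1 := Col_eq hS m1
      rw [q.v1, q.f1, hf] at a1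
      have a2 := (hstr _ s2).1
      rw [q.v2, a1] at a2
      exact absurd a2 (by simp)
    · have h3 := q.closed_iff (c := c) hB ho
      rcases hU with hU | hU | hU | hU
      · exact n1 hU
      · exact n1 (h3.1.1 hU)
      · exact n3 hU
      · exact n3 (h3.2.2 hU)
  · intro x y hx
    rw [V_hor y h hS hx]
    exact V_form h hS hy1 y
  · intro x y hx
    have h1 := (V_step y h hS (x := x - 1) (by omega)).1
    rw [V_hor y h hS (x := x - 1) (by omega)] at h1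
    have e1 : x - 1 + 1 = x := by ring
    rw [e1] at h1
    have h2 := V_form h hS hy1 y
    by_cases hy : y = y1
    · have h3 := h1.2 hy
      have h4 : S (dbl (r, y)) = true := by rw [hy]; exact hy1
      rw [h4] at h3
      have h5 : S (fp (x, y)) = false := by
        cases hf : S (fp (x, y)) with
        | true => exact absurd hf.symm h3
        | false => rfl
      simp only [h5, true_iff]
      omega
    · have h3 : S (dbl (r, y)) = S (fp (x, y)) := by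
        by_contra hh; exact hy (h1.1 hh)
      rw [← h3]
      have h6 : S (dbl (r, y)) = false ↔ ¬ S (dbl (r, y)) = true := by simp
      rw [h6, h2]
      omega

end Pool.Agent.H75.TwoArm
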