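import Mathlib
import Pool.Agent.H75.TwoArm.Defs

set_option autoImplicit false
open Finset

/-! Crossing probabilities of long rectangles, in both colours. -/

namespace Pool.Agent.H75.TwoArm

open Pool.Agent.H75.Perc

namespace RswAux

/-- Complementation preserves the uniform measure. -/
lemma Pr_compl {α : Type*} [DecidableEq α] (E : Finset α) (A : Finset α → Prop) :
    Pr E (fun ω => A (E \ ω)) = Pr E A := by
  classical
  rw [Pr_eq, Pr_eq]
  congr 2
  apply card_nbij' (fun ω => E \ ω) (fun ω => E \ ω)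
  · intro ω hω
    rw [mem_coe, mem_filter, mem_powerset] at hω ⊢
    exact ⟨sdiff_subset, hω.2⟩
  · intro ω hω
    rw [mem_coe, mem_filter, mem_powerset] at hω ⊢
    refine ⟨sdiff_subset, ?_⟩
    rw [Finset.sdiff_sdiff_eq_self hω.1]
    exact hω.2
  · intro ω hω
    rw [mem_coe, mem_filter, mem_powerset] at hω
    exact Finset.sdiff_sdiff_eq_self hω.1
  · intro ω hω
    rw [mem_coe, mem_filter, mem_powerset] at hω
    exact Finset.sdiff_sdiff_eq_self hω.1

lemma Pr_du_eq (E : Finset (ℤ × ℤ)) (A : Finset (ℤ × ℤ) → Prop) :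
    Pr E (fun ω => A (du E ω)) = Pr (E.map sh1) A := by
  rw [Pr_map]
  exact Pr_compl E (fun ω => A (ω.map sh1))

/-- positivity of a probability -/
lemma Pr_pos {α : Type*} [DecidableEq α] (E : Finset α) (A : Finset α → Prop) (h : A E) :
    0 < Pr E A := by
  classical
  rw [Pr_eq]
  apply div_pos _ (by positivity)
  have : 0 < (E.powerset.filter A).card :=
    card_pos.2 ⟨E, mem_filter.2 ⟨mem_powerset.2 (subset_refl _), h⟩⟩
  exact_mod_cast this

lemma co_line (h : ℤ) (hh : 0 ≤ h) (w : ℕ) : ∀ n : ℕ, n ≤ w →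
    Co (Bx 0 w 0 h) (0, 0) ((n : ℤ), 0) := by
  intro n
  induction n with
  | zero => intro _; exact Co.refl _ _
  | succ n ih =>
    intro hn
    refine Relation.ReflTransGen.tail (ih (by omega)) ⟨?_, ?_⟩
    · left
      refine Prod.ext ?_ ?_ <;> simp
    · rw [mem_Bx]
      simp only [Prod.mk_add_mk]
      push_cast
      refine ⟨⟨by omega, by omega⟩, ⟨trivial, by omega⟩, by omega⟩

lemma fc_pos (w h : ℕ) : 0 < fc w h := by
  apply Pr_pos
  refine ⟨(0, 0), ((w : ℤ), 0), ?_, rfl, rfl, ?_⟩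
  · unfold inB; simp only; omega
  · rw [inter_self]
    exact co_line h (by omega) w w le_rfl

lemma fc_even (j : ℕ) : ∀ m : ℕ, 1 ≤ m →
    (1 / 256 : ℝ) ^ j * (1 / 128) ≤ fc ((3 + j : ℕ) * (m : ℤ)) (2 * m) := by
  induction j with
  | zero =>
    intro m hm
    have := fc_three hm
    simpa using this
  | succ j ih =>
    intro m hm
    have h1 := ih m hm
    have h2 := fc_three hm
    have h3 := fc_square (2 * m)
    push_cast at h3
    have h4 := fc_glue (w1 := ((3 + j : ℕ) : ℤ) * (m : ℤ)) (w2 := 3 * m) (v := 2 * m)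
      (h := 2 * m) (by omega) (by push_cast; nlinarith) (by omega)
    have e1 : ((3 + j : ℕ) : ℤ) * (m : ℤ) + 3 * m - 2 * m = ((3 + (j + 1) : ℕ) : ℤ) * (m : ℤ) := by
      push_cast; ring
    rw [e1] at h4
    refine le_trans ?_ h4
    have p1 : (0 : ℝ) ≤ (1 / 256 : ℝ) ^ j * (1 / 128) := by positivity
    have h5 : (1 / 256 : ℝ) ^ j * (1 / 128) * (1 / 128) ≤
        fc (((3 + j : ℕ) : ℤ) * (m : ℤ)) (2 * m) * fc (3 * m) (2 * m) :=
      mul_le_mul h1 h2 (by norm_num) (p1.trans h1)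
    have h6 : (1 / 256 : ℝ) ^ j * (1 / 128) * (1 / 128) * (1 / 2) ≤
        fc (((3 + j : ℕ) : ℤ) * (m : ℤ)) (2 * m) * fc (3 * m) (2 * m) * fc (2 * m) (2 * m) :=
      mul_le_mul h5 h3 (by norm_num) (le_trans (by positivity) h5)
    refine le_trans (le_of_eq ?_) h6
    rw [pow_succ]; ring

lemma Inc_forall {α ι : Type*} [DecidableEq α] (I : Finset ι) (A : ι → Finset α → Prop)
    (hA : ∀ i ∈ I, Inc (A i)) : Inc (fun ω => ∀ i ∈ I, A i ω) :=
  fun _ _ h h' i hi => hA i hi _ _ h (h' i hi)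

/-- Harris inequality for finitely many events. -/
lemma harris_prod {α ι : Type*} [DecidableEq α] (E : Finset α) (I : Finset ι)
    (A : ι → Finset α → Prop) (hA : ∀ i ∈ I, Inc (A i)) :
    ∏ i ∈ I, Pr E (A i) ≤ Pr E (fun ω => ∀ i ∈ I, A i ω) := by
  classical
  induction I using Finset.induction_on with
  | empty =>
    rw [prod_empty]
    have : Pr E (fun ω => ∀ i ∈ (∅ : Finset ι), A i ω) = Pr E (fun _ => True) :=
      Pr_congr fun ω _ => by simp
    rw [this, Pr_true]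
  | @insert a s ha ih =>
    rw [prod_insert ha]
    have h1 := ih (fun i hi => hA i (mem_insert_of_mem hi))
    have h2 := Pr_harris E (hA a (mem_insert_self _ _))
      (Inc_forall s A (fun i hi => hA i (mem_insert_of_mem hi)))
    refine (mul_le_mul_of_nonneg_left h1 (Pr_nonneg _ _)).trans (h2.trans (le_of_eq ?_))
    exact Pr_congr fun ω _ => by simp

lemma du_inter {E E2 : Finset (ℤ × ℤ)} (h2 : E2 ⊆ E) (ω : Finset (ℤ × ℤ)) :
    du E ω ∩ E2.map sh1 = du E2 (ω ∩ E2) := by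
  unfold du
  rw [← map_inter]
  congr 1
  ext x
  simp only [mem_inter, mem_sdiff, not_and]
  constructor
  · rintro ⟨⟨_, h4⟩, h5⟩
    exact ⟨h5, fun h6 => absurd h6 h4⟩
  · rintro ⟨h3, h4⟩
    exact ⟨⟨h2 h3, fun h6 => h4 h6 h3⟩, h3⟩

end RswAux

open RswAux

theorem fc_ratio (k : ℕ) : ∃ c : ℝ, 0 < c ∧ ∀ n : ℕ, 1 ≤ n → c ≤ fc (k * n) n := by
  refine ⟨min ((1 / 256 : ℝ) ^ (3 * k) * (1 / 128)) (fc k 1), ?_, ?_⟩
  · apply lt_min
    · positivity
    · have := fc_pos k 1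
      simpa using this
  · intro n hn
    rcases Nat.lt_or_ge n 2 with h2 | h2
    · have : n = 1 := by omega
      subst this
      simp
    · refine (min_le_left _ _).trans ?_
      set m := n / 2 with hm
      have hm1 : 1 ≤ m := by omega
      have h3 := fc_even (3 * k) m hm1
      refine h3.trans ?_
      have h4 : fc (k * n) (2 * m) ≤ fc (k * n) n := fc_mono (by omega)
      refine le_trans ?_ h4
      apply fc_anti
      · positivity
      · have h5 : (n : ℤ) ≤ 3 * m := by omega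
        have h6 : (k : ℤ) * n ≤ k * (3 * m) := mul_le_mul_of_nonneg_left h5 (by positivity)
        push_cast
        nlinarith

theorem hc_ratio (k : ℕ) : ∃ c : ℝ, 0 < c ∧ ∀ w h : ℤ, 0 ≤ w → 1 ≤ h → w ≤ k * h → c ≤ fc w h := by
  obtain ⟨c, hc, hk⟩ := fc_ratio k
  refine ⟨c, hc, ?_⟩
  intro w h hw hh hwh
  obtain ⟨n, rfl⟩ := Int.eq_ofNat_of_zero_le (show (0 : ℤ) ≤ h by omega)
  have hn : 1 ≤ n := by exact_mod_cast hh
  exact (hk n hn).trans (fc_anti hw hwh)

theorem Pr_HC_du {E : Finset (ℤ × ℤ)} {a b c d : ℤ}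
    (h : ∀ e ∈ Bx a b c d, ((e.1 - 1, e.2 - 1) : ℤ × ℤ) ∈ E) :
    Pr E (fun ω => HC a b c d (du E ω)) = fc (b - a) (d - c) := by
  rw [Pr_du_eq E (HC a b c d)]
  apply Pr_HC'
  intro e he
  exact mem_map.2 ⟨_, h e he, Prod.ext (by simp [sh1]) (by simp [sh1])⟩

theorem Pr_VC {E : Finset (ℤ × ℤ)} {a b c d : ℤ} (h : Bx a b c d ⊆ E) :
    Pr E (VC a b c d) = fc (d - c) (b - a) := Perc.Pr_VC h

theorem Pr_VC_du {E : Finset (ℤ × ℤ)} {a b c d : ℤ}
    (h : ∀ e ∈ Bx a b c d, ((e.1 - 1, e.2 - 1) : ℤ × ℤ) ∈ E) :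
    Pr E (fun ω => VC a b c d (du E ω)) = fc (d - c) (b - a) := by
  rw [Pr_du_eq E (VC a b c d)]
  apply Perc.Pr_VC
  intro e he
  exact mem_map.2 ⟨_, h e he, Prod.ext (by simp [sh1]) (by simp [sh1])⟩

/-- Increasing events of the primal configuration on `E1` and increasing events of the dual
configuration on the disjoint set `E2` are simultaneously realised. -/
theorem Pr_two_colours {E E1 E2 : Finset (ℤ × ℤ)} (h1 : E1 ⊆ E) (h2 : E2 ⊆ E) (hd : Disjoint E1 E2)
    {ι κ : Type*} (I : Finset ι) (J : Finset κ) (A : ι → Finset (ℤ × ℤ) → Prop)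
    (B : κ → Finset (ℤ × ℤ) → Prop) (hA : ∀ i ∈ I, Inc (A i)) (hB : ∀ j ∈ J, Inc (B j))
    (hA' : ∀ i ∈ I, ∀ ω, A i ω → A i (ω ∩ E1))
    (hB' : ∀ j ∈ J, ∀ ω, B j ω → B j (ω ∩ E2.map sh1)) :
    (∏ i ∈ I, Pr E (A i)) * (∏ j ∈ J, Pr E (fun ω => B j (du E ω))) ≤
      Pr E (fun ω => (∀ i ∈ I, A i ω) ∧ (∀ j ∈ J, B j (du E ω))) := by
  have key : Pr E (fun ω => (∀ i ∈ I, A i ω) ∧ (∀ j ∈ J, B j (du E ω))) =
      Pr E1 (fun ω => ∀ i ∈ I, A i ω) * Pr E2 (fun η => ∀ j ∈ J, B j (du E2 η)) := by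
    rw [← Pr_indep h1 h2 hd (fun ω => ∀ i ∈ I, A i ω) (fun η => ∀ j ∈ J, B j (du E2 η))]
    apply Pr_congr
    intro ω _
    constructor
    · rintro ⟨h3, h4⟩
      refine ⟨fun i hi => hA' i hi _ (h3 i hi), fun j hj => ?_⟩
      have := hB' j hj _ (h4 j hj)
      rwa [du_inter h2] at this
    · rintro ⟨h3, h4⟩
      refine ⟨fun i hi => hA i hi _ _ inter_subset_left (h3 i hi), fun j hj => ?_⟩
      have := h4 j hj
      rw [← du_inter h2] at this
      exact hB j hj _ _ inter_subset_left this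
  rw [key]
  have e1 : ∏ i ∈ I, Pr E (A i) = ∏ i ∈ I, Pr E1 (A i) := by
    apply prod_congr rfl
    intro i hi
    rw [← Pr_restrict h1 (A i)]
    exact Pr_congr fun ω _ => ⟨hA' i hi ω, hA i hi _ _ inter_subset_left⟩
  have e2 : ∏ j ∈ J, Pr E (fun ω => B j (du E ω)) = ∏ j ∈ J, Pr (E2.map sh1) (B j) := by
    apply prod_congr rfl
    intro j hj
    rw [← Pr_du_eq E2 (B j), ← Pr_restrict h2 (fun η => B j (du E2 η))]
    apply Pr_congr
    intro ω _
    rw [← du_inter h2]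
    exact ⟨hB' j hj _, hB j hj _ _ inter_subset_left⟩
  have e3 : Pr E2 (fun η => ∀ j ∈ J, B j (du E2 η)) =
      Pr (E2.map sh1) (fun ω => ∀ j ∈ J, B j ω) :=
    Pr_du_eq E2 (fun ω => ∀ j ∈ J, B j ω)
  rw [e1, e2, e3]
  apply mul_le_mul (harris_prod E1 I A hA) (harris_prod (E2.map sh1) J B hB)
  · exact prod_nonneg fun j _ => Pr_nonneg _ _
  · exact Pr_nonneg _ _

end Pool.Agent.H75.TwoArm
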