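import Mathlib
import Pool.Agent.H75.TwoArm.Defs

set_option autoImplicit false
open Finset

/-! Hooking the end of a strand to a path of fresh edges (TA6): the combinatorial core, from the
two-colouring `TC` and the connection property of the strands as hypotheses. -/

namespace Pool.Agent.H75.TwoArm.HookAux

open Pool.Agent.H75.Perc

/-- The part of a horizontal path in the left columns meets a vertical crossing of these columns. -/
lemma meet {a b m c d c' d' : ℤ} {ω : Finset (ℤ × ℤ)} (h1 : a ≤ m) (h2 : m < b) (h3 : c' ≤ c)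
    (h4 : d ≤ d') {p q v0 v1 : ℤ × ℤ} (hp : inB a b c d p) (hp1 : p.1 = a) (hq1 : q.1 = b)
    (hpq : Co (ω ∩ Bx a b c d) p q) (hv0 : inB a m c' d' v0) (hv02 : v0.2 = c')
    (hv1 : v1.2 = d') (hv : Co (ω ∩ Bx a m c' d') v0 v1) :
    ∃ z, Co (ω ∩ Bx a b c d) p z ∧ Co (ω ∩ Bx a m c' d') v0 z := by
  obtain ⟨z, z', hz, hz', had, hcx, -⟩ := exit_co (X := inB a m c d) hpq
    (by unfold inB at hp ⊢; omega) (by unfold inB; omega)
  have hz1 : z.1 = m := by
    have h5 := unit_cases had.1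
    have h6 := (had.inB inter_subset_right).2
    unfold inB at hz hz' h6
    omega
  have hbox := hcx.box (fun z hz => hz) (by unfold inB at hp ⊢; omega)
  obtain ⟨w, hw1, hw2⟩ := cross_co (a := a) (b := m) (c := c') (d := d')
    (ω1 := (ω ∩ Bx a b c d) ∩ Bx a m c d) (ω2 := ω ∩ Bx a m c' d')
    (inter_subset_right.trans (Bx_sub le_rfl le_rfl h3 h4)) inter_subset_right
    (by unfold inB at hp ⊢; omega) hv0 hbox hv hp1 hz1 hv02 hv1
  exact ⟨w, hw1.mono inter_subset_left, hw2⟩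

/-- A connection in a rectangle is a connection inside any set containing the rectangle. -/
lemma coX_of_box {a b c d : ℤ} {ω : Finset (ℤ × ℤ)} {P : ℤ × ℤ → Prop}
    (hP : ∀ z, inB a b c d z → P z) {u v : ℤ × ℤ} (h : Co (ω ∩ Bx a b c d) u v) :
    CoX ω P u v := by
  induction h with
  | refl => exact Relation.ReflTransGen.refl
  | tail _ hbc ih =>
    exact Relation.ReflTransGen.tail ih ⟨hbc.mono inter_subset_left,
      hP _ (hbc.inB inter_subset_right).2⟩

/-- The union of the three crossings connects the ends of the two horizontal ones. -/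
lemma join {a b b' m c d c' d' cc dd : ℤ} {ω : Finset (ℤ × ℤ)} (h1 : a ≤ m) (h2 : m < b)
    (h2' : m < b') (h3 : cc ≤ c) (h4 : d ≤ dd) (h3' : cc ≤ c') (h4' : d' ≤ dd)
    {P : ℤ × ℤ → Prop}
    (hP1 : ∀ z, inB a b c d z → P z) (hP2 : ∀ z, inB a b' c' d' z → P z)
    (hP3 : ∀ z, inB a m cc dd z → P z)
    {p q : ℤ × ℤ} (hp : inB a b c d p) (hp1 : p.1 = a) (hq1 : q.1 = b)
    (hpq : Co (ω ∩ Bx a b c d) p q) (hV : VC a m cc dd ω) (hH : HC a b' c' d' ω) :
    ∃ q', inB a b' c' d' q' ∧ q'.1 = b' ∧ CoX ω P q q' := by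
  obtain ⟨v0, v1, hv0, hv02, hv1, hv⟩ := hV
  obtain ⟨p', q', hp', hp1', hq1', hpq'⟩ := hH
  obtain ⟨z, hz1, hz2⟩ := meet h1 h2 h3 h4 hp hp1 hq1 hpq hv0 hv02 hv1 hv
  obtain ⟨z', hz1', hz2'⟩ := meet h1 h2' h3' h4' hp' hp1' hq1' hpq' hv0 hv02 hv1 hv
  refine ⟨q', hpq'.inB inter_subset_right hp', hq1', ?_⟩
  have e1 : CoX ω P q z := coX_of_box hP1 (hpq.symm.trans hz1)
  have e2 : CoX ω P z z' := coX_of_box hP3 (hz2.symm.trans hz2')
  have e3 : CoX ω P z' q' := coX_of_box hP2 (hz1'.symm.trans hpq')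
  exact (Relation.ReflTransGen.trans e1 e2).trans e3

lemma mem_du {E ω : Finset (ℤ × ℤ)} {x : ℤ × ℤ} :
    x ∈ du E ω ↔ x - (1, 1) ∈ E ∧ x - (1, 1) ∉ ω := by
  unfold du
  rw [Finset.mem_map]
  constructor
  · rintro ⟨e, he, rfl⟩
    rw [mem_sdiff] at he
    have : sh1 e - (1, 1) = e := by
      unfold sh1
      refine Prod.ext ?_ ?_ <;> simp
    rw [this]; exact he
  · intro h
    refine ⟨x - (1, 1), mem_sdiff.2 h, ?_⟩
    unfold sh1
    refine Prod.ext ?_ ?_ <;> simp

lemma UU_sub (B ω : Finset (ℤ × ℤ)) (c : ℤ × ℤ) : UU B ω c ⊆ B := by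
  classical
  unfold UU
  exact filter_subset _ _

theorem hook_open_core {r L s X y1 y2 : ℤ} (hr : 1 ≤ r) (hL : r ≤ L) (hs : 1 ≤ s)
    (hsr : 2 * s ≤ r)
    (hX : r + 1 ≤ X) (hy : 2 * s + 2 ≤ |y1 - y2|) (hyL : |y1| + 2 * s ≤ L)
    {ω ω' : Finset (ℤ × ℤ)} {c : ℤ × ℤ} {S : ℤ × ℤ → Bool} (hT : TC r L ω c y1 y2 S)
    (hco : ∀ z, Str (BE r L) ω c z → Co (ω ∩ UU (BE r L) ω c) (vx c) (vx z))
    {p q : ℤ × ℤ}
    (hp : inB (r - 2 * s) X (y1 + s) (y1 + 2 * s) p) (hp1 : p.1 = r - 2 * s) (hq1 : q.1 = X)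
    (hpq : Co (ω' ∩ Bx (r - 2 * s) X (y1 + s) (y1 + 2 * s)) p q)
    (h2 : VC (r - 2 * s) (r - s) (y1 - 2 * s) (y1 + 2 * s) ω')
    (h3 : HC (r - 2 * s) (r + 1) (y1 - 2 * s) (y1 - s) ω') :
    Co (mix (UU (BE r L) ω c) ω ω') (vx c) q := by
  set U := UU (BE r L) ω c with hU
  let P : ℤ × ℤ → Prop := fun u => r - 2 * s ≤ u.1 ∧ y1 - 2 * s ≤ u.2 ∧ u.2 ≤ y1 + 2 * s ∧
    (r ≤ u.1 → (y1 + s ≤ u.2 ∨ u.2 ≤ y1 - s))
  have hyL1 : -L ≤ y1 - 2 * s ∧ y1 + 2 * s ≤ L := by
    have := neg_abs_le y1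
    have := le_abs_self y1
    constructor <;> linarith
  have hy' : y1 - y2 ≥ 2 * s + 2 ∨ y2 - y1 ≥ 2 * s + 2 := by
    rcases le_abs.1 hy with h | h
    · left; linarith
    · right; linarith
  obtain ⟨q3, hq3, hq31, hwalk⟩ := join (ω := ω') (P := P) (a := r - 2 * s) (m := r - s)
    (b := X) (b' := r + 1) (c := y1 + s) (d := y1 + 2 * s) (c' := y1 - 2 * s) (d' := y1 - s)
    (cc := y1 - 2 * s) (dd := y1 + 2 * s)
    (by omega) (by omega) (by omega) (by omega) (by omega) (by omega) (by omega)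
    (by intro z hz; simp only [P]; unfold inB at hz; omega)
    (by intro z hz; simp only [P]; unfold inB at hz; omega)
    (by intro z hz; simp only [P]; unfold inB at hz; omega)
    hp hp1 hq1 hpq h2 h3
  have hqB : inB (r - 2 * s) X (y1 + s) (y1 + 2 * s) q := hpq.inB inter_subset_right hp
  have hPq : P q := by simp only [P]; unfold inB at hqB; omega
  -- colours far to the east
  have hup : ∀ u : ℤ × ℤ, r ≤ u.1 → y1 + s ≤ u.2 → u.2 ≤ y1 + 2 * s → S (dbl u) = true := by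
    intro u h1 h2 h3
    have := (hT.east u.1 u.2 h1).2 (by omega)
    exact this
  have hdn : ∀ u : ℤ × ℤ, r ≤ u.1 → y1 - 2 * s ≤ u.2 → u.2 ≤ y1 - s → S (dbl u) ≠ true := by
    intro u h1 h2 h3 h4
    have := (hT.east u.1 u.2 h1).1 h4
    omega
  have hmono : ω ∩ U ⊆ mix U ω ω' := by
    intro e he
    rw [mem_inter] at he
    exact mem_mix.2 (Or.inl he)
  have key : ∀ v, CoX ω' P q v → Co (mix U ω ω') (vx c) q ∨
      (P v ∧ S (dbl v) = true ∧ Co (mix U ω ω') v q) := by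
    intro v hv
    induction hv with
    | refl =>
      right
      refine ⟨hPq, hup q ?_ ?_ ?_, Co.refl _ _⟩ <;> unfold inB at hqB <;> omega
    | @tail u v _ hstep ih =>
      rcases ih with ih | ⟨hPu, hSu, hCu⟩
      · exact Or.inl ih
      · obtain ⟨had, hPv⟩ := hstep
        by_cases heU : u + v ∈ U
        · left
          obtain ⟨z, hz, hzu⟩ := hT.hit u v had.1 heU hSu
          have := (hco z hz).mono hmono
          rw [hzu] at this
          exact this.trans hCu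
        · right
          have heW : u + v ∈ mix U ω ω' := mem_mix.2 (Or.inr ⟨had.2, heU⟩)
          have hvq : Co (mix U ω ω') v q :=
            Relation.ReflTransGen.head (Ad.symm ⟨had.1, heW⟩) hCu
          refine ⟨hPv, ?_, hvq⟩
          by_cases heB : u + v ∈ BE r L
          · rw [← hT.fresh u v had.1 heB heU]; exact hSu
          · have huc := unit_cases had.1
            have hBE : ¬ ((2 * (-L) ≤ (u + v).1 ∧ (u + v).1 ≤ 2 * r) ∧
                (2 * (-L) ≤ (u + v).2 ∧ (u + v).2 ≤ 2 * L) ∧ ((u + v).1 + (u + v).2) % 2 = 1) := by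
              intro h
              exact heB (mem_Bx.2 h)
            simp only [Prod.fst_add, Prod.snd_add] at hBE
            simp only [P] at hPu hPv
            have hu1 : r ≤ u.1 := by omega
            have hv1 : r ≤ v.1 := by omega
            have hur : y1 + s ≤ u.2 := by
              by_contra hcon
              exact hdn u hu1 (by omega) (by omega) hSu
            exact hup v hv1 (by omega) (by omega)
  rcases key q3 hwalk with h | ⟨_, h, _⟩
  · exact h
  · exfalso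
    unfold inB at hq3
    exact hdn q3 (by omega) (by omega) (by omega) h

theorem hook_dual_core {r L s X y1 y2 : ℤ} (hr : 1 ≤ r) (hL : r ≤ L) (hs : 1 ≤ s)
    (hsr : 2 * s ≤ r)
    (hX : r + 2 ≤ X) (hy : 2 * s + 4 ≤ |y1 - y2|) (hyL : |y2| + 2 * s + 1 ≤ L)
    {E ω ω' : Finset (ℤ × ℤ)} (hE : BE r L ⊆ E) {c : ℤ × ℤ} {S : ℤ × ℤ → Bool}
    (hT : TC r L ω c y1 y2 S)
    (hco : ∀ z, Str (BE r L) ω c z → Co (du (UU (BE r L) ω c) ω) (fi c) (fi z))
    {p q : ℤ × ℤ}
    (hp : inB (r + 1 - 2 * s) X (y2 + 1 + s) (y2 + 1 + 2 * s) p) (hp1 : p.1 = r + 1 - 2 * s)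
    (hq1 : q.1 = X)
    (hpq : Co (du E ω' ∩ Bx (r + 1 - 2 * s) X (y2 + 1 + s) (y2 + 1 + 2 * s)) p q)
    (h2 : VC (r + 1 - 2 * s) (r + 1 - s) (y2 + 1 - 2 * s) (y2 + 1 + 2 * s) (du E ω'))
    (h3 : HC (r + 1 - 2 * s) (r + 2) (y2 + 1 - 2 * s) (y2 + 1 - s) (du E ω')) :
    Co (du E (mix (UU (BE r L) ω c) ω ω')) (fi c) q := by
  set U := UU (BE r L) ω c with hU
  let P : ℤ × ℤ → Prop := fun u => r + 1 - 2 * s ≤ u.1 ∧ y2 + 1 - 2 * s ≤ u.2 ∧
    u.2 ≤ y2 + 1 + 2 * s ∧ (r + 1 ≤ u.1 → (y2 + 1 + s ≤ u.2 ∨ u.2 ≤ y2 + 1 - s))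
  have hyL1 : -L + 1 ≤ y2 - 2 * s ∧ y2 + 2 * s ≤ L - 1 := by
    have := neg_abs_le y2
    have := le_abs_self y2
    constructor <;> linarith
  have hy' : y1 - y2 ≥ 2 * s + 4 ∨ y2 - y1 ≥ 2 * s + 4 := by
    rcases le_abs.1 hy with h | h
    · left; linarith
    · right; linarith
  obtain ⟨q3, hq3, hq31, hwalk⟩ := join (ω := du E ω') (P := P) (a := r + 1 - 2 * s)
    (m := r + 1 - s) (b := X) (b' := r + 2) (c := y2 + 1 + s) (d := y2 + 1 + 2 * s)
    (c' := y2 + 1 - 2 * s) (d' := y2 + 1 - s) (cc := y2 + 1 - 2 * s) (dd := y2 + 1 + 2 * s)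
    (by omega) (by omega) (by omega) (by omega) (by omega) (by omega) (by omega)
    (by intro z hz; simp only [P]; unfold inB at hz; omega)
    (by intro z hz; simp only [P]; unfold inB at hz; omega)
    (by intro z hz; simp only [P]; unfold inB at hz; omega)
    hp hp1 hq1 hpq h2 h3
  have hqB : inB (r + 1 - 2 * s) X (y2 + 1 + s) (y2 + 1 + 2 * s) q :=
    hpq.inB inter_subset_right hp
  have hPq : P q := by simp only [P]; unfold inB at hqB; omega
  have hup : ∀ u : ℤ × ℤ, r + 1 ≤ u.1 → y2 + 1 + s ≤ u.2 → u.2 ≤ y2 + 1 + 2 * s →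
      S (fp u) = false := by
    intro u h1 h2 h3
    have := (hT.eastd u.1 u.2 h1).2 (by omega)
    exact this
  have hdn : ∀ u : ℤ × ℤ, r + 1 ≤ u.1 → y2 + 1 - 2 * s ≤ u.2 → u.2 ≤ y2 + 1 - s →
      S (fp u) ≠ false := by
    intro u h1 h2 h3 h4
    have := (hT.eastd u.1 u.2 h1).1 h4
    omega
  have hmono : du U ω ⊆ du E (mix U ω ω') := by
    intro e he
    rw [mem_du] at he ⊢
    refine ⟨hE (UU_sub _ _ _ he.1), ?_⟩
    rw [mem_mix]
    rintro (h | h)
    · exact he.2 h.1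
    · exact h.2 he.1
  have key : ∀ v, CoX (du E ω') P q v → Co (du E (mix U ω ω')) (fi c) q ∨
      (P v ∧ S (fp v) = false ∧ Co (du E (mix U ω ω')) v q) := by
    intro v hv
    induction hv with
    | refl =>
      right
      refine ⟨hPq, hup q ?_ ?_ ?_, Co.refl _ _⟩ <;> unfold inB at hqB <;> omega
    | @tail u v _ hstep ih =>
      rcases ih with ih | ⟨hPu, hSu, hCu⟩
      · exact Or.inl ih
      · obtain ⟨had, hPv⟩ := hstep
        have hdu := mem_du.1 had.2
        by_cases heU : u + v - (1, 1) ∈ U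
        · left
          obtain ⟨z, hz, hzu⟩ := hT.hitd u v had.1 heU hSu
          have := (hco z hz).mono hmono
          rw [hzu] at this
          exact this.trans hCu
        · right
          have heW : u + v ∈ du E (mix U ω ω') := by
            rw [mem_du]
            refine ⟨hdu.1, ?_⟩
            rw [mem_mix]
            rintro (h | h)
            · exact heU h.2
            · exact hdu.2 h.1
          have hvq : Co (du E (mix U ω ω')) v q :=
            Relation.ReflTransGen.head (Ad.symm ⟨had.1, heW⟩) hCu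
          refine ⟨hPv, ?_, hvq⟩
          by_cases heB : u + v - (1, 1) ∈ BE r L
          · rw [← hT.freshd u v had.1 heB heU]; exact hSu
          · have huc := unit_cases had.1
            have hBE : ¬ ((2 * (-L) ≤ (u + v - (1, 1)).1 ∧ (u + v - (1, 1)).1 ≤ 2 * r) ∧
                (2 * (-L) ≤ (u + v - (1, 1)).2 ∧ (u + v - (1, 1)).2 ≤ 2 * L) ∧
                ((u + v - (1, 1)).1 + (u + v - (1, 1)).2) % 2 = 1) := by
              intro h
              exact heB (mem_Bx.2 h)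
            simp only [Prod.fst_add, Prod.snd_add, Prod.fst_sub, Prod.snd_sub] at hBE
            simp only [P] at hPu hPv
            have hu1 : r + 1 ≤ u.1 := by omega
            have hv1 : r + 1 ≤ v.1 := by omega
            have hur : y2 + 1 + s ≤ u.2 := by
              by_contra hcon
              exact hdn u hu1 (by omega) (by omega) hSu
            exact hup v hv1 (by omega) (by omega)
  rcases key q3 hwalk with h | ⟨_, h, _⟩
  · exact h
  · exfalso
    unfold inB at hq3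
    exact hdn q3 (by omega) (by omega) (by omega) h

end Pool.Agent.H75.TwoArm.HookAux
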