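import Mathlib
import Pool.Agent.H75.TwoArm.Defs
import Pool.Agent.H65.Perc.HalfDefs

set_option autoImplicit false
open Finset

/-! The exploration path of critical bond percolation in a rectangle with Dobrushin boundary
conditions. -/

namespace Pool.Agent.H75.TwoArm

open Pool.Agent.H75.Perc
open Pool.Agent.H65.Perc (PConf planeMeasure)

/-! ## The model as in the final statement -/

/-- Dobrushin boundary condition in the rectangle `[0,m] × [0,n]`: the edges outside the rectangle
are closed, the edges of the counterclockwise boundary arc from `(a,0)` to `(b,n)` are open, the other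
edges keep their state. (`(v, true)` is the edge from `v` to `v + (1,0)`, `(v, false)` the edge from
`v` to `v + (0,1)`.) -/
def dob (m n a b : ℕ) (ω : PConf) (e : (ℤ × ℤ) × Bool) : Bool :=
  if e.2 = true then
    decide ((0 ≤ e.1.1 ∧ e.1.1 < m) ∧ (0 ≤ e.1.2 ∧ e.1.2 ≤ n)) &&
      (decide ((e.1.2 = 0 ∧ (a : ℤ) ≤ e.1.1) ∨ (e.1.2 = n ∧ (b : ℤ) ≤ e.1.1)) || ω e)
  else
    decide ((0 ≤ e.1.1 ∧ e.1.1 ≤ m) ∧ (0 ≤ e.1.2 ∧ e.1.2 < n)) && (decide (e.1.1 = m) || ω e)

/-- the four directions: right, up, left, down -/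
def dirv : Fin 4 → ℤ × ℤ := ![(1, 0), (0, 1), (-1, 0), (0, -1)]

/-- the state of the edge which starts at the vertex `v` in direction `k` -/
def est (η : PConf) (v : ℤ × ℤ) (k : Fin 4) : Bool :=
  ![η (v, true), η (v, false), η (v - (1, 0), true), η (v - (0, 1), false)] k

/-- One step of the exploration. The position `(v, k)` is the medial edge at the vertex `v` in the
quadrant between the directions `k` and `k + 1`, i.e. the incidence of the vertex `v` and of the face
in this quadrant. If the edge from `v` in direction `k` is open, it is followed, with the same face on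
the left; if it is closed, the path crosses the quadrant boundary, with the same vertex on the right. -/
def xstep (η : PConf) (s : (ℤ × ℤ) × Fin 4) : (ℤ × ℤ) × Fin 4 :=
  if est η s.1 s.2 = true then (s.1 + dirv s.2, s.2 + 1) else (s.1, s.2 - 1)

open scoped ENNReal in
/-- The number of steps of the exploration path from `(a,0)` (medial edge outside, below left) to
`(b,n)` (medial edge outside, above left). -/
noncomputable def pathLen (m n a b : ℕ) (ω : PConf) : ℝ≥0∞ :=
  ⨅ (T : ℕ) (_ : (xstep (dob m n a b ω))^[T] (((a : ℤ), 0), 2) = (((b : ℤ), (n : ℤ)), 1)), (T : ℝ≥0∞)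

/-! ## The same with corners and finite sets of labels, for a general rectangle -/

/-- the edges of the counterclockwise boundary arc from `(a,y0)` to `(b,y1)` -/
noncomputable def arcE (x0 x1 y0 y1 a b : ℤ) : Finset (ℤ × ℤ) :=
  (Bx x0 x1 y0 y1).filter
    (fun e => (e.2 = 2 * y0 ∧ 2 * a ≤ e.1) ∨ e.1 = 2 * x1 ∨ (e.2 = 2 * y1 ∧ 2 * b ≤ e.1))

/-- Dobrushin boundary condition -/
noncomputable def wire (x0 x1 y0 y1 a b : ℤ) (ω : Finset (ℤ × ℤ)) : Finset (ℤ × ℤ) :=
  (ω ∩ Bx x0 x1 y0 y1) ∪ arcE x0 x1 y0 y1 a b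

/-- the corner `c` is visited by the exploration path strictly before its end -/
def Vis (x0 x1 y0 y1 a b : ℤ) (ω : Finset (ℤ × ℤ)) (c : ℤ × ℤ) : Prop :=
  ∃ i : ℕ, (pv (wire x0 x1 y0 y1 a b ω))^[i] (2 * a, 2 * y0) = c ∧
    ∀ j ≤ i, (pv (wire x0 x1 y0 y1 a b ω))^[j] (2 * a, 2 * y0) ≠ (2 * b, 2 * y1 + 1)

/-- the corner of a position -/
def cnr (s : (ℤ × ℤ) × Fin 4) : ℤ × ℤ :=
  ![(2 * s.1.1 + 1, 2 * s.1.2 + 1), (2 * s.1.1, 2 * s.1.2 + 1), (2 * s.1.1, 2 * s.1.2),
    (2 * s.1.1 + 1, 2 * s.1.2)] s.2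

/-- the four corners at the vertex `v` -/
def crn (v : ℤ × ℤ) (i : Fin 4) : ℤ × ℤ :=
  ![(2 * v.1, 2 * v.2), (2 * v.1 + 1, 2 * v.2), (2 * v.1, 2 * v.2 + 1),
    (2 * v.1 + 1, 2 * v.2 + 1)] i

end Pool.Agent.H75.TwoArm
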