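import Mathlib
import Pool.Agent.H75.TwoArm.Strand
import Pool.Agent.H75.TwoArm.Color
import Pool.Agent.H75.TwoArm.PathDefs

set_option autoImplicit false
open Finset

/-! TB1 (helper99): the exploration path in a rectangle as a cycle; interior corners with arms to the
right side and to the left side are visited. -/

namespace Pool.Agent.H75.TwoArm

open Pool.Agent.H75.Perc

namespace PathAux

variable {x0 x1 y0 y1 a b : ℤ} {ω : Finset (ℤ × ℤ)}

lemma mem_wire {e : ℤ × ℤ} : e ∈ wire x0 x1 y0 y1 a b ω ↔ e ∈ Bx x0 x1 y0 y1 ∧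
    (e ∈ ω ∨ (e.2 = 2 * y0 ∧ 2 * a ≤ e.1) ∨ e.1 = 2 * x1 ∨ (e.2 = 2 * y1 ∧ 2 * b ≤ e.1)) := by
  unfold wire arcE
  rw [mem_union, mem_inter, mem_filter]
  tauto

lemma wire_sub : wire x0 x1 y0 y1 a b ω ⊆ Bx x0 x1 y0 y1 := fun _ he => (mem_wire.1 he).1

/-- the box of corners -/
def inC (x0 x1 y0 y1 : ℤ) (c : ℤ × ℤ) : Prop :=
  (2 * x0 ≤ c.1 ∧ c.1 ≤ 2 * x1 + 1) ∧ (2 * y0 ≤ c.2 ∧ c.2 ≤ 2 * y1 + 1)

lemma inC_pv {w : Finset (ℤ × ℤ)} (hw : w ⊆ Bx x0 x1 y0 y1) {c : ℤ × ℤ}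
    (hc : inC x0 x1 y0 y1 c) : inC x0 x1 y0 y1 (pv w c) := by
  obtain ⟨p, q⟩ := c
  unfold inC at hc ⊢
  unfold pv
  simp only at hc ⊢
  split_ifs with h1 h2 h3 h3 h2 h3 h3
  all_goals
    first
      | (have h4 := mem_Bx.1 (hw h3); simp only at h4 ⊢; omega)
      | (simp only; omega)

lemma inC_iter {w : Finset (ℤ × ℤ)} (hw : w ⊆ Bx x0 x1 y0 y1) {c : ℤ × ℤ}
    (hc : inC x0 x1 y0 y1 c) (i : ℕ) : inC x0 x1 y0 y1 ((pv w)^[i] c) := by
  induction i with
  | zero => exact hc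
  | succ i ih => rw [Function.iterate_succ_apply']; exact inC_pv hw ih

lemma pv_injective (w : Finset (ℤ × ℤ)) : Function.Injective (pv w) :=
  Function.LeftInverse.injective (nx_pv w)

/-- the number of steps of the outer part -/
def NN (x1 y0 y1 a b : ℤ) : ℕ := (2 * x1 + 1 - 2 * b + (2 * y1 + 1 - 2 * y0) + (2 * x1 + 1 - 2 * a)).toNat

/-- the outer part of the loop -/
def outc (x1 y0 y1 b : ℤ) (k : ℕ) : ℤ × ℤ :=
  if (k : ℤ) ≤ 2 * x1 + 1 - 2 * b then (2 * b + k, 2 * y1 + 1)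
  else if (k : ℤ) ≤ 2 * x1 + 1 - 2 * b + (2 * y1 + 1 - 2 * y0) then
    (2 * x1 + 1, 2 * y1 + 1 - (k - (2 * x1 + 1 - 2 * b)))
  else (2 * x1 + 1 - (k - (2 * x1 + 1 - 2 * b + (2 * y1 + 1 - 2 * y0))), 2 * y0)

lemma pv_top (hy : y0 < y1) (hb : x0 ≤ b) (ω : Finset (ℤ × ℤ)) {p : ℤ} (h1 : 2 * b ≤ p)
    (h2 : p ≤ 2 * x1) :
    pv (wire x0 x1 y0 y1 a b ω) (p, 2 * y1 + 1) = (p + 1, 2 * y1 + 1) := by
  have e1 : (2 * y1 + 1) % 2 = 1 := by omega
  unfold pv
  simp only [e1]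
  rw [if_neg one_ne_zero]
  by_cases hp : p % 2 = 0
  · rw [if_pos hp, if_neg]
    intro h
    have := (mem_Bx.1 (wire_sub h))
    simp only at this
    omega
  · rw [if_neg hp, if_pos]
    rw [mem_wire, mem_Bx]
    simp only
    omega

lemma pv_right (hx : x0 < x1) (hy : y0 < y1) (ω : Finset (ℤ × ℤ)) {q : ℤ} (h1 : 2 * y0 < q)
    (h2 : q ≤ 2 * y1 + 1) :
    pv (wire x0 x1 y0 y1 a b ω) (2 * x1 + 1, q) = (2 * x1 + 1, q - 1) := by
  have e1 : ¬ (2 * x1 + 1) % 2 = 0 := by omega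
  unfold pv
  simp only [e1, if_false]
  by_cases hq : q % 2 = 0
  · rw [if_pos hq, if_pos]
    rw [mem_wire, mem_Bx]
    simp only
    omega
  · rw [if_neg hq, if_neg]
    intro h
    have := (mem_Bx.1 (wire_sub h))
    simp only at this
    omega

lemma pv_bot (hy : y0 < y1) (ha : x0 ≤ a ∧ a ≤ x1) (ω : Finset (ℤ × ℤ)) {p : ℤ} (h1 : 2 * a < p)
    (h2 : p ≤ 2 * x1 + 1) :
    pv (wire x0 x1 y0 y1 a b ω) (p, 2 * y0) = (p - 1, 2 * y0) := by
  have e1 : (2 * y0) % 2 = 0 := by omega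
  unfold pv
  simp only [e1, if_true]
  by_cases hp : p % 2 = 0
  · rw [if_pos hp, if_pos]
    rw [mem_wire, mem_Bx]
    exact ⟨by simp only; omega, Or.inr (Or.inl ⟨rfl, by simp only; omega⟩)⟩
  · rw [if_neg hp, if_neg]
    intro h
    have := (mem_Bx.1 (wire_sub h))
    simp only at this
    omega

lemma pv_outc (hx : x0 < x1) (hy : y0 < y1) (ha : x0 ≤ a ∧ a ≤ x1)
    (hb : x0 ≤ b ∧ b ≤ x1) (ω : Finset (ℤ × ℤ)) {k : ℕ} (hk : k < NN x1 y0 y1 a b) :
    pv (wire x0 x1 y0 y1 a b ω) (outc x1 y0 y1 b k) = outc x1 y0 y1 b (k + 1) := by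
  unfold NN at hk
  have hk' : (k : ℤ) < 2 * x1 + 1 - 2 * b + (2 * y1 + 1 - 2 * y0) + (2 * x1 + 1 - 2 * a) := by
    omega
  have hk0 : (0 : ℤ) ≤ k := Int.natCast_nonneg k
  unfold outc
  push_cast
  generalize (k : ℤ) = n at hk' hk0 ⊢
  rcases lt_trichotomy n (2 * x1 + 1 - 2 * b) with h1 | h1 | h1
  · rw [if_pos h1.le, if_pos (by omega), pv_top hy hb.1 ω (by omega) (by omega)]
    exact Prod.ext (by simp only; ring) rfl
  · rw [if_pos h1.le, if_neg (by omega), if_pos (by omega)]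
    have e : 2 * b + n = 2 * x1 + 1 := by omega
    rw [e, pv_right hx hy ω (by omega) (by omega)]
    exact Prod.ext rfl (by simp only; omega)
  · rw [if_neg (by omega), if_neg (by omega : ¬ n + 1 ≤ 2 * x1 + 1 - 2 * b)]
    rcases lt_trichotomy n (2 * x1 + 1 - 2 * b + (2 * y1 + 1 - 2 * y0)) with h2 | h2 | h2
    · rw [if_pos h2.le, if_pos (by omega), pv_right hx hy ω (by omega) (by omega)]
      exact Prod.ext rfl (by simp only; omega)
    · rw [if_pos h2.le, if_neg (by omega)]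
      have e : 2 * y1 + 1 - (n - (2 * x1 + 1 - 2 * b)) = 2 * y0 := by omega
      rw [e, pv_bot hy ha ω (by omega) (by omega)]
      exact Prod.ext (by simp only; omega) rfl
    · rw [if_neg (by omega), if_neg (by omega), pv_bot hy ha ω (by omega) (by omega)]
      exact Prod.ext (by simp only; omega) rfl

lemma iter_outc (hx : x0 < x1) (hy : y0 < y1) (ha : x0 ≤ a ∧ a ≤ x1)
    (hb : x0 ≤ b ∧ b ≤ x1) (ω : Finset (ℤ × ℤ)) : ∀ k : ℕ, k ≤ NN x1 y0 y1 a b →
    (pv (wire x0 x1 y0 y1 a b ω))^[k] (2 * b, 2 * y1 + 1) = outc x1 y0 y1 b k := by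
  intro k
  induction k with
  | zero =>
    intro _
    unfold outc
    rw [if_pos (by push_cast; omega)]
    simp
  | succ k ih =>
    intro hk
    rw [Function.iterate_succ_apply', ih (by omega), pv_outc hx hy ha hb ω (by omega)]

lemma outc_NN (hy : y0 < y1) (ha : x0 ≤ a ∧ a ≤ x1)
    (hb : x0 ≤ b ∧ b ≤ x1) : outc x1 y0 y1 b (NN x1 y0 y1 a b) = (2 * a, 2 * y0) := by
  have h : ((NN x1 y0 y1 a b : ℕ) : ℤ) =
      2 * x1 + 1 - 2 * b + (2 * y1 + 1 - 2 * y0) + (2 * x1 + 1 - 2 * a) := by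
    unfold NN
    omega
  unfold outc
  rw [h, if_neg (by omega), if_neg (by omega)]
  exact Prod.ext (by simp only; omega) rfl

lemma outc_bdry (x1 y0 y1 b : ℤ) (k : ℕ) :
    (outc x1 y0 y1 b k).2 = 2 * y1 + 1 ∨ (outc x1 y0 y1 b k).1 = 2 * x1 + 1 ∨
      (outc x1 y0 y1 b k).2 = 2 * y0 := by
  unfold outc
  split_ifs
  · exact Or.inl rfl
  · exact Or.inr (Or.inl rfl)
  · exact Or.inr (Or.inr rfl)

/-- the loop through the end points -/
lemma exists_T (hx : x0 < x1) (hy : y0 < y1) (ha : x0 ≤ a ∧ a ≤ x1)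
    (hb : x0 ≤ b ∧ b ≤ x1) (ω : Finset (ℤ × ℤ)) :
    ∃ T : ℕ, (pv (wire x0 x1 y0 y1 a b ω))^[T] (2 * a, 2 * y0) = (2 * b, 2 * y1 + 1) := by
  have hN : (pv (wire x0 x1 y0 y1 a b ω))^[NN x1 y0 y1 a b] (2 * b, 2 * y1 + 1) =
      (2 * a, 2 * y0) := by rw [iter_outc hx hy ha hb ω _ le_rfl, outc_NN hy ha hb]
  obtain ⟨L, hL⟩ := exists_orb (pv (wire x0 x1 y0 y1 a b ω)) (pv_injective _)
    ((Icc (2 * x0) (2 * x1 + 1)) ×ˢ (Icc (2 * y0) (2 * y1 + 1)))
    (fun x hx' => by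
      rw [mem_product, mem_Icc, mem_Icc] at hx' ⊢
      exact inC_pv wire_sub hx') (2 * b, 2 * y1 + 1) (by
      rw [mem_product, mem_Icc, mem_Icc]
      simp only
      omega)
  have hper : ∀ m : ℕ, (pv (wire x0 x1 y0 y1 a b ω))^[m * L] (2 * b, 2 * y1 + 1) =
      (2 * b, 2 * y1 + 1) := by
    intro m
    induction m with
    | zero => simp
    | succ m ih => rw [Nat.succ_mul, hL.add, ih]
  refine ⟨NN x1 y0 y1 a b * L - NN x1 y0 y1 a b, ?_⟩
  have h1 := hper (NN x1 y0 y1 a b)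
  have h2 : NN x1 y0 y1 a b * L = (NN x1 y0 y1 a b * L - NN x1 y0 y1 a b) + NN x1 y0 y1 a b := by
    have : NN x1 y0 y1 a b ≤ NN x1 y0 y1 a b * L := Nat.le_mul_of_pos_right _ hL.pos
    omega
  rw [h2, Function.iterate_add_apply, hN] at h1
  exact h1

end PathAux

open PathAux

theorem card_vis {x0 x1 y0 y1 a b : ℤ} (hx : x0 < x1) (hy : y0 < y1) (ha : x0 ≤ a ∧ a ≤ x1)
    (hb : x0 ≤ b ∧ b ≤ x1) (ω : Finset (ℤ × ℤ)) :
    (∀ c, Vis x0 x1 y0 y1 a b ω c → (2 * x0 ≤ c.1 ∧ c.1 ≤ 2 * x1 + 1) ∧ (2 * y0 ≤ c.2 ∧ c.2 ≤ 2 * y1 + 1)) ∧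
    ∃ T : ℕ, (pv (wire x0 x1 y0 y1 a b ω))^[T] (2 * a, 2 * y0) = (2 * b, 2 * y1 + 1) ∧
      (∀ j < T, (pv (wire x0 x1 y0 y1 a b ω))^[j] (2 * a, 2 * y0) ≠ (2 * b, 2 * y1 + 1)) ∧
      T = (@Finset.filter _ (Vis x0 x1 y0 y1 a b ω) (Classical.decPred _)
        ((Icc (2 * x0) (2 * x1 + 1)) ×ˢ (Icc (2 * y0) (2 * y1 + 1)))).card := by
  classical
  have hst : inC x0 x1 y0 y1 (2 * a, 2 * y0) := by
    unfold inC
    simp only
    omega
  have h1 : ∀ c, Vis x0 x1 y0 y1 a b ω c →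
      (2 * x0 ≤ c.1 ∧ c.1 ≤ 2 * x1 + 1) ∧ (2 * y0 ≤ c.2 ∧ c.2 ≤ 2 * y1 + 1) := by
    rintro c ⟨i, rfl, -⟩
    exact inC_iter wire_sub hst i
  refine ⟨h1, ?_⟩
  have hT := exists_T hx hy ha hb ω
  refine ⟨Nat.find hT, Nat.find_spec hT, fun j hj => Nat.find_min hT hj, ?_⟩
  have hmin : ∀ j < Nat.find hT,
      (pv (wire x0 x1 y0 y1 a b ω))^[j] (2 * a, 2 * y0) ≠ (2 * b, 2 * y1 + 1) :=
    fun j hj => Nat.find_min hT hj
  have hspec := Nat.find_spec hT
  generalize Nat.find hT = T at hmin hspec ⊢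
  have himg : (@Finset.filter _ (Vis x0 x1 y0 y1 a b ω) (Classical.decPred _)
        ((Icc (2 * x0) (2 * x1 + 1)) ×ˢ (Icc (2 * y0) (2 * y1 + 1)))) =
      (range T).image (fun i => (pv (wire x0 x1 y0 y1 a b ω))^[i] (2 * a, 2 * y0)) := by
    ext c
    rw [mem_filter, mem_image, mem_product, mem_Icc, mem_Icc]
    constructor
    · rintro ⟨-, i, hi, hj⟩
      refine ⟨i, ?_, hi⟩
      rw [mem_range]
      by_contra hcon
      exact hj T (by omega) hspec
    · rintro ⟨i, hi, hc⟩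
      rw [mem_range] at hi
      have hv : Vis x0 x1 y0 y1 a b ω c := ⟨i, hc, fun j hj => hmin j (by omega)⟩
      exact ⟨h1 c hv, hv⟩
  rw [himg, card_image_of_injOn, card_range]
  have key : ∀ i j : ℕ, i < j → j < T →
      (pv (wire x0 x1 y0 y1 a b ω))^[i] (2 * a, 2 * y0) ≠
      (pv (wire x0 x1 y0 y1 a b ω))^[j] (2 * a, 2 * y0) := by
    intro i j hij hj he
    apply hmin (T - j + i) (by omega)
    rw [Function.iterate_add_apply, he, ← Function.iterate_add_apply]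
    have : T - j + j = T := by omega
    rw [this, hspec]
  intro i hi j hj he
  rw [mem_coe, mem_range] at hi hj
  simp only at he
  rcases lt_trichotomy i j with h | h | h
  · exact absurd he (key i j h hj)
  · exact h
  · exact absurd he.symm (key j i h hi)

/-- a corner in the interior with arms to the right side and to the left side is visited -/
theorem vis_of_arms {x0 x1 y0 y1 a b : ℤ} (hx : x0 < x1) (hy : y0 < y1) (ha : x0 ≤ a ∧ a ≤ x1)
    (hb : x0 ≤ b ∧ b ≤ x1) {ω : Finset (ℤ × ℤ)} {c q g : ℤ × ℤ}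
    (hc1 : x0 < (vx c).1 ∧ (vx c).1 < x1) (hc2 : y0 < (vx c).2 ∧ (vx c).2 < y1)
    (h1 : Co (wire x0 x1 y0 y1 a b ω) (vx c) q) (hq : q.1 = x1)
    (h2 : Co (du (Bx x0 x1 y0 y1) (wire x0 x1 y0 y1 a b ω)) (fi c) g) (hg : g.1 = x0) :
    Vis x0 x1 y0 y1 a b ω c := by
  classical
  have hT := exists_T hx hy ha hb ω
  have hmin : ∀ j < Nat.find hT,
      (pv (wire x0 x1 y0 y1 a b ω))^[j] (2 * a, 2 * y0) ≠ (2 * b, 2 * y1 + 1) :=
    fun j hj => Nat.find_min hT hj
  have hspec := Nat.find_spec hT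
  generalize Nat.find hT = T at hmin hspec
  clear hT
  have hW : wire x0 x1 y0 y1 a b ω ⊆ Bx x0 x1 y0 y1 := wire_sub
  have hout := iter_outc hx hy ha hb ω
  have harc1 : ∀ y, y0 ≤ y → y < y1 → (2 * x1, 2 * y + 1) ∈ wire x0 x1 y0 y1 a b ω := by
    intro y h3 h4
    rw [mem_wire, mem_Bx]
    exact ⟨by simp only; omega, Or.inr (Or.inr (Or.inl rfl))⟩
  have harc2 : ∀ x, a ≤ x → x < x1 → (2 * x + 1, 2 * y0) ∈ wire x0 x1 y0 y1 a b ω := by
    intro x h3 h4
    rw [mem_wire, mem_Bx]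
    exact ⟨by simp only; omega, Or.inr (Or.inl ⟨rfl, by simp only; omega⟩)⟩
  have hN : (pv (wire x0 x1 y0 y1 a b ω))^[NN x1 y0 y1 a b] (2 * b, 2 * y1 + 1) =
      (2 * a, 2 * y0) := by rw [iter_outc hx hy ha hb ω _ le_rfl, outc_NN hy ha hb]
  have hNpos : 0 < NN x1 y0 y1 a b := by unfold NN; omega
  have hVis : ∀ i < T, (pv (wire x0 x1 y0 y1 a b ω))^[i] (2 * a, 2 * y0) = c →
      Vis x0 x1 y0 y1 a b ω c := fun i hi hic => ⟨i, hic, fun j hj => hmin j (by omega)⟩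
  generalize NN x1 y0 y1 a b = N at *
  generalize wire x0 x1 y0 y1 a b ω = W at *
  have hcC : inC x0 x1 y0 y1 c := by
    unfold vx at hc1 hc2
    unfold inC
    simp only at hc1 hc2
    omega
  obtain ⟨L, hL⟩ := exists_orb (pv W) (pv_injective _)
    ((Icc (2 * x0) (2 * x1 + 1)) ×ˢ (Icc (2 * y0) (2 * y1 + 1)))
    (fun x hx' => by
      rw [mem_product, mem_Icc, mem_Icc] at hx' ⊢
      exact inC_pv hW hx') c (by
      rw [mem_product, mem_Icc, mem_Icc]
      exact hcC)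
  obtain ⟨Z, hZdef⟩ : ∃ Z : ℤ × ℤ → Prop, ∀ z, Z z ↔ ∃ j : ℕ, (pv W)^[j] c = z :=
    ⟨_, fun z => Iff.rfl⟩
  have hZ : ∀ z, Z z ↔ Z (nx W z) := by
    intro z
    rw [hZdef, hZdef]
    constructor
    · rintro ⟨j, rfl⟩
      have hpos := hL.pos
      obtain ⟨k, hk⟩ : ∃ k, j + L = k + 1 := ⟨j + L - 1, by omega⟩
      refine ⟨k, ?_⟩
      rw [← hL.add j, hk, Function.iterate_succ_apply', nx_pv]
    · rintro ⟨j, hj⟩
      refine ⟨j + 1, ?_⟩
      rw [Function.iterate_succ_apply', hj, pv_nx]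
  have hZbox : ∀ z, Z z → inC x0 x1 y0 y1 z := by
    intro z hz
    obtain ⟨j, rfl⟩ := (hZdef z).1 hz
    exact inC_iter hW hcC j
  obtain ⟨S, hS⟩ := exists_Col Z (by
      intro p
      refine Set.Finite.subset (Set.finite_Iic (2 * x1 + 1 - p.1).toNat) ?_
      intro k hk
      have h1 := (hZbox _ hk).1
      simp only at h1
      rw [Set.mem_Iic]
      omega)
    (ColorAux.even_of_pairs hZ)
  have hqB : inB x0 x1 y0 y1 q := h1.inB hW (by unfold inB; omega)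
  have hqB2 : y0 ≤ q.2 ∧ q.2 ≤ y1 := hqB.2
  have s1 : S (dbl (vx c)) = S (dbl q) := by
    clear hq hqB hqB2
    induction h1 with
    | refl => rfl
    | tail _ hbc ih => exact ih.trans (ColorAux.col_open hS hZ hbc)
  have s4 : S (fp (fi c)) = S (fp g) := by
    clear hg
    induction h2 with
    | refl => rfl
    | tail _ hbc ih => exact ih.trans (ColorAux.col_closed hS hZ hbc.1 (ColorAux.mem_du.1 hbc.2).2)
  have s2 : ∀ n : ℕ, y0 + n ≤ y1 → S (dbl (x1, y0 + n)) = S (dbl (x1, y0)) := by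
    intro n
    induction n with
    | zero => intro _; simp
    | succ n ih =>
      intro hn
      rw [← ih (by push_cast at hn; omega)]
      apply Eq.symm
      apply ColorAux.col_open hS hZ
      constructor
      · simp only [IsUnit4, Prod.ext_iff, Prod.mk_sub_mk]
        push_cast
        omega
      · have e : ((x1, y0 + (n : ℤ)) + (x1, y0 + ((n + 1 : ℕ) : ℤ)) : ℤ × ℤ) =
            (2 * x1, 2 * (y0 + n) + 1) := by
          refine Prod.ext ?_ ?_ <;> simp only [Prod.mk_add_mk] <;> push_cast <;> ring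
        rw [e]
        exact harc1 _ (by omega) (by push_cast at hn; omega)
  have s3 : ∀ n : ℕ, a + n ≤ x1 → S (dbl (a + n, y0)) = S (dbl (a, y0)) := by
    intro n
    induction n with
    | zero => intro _; simp
    | succ n ih =>
      intro hn
      rw [← ih (by push_cast at hn; omega)]
      apply Eq.symm
      apply ColorAux.col_open hS hZ
      constructor
      · simp only [IsUnit4, Prod.ext_iff, Prod.mk_sub_mk]
        push_cast
        omega
      · have e : ((a + (n : ℤ), y0) + (a + ((n + 1 : ℕ) : ℤ), y0) : ℤ × ℤ) =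
            (2 * (a + n) + 1, 2 * y0) := by
          refine Prod.ext ?_ ?_ <;> simp only [Prod.mk_add_mk] <;> push_cast <;> ring
        rw [e]
        exact harc2 _ (by omega) (by push_cast at hn; omega)
  have hconst : ∀ f : ℤ → Bool, (∀ j, f j = f (j + 1)) → ∀ j k, f j = f k := by
    intro f hf
    have h0 : ∀ j, f j = f 0 := by
      intro j
      induction j using Int.induction_on with
      | zero => rfl
      | succ i ih => rw [← hf, ih]
      | pred i ih =>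
        rw [← ih, hf (-(i : ℤ) - 1)]
        congr 1
        ring
    intro j k
    rw [h0 j, h0 k]
  have s5 : ∀ j k : ℤ, S (fp (x0, j)) = S (fp (x0, k)) := by
    apply hconst (fun j => S (fp (x0, j)))
    intro j
    apply ColorAux.col_closed hS hZ
    · simp only [IsUnit4, Prod.ext_iff, Prod.mk_sub_mk]
      omega
    · intro h0
      have h0' := (mem_Bx.1 (hW h0)).1
      simp only [Prod.mk_add_mk, Prod.mk_sub_mk] at h0'
      omega
  have s6 : ∀ j k : ℤ, S (fp (j, y0)) = S (fp (k, y0)) := by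
    apply hconst (fun j => S (fp (j, y0)))
    intro j
    apply ColorAux.col_closed hS hZ
    · simp only [IsUnit4, Prod.ext_iff, Prod.mk_sub_mk]
      omega
    · intro h0
      have h0' := (mem_Bx.1 (hW h0)).2.1
      simp only [Prod.mk_add_mk, Prod.mk_sub_mk] at h0'
      omega
  have hst : Z (2 * a, 2 * y0) := by
    rw [hS (2 * a, 2 * y0)]
    have e1 : vx (2 * a, 2 * y0) = (a, y0) := by
      unfold vx; refine Prod.ext ?_ ?_ <;> simp only <;> omega
    have e2 : fce (2 * a, 2 * y0) = fp (a, y0) := by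
      unfold fce fp; refine Prod.ext ?_ ?_ <;> simp only <;> omega
    have e3 : S (dbl (a, y0)) = S (dbl (vx c)) := by
      rw [s1]
      have h3 := s2 (q.2 - y0).toNat (by omega)
      have h4 := s3 (x1 - a).toNat (by omega)
      have e4 : (x1, y0 + ((q.2 - y0).toNat : ℤ)) = q := by
        refine Prod.ext ?_ ?_ <;> simp only <;> omega
      have e5 : (a + ((x1 - a).toNat : ℤ), y0) = (x1, y0) := by
        refine Prod.ext ?_ ?_ <;> simp only; omega
      rw [e4] at h3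
      rw [e5] at h4
      rw [← h4, ← h3]
    have e6 : S (fp (a, y0)) = S (fce c) := by
      have e7 : fce c = fp (fi c) := rfl
      rw [e7, s4, s6 a x0, s5 y0 g.2]
      have e8 : (x0, g.2) = g := Prod.ext hg.symm rfl
      rw [e8]
    rw [e1, e2, e3, e6]
    exact (hS c).1 ((hZdef c).2 ⟨0, rfl⟩)
  obtain ⟨i, hi⟩ := (hZdef _).1 hst
  -- back from the start to `c`
  have hper : ∀ m : ℕ, (pv W)^[m * L] c = c := by
    intro m
    induction m with
    | zero => simp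
    | succ m ih => rw [Nat.succ_mul, hL.add, ih]
  have hback : (pv W)^[i * L - i] (2 * a, 2 * y0) = c := by
    have h3 := hper i
    have h4 : i * L = (i * L - i) + i := by
      have : i ≤ i * L := Nat.le_mul_of_pos_right _ hL.pos
      omega
    rw [h4, Function.iterate_add_apply, hi] at h3
    exact h3
  have hperiod : Function.IsPeriodicPt (pv W) (N + T) (2 * a, 2 * y0) := by
    change (pv W)^[N + T] (2 * a, 2 * y0) = (2 * a, 2 * y0)
    rw [Function.iterate_add_apply, hspec, hN]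
  have hmod := hperiod.iterate_mod_apply (i * L - i)
  rw [hback] at hmod
  have hlt : (i * L - i) % (N + T) < N + T := Nat.mod_lt _ (by omega)
  generalize (i * L - i) % (N + T) = m at hmod hlt
  by_cases hmT : m < T
  · exact hVis m hmT hmod
  · exfalso
    have e9 : m = (m - T) + T := by omega
    rw [e9, Function.iterate_add_apply, hspec, hout (m - T) (by omega)] at hmod
    have hb' := outc_bdry x1 y0 y1 b (m - T)
    rw [hmod] at hb'
    unfold vx at hc1 hc2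
    simp only at hc1 hc2
    omega

theorem vis_leave {x0 x1 y0 y1 a b : ℤ} (hx : x0 < x1) (hy : y0 < y1) (ha : x0 ≤ a ∧ a ≤ x1)
    (hb : x0 ≤ b ∧ b ≤ x1) {ω : Finset (ℤ × ℤ)} {c : ℤ × ℤ} {d : ℤ} (hd : 0 ≤ d)
    (hd1 : x0 < (vx c).1 - d ∧ (vx c).1 + d < x1) (hd2 : y0 < (vx c).2 - d ∧ (vx c).2 + d < y1)
    (h : Vis x0 x1 y0 y1 a b ω c) :
    Leave (Bx ((vx c).1 - d) ((vx c).1 + d) ((vx c).2 - d) ((vx c).2 + d)) ω c := by
  have hl := (local_UU (B := Bx ((vx c).1 - d) ((vx c).1 + d) ((vx c).2 - d) ((vx c).2 + d))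
    (ω := wire x0 x1 y0 y1 a b ω) (ω1 := ω) (c := c) (by
      intro e he
      have he' := mem_Bx.1 (StrandAux.mem_UU.1 he).1
      rw [mem_wire, mem_Bx]
      constructor
      · intro h0
        exact ⟨by omega, Or.inl h0⟩
      · rintro ⟨-, h0 | h0 | h0 | h0⟩
        · exact h0
        · omega
        · omega
        · omega)).2.2.2.2
  rw [hl]
  obtain ⟨i, hi, -⟩ := h
  refine ⟨i, ?_⟩
  have h1 : (nx (wire x0 x1 y0 y1 a b ω))^[i] c = (2 * a, 2 * y0) := by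
    rw [← hi]
    exact (Function.LeftInverse.iterate (nx_pv (wire x0 x1 y0 y1 a b ω)) i) _
  rw [h1]
  intro h2
  have h3 : lab (2 * a, 2 * y0) = (2 * a, 2 * y0 - 1) := by
    unfold lab
    simp only
    rw [if_pos (by omega), if_pos (by omega)]
  rw [h3] at h2
  have h4 := mem_Bx.1 h2
  simp only at h4
  omega

end Pool.Agent.H75.TwoArm
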