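import Mathlib
import Pool.Agent.H75.TwoArm.PathDefs
import Pool.Agent.H75.TwoArm.Strand
import Pool.Agent.H75.TwoArm.Rsw
import Pool.Agent.H75.TwoArm.HookCore
import Pool.Agent.H75.TwoArm.Track
import Pool.Agent.H75.TwoArm.PathGeo

set_option autoImplicit false
open Finset

/-! Hooking and corridors to the two sides of the rectangle: a lower bound for the probability that
the exploration path visits a given corner (TB3). -/

namespace Pool.Agent.H75.TwoArm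

open Pool.Agent.H75.Perc

namespace CorrAux

lemma hook_open' {r L s X y1 y2 : ℤ} (hr : 1 ≤ r) (hL : r ≤ L) (hs : 1 ≤ s) (hsr : 2 * s ≤ r)
    (hX : r + 1 ≤ X) (hy : 2 * s + 2 ≤ |y1 - y2|) (hyL : |y1| + 2 * s ≤ L)
    {ω ω' : Finset (ℤ × ℤ)} {c : ℤ × ℤ} (hc : C0 c) (h : East r L ω c y1 y2) {p q : ℤ × ℤ}
    (hp : inB (r - 2 * s) X (y1 + s) (y1 + 2 * s) p) (hp1 : p.1 = r - 2 * s) (hq1 : q.1 = X)
    (hpq : Co (ω' ∩ Bx (r - 2 * s) X (y1 + s) (y1 + 2 * s)) p q)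
    (h2 : VC (r - 2 * s) (r - s) (y1 - 2 * s) (y1 + 2 * s) ω')
    (h3 : HC (r - 2 * s) (r + 1) (y1 - 2 * s) (y1 - s) ω') :
    Co (mix (UU (BE r L) ω c) ω ω') (vx c) q := by
  obtain ⟨S, hT⟩ := exists_TC hr hL hc h
  exact HookAux.hook_open_core hr hL hs hsr hX hy hyL hT (fun z hz => (Str_co hz).1) hp hp1 hq1
    hpq h2 h3

lemma hook_dual' {r L s X y1 y2 : ℤ} (hr : 1 ≤ r) (hL : r ≤ L) (hs : 1 ≤ s) (hsr : 2 * s ≤ r)
    (hX : r + 2 ≤ X) (hy : 2 * s + 4 ≤ |y1 - y2|) (hyL : |y2| + 2 * s + 1 ≤ L)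
    {E ω ω' : Finset (ℤ × ℤ)} (hE : BE r L ⊆ E) {c : ℤ × ℤ} (hc : C0 c)
    (h : East r L ω c y1 y2) {p q : ℤ × ℤ}
    (hp : inB (r + 1 - 2 * s) X (y2 + 1 + s) (y2 + 1 + 2 * s) p) (hp1 : p.1 = r + 1 - 2 * s)
    (hq1 : q.1 = X)
    (hpq : Co (du E ω' ∩ Bx (r + 1 - 2 * s) X (y2 + 1 + s) (y2 + 1 + 2 * s)) p q)
    (h2 : VC (r + 1 - 2 * s) (r + 1 - s) (y2 + 1 - 2 * s) (y2 + 1 + 2 * s) (du E ω'))
    (h3 : HC (r + 1 - 2 * s) (r + 2) (y2 + 1 - 2 * s) (y2 + 1 - s) (du E ω')) :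
    Co (du E (mix (UU (BE r L) ω c) ω ω')) (fi c) q := by
  obtain ⟨S, hT⟩ := exists_TC hr hL hc h
  exact HookAux.hook_dual_core hr hL hs hsr hX hy hyL hE hT (fun z hz => (Str_co hz).2) hp hp1
    hq1 hpq h2 h3


lemma mem_du' {E ω : Finset (ℤ × ℤ)} {x : ℤ × ℤ} :
    x ∈ du E ω ↔ x - (1, 1) ∈ E ∧ x - (1, 1) ∉ ω := by
  unfold du
  rw [Finset.mem_map]
  constructor
  · rintro ⟨e, he, rfl⟩
    rw [mem_sdiff] at he
    have : sh1 e - (1, 1) = e := by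
      unfold sh1
      refine Prod.ext ?_ ?_ <;> simp
    rw [this]; exact he
  · intro h
    refine ⟨x - (1, 1), mem_sdiff.2 h, ?_⟩
    unfold sh1
    refine Prod.ext ?_ ?_ <;> simp

lemma UU_sub' (B ω : Finset (ℤ × ℤ)) (c : ℤ × ℤ) : UU B ω c ⊆ B := by
  classical
  unfold UU
  exact filter_subset _ _

/-- the part of a horizontal path in the right columns meets a vertical crossing of these columns -/
lemma meetR {a m b c d c' d' : ℤ} {ω : Finset (ℤ × ℤ)} (h1 : a < m) (h2 : m ≤ b) (h3 : c' ≤ c)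
    (h4 : d ≤ d') {p q v0 v1 : ℤ × ℤ} (hp : inB a b c d p) (hp1 : p.1 = a) (hq1 : q.1 = b)
    (hpq : Co (ω ∩ Bx a b c d) p q) (hv0 : inB m b c' d' v0) (hv02 : v0.2 = c')
    (hv1 : v1.2 = d') (hv : Co (ω ∩ Bx m b c' d') v0 v1) :
    ∃ z, Co (ω ∩ Bx m b c d) q z ∧ Co (ω ∩ Bx m b c' d') v0 z := by
  have hq : inB a b c d q := hpq.inB inter_subset_right hp
  obtain ⟨z, z', hz, hz', had, hcx, -⟩ := exit_co (X := inB m b c d) hpq.symm
    (by unfold inB at hq ⊢; omega) (by unfold inB; omega)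
  have hz1 : z.1 = m := by
    have h5 := unit_cases had.1
    have h6 := (had.inB inter_subset_right).2
    unfold inB at hz hz' h6
    omega
  have hbox := hcx.box (fun z hz => hz) (by unfold inB at hq ⊢; omega)
  have hbox' : Co (ω ∩ Bx m b c d) z q := by
    refine Co.mono ?_ hbox.symm
    intro e he
    rw [mem_inter, mem_inter] at he
    exact mem_inter.2 ⟨he.1.1, he.2⟩
  obtain ⟨w, hw1, hw2⟩ := cross_co (a := m) (b := b) (c := c') (d := d')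
    (ω1 := ω ∩ Bx m b c d) (ω2 := ω ∩ Bx m b c' d')
    (inter_subset_right.trans (Bx_sub le_rfl le_rfl h3 h4)) inter_subset_right
    (by unfold inB at hz ⊢; omega) hv0 hbox' hv hz1 hq1 hv02 hv1
  exact ⟨w, hbox'.symm.trans hw1, hw2⟩

lemma HC_inter' {a b c d : ℤ} {T : Finset (ℤ × ℤ)} (h : Bx a b c d ⊆ T) {η : Finset (ℤ × ℤ)}
    (hη : HC a b c d η) : HC a b c d (η ∩ T) := by
  obtain ⟨p, q, h1, h2, h3, h4⟩ := hη
  refine ⟨p, q, h1, h2, h3, h4.mono ?_⟩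
  intro e he
  rw [mem_inter] at he
  exact mem_inter.2 ⟨mem_inter.2 ⟨he.1, h he.2⟩, he.2⟩

lemma VC_inter' {a b c d : ℤ} {T : Finset (ℤ × ℤ)} (h : Bx a b c d ⊆ T) {η : Finset (ℤ × ℤ)}
    (hη : VC a b c d η) : VC a b c d (η ∩ T) := by
  obtain ⟨p, q, h1, h2, h3, h4⟩ := hη
  refine ⟨p, q, h1, h2, h3, h4.mono ?_⟩
  intro e he
  rw [mem_inter] at he
  exact mem_inter.2 ⟨mem_inter.2 ⟨he.1, h he.2⟩, he.2⟩

/-- change of the ambient set of edges for dual configurations -/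
lemma du_box {E E'' ω : Finset (ℤ × ℤ)} {a b c d : ℤ}
    (h : ∀ e ∈ Bx a b c d, ((e.1 - 1, e.2 - 1) : ℤ × ℤ) ∈ E'') :
    du E ω ∩ Bx a b c d ⊆ du E'' ω ∩ Bx a b c d := by
  intro e he
  rw [mem_inter, mem_du'] at he ⊢
  exact ⟨⟨h e he.2, he.1.2⟩, he.2⟩

/-- The fresh crossings which lead the two arms to the two sides. -/
def CrossO (r s x1 t1 : ℤ) (ω' : Finset (ℤ × ℤ)) : Prop :=
  HC (r - 2 * s) x1 (t1 + s) (t1 + 2 * s) ω' ∧
  VC (r - 2 * s) (r - s) (t1 - 2 * s) (t1 + 2 * s) ω' ∧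
  HC (r - 2 * s) (r + 1) (t1 - 2 * s) (t1 - s) ω'

def CrossD (r s x0 t2 va vb ha hb : ℤ) (η : Finset (ℤ × ℤ)) : Prop :=
  HC (r + 1 - 2 * s) (r + 8 * s) (t2 + 1 + s) (t2 + 1 + 2 * s) η ∧
  VC (r + 1 - 2 * s) (r + 1 - s) (t2 + 1 - 2 * s) (t2 + 1 + 2 * s) η ∧
  HC (r + 1 - 2 * s) (r + 2) (t2 + 1 - 2 * s) (t2 + 1 - s) η ∧
  VC (r + 4 * s) (r + 8 * s) va vb η ∧
  HC x0 (r + 8 * s) ha hb η

/-- geometry of the corridors: the deterministic part -/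
lemma vis_of_cross {x0 x1 y0 y1 a b s r L t1 t2 va vb ha hb : ℤ} (hs : 1 ≤ s) (hr : 16 * s ≤ r)
    (hL : r ≤ L) (hx0 : 8 * L ≤ -x0) (hx1 : 8 * L ≤ x1) (hy0 : 8 * L ≤ -y0) (hy1 : 8 * L ≤ y1)
    (ha1 : x0 ≤ a) (ha2 : a ≤ x1) (hb1 : x0 ≤ b) (hb2 : b ≤ x1)
    (h1 : |t1| ≤ L) (h2 : |t2| ≤ L) (h12 : 16 * s ≤ |t1 - t2|)
    (hva : -(4 * L) ≤ va) (hvb : vb ≤ 4 * L) (hva2 : va ≤ t2 + 1 + s) (hvb2 : t2 + 1 + 2 * s ≤ vb)
    (hha : va ≤ ha) (hhb : hb ≤ vb) (hab : ha ≤ hb) (hfar : 3 * L ≤ ha ∨ hb ≤ -(3 * L))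
    {ω ω' : Finset (ℤ × ℤ)} {c : ℤ × ℤ} (hc : C0 c) (hE : East r (2 * L) ω c t1 t2)
    (hO : CrossO r s x1 t1 ω') (hD : CrossD r s x0 t2 va vb ha hb (du (Bx (x0 - 1) x1 y0 y1) ω')) :
    Vis x0 x1 y0 y1 a b (mix (UU (BE r (2 * L)) ω c) ω ω') c := by
  have hc00 : vx c = (0, 0) := by
    rcases hc with rfl | rfl | rfl | rfl <;> unfold vx <;> simp
  have ht1 := abs_le.1 h1
  have ht2 := abs_le.1 h2
  set U := UU (BE r (2 * L)) ω c with hU
  set E := Bx x0 x1 y0 y1 with hEdef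
  have hBE : ∀ e ∈ U, (-(4 * L) ≤ e.1 ∧ e.1 ≤ 2 * r) ∧ (-(4 * L) ≤ e.2 ∧ e.2 ≤ 4 * L) ∧
      (e.1 + e.2) % 2 = 1 := by
    intro e he
    have := UU_sub' _ _ _ he
    rw [BE, mem_Bx] at this
    omega
  -- the open arm
  obtain ⟨⟨p, q, hp, hp1, hq1, hpq⟩, hO2, hO3⟩ := hO
  have arm1 : Co (mix U ω (ω' ∩ E)) (vx c) q := by
    refine hook_open' (L := 2 * L) (X := x1) (by omega) (by omega) hs (by omega) (by omega)
      (by omega) (by omega) hc hE hp hp1 hq1 ?_ ?_ ?_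
    · refine hpq.mono ?_
      intro e he
      rw [mem_inter] at he
      refine mem_inter.2 ⟨mem_inter.2 ⟨he.1, ?_⟩, he.2⟩
      have := mem_Bx.1 he.2
      rw [hEdef, mem_Bx]; omega
    · refine VC_inter' ?_ hO2
      intro e he
      rw [mem_Bx] at he
      rw [hEdef, mem_Bx]; omega
    · refine HC_inter' ?_ hO3
      intro e he
      rw [mem_Bx] at he
      rw [hEdef, mem_Bx]; omega
  have arm1' : Co (wire x0 x1 y0 y1 a b (mix U ω ω')) (vx c) q := by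
    refine arm1.mono ?_
    intro e he
    rw [mem_mix] at he
    unfold wire
    rw [mem_union, mem_inter, mem_mix]
    left
    rcases he with ⟨he1, he2⟩ | ⟨he1, he2⟩
    · refine ⟨Or.inl ⟨he1, he2⟩, ?_⟩
      have := hBE e he2
      rw [mem_Bx]; omega
    · rw [mem_inter] at he1
      exact ⟨Or.inr ⟨he1.1, he2⟩, he1.2⟩
  -- the dual arm, first part
  obtain ⟨⟨p', q', hp', hp1', hq1', hpq'⟩, hD2, hD3, hD4, hD5⟩ := hD
  set E'' := Bx (-(5 * L)) (5 * L) (-(5 * L)) (5 * L) with hE''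
  have arm2 : Co (du E'' (mix U ω ω')) (fi c) q' := by
    refine hook_dual' (L := 2 * L) (X := r + 8 * s) (by omega) (by omega) hs (by omega) (by omega)
      (by omega) (by omega) ?_ hc hE hp' hp1' hq1' ?_ ?_ ?_
    · intro e he
      rw [BE, mem_Bx] at he
      rw [hE'', mem_Bx]; omega
    · refine hpq'.mono (du_box ?_)
      intro e he
      rw [mem_Bx] at he
      rw [hE'', mem_Bx]; simp only; omega
    · obtain ⟨p, q, h1, h2, h3, h4⟩ := hD2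
      refine ⟨p, q, h1, h2, h3, h4.mono (du_box ?_)⟩
      intro e he
      rw [mem_Bx] at he
      rw [hE'', mem_Bx]; simp only; omega
    · obtain ⟨p, q, h1, h2, h3, h4⟩ := hD3
      refine ⟨p, q, h1, h2, h3, h4.mono (du_box ?_)⟩
      intro e he
      rw [mem_Bx] at he
      rw [hE'', mem_Bx]; simp only; omega
  have arm2' : Co (du E (wire x0 x1 y0 y1 a b (mix U ω ω'))) (fi c) q' := by
    refine arm2.mono ?_
    intro e he
    rw [mem_du'] at he ⊢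
    obtain ⟨he1, he2⟩ := he
    rw [hE'', mem_Bx] at he1
    refine ⟨by rw [hEdef, mem_Bx]; omega, ?_⟩
    unfold wire arcE
    rw [mem_union, mem_inter, mem_filter]
    rintro (h | h)
    · exact he2 h.1
    · omega
  -- the dual arm, second part
  set η := du (Bx (x0 - 1) x1 y0 y1) ω' with hη
  obtain ⟨v0, v1, hv0, hv02, hv1, hv⟩ := hD4
  obtain ⟨p3, q3, hp3, hp31, hq31, hpq3⟩ := hD5
  obtain ⟨z, hz1, hz2⟩ := meetR (m := r + 4 * s) (by omega) (by omega) hva2 hvb2 hp' hp1' hq1' hpq'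
    hv0 hv02 hv1 hv
  obtain ⟨z', hz1', hz2'⟩ := meetR (m := r + 4 * s) (by omega) (by omega) hha hhb hp3 hp31 hq31
    hpq3 hv0 hv02 hv1 hv
  -- the whole second part inside the fresh region
  have hpath : Co (η ∩ (Bx (r + 4 * s) (r + 8 * s) (-(4 * L)) (4 * L) ∪
      Bx x0 (r + 8 * s) ha hb)) q' p3 := by
    have e1 := hz1.mono (ω' := η ∩ (Bx (r + 4 * s) (r + 8 * s) (-(4 * L)) (4 * L) ∪
      Bx x0 (r + 8 * s) ha hb)) (by
        refine inter_subset_inter_left ((Bx_sub le_rfl le_rfl ?_ ?_).trans subset_union_left) <;>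
        omega)
    have e2 := hz2.mono (ω' := η ∩ (Bx (r + 4 * s) (r + 8 * s) (-(4 * L)) (4 * L) ∪
      Bx x0 (r + 8 * s) ha hb)) (by
        refine inter_subset_inter_left ((Bx_sub le_rfl le_rfl ?_ ?_).trans subset_union_left) <;>
        omega)
    have e3 := hz2'.mono (ω' := η ∩ (Bx (r + 4 * s) (r + 8 * s) (-(4 * L)) (4 * L) ∪
      Bx x0 (r + 8 * s) ha hb)) (by
        refine inter_subset_inter_left ((Bx_sub le_rfl le_rfl ?_ ?_).trans subset_union_left) <;>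
        omega)
    have e4 := hz1'.mono (ω' := η ∩ (Bx (r + 4 * s) (r + 8 * s) (-(4 * L)) (4 * L) ∪
      Bx x0 (r + 8 * s) ha hb)) (by
        refine inter_subset_inter_left ((Bx_sub ?_ le_rfl le_rfl le_rfl).trans
          subset_union_right)
        omega)
    have e5 := hpq3.mono (ω' := η ∩ (Bx (r + 4 * s) (r + 8 * s) (-(4 * L)) (4 * L) ∪
      Bx x0 (r + 8 * s) ha hb)) (inter_subset_inter_left subset_union_right)
    exact (((e1.trans e2.symm).trans e3).trans e4.symm).trans e5.symm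
  obtain ⟨g0, g, hg0, hg, had, hcx, -⟩ := exit_co (X := fun z => x0 < z.1) hpath
    (by omega) (by omega)
  have hg0 : x0 < g0.1 := hg0
  have hg : ¬ x0 < g.1 := hg
  have hedge : ∀ u v : ℤ × ℤ, IsUnit4 (v - u) → x0 ≤ u.1 → x0 ≤ v.1 → (x0 < u.1 ∨ x0 < v.1) →
      u + v ∈ η ∩ (Bx (r + 4 * s) (r + 8 * s) (-(4 * L)) (4 * L) ∪ Bx x0 (r + 8 * s) ha hb) →
      u + v ∈ du E (wire x0 x1 y0 y1 a b (mix U ω ω')) := by
    intro u v huv hu hv huv' he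
    rw [mem_inter, mem_union, mem_Bx, mem_Bx, hη, mem_du', mem_Bx] at he
    obtain ⟨⟨he1, he2⟩, he3⟩ := he
    rw [mem_du']
    have hun := unit_cases huv
    simp only [Prod.fst_add, Prod.snd_add, Prod.fst_sub, Prod.snd_sub] at he1 he3
    have hEm : u + v - (1, 1) ∈ E := by
      rw [hEdef, mem_Bx]
      simp only [Prod.fst_add, Prod.snd_add, Prod.fst_sub, Prod.snd_sub]
      omega
    refine ⟨hEm, ?_⟩
    have hnU : u + v - (1, 1) ∉ U := by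
      intro h
      have := hBE _ h
      simp only [Prod.fst_add, Prod.snd_add, Prod.fst_sub, Prod.snd_sub] at this
      omega
    unfold wire arcE
    rw [mem_union, mem_inter, mem_filter, mem_mix]
    rintro (h | h)
    · rcases h.1 with h | h
      · exact hnU h.2
      · exact he2 h.1
    · simp only [Prod.fst_add, Prod.snd_add, Prod.fst_sub, Prod.snd_sub] at h
      omega
  have arm3 : ∀ w, CoX (η ∩ (Bx (r + 4 * s) (r + 8 * s) (-(4 * L)) (4 * L) ∪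
      Bx x0 (r + 8 * s) ha hb)) (fun z => x0 < z.1) q' w →
      Co (du E (wire x0 x1 y0 y1 a b (mix U ω ω'))) q' w := by
    intro w hw
    induction hw with
    | refl => exact Co.refl _ _
    | @tail u v huu hstep ih =>
      have hu : x0 < u.1 := CoX.mem (X := fun z => x0 < z.1) huu (by omega)
      have hv : x0 < v.1 := hstep.2
      exact Relation.ReflTransGen.tail ih ⟨hstep.1.1,
        hedge u v hstep.1.1 (by omega) (by omega) (Or.inl hu) hstep.1.2⟩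
  have hg1 : g.1 = x0 := by
    have := unit_cases had.1
    omega
  have arm4 : Co (du E (wire x0 x1 y0 y1 a b (mix U ω ω'))) (fi c) g := by
    refine (arm2'.trans (arm3 g0 hcx)).trans (Relation.ReflTransGen.single ⟨had.1, ?_⟩)
    exact hedge g0 g had.1 (by omega) (by omega) (Or.inl hg0) had.2
  refine vis_of_arms (by omega) (by omega) ⟨ha1, ha2⟩ ⟨hb1, hb2⟩ ?_ ?_ arm1' hq1 arm4 hg1
  · rw [hc00]; simp only; omega
  · rw [hc00]; simp only; omega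


lemma mul3 {c x y z : ℝ} (hc : 0 < c) (hx : c ≤ x) (hy : c ≤ y) (hz : c ≤ z) :
    c * c * c ≤ x * y * z := by
  have h1 : 0 < x := hc.trans_le hx
  have h2 : 0 < y := hc.trans_le hy
  gcongr

lemma mul5 {c x y z u v : ℝ} (hc : 0 < c) (hx : c ≤ x) (hy : c ≤ y) (hz : c ≤ z) (hu : c ≤ u)
    (hv : c ≤ v) : c * c * c * c * c ≤ x * y * z * u * v := by
  have h1 : 0 < x := hc.trans_le hx
  have h2 : 0 < y := hc.trans_le hy
  have h3 : 0 < z := hc.trans_le hz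
  have h4 : 0 < u := hc.trans_le hu
  gcongr

/-- lower bound for the probability of the corridors -/
lemma cross_prob (K : ℕ) : ∃ q : ℝ, 0 < q ∧ ∀ x0 x1 y0 y1 s r L t1 t2 va vb ha hb : ℤ, 1 ≤ s →
    16 * s ≤ r → r ≤ L → 8 * L ≤ -x0 → 8 * L ≤ x1 → 8 * L ≤ -y0 → 8 * L ≤ y1 →
    -x0 ≤ K * s → x1 ≤ K * s → |t1| ≤ L → |t2| ≤ L → 16 * s ≤ |t1 - t2| →
    -(4 * L) ≤ va → vb ≤ 4 * L → va ≤ ha → hb ≤ vb → va ≤ vb → ha + L ≤ hb →
    ((vb ≤ t2 + 1 + 2 * s ∧ t2 < t1) ∨ (t2 + 1 + s ≤ va ∧ t1 < t2)) →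
    q ≤ Pr (Bx (x0 - 1) x1 y0 y1) (fun ω' => CrossO r s x1 t1 ω' ∧
      CrossD r s x0 t2 va vb ha hb (du (Bx (x0 - 1) x1 y0 y1) ω')) := by
  obtain ⟨c, hc, hfc⟩ := hc_ratio (2 * K + 20)
  refine ⟨c ^ 8, by positivity, ?_⟩
  intro x0 x1 y0 y1 s r L t1 t2 va vb ha hb hs hr hL hx0 hx1 hy0 hy1 hxs0 hxs1 h1 h2 h12 hva hvb
    hha hhb hvv hab hcase
  have ht1 := abs_le.1 h1
  have ht2 := abs_le.1 h2
  have hKs : (0 : ℤ) ≤ K * s := by positivity
  have hlow : ∀ w h : ℤ, 0 ≤ w → 1 ≤ h → s ≤ h → (w ≤ 20 * s ∨ w ≤ 2 * (K * s) + 20 * s) →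
      c ≤ fc w h := by
    intro w h hw hh hsh hwh
    refine hfc w h hw hh ?_
    push_cast
    have e1 : ((2 : ℤ) * K + 20) * s ≤ (2 * K + 20) * h :=
      mul_le_mul_of_nonneg_left hsh (by positivity)
    have e2 : ((2 : ℤ) * K + 20) * s = 2 * (K * s) + 20 * s := by ring
    omega
  set E := Bx (x0 - 1) x1 y0 y1 with hE
  set E1 := Bx (r - 2 * s) x1 (t1 - 2 * s) (t1 + 2 * s) with hE1
  have hE1E : E1 ⊆ E := Bx_sub (by omega) le_rfl (by omega) (by omega)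
  -- the boxes of the dual crossings
  have hdu : ∀ a' b' c' d' : ℤ, x0 ≤ a' → b' ≤ r + 8 * s → y0 < c' → d' ≤ y1 →
      (d' ≤ t2 + 1 + 2 * s ∧ t2 < t1 ∨ t2 + 1 + s ≤ c' ∧ t1 < t2 ∨
        t2 + 1 - 2 * s ≤ c' ∧ d' ≤ t2 + 1 + 2 * s) →
      (∀ e ∈ Bx a' b' c' d', ((e.1 - 1, e.2 - 1) : ℤ × ℤ) ∈ E) ∧
      Bx a' b' c' d' ⊆ (E \ E1).map sh1 := by
    intro a' b' c' d' g1 g2 g3 g4 g5
    have hA : ∀ e ∈ Bx a' b' c' d', ((e.1 - 1, e.2 - 1) : ℤ × ℤ) ∈ E := by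
      intro e he
      rw [mem_Bx] at he
      rw [hE, mem_Bx]; simp only; omega
    refine ⟨hA, ?_⟩
    intro e he
    rw [Finset.mem_map]
    refine ⟨(e.1 - 1, e.2 - 1), mem_sdiff.2 ⟨hA e he, ?_⟩, ?_⟩
    · rw [mem_Bx] at he
      rw [hE1, mem_Bx]; simp only
      rcases le_abs.1 h12 with h | h <;> omega
    · unfold sh1
      refine Prod.ext ?_ ?_ <;> simp
  have key := Pr_two_colours (E := E) (E1 := E1) (E2 := E \ E1) hE1E sdiff_subset disjoint_sdiff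
    (univ : Finset (Fin 3)) (univ : Finset (Fin 5))
    (![HC (r - 2 * s) x1 (t1 + s) (t1 + 2 * s), VC (r - 2 * s) (r - s) (t1 - 2 * s) (t1 + 2 * s),
      HC (r - 2 * s) (r + 1) (t1 - 2 * s) (t1 - s)])
    (![HC (r + 1 - 2 * s) (r + 8 * s) (t2 + 1 + s) (t2 + 1 + 2 * s),
      VC (r + 1 - 2 * s) (r + 1 - s) (t2 + 1 - 2 * s) (t2 + 1 + 2 * s),
      HC (r + 1 - 2 * s) (r + 2) (t2 + 1 - 2 * s) (t2 + 1 - s),
      VC (r + 4 * s) (r + 8 * s) va vb, HC x0 (r + 8 * s) ha hb])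
    (by
      intro i _
      fin_cases i
      · exact HC_inc _ _ _ _
      · exact VC_inc _ _ _ _
      · exact HC_inc _ _ _ _)
    (by
      intro i _
      fin_cases i
      · exact HC_inc _ _ _ _
      · exact VC_inc _ _ _ _
      · exact HC_inc _ _ _ _
      · exact VC_inc _ _ _ _
      · exact HC_inc _ _ _ _)
    (by
      intro i _ ω hω
      fin_cases i
      · exact HC_inter' (Bx_sub le_rfl le_rfl (by omega) (by omega)) hω
      · exact VC_inter' (Bx_sub le_rfl (by omega) (by omega) (by omega)) hω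
      · exact HC_inter' (Bx_sub le_rfl (by omega) (by omega) (by omega)) hω)
    (by
      intro i _ ω hω
      fin_cases i
      · exact HC_inter' (hdu _ _ _ _ (by omega) (by omega) (by omega) (by omega) (by omega)).2 hω
      · exact VC_inter' (hdu _ _ _ _ (by omega) (by omega) (by omega) (by omega) (by omega)).2 hω
      · exact HC_inter' (hdu _ _ _ _ (by omega) (by omega) (by omega) (by omega) (by omega)).2 hω
      · exact VC_inter' (hdu _ _ _ _ (by omega) (by omega) (by omega) (by omega) (by omega)).2 hω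
      · exact HC_inter' (hdu _ _ _ _ (by omega) (by omega) (by omega) (by omega) (by omega)).2 hω)
  refine le_trans ?_ (key.trans ?_)
  · rw [Fin.prod_univ_three, Fin.prod_univ_five]
    have a0 : c ≤ Pr E (HC (r - 2 * s) x1 (t1 + s) (t1 + 2 * s)) := by
      rw [Pr_HC' ((Bx_sub le_rfl le_rfl (by omega) (by omega)).trans hE1E)]
      apply hlow <;> omega
    have a1 : c ≤ Pr E (VC (r - 2 * s) (r - s) (t1 - 2 * s) (t1 + 2 * s)) := by
      rw [Pr_VC ((Bx_sub le_rfl (by omega) (by omega) (by omega)).trans hE1E)]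
      apply hlow <;> omega
    have a2 : c ≤ Pr E (HC (r - 2 * s) (r + 1) (t1 - 2 * s) (t1 - s)) := by
      rw [Pr_HC' ((Bx_sub le_rfl (by omega) (by omega) (by omega)).trans hE1E)]
      apply hlow <;> omega
    have b0 : c ≤ Pr E (fun ω => HC (r + 1 - 2 * s) (r + 8 * s) (t2 + 1 + s) (t2 + 1 + 2 * s)
        (du E ω)) := by
      rw [Pr_HC_du (hdu _ _ _ _ (by omega) (by omega) (by omega) (by omega) (by omega)).1]
      apply hlow <;> omega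
    have b1 : c ≤ Pr E (fun ω => VC (r + 1 - 2 * s) (r + 1 - s) (t2 + 1 - 2 * s) (t2 + 1 + 2 * s)
        (du E ω)) := by
      rw [Pr_VC_du (hdu _ _ _ _ (by omega) (by omega) (by omega) (by omega) (by omega)).1]
      apply hlow <;> omega
    have b2 : c ≤ Pr E (fun ω => HC (r + 1 - 2 * s) (r + 2) (t2 + 1 - 2 * s) (t2 + 1 - s)
        (du E ω)) := by
      rw [Pr_HC_du (hdu _ _ _ _ (by omega) (by omega) (by omega) (by omega) (by omega)).1]
      apply hlow <;> omega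
    have b3 : c ≤ Pr E (fun ω => VC (r + 4 * s) (r + 8 * s) va vb (du E ω)) := by
      rw [Pr_VC_du (hdu _ _ _ _ (by omega) (by omega) (by omega) (by omega) (by omega)).1]
      apply hlow <;> omega
    have b4 : c ≤ Pr E (fun ω => HC x0 (r + 8 * s) ha hb (du E ω)) := by
      rw [Pr_HC_du (hdu _ _ _ _ (by omega) (by omega) (by omega) (by omega) (by omega)).1]
      apply hlow <;> omega
    have m1 : c * c * c ≤ Pr E (HC (r - 2 * s) x1 (t1 + s) (t1 + 2 * s)) *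
        Pr E (VC (r - 2 * s) (r - s) (t1 - 2 * s) (t1 + 2 * s)) *
        Pr E (HC (r - 2 * s) (r + 1) (t1 - 2 * s) (t1 - s)) := mul3 hc a0 a1 a2
    have m2 : c * c * c * c * c ≤ Pr E (fun ω => HC (r + 1 - 2 * s) (r + 8 * s) (t2 + 1 + s)
          (t2 + 1 + 2 * s) (du E ω)) *
        Pr E (fun ω => VC (r + 1 - 2 * s) (r + 1 - s) (t2 + 1 - 2 * s) (t2 + 1 + 2 * s)
          (du E ω)) *
        Pr E (fun ω => HC (r + 1 - 2 * s) (r + 2) (t2 + 1 - 2 * s) (t2 + 1 - s) (du E ω)) *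
        Pr E (fun ω => VC (r + 4 * s) (r + 8 * s) va vb (du E ω)) *
        Pr E (fun ω => HC x0 (r + 8 * s) ha hb (du E ω)) := mul5 hc b0 b1 b2 b3 b4
    calc c ^ 8 = (c * c * c) * (c * c * c * c * c) := by ring
      _ ≤ _ := mul_le_mul m1 m2 (by positivity) (le_trans (by positivity) m1)
  · apply Pr_mono
    rintro ω _ ⟨hA, hB⟩
    exact ⟨⟨hA 0 (mem_univ _), hA 1 (mem_univ _), hA 2 (mem_univ _)⟩,
      ⟨hB 0 (mem_univ _), hB 1 (mem_univ _), hB 2 (mem_univ _), hB 3 (mem_univ _),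
        hB 4 (mem_univ _)⟩⟩

lemma Good_local {r L w : ℤ} {ω ω1 : Finset (ℤ × ℤ)} {c : ℤ × ℤ}
    (h : ∀ e ∈ BE r (2 * L), (e ∈ ω1 ↔ e ∈ ω)) : Good r L w ω1 c ↔ Good r L w ω c := by
  have h1 := local_UU (B := BE r (2 * L)) (ω := ω) (ω1 := ω1) (c := c)
    (fun e he => h e (UU_sub' _ _ _ he))
  unfold Good East
  constructor
  · rintro ⟨t1, t2, ⟨h3, h4⟩, h5⟩
    exact ⟨t1, t2, ⟨(h1.2.2.1 _).1 h3, (h1.2.2.2.1 _).1 h4⟩, h5⟩
  · rintro ⟨t1, t2, ⟨h3, h4⟩, h5⟩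
    exact ⟨t1, t2, ⟨(h1.2.2.1 _).2 h3, (h1.2.2.2.1 _).2 h4⟩, h5⟩

lemma crn_C0 (i : Fin 4) : C0 (crn (0, 0) i) := by
  unfold C0 crn
  fin_cases i <;> simp

end CorrAux

open CorrAux in
theorem vis_lower0 (k K : ℕ) : ∃ c0 : ℝ, 0 < c0 ∧ ∀ x0 x1 y0 y1 a b s r L : ℤ, 1 ≤ s →
    r = 4 ^ k * (16 * s) → L = 4 ^ k * r → 8 * L ≤ -x0 → 8 * L ≤ x1 → 8 * L ≤ -y0 → 8 * L ≤ y1 →
    -x0 ≤ K * s → x1 ≤ K * s → -y0 ≤ K * s → y1 ≤ K * s → x0 ≤ a → a ≤ x1 → x0 ≤ b → b ≤ x1 →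
    ∀ i : Fin 4, c0 * Pr (BB (2 * L)) (fun ω => Good r L (16 * s) ω (crn (0, 0) i)) ≤
      Pr (Bx x0 x1 y0 y1) (fun ω => Vis x0 x1 y0 y1 a b ω (crn (0, 0) i)) := by
  obtain ⟨q, hq, hcr⟩ := cross_prob K
  refine ⟨q, hq, ?_⟩
  intro x0 x1 y0 y1 a b s r L hs hr hL hx0 hx1 hy0 hy1 hxs0 hxs1 _ _ ha1 ha2 hb1 hb2 i
  have h4 : (1 : ℤ) ≤ 4 ^ k := one_le_pow₀ (by norm_num)
  have hr' : 16 * s ≤ r := by rw [hr]; nlinarith
  have hL' : r ≤ L := by rw [hL]; nlinarith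
  have hc : C0 (crn (0, 0) i) := crn_C0 i
  set c := crn (0, 0) i with hcdef
  clear_value c
  have hsub1 : BB (2 * L) ⊆ Bx (x0 - 1) x1 y0 y1 := Bx_sub (by omega) (by omega) (by omega)
    (by omega)
  have hsub2 : Bx x0 x1 y0 y1 ⊆ Bx (x0 - 1) x1 y0 y1 := Bx_sub (by omega) le_rfl le_rfl le_rfl
  rw [← Pr_restrict hsub1, ← Pr_restrict hsub2]
  have e1 : Pr (Bx (x0 - 1) x1 y0 y1) (fun ω => Good r L (16 * s) (ω ∩ BB (2 * L)) c) =
      Pr (Bx (x0 - 1) x1 y0 y1) (fun ω => Good r L (16 * s) ω c) := by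
    apply Pr_congr
    intro ω _
    apply Good_local
    intro e he
    rw [mem_inter, and_iff_left]
    rw [BE, mem_Bx] at he
    rw [BB, mem_Bx]; omega
  have e2 : Pr (Bx (x0 - 1) x1 y0 y1) (fun ω => Vis x0 x1 y0 y1 a b (ω ∩ Bx x0 x1 y0 y1) c) =
      Pr (Bx (x0 - 1) x1 y0 y1) (fun ω => Vis x0 x1 y0 y1 a b ω c) := by
    apply Pr_congr
    intro ω _
    have : wire x0 x1 y0 y1 a b (ω ∩ Bx x0 x1 y0 y1) = wire x0 x1 y0 y1 a b ω := by
      unfold wire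
      rw [inter_assoc, inter_self]
    unfold Vis
    rw [this]
  rw [e1, e2, mul_comm]
  apply resample (Bx (x0 - 1) x1 y0 y1) (fun ω => UU (BE r (2 * L)) ω c)
    (fun ω ω' _ _ => UU_mix _ _ _ _) (fun ω => Vis x0 x1 y0 y1 a b ω c)
    (fun ω => Good r L (16 * s) ω c)
    (fun ω ω' => ∃ t1 t2, East r (2 * L) ω c t1 t2 ∧ |t1| ≤ L ∧ |t2| ≤ L ∧
      16 * s ≤ |t1 - t2| ∧ CrossO r s x1 t1 ω' ∧
      ((t2 < t1 ∧ CrossD r s x0 t2 (-(4 * L)) (t2 + 1 + 2 * s) (-(4 * L)) (-(3 * L))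
          (du (Bx (x0 - 1) x1 y0 y1) ω')) ∨
       (t1 < t2 ∧ CrossD r s x0 t2 (t2 + 1 + s) (4 * L) (3 * L) (4 * L)
          (du (Bx (x0 - 1) x1 y0 y1) ω'))))
  · rintro ω _ ⟨t1, t2, hE, h1, h2, h12⟩
    have ht1 := abs_le.1 h1
    have ht2 := abs_le.1 h2
    rcases lt_or_gt_of_ne (show t1 ≠ t2 by rintro rfl; simp at h12; omega) with hlt | hlt
    · refine (hcr x0 x1 y0 y1 s r L t1 t2 (t2 + 1 + s) (4 * L) (3 * L) (4 * L) hs hr' hL' hx0 hx1
        hy0 hy1 hxs0 hxs1 h1 h2 h12 (by omega) (by omega) (by omega) (by omega) (by omega)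
        (by omega) (by omega)).trans ?_
      apply Pr_mono
      rintro ω' _ ⟨hO, hD⟩
      exact ⟨t1, t2, hE, h1, h2, h12, hO, Or.inr ⟨hlt, hD⟩⟩
    · refine (hcr x0 x1 y0 y1 s r L t1 t2 (-(4 * L)) (t2 + 1 + 2 * s) (-(4 * L)) (-(3 * L)) hs hr'
        hL' hx0 hx1 hy0 hy1 hxs0 hxs1 h1 h2 h12 (by omega) (by omega) (by omega) (by omega)
        (by omega) (by omega) (by omega)).trans ?_
      apply Pr_mono
      rintro ω' _ ⟨hO, hD⟩
      exact ⟨t1, t2, hE, h1, h2, h12, hO, Or.inl ⟨hlt, hD⟩⟩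
  · rintro ω ω' _ _ _ ⟨t1, t2, hE, h1, h2, h12, hO, hD | hD⟩
    · have ht1 := abs_le.1 h1
      have ht2 := abs_le.1 h2
      exact vis_of_cross hs hr' hL' hx0 hx1 hy0 hy1 ha1 ha2 hb1 hb2 h1 h2 h12 (by omega)
        (by omega) (by omega) (by omega) (by omega) (by omega) (by omega) (by omega) hc hE hO hD.2
    · have ht1 := abs_le.1 h1
      have ht2 := abs_le.1 h2
      exact vis_of_cross hs hr' hL' hx0 hx1 hy0 hy1 ha1 ha2 hb1 hb2 h1 h2 h12 (by omega)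
        (by omega) (by omega) (by omega) (by omega) (by omega) (by omega) (by omega) hc hE hO hD.2

end Pool.Agent.H75.TwoArm
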