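import Mathlib
import Pool.Agent.H75.TwoArm.Strand

set_option autoImplicit false
open Finset

/-! Job TA7 (helper33): surviving bad exits. -/

namespace Pool.Agent.H75.TwoArm

open Pool.Agent.H75.Perc


namespace BadAux

/-- The faces of `z` and `nxC z`. -/
lemma fi_nxC (z : ℤ × ℤ) : IsUnit4 (fi (nxC z) - fi z) ∧ fi z + fi (nxC z) - (1, 1) = lab z := by
  obtain ⟨a, b⟩ := z
  have hu : ∀ x y : ℤ, (x = 1 ∧ y = 0) ∨ (x = 0 ∧ y = 1) ∨ (x = -1 ∧ y = 0) ∨ (x = 0 ∧ y = -1) →
      IsUnit4 (x, y) := by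
    intro x y h
    unfold IsUnit4
    rcases h with ⟨rfl, rfl⟩ | ⟨rfl, rfl⟩ | ⟨rfl, rfl⟩ | ⟨rfl, rfl⟩ <;> simp
  rcases ty_cases (a, b) with ⟨h0, h1, h2, h3, h4, h5⟩ | ⟨h0, h1, h2, h3, h4, h5⟩ |
    ⟨h0, h1, h2, h3, h4, h5⟩ | ⟨h0, h1, h2, h3, h4, h5⟩ <;> rw [h4, h3] <;>
    simp only at h1 h2 <;> unfold fi <;> simp only [Prod.mk_sub_mk, Prod.mk_add_mk] <;>
    refine ⟨hu _ _ (by omega), ?_⟩ <;> ext <;> simp only <;> omega

lemma fi_nxO (z : ℤ × ℤ) : fi (nxO z) = fi z := by
  obtain ⟨a, b⟩ := z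
  rcases ty_cases (a, b) with ⟨h0, h1, h2, h3, h4, h5⟩ | ⟨h0, h1, h2, h3, h4, h5⟩ |
    ⟨h0, h1, h2, h3, h4, h5⟩ | ⟨h0, h1, h2, h3, h4, h5⟩ <;> rw [h5] <;>
    simp only at h1 h2 <;> unfold fi <;> ext <;> simp only <;> omega

lemma fce_eq_fp (z : ℤ × ℤ) : fce z = fp (fi z) := rfl

/-- the vertices of the strands are in the box -/
lemma vx_in {a b c d : ℤ} {ω : Finset (ℤ × ℤ)} {z : ℤ × ℤ} (h : inB a b c d (vx z))
    (hB : lab z ∈ Bx a b c d) : inB a b c d (vx (nx ω z)) := by
  unfold nx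
  split_ifs
  · have h1 := vx_nxO z
    have h2 := unit_cases h1.1
    have h3 := mem_Bx.1 hB
    rw [← h1.2] at h3
    simp only [Prod.fst_add, Prod.snd_add] at h3
    unfold inB at h ⊢
    omega
  · rwa [vx_nxC]

lemma vx_in' {a b c d : ℤ} {ω : Finset (ℤ × ℤ)} {z : ℤ × ℤ} (h : inB a b c d (vx z))
    (hB : plab z ∈ Bx a b c d) : inB a b c d (vx (pv ω z)) := by
  have h0 := nx_pv ω z
  have h1 := lab_pv ω z
  rw [← h1] at hB
  rw [← h0] at h
  unfold nx at h
  split_ifs at h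
  · have h1 := vx_nxO (pv ω z)
    have h2 := unit_cases h1.1
    have h3 := mem_Bx.1 hB
    rw [← h1.2] at h3
    simp only [Prod.fst_add, Prod.snd_add] at h3
    unfold inB at h ⊢
    omega
  · rwa [vx_nxC] at h

lemma Str_in {a b c d : ℤ} {ω : Finset (ℤ × ℤ)} {z0 z : ℤ × ℤ} (h0 : inB a b c d (vx z0))
    (h : Str (Bx a b c d) ω z0 z) : inB a b c d (vx z) := by
  rcases h with ⟨j, rfl, hj⟩ | ⟨j, rfl, hj⟩
  · induction j with
    | zero => exact h0
    | succ n ih =>
      rw [Function.iterate_succ_apply']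
      exact vx_in (ih fun i hi => hj i (by omega)) (hj n (by omega))
  · induction j with
    | zero => exact h0
    | succ n ih =>
      rw [Function.iterate_succ_apply']
      exact vx_in' (ih fun i hi => hj i (by omega)) (hj n (by omega))

/-- a corner at an explored edge, before the edge -/
lemma exists_lab {B ω : Finset (ℤ × ℤ)} {c e : ℤ × ℤ} (he : e ∈ UU B ω c) :
    ∃ z, Str B ω c z ∧ Str B ω c (nx ω z) ∧ lab z = e := by
  classical
  unfold UU at he
  rw [mem_filter] at he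
  obtain ⟨heB, z, hz, h | h⟩ := he
  · exact ⟨z, hz, (Str_nx hz (h ▸ heB)).1, h⟩
  · refine ⟨pv ω z, (Str_pv hz (h ▸ heB)).1, ?_, ?_⟩
    · rw [nx_pv]; exact hz
    · rw [lab_pv, h]

/-- both ends of an open explored edge are on the strands -/
lemma open_ends {B ω : Finset (ℤ × ℤ)} {c u v : ℤ × ℤ} (hu : IsUnit4 (v - u))
    (he : u + v ∈ UU B ω c) (hω : u + v ∈ ω) : ∃ z, Str B ω c z ∧ vx z = v := by
  obtain ⟨z, h1, h2, h3⟩ := exists_lab he
  have h4 := vx_nxO z
  have h5 := unit_cases h4.1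
  have h6 := unit_cases hu
  have h7 : nx ω z = nxO z := by unfold nx; rw [if_pos (h3 ▸ hω)]
  rw [h3] at h4
  have h8 := h4.2
  have h9 := congrArg Prod.fst h8
  have h10 := congrArg Prod.snd h8
  simp only [Prod.fst_add, Prod.snd_add] at h9 h10
  by_cases h : vx z = v
  · exact ⟨z, h1, h⟩
  · refine ⟨nx ω z, h2, ?_⟩
    rw [h7]
    have h11 : ¬ ((vx z).1 = v.1 ∧ (vx z).2 = v.2) := fun h' => h (Prod.ext h'.1 h'.2)
    ext <;> omega

/-- both faces of a closed explored edge are on the strands -/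
lemma closed_ends {B ω : Finset (ℤ × ℤ)} {c f g : ℤ × ℤ} (hu : IsUnit4 (g - f))
    (he : f + g - (1, 1) ∈ UU B ω c) (hω : f + g - (1, 1) ∉ ω) : ∃ z, Str B ω c z ∧ fi z = g := by
  obtain ⟨z, h1, h2, h3⟩ := exists_lab he
  have h4 := fi_nxC z
  have h5 := unit_cases h4.1
  have h6 := unit_cases hu
  have h7 : nx ω z = nxC z := by unfold nx; rw [if_neg (h3 ▸ hω)]
  rw [h3] at h4
  have h8 := h4.2
  have h9 := congrArg Prod.fst h8
  have h10 := congrArg Prod.snd h8
  simp only [Prod.fst_add, Prod.snd_add, Prod.fst_sub, Prod.snd_sub] at h9 h10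
  by_cases h : fi z = g
  · exact ⟨z, h1, h⟩
  · refine ⟨nx ω z, h2, ?_⟩
    rw [h7]
    have h11 : ¬ ((fi z).1 = g.1 ∧ (fi z).2 = g.2) := fun h' => h (Prod.ext h'.1 h'.2)
    ext <;> omega

/-- last visit -/
lemma last_visit {ω : Finset (ℤ × ℤ)} {H : ℤ × ℤ → Prop} {a q : ℤ × ℤ} (ha : H a)
    (h : Co ω a q) : ∃ b, H b ∧ CoX ω (fun x => ¬ H x) b q := by
  classical
  induction h with
  | refl => exact ⟨a, ha, Relation.ReflTransGen.refl⟩
  | @tail x y hab hbc ih =>
    by_cases hy : H y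
    · exact ⟨y, hy, Relation.ReflTransGen.refl⟩
    · obtain ⟨b, hb, h⟩ := ih
      exact ⟨b, hb, Relation.ReflTransGen.tail h ⟨hbc, hy⟩⟩

lemma C0_vx {c : ℤ × ℤ} (hc : C0 c) : vx c = (0, 0) := by
  rcases hc with rfl | rfl | rfl | rfl <;> rfl

lemma mem_du {E ω : Finset (ℤ × ℤ)} {f g : ℤ × ℤ} :
    f + g ∈ du E ω ↔ f + g - (1, 1) ∈ E ∧ f + g - (1, 1) ∉ ω := by
  unfold du
  rw [mem_map]
  constructor
  · rintro ⟨e, he, h⟩
    have h1 : f + g - (1, 1) = e := by
      rw [← h]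
      ext <;> simp [sh1]
    rw [h1]
    exact mem_sdiff.1 he
  · intro h
    refine ⟨f + g - (1, 1), mem_sdiff.2 h, ?_⟩
    ext <;> simp [sh1]

end BadAux

open BadAux

theorem bad_survive_of_TC {r L w y1 y2 : ℤ} (hr : 1 ≤ r) (hL : 2 * r ≤ L) (hy : |y1 - y2| ≤ w)
    {ω ω' : Finset (ℤ × ℤ)} {c : ℤ × ℤ} (hc : C0 c) {S : ℤ × ℤ → Bool}
    (hS : TC r L ω c y1 y2 S) {q g : ℤ × ℤ} (hq : q.1 = 2 * r) (hg : g.1 = 2 * r + 1)
    (h1 : Co (mix (UU (BE r L) ω c) ω ω' ∩ BB (2 * r)) (vx c) q)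
    (h2 : Co (du (BB (2 * r)) (mix (UU (BE r L) ω c) ω ω')) (fi c) g) :
    (∃ u : ℤ × ℤ, |u.1 - r| ≤ w + 2 ∧ |u.2 - y1| ≤ w + 2 ∧ Co ω' u q) ∨
    (∃ f : ℤ × ℤ, |f.1 - r| ≤ w + 2 ∧ |f.2 - y1| ≤ w + 2 ∧ Co (du (BB (2 * r)) ω') f g) := by
  have hw := abs_le.1 hy
  have hStr0 : Str (BE r L) ω c c := Or.inl ⟨0, rfl, fun i hi => absurd hi (by omega)⟩
  have hin : ∀ z, Str (BE r L) ω c z → inB (-L) r (-L) L (vx z) := by
    intro z hz
    refine Str_in ?_ hz
    rw [C0_vx hc]
    unfold inB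
    simp only
    omega
  by_cases hyy : y1 ≤ y2
  · left
    obtain ⟨b, ⟨z, hz, rfl⟩, hb⟩ := last_visit (H := fun x => ∃ z, Str (BE r L) ω c z ∧ vx z = x)
      ⟨c, hStr0, rfl⟩ h1
    have key : ∀ x, CoX (mix (UU (BE r L) ω c) ω ω' ∩ BB (2 * r))
        (fun x => ¬ ∃ z, Str (BE r L) ω c z ∧ vx z = x) x q → S (dbl x) = true → x.1 ≤ r →
        Co ω' x q ∧ ∃ u : ℤ × ℤ, |u.1 - r| ≤ w + 2 ∧ |u.2 - y1| ≤ w + 2 ∧ Co ω' u q := by
      intro x hx
      induction hx using Relation.ReflTransGen.head_induction_on with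
      | refl => intro _ h3; omega
      | @head x x' hxx' hx'q ih =>
        intro hSx hxr
        obtain ⟨⟨hunit, hmem⟩, hnot⟩ := hxx'
        rw [mem_inter, mem_mix] at hmem
        obtain ⟨hmix, hBB⟩ := hmem
        have hnU : x + x' ∉ UU (BE r L) ω c := by
          intro hU
          rcases hmix with ⟨hmω, -⟩ | ⟨-, hn⟩
          · exact hnot (open_ends hunit hU hmω)
          · exact hn hU
        have hω' : x + x' ∈ ω' := by
          rcases hmix with ⟨-, hU⟩ | ⟨h5, -⟩
          · exact absurd hU hnU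
          · exact h5
        have hcases := unit_cases hunit
        have hBB' := mem_Bx.1 hBB
        simp only [Prod.fst_add, Prod.snd_add] at hBB'
        by_cases hBE : x + x' ∈ BE r L
        · have hBE' := mem_Bx.1 hBE
          simp only [Prod.fst_add, Prod.snd_add] at hBE'
          have h6 := hS.fresh x x' hunit hBE hnU
          obtain ⟨h7, h8⟩ := ih (h6 ▸ hSx) (by omega)
          exact ⟨Relation.ReflTransGen.head ⟨hunit, hω'⟩ h7, h8⟩
        · have h9 : x.1 = r := by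
            by_contra hne
            apply hBE
            unfold BE
            rw [mem_Bx]
            simp only [Prod.fst_add, Prod.snd_add]
            omega
          have h10 : Co ω' x q := by
            have : ∀ x, CoX (mix (UU (BE r L) ω c) ω ω' ∩ BB (2 * r))
                (fun x => ¬ ∃ z, Str (BE r L) ω c z ∧ vx z = x) x q → Co ω' x q := by
              intro x hx
              induction hx using Relation.ReflTransGen.head_induction_on with
              | refl => exact Co.refl _ _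
              | @head x x' hxx' hx'q ih =>
                obtain ⟨⟨hunit, hmem⟩, hnot⟩ := hxx'
                rw [mem_inter, mem_mix] at hmem
                refine Relation.ReflTransGen.head ⟨hunit, ?_⟩ ih
                rcases hmem.1 with ⟨hmω, hU⟩ | ⟨h5, -⟩
                · exact absurd (open_ends hunit hU hmω) hnot
                · exact h5
            exact Relation.ReflTransGen.head ⟨hunit, hω'⟩ (this x' hx'q)
          have h11 : S (dbl (x.1, x.2)) = true := hSx
          rw [hS.east x.1 x.2 (by omega)] at h11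
          refine ⟨h10, x, ?_, ?_, h10⟩
          · rw [abs_le]; omega
          · rw [abs_le]; omega
    exact (key (vx z) hb (hS.str z hz).1 (hin z hz).1.2).2
  · right
    obtain ⟨b, ⟨z, hz, rfl⟩, hb⟩ := last_visit (H := fun x => ∃ z, Str (BE r L) ω c z ∧ fi z = x)
      ⟨c, hStr0, rfl⟩ h2
    have hall : ∀ x, CoX (du (BB (2 * r)) (mix (UU (BE r L) ω c) ω ω'))
        (fun x => ¬ ∃ z, Str (BE r L) ω c z ∧ fi z = x) x g → Co (du (BB (2 * r)) ω') x g := by
      intro x hx
      induction hx using Relation.ReflTransGen.head_induction_on with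
      | refl => exact Co.refl _ _
      | @head x x' hxx' hx'q ih =>
        obtain ⟨⟨hunit, hmem⟩, hnot⟩ := hxx'
        rw [mem_du, mem_mix] at hmem
        refine Relation.ReflTransGen.head ⟨hunit, ?_⟩ ih
        rw [mem_du]
        refine ⟨hmem.1, fun h5 => ?_⟩
        by_cases hU : x + x' - (1, 1) ∈ UU (BE r L) ω c
        · exact hnot (closed_ends hunit hU fun h6 => hmem.2 (Or.inl ⟨h6, hU⟩))
        · exact hmem.2 (Or.inr ⟨h5, hU⟩)
    have key : ∀ x, CoX (du (BB (2 * r)) (mix (UU (BE r L) ω c) ω ω'))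
        (fun x => ¬ ∃ z, Str (BE r L) ω c z ∧ fi z = x) x g → S (fp x) = false → x.1 ≤ r + 1 →
        ∃ u : ℤ × ℤ, |u.1 - r| ≤ w + 2 ∧ |u.2 - y1| ≤ w + 2 ∧ Co (du (BB (2 * r)) ω') u g := by
      intro x hx
      induction hx using Relation.ReflTransGen.head_induction_on with
      | refl => intro _ h3; omega
      | @head x x' hxx' hx'q ih =>
        intro hSx hxr
        have h10 : Co (du (BB (2 * r)) ω') x g := hall x (Relation.ReflTransGen.head hxx' hx'q)
        obtain ⟨⟨hunit, hmem⟩, hnot⟩ := hxx'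
        rw [mem_du, mem_mix] at hmem
        have hnU : x + x' - (1, 1) ∉ UU (BE r L) ω c := by
          intro hU
          exact hnot (closed_ends hunit hU fun h6 => hmem.2 (Or.inl ⟨h6, hU⟩))
        have hcases := unit_cases hunit
        have hBB' := mem_Bx.1 hmem.1
        simp only [Prod.fst_add, Prod.snd_add, Prod.fst_sub, Prod.snd_sub] at hBB'
        by_cases hBE : x + x' - (1, 1) ∈ BE r L
        · have hBE' := mem_Bx.1 hBE
          simp only [Prod.fst_add, Prod.snd_add, Prod.fst_sub, Prod.snd_sub] at hBE'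
          have h6 := hS.freshd x x' hunit hBE hnU
          exact ih (h6 ▸ hSx) (by omega)
        · have h9 : x.1 = r + 1 := by
            by_contra hne
            apply hBE
            unfold BE
            rw [mem_Bx]
            simp only [Prod.fst_add, Prod.snd_add, Prod.fst_sub, Prod.snd_sub]
            omega
          have h11 : S (fp (x.1, x.2)) = false := hSx
          rw [hS.eastd x.1 x.2 (by omega)] at h11
          refine ⟨x, ?_, ?_, h10⟩
          · rw [abs_le]; omega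
          · rw [abs_le]; omega
    refine key (fi z) hb (hS.str z hz).2 ?_
    have := (hin z hz).1.2
    unfold vx at this
    unfold fi
    simp only at this ⊢
    omega

end Pool.Agent.H75.TwoArm
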