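import Mathlib
import Pool.Agent.H75.TwoArm.Defs
import Pool.Agent.H65.Two.Defs
import Pool.Agent.H51.TA.Asym
import Pool.Agent.H63.Bulk.Law
import Pool.Agent.H63.Bulk.Mc

/-!
# The two-arm probability on the bi-infinite cylinder
-/

set_option autoImplicit false
open Finset MeasureTheory Filter Topology

namespace Pool.Agent.H75.TwoArm

open Pool.Agent.H75.Perc
open Pool.Agent.H98.Izer (rR)
open Pool.Agent.H65.Two (TwoWinds)
open Pool.Agent.H63.Bulk (bulkMeasure)

namespace CylLaw

open Pool.Agent.H63.Bulk Pool.Agent.H65.Perc Pool.Agent.H65.Two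
open Pool.Agent.H51.TA (toPat toPat_t mc loopsAround_finite loopsAround)

/-! ### the dual configuration -/

/-- the dual configuration; the face `(x, y)` becomes the vertex `(x, y + 1)` -/
def star (n : ℕ) (ω : BConf n) : BConf n := fun e =>
  if e.2.2 = true then !(ω (e.1, e.2.1 + 1, false)) else !(ω (e.1, e.2.1, true))

/-- the dual configuration of a half cylinder -/
def starC (n : ℕ) (ω : CConf n) : CConf n := fun e =>
  if e.2.2 = true then !(ω (e.1, e.2.1 + 1, false)) else !(ω (e.1, e.2.1, true))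

theorem up_star (n : ℕ) (ω : BConf n) : up n (star n ω) = starC n (up n ω) := by
  funext ⟨r, a, d⟩
  cases d <;> simp [up, star, starC, iU]

theorem dn_star (n : ℕ) (ω : BConf n) : dn n (star n ω) = starC n (dn n ω) := by
  funext ⟨r, a, d⟩
  have e1 : a - (r : ZMod n) - 1 + 1 = a - (r : ZMod n) := by ring
  have e2 : a + 1 - (r : ZMod n) - 1 = a - (r : ZMod n) := by ring
  cases d
  · simp only [dn, star, starC, iD, Bool.false_eq_true, if_false, if_true, e1]
  · simp only [dn, star, starC, iD, Bool.false_eq_true, if_false, if_true, e2]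

theorem rows_star (n : ℕ) [NeZero n] (ω : CConf n) (r : ℕ) (k : ℤ) :
    rowsOf n (starC n ω) r (modFin k) = rowsOf n ω r (modFin (k + 1)) := by
  rcases Int.even_or_odd' ((r : ℤ) + k) with ⟨x, hx | hx⟩
  · rw [rowsOf_even n _ r k x hx, rowsOf_odd n ω r (k + 1) (x + 1) (by omega)]
    simp [starC]
  · rw [rowsOf_odd n _ r k (x + 1) (by omega), rowsOf_even n ω r (k + 1) (x + 1) (by omega)]
    simp [starC]

theorem fstep_star {n : ℕ} [NeZero n] {ω : CConf n} {M : ℕ} {a b : ℕ × ℤ} :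
    FStep M (rowsOf n (starC n ω)) a b ↔
      FStep M (rowsOf n ω) (a.1, a.2 + 1) (b.1, b.2 + 1) := by
  obtain ⟨a1, a2⟩ := a
  obtain ⟨b1, b2⟩ := b
  constructor
  · rintro ⟨r, hr, k, ⟨h, h1, h2⟩ | ⟨h, h1, h2⟩⟩
    · rw [rows_star] at h
      simp only [Prod.mk.injEq] at h1 h2
      refine ⟨r, hr, k + 1, Or.inl ⟨h, ?_, ?_⟩⟩ <;> simp only [Prod.mk.injEq] <;> omega
    · rw [rows_star] at h
      simp only [Prod.mk.injEq] at h1 h2
      refine ⟨r, hr, k + 1, Or.inr ⟨h, ?_, ?_⟩⟩ <;> simp only [Prod.mk.injEq] <;> omega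
  · rintro ⟨r, hr, k, ⟨h, h1, h2⟩ | ⟨h, h1, h2⟩⟩
    · have e : k = (k - 1) + 1 := by ring
      rw [e, ← rows_star] at h
      simp only [Prod.mk.injEq] at h1 h2
      refine ⟨r, hr, k - 1, Or.inl ⟨h, ?_, ?_⟩⟩ <;> simp only [Prod.mk.injEq] <;> omega
    · have e : k = (k - 1) + 1 := by ring
      rw [e, ← rows_star] at h
      simp only [Prod.mk.injEq] at h1 h2
      refine ⟨r, hr, k - 1, Or.inr ⟨h, ?_, ?_⟩⟩ <;> simp only [Prod.mk.injEq] <;> omega

theorem fconn_star {n : ℕ} [NeZero n] {ω : CConf n} {M : ℕ} {a b : ℕ × ℤ}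
    (h : FConn M (rowsOf n (starC n ω)) a b) :
    FConn M (rowsOf n ω) (a.1, a.2 + 1) (b.1, b.2 + 1) := by
  induction h with
  | rel a b h => exact Relation.EqvGen.rel _ _ (fstep_star.1 h)
  | refl a => exact Relation.EqvGen.refl _
  | symm a b _ ih => exact ih.symm _ _
  | trans a b c _ _ ih1 ih2 => exact ih1.trans _ _ _ ih2

theorem fconn_star' {n : ℕ} [NeZero n] {ω : CConf n} {M : ℕ} {a b : ℕ × ℤ}
    (h : FConn M (rowsOf n ω) a b) :
    FConn M (rowsOf n (starC n ω)) (a.1, a.2 - 1) (b.1, b.2 - 1) := by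
  induction h with
  | rel a b h =>
    refine Relation.EqvGen.rel _ _ (fstep_star.2 ?_)
    simpa using h
  | refl a => exact Relation.EqvGen.refl _
  | symm a b _ ih => exact ih.symm _ _
  | trans a b c _ _ ih1 ih2 => exact ih1.trans _ _ _ ih2

theorem dual_adj {n : ℕ} {ω : BConf n} {f g : ℤ × ℤ} :
    (dualGraph n ω).Adj f g ↔ (bulkGraph n (star n ω)).Adj (f.1, f.2 + 1) (g.1, g.2 + 1) := by
  obtain ⟨a, b⟩ := f
  obtain ⟨c, d⟩ := g
  simp only [dualGraph, bulkGraph, SimpleGraph.fromRel_adj, star, if_true, Bool.false_eq_true,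
    if_false, Bool.not_eq_true', ne_eq, Prod.mk.injEq, add_left_inj]
  push_cast
  have e1 : a + 1 + b = a + (b + 1) := by ring
  have e2 : c + 1 + d = c + (d + 1) := by ring
  rw [e1, e2]

/-- the graph isomorphism between the dual graph and the graph of the dual configuration -/
def dualIso (n : ℕ) (ω : BConf n) : dualGraph n ω ≃g bulkGraph n (star n ω) where
  toEquiv := Equiv.prodCongr (Equiv.refl ℤ) (Equiv.addRight 1)
  map_rel_iff' := by
    intro f g
    exact dual_adj.symm

theorem fwinds_iff {n : ℕ} {ω : BConf n} : FWinds n ω (0, -1) ↔ BWinds n (star n ω) := by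
  unfold FWinds BWinds
  refine exists_congr fun m => and_congr_right fun _ => ?_
  rw [← (dualIso n ω).reachable_iff]
  have e1 : (dualIso n ω) (0, -1) = (0, 0) := rfl
  have e2 : (dualIso n ω) ((0, -1).1 + m * (n : ℤ), (0, -1).2 - m * (n : ℤ)) =
      (m * (n : ℤ), -(m * (n : ℤ))) := by
    change (_, _) = _
    simp only [Prod.mk.injEq]
    constructor
    · simp
    · change (-1 - m * (n : ℤ)) + 1 = _
      ring
  rw [e1, e2]

/-! ### the wired dual connections -/

/-- the dual cluster of the face winds in the cylinder of height `2M`, wired at the two ends -/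
def DW (n : ℕ) [NeZero n] (M : ℕ) (ω : BConf n) : Prop :=
  ∃ m : ℤ, m ≠ 0 ∧ Glue (RR M (rowsOf n (up n ω))) (RR M (rowsOf n (dn n ω))) 1
    (1 + m * ((2 * n : ℕ) : ℤ))

theorem glue_of_star {n : ℕ} [NeZero n] {M : ℕ} {ω ω' : CConf n} {a b : ℤ}
    (h : BConn M (rowsOf n (starC n ω)) (rowsOf n (starC n ω')) a b) :
    Glue (RR M (rowsOf n ω)) (RR M (rowsOf n ω')) (2 * a + 1) (2 * b + 1) := by
  induction h with
  | rel a b h =>
    refine Relation.EqvGen.rel _ _ ?_
    rcases h with h | h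
    · exact Or.inl (Relation.EqvGen.mono (fun a b h => Or.inl h) _ _ (fconn_star h))
    · exact Or.inr (Relation.EqvGen.mono (fun a b h => Or.inl h) _ _ (fconn_star h))
  | refl a => exact Relation.EqvGen.refl _
  | symm a b _ ih => exact ih.symm _ _
  | trans a b c _ _ ih1 ih2 => exact ih1.trans _ _ _ ih2

theorem dw_of {n : ℕ} [NeZero n] {M : ℕ} {ω : BConf n} (h : BWindsM n M (star n ω)) :
    DW n M ω := by
  obtain ⟨m, hm, h⟩ := h
  rw [up_star, dn_star] at h
  refine ⟨m, hm, ?_⟩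
  have h1 := glue_of_star h
  have e : 2 * (0 + m * (n : ℤ)) + 1 = 1 + m * ((2 * n : ℕ) : ℤ) := by push_cast; ring
  rw [e] at h1
  simpa using h1

/-- all the edges of the row are open -/
def full (n : ℕ) (r : ℕ) (i : Fin (2 * n)) : Bool := decide (((r : ℤ) + (i.val : ℤ)) % 2 = 1)

theorem full_modFin {n : ℕ} [NeZero n] (r : ℕ) (k : ℤ) :
    full n r (modFin k) = decide (((r : ℤ) + k) % 2 = 1) := by
  obtain ⟨q, hq⟩ := Pool.Agent.H65.Perc.modFin_spec n k
  unfold full
  rw [hq]
  have : 2 * (n : ℤ) * q = 2 * ((n : ℤ) * q) := by ring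
  have h : ((r : ℤ) + (k - 2 * (n : ℤ) * q)) % 2 = ((r : ℤ) + k) % 2 := by
    rw [this]; omega
  rw [h]

/-- a fully open row blocks the dual connections -/
theorem block {n : ℕ} [NeZero n] {M : ℕ} {w : ℕ → Fin (2 * n) → Bool} {r : ℕ} (hr : r < M)
    (hf : w r = full n r) {a b : ℕ × ℤ} (h : Relation.EqvGen (Lk.EA M w) a b) :
    (((a.1 : ℤ) + a.2) % 2 = ((b.1 : ℤ) + b.2) % 2) ∧ (((a.1 : ℤ) + a.2) % 2 = 1 →
      ((a.1 ≤ r ↔ b.1 ≤ r) ∧ (a.1 ≤ r → FConn M w a b))) := by
  induction h with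
  | rel a b h =>
    rcases h with h | ⟨c, c', h1, h2, rfl, rfl⟩
    · have h0 := h
      obtain ⟨r', hr', k, ⟨h1, rfl, rfl⟩ | ⟨h1, rfl, rfl⟩⟩ := h
      · refine ⟨by push_cast; omega, fun hp => ⟨?_, fun _ => Relation.EqvGen.rel _ _ h0⟩⟩
        have hne : r' ≠ r := by
          rintro rfl
          rw [hf, full_modFin] at h1
          simp only [decide_eq_true_eq] at h1
          push_cast at hp
          omega
        simp only
        omega
      · refine ⟨by push_cast; omega, fun hp => ⟨?_, fun _ => Relation.EqvGen.rel _ _ h0⟩⟩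
        have hne : r' ≠ r := by
          rintro rfl
          rw [hf, full_modFin] at h1
          simp only [decide_eq_false_iff_not] at h1
          simp only at hp
          omega
        simp only
        omega
    · refine ⟨by simp only; omega, fun _ => ⟨Iff.rfl, fun h => ?_⟩⟩
      simp only at h
      omega
  | refl a => exact ⟨rfl, fun _ => ⟨Iff.rfl, fun _ => Relation.EqvGen.refl _⟩⟩
  | symm a b _ ih =>
    refine ⟨ih.1.symm, fun hp => ⟨(ih.2 (by omega)).1.symm, fun h => ?_⟩⟩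
    exact ((ih.2 (by omega)).2 ((ih.2 (by omega)).1.2 h)).symm _ _
  | trans a b c _ _ ih1 ih2 =>
    refine ⟨ih1.1.trans ih2.1, fun hp => ⟨(ih1.2 hp).1.trans (ih2.2 (by omega)).1, fun h => ?_⟩⟩
    exact ((ih1.2 hp).2 h).trans _ _ _ ((ih2.2 (by omega)).2 ((ih1.2 hp).1.1 h))

theorem glue_star {n : ℕ} [NeZero n] {M : ℕ} {ω ω' : CConf n} {r r' : ℕ} (hr : r < M)
    (hr' : r' < M) (hf : rowsOf n ω r = full n r) (hf' : rowsOf n ω' r' = full n r') {a b : ℤ}
    (h : Glue (RR M (rowsOf n ω)) (RR M (rowsOf n ω')) a b) :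
    (a % 2 = b % 2) ∧ (a % 2 = 1 →
      BConn M (rowsOf n (starC n ω)) (rowsOf n (starC n ω')) (a / 2) (b / 2)) := by
  have key : ∀ (ω : CConf n) (r : ℕ), r < M → rowsOf n ω r = full n r → ∀ a b : ℤ,
      RR M (rowsOf n ω) a b → (a % 2 = b % 2) ∧ (a % 2 = 1 →
      FConn M (rowsOf n (starC n ω)) (0, 2 * (a / 2)) (0, 2 * (b / 2))) := by
    intro ω r hr hf a b h
    obtain ⟨h1, h2⟩ := block hr hf h
    simp only at h1 h2
    refine ⟨by push_cast at h1; omega, fun ha => ?_⟩
    have h3 := fconn_star' ((h2 (by push_cast; omega)).2 (by omega))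
    simp only at h3
    have e1 : 2 * (a / 2) = a - 1 := by omega
    have e2 : 2 * (b / 2) = b - 1 := by push_cast at h1; omega
    rw [e1, e2]
    exact h3
  induction h with
  | rel a b h =>
    rcases h with h | h
    · obtain ⟨h1, h2⟩ := key ω r hr hf a b h
      exact ⟨h1, fun ha => Relation.EqvGen.rel _ _ (Or.inl (h2 ha))⟩
    · obtain ⟨h1, h2⟩ := key ω' r' hr' hf' a b h
      exact ⟨h1, fun ha => Relation.EqvGen.rel _ _ (Or.inr (h2 ha))⟩
  | refl a => exact ⟨rfl, fun _ => Relation.EqvGen.refl _⟩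
  | symm a b _ ih => exact ⟨ih.1.symm, fun h => (ih.2 (by omega)).symm _ _⟩
  | trans a b c _ _ ih1 ih2 =>
    exact ⟨ih1.1.trans ih2.1, fun h => (ih1.2 h).trans _ _ _ (ih2.2 (by omega))⟩

theorem of_dw {n : ℕ} [NeZero n] {M : ℕ} {ω : BConf n} {r r' : ℕ} (hr : r < M)
    (hr' : r' < M) (hf : rowsOf n (up n ω) r = full n r) (hf' : rowsOf n (dn n ω) r' = full n r')
    (h : DW n M ω) : BWindsM n M (star n ω) := by
  obtain ⟨m, hm, h⟩ := h
  refine ⟨m, hm, ?_⟩
  rw [up_star, dn_star]
  have h1 := (glue_star hr hr' hf hf' h).2 (by norm_num)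
  have e1 : (1 : ℤ) / 2 = 0 := by norm_num
  have e2 : (1 + m * ((2 * n : ℕ) : ℤ)) / 2 = 0 + m * (n : ℤ) := by
    have : 1 + m * ((2 * n : ℕ) : ℤ) = 1 + 2 * (m * n) := by push_cast; ring
    rw [this]; omega
  rw [e1, e2] at h1
  exact h1

theorem ea_congr {L : ℕ} [NeZero L] {M : ℕ} {w w' : ℕ → Fin L → Bool} (h : ∀ r < M, w r = w' r)
    {a b : ℤ} (hab : RR M w a b) : RR M w' a b := by
  refine Relation.EqvGen.mono ?_ _ _ hab
  rintro a b (⟨r, hr, k, hk⟩ | h')
  · refine Or.inl ⟨r, hr, k, ?_⟩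
    rw [h r hr] at hk
    exact hk
  · exact Or.inr h'

theorem dw_iff (n : ℕ) [NeZero n] (M : ℕ) (ω : BConf n) :
    DW n M ω ↔ NoLoop (cov (runRows (extRows (restr n M (up n ω))) M (cap n M)))
      (cov (runRows (extRows (restr n M (dn n ω))) M (cap n M))) 1 := by
  have hn : (0 : ℤ) < ((2 * n : ℕ) : ℤ) := by
    have := Nat.pos_of_ne_zero (NeZero.ne (2 * n))
    exact_mod_cast this
  rw [← dict hn (half_data n M _) (half_data n M _) 1]
  unfold DW
  refine exists_congr fun m => and_congr_right fun _ => ?_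
  constructor
  · refine Relation.EqvGen.mono (fun a b hab => ?_) _ _
    exact hab.imp (ea_congr fun r hr => (extRows_restr n M _ r hr).symm)
      (ea_congr fun r hr => (extRows_restr n M _ r hr).symm)
  · refine Relation.EqvGen.mono (fun a b hab => ?_) _ _
    exact hab.imp (ea_congr fun r hr => (extRows_restr n M _ r hr))
      (ea_congr fun r hr => (extRows_restr n M _ r hr))

/-! ### probabilities -/

/-- one of the two halves has no fully open row -/
def NoFull (n : ℕ) (M : ℕ) (ω : BConf n) : Prop :=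
  (∀ r : Fin M, restr n M (up n ω) r ≠ full n r) ∨ (∀ r : Fin M, restr n M (dn n ω) r ≠ full n r)

theorem sum_noFull (n M : ℕ) :
    (∑ η : Fin M → Fin (2 * n) → Bool, if (∀ r : Fin M, η r ≠ full n r) then (1 : ℝ) else 0) =
      (2 ^ (2 * n) - 1) ^ M := by
  classical
  have h1 : ∀ η : Fin M → Fin (2 * n) → Bool,
      (if (∀ r : Fin M, η r ≠ full n r) then (1 : ℝ) else 0) =
        ∏ r : Fin M, if η r ≠ full n r then (1 : ℝ) else 0 := by
    intro η
    by_cases h : ∀ r : Fin M, η r ≠ full n r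
    · rw [if_pos h, Finset.prod_eq_one]
      intro r _
      rw [if_pos (h r)]
    · rw [if_neg h]
      push Not at h
      obtain ⟨r, hr⟩ := h
      exact (Finset.prod_eq_zero (Finset.mem_univ r) (if_neg (not_not.2 hr))).symm
  rw [Finset.sum_congr rfl fun η _ => h1 η]
  have h2 := Finset.prod_univ_sum (fun _ : Fin M => (Finset.univ : Finset (Fin (2 * n) → Bool)))
    (fun (r : Fin M) (x : Fin (2 * n) → Bool) => if x ≠ full n r then (1 : ℝ) else 0)
  rw [Fintype.piFinset_univ] at h2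
  rw [← h2]
  have h3 : ∀ r : Fin M, (∑ x : Fin (2 * n) → Bool, if x ≠ full n r then (1 : ℝ) else 0) =
      2 ^ (2 * n) - 1 := by
    intro r
    have h4 : ∀ x : Fin (2 * n) → Bool, (if x ≠ full n r then (1 : ℝ) else 0) =
        1 - if x = full n r then 1 else 0 := by
      intro x
      by_cases h : x = full n r <;> simp [h]
    rw [Finset.sum_congr rfl fun x _ => h4 x, Finset.sum_sub_distrib]
    simp
  rw [Finset.prod_congr rfl fun r _ => h3 r]
  simp

theorem prob_noFull_up (n : ℕ) [NeZero n] (M : ℕ) :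
    ∫ ω, (if (∀ r : Fin M, (jres n M ω).1 r ≠ full n r) then (1 : ℝ) else 0) ∂(bulkMeasure n) =
      (1 - (1 / 2) ^ (2 * n)) ^ M := by
  classical
  have h := prob_jres n M (fun η _ => if (∀ r : Fin M, η r ≠ full n r) then (1 : ℝ) else 0)
  rw [h]
  simp only [Finset.sum_const, Finset.card_univ, Fintype.card_pi, Fintype.card_bool,
    Finset.prod_const, Fintype.card_fin, nsmul_eq_mul]
  have e : ((((2 : ℕ) ^ (2 * n)) ^ M : ℕ) : ℝ) * (1 / 2 : ℝ) ^ (2 * n * M) = 1 := by
    push_cast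
    rw [← pow_mul, ← mul_pow]
    norm_num
  have h2 : ∀ x : Fin M → Fin (2 * n) → Bool,
      (1 / 2 : ℝ) ^ (2 * n * M) * (((((2 : ℕ) ^ (2 * n)) ^ M : ℕ) : ℝ) *
        (if (∀ r : Fin M, x r ≠ full n r) then (1 : ℝ) else 0)) =
        if (∀ r : Fin M, x r ≠ full n r) then (1 : ℝ) else 0 := by
    intro x
    linear_combination (if (∀ r : Fin M, x r ≠ full n r) then (1 : ℝ) else 0) * e
  rw [Finset.sum_congr rfl fun x _ => h2 x, sum_noFull, pow_mul, ← mul_pow]
  congr 1
  rw [mul_sub, ← mul_pow]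
  norm_num

theorem prob_noFull_dn (n : ℕ) [NeZero n] (M : ℕ) :
    ∫ ω, (if (∀ r : Fin M, (jres n M ω).2 r ≠ full n r) then (1 : ℝ) else 0) ∂(bulkMeasure n) =
      (1 - (1 / 2) ^ (2 * n)) ^ M := by
  classical
  have h := prob_jres n M (fun _ η => if (∀ r : Fin M, η r ≠ full n r) then (1 : ℝ) else 0)
  rw [h]
  simp only [sum_noFull]
  simp only [Finset.sum_const, Finset.card_univ, Fintype.card_pi, Fintype.card_bool,
    Finset.prod_const, Fintype.card_fin, nsmul_eq_mul]
  have e : ((((2 : ℕ) ^ (2 * n)) ^ M : ℕ) : ℝ) * (1 / 2 : ℝ) ^ (2 * n * M) = 1 := by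
    push_cast
    rw [← pow_mul, ← mul_pow]
    norm_num
  have e2 : (1 - (1 / 2 : ℝ) ^ (2 * n)) ^ M = (1 / 2 : ℝ) ^ (2 * n * M) * (2 ^ (2 * n) - 1) ^ M := by
    have e3 : ((1 / 2 : ℝ) ^ (2 * n * M)) = ((1 / 2 : ℝ) ^ (2 * n)) ^ M := pow_mul _ _ _
    rw [e3, ← mul_pow]
    congr 1
    rw [mul_sub, ← mul_pow]
    norm_num
  rw [e2]
  linear_combination ((1 / 2 : ℝ) ^ (2 * n * M) * (2 ^ (2 * n) - 1) ^ M) * e

theorem prob_noFull (n : ℕ) [NeZero n] (M : ℕ) :
    ((bulkMeasure n) {ω | NoFull n M ω}).toReal ≤ 2 * (1 - (1 / 2) ^ (2 * n)) ^ M := by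
  classical
  have hm : ∀ P : (Fin M → Fin (2 * n) → Bool) × (Fin M → Fin (2 * n) → Bool) → Prop,
      MeasurableSet {ω : BConf n | P (jres n M ω)} := fun P =>
    measurable_jres n M (Set.toFinite {η | P η}).measurableSet
  have key : ∀ P : (Fin M → Fin (2 * n) → Bool) × (Fin M → Fin (2 * n) → Bool) → Prop,
      ∫ ω, (if P (jres n M ω) then (1 : ℝ) else 0) ∂(bulkMeasure n) =
        ((bulkMeasure n) {ω | P (jres n M ω)}).toReal := by
    intro P
    have h3 : (fun ω => if P (jres n M ω) then (1 : ℝ) else 0) =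
        Set.indicator {ω : BConf n | P (jres n M ω)} (fun _ => (1 : ℝ)) := by
      funext ω
      rw [Set.indicator_apply]
      rfl
    rw [h3, integral_indicator_const _ (hm P), smul_eq_mul, mul_one, Measure.real]
  have h1 := key (fun η => ∀ r : Fin M, η.1 r ≠ full n r)
  have h2 := key (fun η => ∀ r : Fin M, η.2 r ≠ full n r)
  replace h1 := (prob_noFull_up n M).symm.trans
    ((integral_congr_ae (Eventually.of_forall fun ω => by congr)).trans h1)
  replace h2 := (prob_noFull_dn n M).symm.trans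
    ((integral_congr_ae (Eventually.of_forall fun ω => by congr)).trans h2)
  have hset : {ω : BConf n | NoFull n M ω} = {ω | ∀ r : Fin M, (jres n M ω).1 r ≠ full n r} ∪
      {ω | ∀ r : Fin M, (jres n M ω).2 r ≠ full n r} := rfl
  rw [hset]
  have h4 := measureReal_union_le (μ := bulkMeasure n)
    {ω : BConf n | ∀ r : Fin M, (jres n M ω).1 r ≠ full n r}
    {ω : BConf n | ∀ r : Fin M, (jres n M ω).2 r ≠ full n r}
  rw [Measure.real, Measure.real, Measure.real] at h4
  rw [← h1, ← h2] at h4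
  linarith

theorem main (n : ℕ) (hn : 1 ≤ n) :
    ((bulkMeasure n) {ω | TwoWinds n ω}).toReal = rR n := by
  classical
  have : NeZero n := ⟨by omega⟩
  obtain ⟨Ψ, hlim, -⟩ := exists_Psi n
  have hlaw := Pool.Agent.H51.TA.two_arm_eq n Ψ hlim ⟨cap n 0, planar_cap n 0⟩ 0
  have e : ∀ z : PX (2 * n), (toPat z).t = cov z.1 := fun z => toPat_t z
  have hmc : ∀ (x y : PX (2 * n)) (g : ℤ), mc (toPat x).t (toPat y).t g = 0 ↔
      NoLoop (cov x.1) (cov y.1) g := by
    intro x y g
    rw [← e, ← e, noLoop_iff (toPat x).inv (toPat y).inv]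
    unfold mc
    rw [Set.ncard_eq_zero (loopsAround_finite (toPat x) (toPat y) (by omega) g)]
  have h0 := tendsto_states n hlim (fun s s' =>
    if NoLoop (cov s) (cov s') 0 ∧ NoLoop (cov s) (cov s') 1 then 1 else 0)
  have h3 : (fun x : PX (2 * n) => Ψ (fun y : PX (2 * n) =>
      if NoLoop (cov x.1) (cov y.1) 0 ∧ NoLoop (cov x.1) (cov y.1) 1 then (1 : ℝ) else 0)) =
      (fun x : PX (2 * n) => Ψ (fun y : PX (2 * n) =>
        if mc (toPat x).t (toPat y).t 0 = 0 ∧ mc (toPat x).t (toPat y).t (0 + 1) = 0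
          then (1 : ℝ) else 0)) := by
    funext x
    congr 1
    funext y
    simp only [hmc, zero_add]
  rw [h3, hlaw] at h0
  -- the event at height M
  set S : ℕ → Set (BConf n) := fun M => {ω | BWindsM n M ω ∧ DW n M ω} with hS
  set R : ℕ → Set (BConf n) := fun M => {ω | BWindsM n M ω ∧ BWindsM n M (star n ω)} with hR
  have hSset : ∀ M, S M = jres n M ⁻¹'
      {η | NoLoop (cov (runRows (extRows η.1) M (cap n M)))
        (cov (runRows (extRows η.2) M (cap n M))) 0 ∧
        NoLoop (cov (runRows (extRows η.1) M (cap n M)))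
        (cov (runRows (extRows η.2) M (cap n M))) 1} := by
    intro M
    ext ω
    exact and_congr (bwindsM_iff n M ω) (dw_iff n M ω)
  have hSmeas : ∀ M, MeasurableSet (S M) := by
    intro M
    rw [hSset]
    exact measurable_jres n M (Set.toFinite _).measurableSet
  have h2 : ∀ M : ℕ, ∫ ω, (if NoLoop (cov (runRows (extRows (jres n M ω).1) M (cap n M)))
        (cov (runRows (extRows (jres n M ω).2) M (cap n M))) 0 ∧
        NoLoop (cov (runRows (extRows (jres n M ω).1) M (cap n M)))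
        (cov (runRows (extRows (jres n M ω).2) M (cap n M))) 1 then (1 : ℝ) else 0)
        ∂(bulkMeasure n) = ((bulkMeasure n) (S M)).toReal := by
    intro M
    have h3 : (fun ω => if NoLoop (cov (runRows (extRows (jres n M ω).1) M (cap n M)))
        (cov (runRows (extRows (jres n M ω).2) M (cap n M))) 0 ∧
        NoLoop (cov (runRows (extRows (jres n M ω).1) M (cap n M)))
        (cov (runRows (extRows (jres n M ω).2) M (cap n M))) 1 then (1 : ℝ) else 0) =
        Set.indicator (S M) (fun _ => (1 : ℝ)) := by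
      funext ω
      by_cases hω : ω ∈ S M
      · rw [Set.indicator_of_mem hω]
        rw [hSset] at hω
        exact if_pos hω
      · rw [Set.indicator_of_notMem hω]
        rw [hSset] at hω
        exact if_neg hω
    rw [h3, integral_indicator_const _ (hSmeas M), smul_eq_mul, mul_one, Measure.real]
  simp only [h2] at h0
  -- comparison with the event without the wiring
  have hRS : ∀ M, R M ⊆ S M := fun M ω h => ⟨h.1, dw_of h.2⟩
  have hSR : ∀ M, S M ⊆ R M ∪ {ω | NoFull n M ω} := by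
    intro M ω h
    by_cases hf : NoFull n M ω
    · exact Or.inr hf
    · left
      unfold NoFull at hf
      push Not at hf
      obtain ⟨⟨r, hr⟩, ⟨r', hr'⟩⟩ := hf
      exact ⟨h.1, of_dw r.isLt r'.isLt hr hr' h.2⟩
  have hdiff : Tendsto (fun M => ((bulkMeasure n) (S M)).toReal - ((bulkMeasure n) (R M)).toReal)
      atTop (𝓝 0) := by
    have hp : (1 / 2 : ℝ) ^ (2 * n) ≤ 1 := pow_le_one₀ (by norm_num) (by norm_num)
    have hp0 : (0 : ℝ) < (1 / 2 : ℝ) ^ (2 * n) := by positivity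
    have hb : Tendsto (fun M : ℕ => 2 * (1 - (1 / 2 : ℝ) ^ (2 * n)) ^ M) atTop (𝓝 (2 * 0)) :=
      (tendsto_pow_atTop_nhds_zero_of_lt_one (by linarith) (by linarith)).const_mul 2
    rw [mul_zero] at hb
    refine squeeze_zero (fun M => ?_) (fun M => ?_) hb
    · exact sub_nonneg.2 (ENNReal.toReal_mono (measure_ne_top _ _) (measure_mono (hRS M)))
    · have h4 : (bulkMeasure n).real (S M) ≤
          (bulkMeasure n).real (R M) + (bulkMeasure n).real {ω | NoFull n M ω} :=
        (measureReal_mono (hSR M)).trans (measureReal_union_le _ _)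
      have h5 := prob_noFull n M
      rw [Measure.real, Measure.real, Measure.real] at h4
      linarith
  have hRlim : Tendsto (fun M => ((bulkMeasure n) (R M)).toReal) atTop (𝓝 (rR n)) := by
    have := h0.sub hdiff
    simpa using this
  refine tendsto_nhds_unique ?_ hRlim
  have h4 : {ω : BConf n | TwoWinds n ω} = ⋃ M, R M := by
    ext ω
    rw [Set.mem_iUnion]
    change BWinds n ω ∧ FWinds n ω (0, -1) ↔ _
    rw [fwinds_iff, bwinds_iff, bwinds_iff]
    constructor
    · rintro ⟨⟨M, h⟩, ⟨M', h'⟩⟩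
      exact ⟨max M M', h.mono (le_max_left _ _), h'.mono (le_max_right _ _)⟩
    · rintro ⟨M, h, h'⟩
      exact ⟨⟨M, h⟩, ⟨M, h'⟩⟩
  rw [h4]
  have h5 := tendsto_measure_iUnion_atTop (μ := bulkMeasure n) (s := R)
    (fun M M' h ω hω => ⟨BWindsM.mono h hω.1, BWindsM.mono h hω.2⟩)
  exact (ENNReal.tendsto_toReal (measure_ne_top _ _)).comp h5

end CylLaw

/-- the probability that the cluster of the origin and the dual cluster of the neighbouring face both
wind around the bi-infinite cylinder of circumference `n` is exactly `A(2n) / A_HT(2n)^2` -/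
theorem two_winds_law (n : ℕ) (hn : 1 ≤ n) :
    ((bulkMeasure n) {ω | TwoWinds n ω}).toReal = rR n := CylLaw.main n hn

end Pool.Agent.H75.TwoArm
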