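import Mathlib
import Pool.Agent.H75.TwoArm.PathDefs
import Pool.Agent.H75.TwoArm.Strand
import Pool.Agent.H75.TwoArm.Exit
import Pool.Agent.H75.TwoArm.Symm
import Pool.Agent.H75.TwoArm.Color
import Pool.Agent.H75.Perc.ArmD

set_option autoImplicit false
open Finset

/-! Two arms, part TB6: the two-arm event in the plane. -/

namespace Pool.Agent.H75.TwoArm

open Pool.Agent.H75.Perc
open Pool.Agent.H65.Perc (PConf planeMeasure)
open Pool.Agent.H63.Perc (coins tr coins_tr coins_mono mem_tr tr_sub)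
open MeasureTheory
open scoped ENNReal

/-- the graph of open edges of `ℤ²` -/
def vGraph (ω : PConf) : SimpleGraph (ℤ × ℤ) :=
  SimpleGraph.fromRel (fun u v =>
    (v = (u.1 + 1, u.2) ∧ ω (u, true) = true) ∨ (v = (u.1, u.2 + 1) ∧ ω (u, false) = true))

/-- the graph of dual-open edges; `(x, y)` stands for the face with centre `(x + 1/2, y + 1/2)` -/
def fGraph (ω : PConf) : SimpleGraph (ℤ × ℤ) :=
  SimpleGraph.fromRel (fun f g =>
    (g = (f.1 + 1, f.2) ∧ ω ((f.1 + 1, f.2), false) = false) ∨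
      (g = (f.1, f.2 + 1) ∧ ω ((f.1, f.2 + 1), true) = false))

/-- open arm from the origin and dual-open arm from the face with centre `(1/2,1/2)` -/
def TwoArm (r : ℕ) (ω : PConf) : Prop :=
  (∃ v : ℤ × ℤ, ((r : ℤ) ≤ |v.1| ∨ (r : ℤ) ≤ |v.2|) ∧ (vGraph ω).Reachable (0, 0) v) ∧
  (∃ f : ℤ × ℤ, ((r : ℤ) ≤ |f.1| ∨ (r : ℤ) ≤ |f.2|) ∧ (fGraph ω).Reachable (0, 0) f)

namespace PlaneAux

lemma leave_rot {R : ℤ} {ω : Finset (ℤ × ℤ)} {c : ℤ × ℤ} :
    Leave (BB R) (ω.map rotL) (rotc c) ↔ Leave (BB R) ω c := by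
  unfold Leave
  apply exists_congr
  intro j
  rw [SymmAux.nx_rot_iter, SymmAux.lab_rot, SymmAux.rotL_mem_BB]

lemma Pr_leave_rot (R : ℤ) (c : ℤ × ℤ) :
    Pr (BB R) (fun ω => Leave (BB R) ω (rotc c)) = Pr (BB R) (fun ω => Leave (BB R) ω c) := by
  conv_lhs => rw [← SymmAux.map_rotL_BB R]
  rw [Pr_map]
  apply Pr_congr
  intro ω _
  rw [SymmAux.map_rotL_BB]
  exact leave_rot

lemma four (R : ℤ) :
    Pr (BB R) (fun ω => Leave (BB R) ω (1, 0)) = Pr (BB R) (fun ω => Leave (BB R) ω (0, 0)) ∧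
    Pr (BB R) (fun ω => Leave (BB R) ω (1, 1)) = Pr (BB R) (fun ω => Leave (BB R) ω (0, 0)) ∧
    Pr (BB R) (fun ω => Leave (BB R) ω (0, 1)) = Pr (BB R) (fun ω => Leave (BB R) ω (0, 0)) := by
  have r0 : rotc (0, 0) = (1, 0) := by unfold rotc; simp
  have r1 : rotc (1, 0) = (1, 1) := by unfold rotc; simp
  have r2 : rotc (1, 1) = (0, 1) := by unfold rotc; simp
  have e0 := Pr_leave_rot R (0, 0)
  have e1 := Pr_leave_rot R (1, 0)
  have e2 := Pr_leave_rot R (1, 1)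
  rw [r0] at e0
  rw [r1] at e1
  rw [r2] at e2
  exact ⟨e0, e1.trans e0, e2.trans (e1.trans e0)⟩

end PlaneAux

open PlaneAux

theorem leave_quarter {R : ℤ} (hR : 0 ≤ R) (i : Fin 4) :
    Pr (BB R) (fun ω => Leave (BB R) ω (crn (0, 0) i)) = aa R / 4 := by
  obtain ⟨e1, e2, e3⟩ := four R
  have hi : crn (0, 0) i = (0, 0) ∨ crn (0, 0) i = (1, 0) ∨ crn (0, 0) i = (0, 1) ∨
      crn (0, 0) i = (1, 1) := by
    fin_cases i <;> simp [crn]
  unfold aa
  rcases hi with h | h | h | h <;> rw [h] <;> linarith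

namespace PlaneAux

lemma vGraph_eq (ω : PConf) : vGraph ω = GD (fun _ => True) ω := by
  unfold vGraph GD
  congr 1
  funext u v
  simp

/-- the edge between two faces -/
lemma fGraph_adj {ω : PConf} {f g : ℤ × ℤ} :
    (fGraph ω).Adj f g ↔ IsUnit4 (g - f) ∧ ω (phi (f + g + (1, 1))) = false := by
  obtain ⟨a, b⟩ := f
  obtain ⟨c, d⟩ := g
  have k1 : ∀ a b : ℤ, phi ((a, b) + (a + 1, b) + (1, 1)) = ((a + 1, b), false) := by
    intro a b
    unfold phi
    simp only [Prod.mk_add_mk, Prod.mk.injEq, decide_eq_false_iff_not]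
    omega
  have k2 : ∀ a b : ℤ, phi ((a, b) + (a, b + 1) + (1, 1)) = ((a, b + 1), true) := by
    intro a b
    unfold phi
    simp only [Prod.mk_add_mk, Prod.mk.injEq, decide_eq_true_eq]
    omega
  unfold fGraph
  rw [SimpleGraph.fromRel_adj]
  constructor
  · rintro ⟨hne, (⟨h3, h4⟩ | ⟨h3, h4⟩) | (⟨h3, h4⟩ | ⟨h3, h4⟩)⟩
    · refine ⟨?_, by rw [h3, k1]; exact h4⟩
      rw [h3]; unfold IsUnit4; simp
    · refine ⟨?_, by rw [h3, k2]; exact h4⟩
      rw [h3]; unfold IsUnit4; simp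
    · refine ⟨?_, by rw [h3, add_comm (_ + 1, _) (c, d), k1]; exact h4⟩
      rw [h3]; unfold IsUnit4; simp
    · refine ⟨?_, by rw [h3, add_comm (_, _ + 1) (c, d), k2]; exact h4⟩
      rw [h3]; unfold IsUnit4; simp
  · rintro ⟨h1, h4⟩
    have h5 := unit_cases h1
    simp only at h5
    refine ⟨by intro h; simp only [Prod.mk.injEq] at h; omega, ?_⟩
    rcases h5 with ⟨h5, h6⟩ | ⟨h5, h6⟩ | ⟨h5, h6⟩ | ⟨h5, h6⟩
    · left; left
      subst h5 h6
      rw [k1] at h4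
      exact ⟨rfl, h4⟩
    · left; right
      subst h5 h6
      rw [k2] at h4
      exact ⟨rfl, h4⟩
    · right; left
      have e1 : a = c + 1 := by omega
      subst e1 h6
      rw [add_comm (_ + 1, _) (c, _), k1] at h4
      exact ⟨rfl, h4⟩
    · right; right
      have e1 : b = d + 1 := by omega
      subst e1 h5
      rw [add_comm (_, _ + 1) (_, d), k2] at h4
      exact ⟨rfl, h4⟩

lemma mem_du_iff {E ω : Finset (ℤ × ℤ)} {e : ℤ × ℤ} :
    e ∈ du E ω ↔ e - (1, 1) ∈ E ∧ e - (1, 1) ∉ ω := by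
  unfold du
  rw [mem_map]
  constructor
  · rintro ⟨x, hx, rfl⟩
    have : sh1 x - (1, 1) = x := by
      unfold sh1
      simp
    rw [this]
    exact mem_sdiff.1 hx
  · intro h
    refine ⟨e - (1, 1), mem_sdiff.2 h, ?_⟩
    unfold sh1
    simp

lemma co_reach_f {E : Finset (ℤ × ℤ)} {ω : PConf} {F G : ℤ × ℤ}
    (h : Co (du E (tr E phi ω)) F G) : (fGraph ω).Reachable (F - (1, 1)) (G - (1, 1)) := by
  induction h with
  | refl => exact SimpleGraph.Reachable.refl _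
  | @tail G G' _ hab ih =>
    refine ih.trans (SimpleGraph.Adj.reachable ?_)
    rw [fGraph_adj]
    obtain ⟨h1, h2⟩ := hab
    rw [mem_du_iff, mem_tr] at h2
    have e1 : G' - (1, 1) - (G - (1, 1)) = G' - G := by ring
    have e2 : G - (1, 1) + (G' - (1, 1)) + (1, 1) = G + G' - (1, 1) := by ring
    rw [e1, e2]
    refine ⟨h1, ?_⟩
    by_contra hcon
    exact h2.2 ⟨h2.1, by simpa using hcon⟩

/-- the two strands reach the boundary -/
lemma leave_ends {R : ℤ} (hR : 1 ≤ R) {ω : Finset (ℤ × ℤ)} {c : ℤ × ℤ} (hc : C0 c)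
    (h : Leave (BB R) ω c) :
    (∃ q : ℤ × ℤ, (R ≤ |q.1| ∨ R ≤ |q.2|) ∧ Co (ω ∩ BB R) (vx c) q) ∧
    (∃ g : ℤ × ℤ, (R ≤ |(g - (1, 1)).1| ∨ R ≤ |(g - (1, 1)).2|) ∧
      Co (du (BB R) ω) (fi c) g) := by
  obtain ⟨x, hx⟩ := ExitAux.exists_FX h
  obtain ⟨h1, h2⟩ := Str_co (ExitAux.FX_str hx)
  obtain ⟨h3, h4⟩ := ExitAux.FX_plab hx (ExitAux.lab_mem_of_C0 (a := -R) (b := R) (u := -R)
    (v := R) (by omega) hR (by omega) hR hc).1
  unfold BB at h3 h4
  rw [mem_Bx] at h3 h4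
  refine ⟨⟨vx x, ?_, h1.mono (inter_subset_inter_left (ExitAux.UU_sub _ _ _))⟩,
    ⟨fi x, ?_, h2.mono (ExitAux.du_mono (ExitAux.UU_sub _ _ _) _)⟩⟩
  · unfold vx
    simp only [le_abs]
    rcases ExitAux.vals x with h | h | h | h <;> omega
  · unfold fi
    simp only [le_abs, Prod.fst_sub, Prod.snd_sub]
    rcases ExitAux.vals x with h | h | h | h <;> omega

lemma twoArm_of_leave {r : ℕ} (hr : 1 ≤ r) {ω : PConf}
    (h : Leave (BB r) (tr (BB r) phi ω) (1, 1)) : TwoArm r ω := by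
  obtain ⟨⟨q, h1, h2⟩, g, h3, h4⟩ := leave_ends (by omega) (Or.inr (Or.inr (Or.inr rfl))) h
  have e1 : vx (1, 1) = (0, 0) := by unfold vx; simp
  have e2 : fi (1, 1) - (1, 1) = (0, 0) :=
    Prod.ext (by unfold fi; norm_num) (by unfold fi; norm_num)
  refine ⟨⟨q, h1, ?_⟩, g - (1, 1), h3, ?_⟩
  · rw [vGraph_eq, ← e1]
    exact co_reach (E := BB r) (fun _ _ _ _ => ⟨trivial, trivial⟩) (h2.mono inter_subset_left)
  · have := co_reach_f h4
    rwa [e2] at this

lemma leave_of_twoArm {r : ℕ} (hr : 4 ≤ r) {ω : PConf} (h : TwoArm r ω) :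
    Leave (BB ((r : ℤ) - 3)) (tr (BB r) phi ω) (1, 1) := by
  have e1 : vx (1, 1) = (0, 0) := by unfold vx; simp
  have e2 : fi (1, 1) = (1, 1) := by unfold fi; simp
  apply arms_leave (E := BB r) (by omega) (fun e he => by
    unfold BB at he; exact (mem_Bx.1 he).2.2) (tr_sub _ _ _) (Or.inr (Or.inr (Or.inr rfl)))
  obtain ⟨⟨v, h1, h2⟩, f, h3, h4⟩ := h
  have e3 : (r : ℤ) - 3 + 2 = r - 1 := by ring
  rw [e3]
  refine ⟨?_, ?_⟩
  · rw [e1]
    rw [SimpleGraph.reachable_iff_reflTransGen] at h2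
    obtain ⟨z, z', hz, hz', had, hc⟩ := exit_rel
      (X := fun z : ℤ × ℤ => |z.1| < (r : ℤ) - 1 ∧ |z.2| < (r : ℤ) - 1) h2
      (by simp only [abs_zero]; omega) (by rintro ⟨h5, h6⟩; omega)
    rw [vGraph_eq, GD_adj] at had
    have h5 := unit_cases had.1
    have key : ∀ a b : ℤ × ℤ, IsUnit4 (b - a) → |a.1| < (r : ℤ) - 1 → |a.2| < (r : ℤ) - 1 →
        a + b ∈ BB r := by
      intro a b hab ha1 ha2
      have h6 := unit_cases hab
      unfold BB
      rw [mem_Bx]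
      rw [abs_lt] at ha1 ha2
      simp only [Prod.fst_add, Prod.snd_add]
      omega
    refine ⟨z', ?_, ?_⟩
    · rw [abs_lt, abs_lt] at hz
      rw [not_and_or, not_lt, not_lt, le_abs, le_abs] at hz'
      rw [abs_eq (by omega), abs_eq (by omega)]
      omega
    · have h7 : Co (tr (BB r) phi ω) (0, 0) z := by
        refine Relation.ReflTransGen.mono (fun a b hab => ?_) _ _ hc
        obtain ⟨h8, h9, h10⟩ := hab
        rw [vGraph_eq, GD_adj] at h8
        exact ⟨h8.1, mem_tr.2 ⟨key a b h8.1 h9.1 h9.2, h8.2.2.2⟩⟩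
      exact Relation.ReflTransGen.tail h7 ⟨had.1, mem_tr.2 ⟨key _ _ had.1 hz.1 hz.2, had.2.2.2⟩⟩
  · rw [e2]
    rw [SimpleGraph.reachable_iff_reflTransGen] at h4
    obtain ⟨z, z', hz, hz', had, hc⟩ := exit_rel
      (X := fun z : ℤ × ℤ => |(z + (1, 1)).1| < (r : ℤ) - 1 ∧ |(z + (1, 1)).2| < (r : ℤ) - 1) h4
      (by simp only [Prod.mk_add_mk, zero_add, abs_one]; omega)
      (by
        simp only [Prod.fst_add, Prod.snd_add]
        rw [abs_lt, abs_lt]
        rw [le_abs, le_abs] at h3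
        omega)
    rw [fGraph_adj] at had
    have h5 := unit_cases had.1
    have key : ∀ a b : ℤ × ℤ, IsUnit4 (b - a) → |(a + (1, 1)).1| < (r : ℤ) - 1 →
        |(a + (1, 1)).2| < (r : ℤ) - 1 → a + b + (1, 1) ∈ BB r := by
      intro a b hab ha1 ha2
      have h6 := unit_cases hab
      unfold BB
      rw [mem_Bx]
      rw [abs_lt] at ha1 ha2
      simp only [Prod.fst_add, Prod.snd_add] at ha1 ha2 ⊢
      omega
    have had' : ∀ a b : ℤ × ℤ, IsUnit4 (b - a) ∧ ω (phi (a + b + (1, 1))) = false →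
        |(a + (1, 1)).1| < (r : ℤ) - 1 → |(a + (1, 1)).2| < (r : ℤ) - 1 →
        Ad (du (BB r) (tr (BB r) phi ω)) (a + (1, 1)) (b + (1, 1)) := by
      intro a b hab ha1 ha2
      have e4 : b + (1, 1) - (a + (1, 1)) = b - a := by ring
      have e5 : a + (1, 1) + (b + (1, 1)) - (1, 1) = a + b + (1, 1) := by ring
      refine ⟨by rw [e4]; exact hab.1, ?_⟩
      rw [mem_du_iff, e5, mem_tr]
      refine ⟨key a b hab.1 ha1 ha2, ?_⟩
      rintro ⟨_, h6⟩
      rw [hab.2] at h6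
      cases h6
    refine ⟨z' + (1, 1), ?_, ?_⟩
    · simp only [Prod.fst_add, Prod.snd_add] at hz hz' ⊢
      rw [abs_lt, abs_lt] at hz
      rw [not_and_or, not_lt, not_lt, le_abs, le_abs] at hz'
      rw [abs_eq (by omega), abs_eq (by omega)]
      omega
    · have h7 : ∀ w, Relation.ReflTransGen (fun a b : ℤ × ℤ => (fGraph ω).Adj a b ∧
          (|(a + (1, 1)).1| < (r : ℤ) - 1 ∧ |(a + (1, 1)).2| < (r : ℤ) - 1) ∧
          (|(b + (1, 1)).1| < (r : ℤ) - 1 ∧ |(b + (1, 1)).2| < (r : ℤ) - 1)) (0, 0) w →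
          Co (du (BB r) (tr (BB r) phi ω)) (1, 1) (w + (1, 1)) := by
        intro w hw
        induction hw with
        | refl =>
          have : ((0, 0) : ℤ × ℤ) + (1, 1) = (1, 1) := by simp
          rw [this]
          exact Co.refl _ _
        | @tail a b _ hab ih =>
          refine Relation.ReflTransGen.tail ih ?_
          exact had' a b (fGraph_adj.1 hab.1) hab.2.1.1 hab.2.1.2
      exact Relation.ReflTransGen.tail (h7 z hc) (had' z z' had hz.1 hz.2)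

/-- `Leave` depends only on the box -/
lemma leave_inter (B ω : Finset (ℤ × ℤ)) (c : ℤ × ℤ) : Leave B (ω ∩ B) c ↔ Leave B ω c := by
  refine (local_UU (B := B) (ω := ω) (ω1 := ω ∩ B) (c := c) ?_).2.2.2.2
  intro e he
  have := ExitAux.UU_sub _ _ _ he
  rw [mem_inter]
  tauto

lemma Pr_leave_sub {E B : Finset (ℤ × ℤ)} (h : B ⊆ E) (c : ℤ × ℤ) :
    Pr E (fun ω => Leave B ω c) = Pr B (fun ω => Leave B ω c) := by
  rw [← Pr_restrict h]
  exact Pr_congr fun ω _ => (leave_inter B ω c).symm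

lemma prob_eq {M : ℤ} (A : Finset (ℤ × ℤ) → Prop) :
    (planeMeasure {ω | A (tr (BB M) phi ω)}).toReal = Pr (BB M) A := by
  rw [planeMeasure_eq]
  refine coins_tr (phi_inj fun e he => ?_) A
  unfold BB at he
  exact (mem_Bx.1 he).2.2

end PlaneAux

theorem twoArm_bounds {c1 C1 : ℝ} (hc1 : 0 < c1) (hC1 : 0 < C1)
    (h1 : ∀ r : ℤ, 1 ≤ r → c1 * (r : ℝ) ^ (-(1 / 4 : ℝ)) ≤ aa r)
    (h2 : ∀ r : ℤ, 1 ≤ r → aa r ≤ C1 * (r : ℝ) ^ (-(1 / 4 : ℝ))) :
    ∃ c C : ℝ, 0 < c ∧ 0 < C ∧ ∀ r : ℕ, 1 ≤ r →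
      c * (r : ℝ) ^ (-(1 / 4 : ℝ)) ≤ (planeMeasure {ω | TwoArm r ω}).toReal ∧
      (planeMeasure {ω | TwoArm r ω}).toReal ≤ C * (r : ℝ) ^ (-(1 / 4 : ℝ)) := by
  have hcr : crn (0, 0) 3 = (1, 1) := by simp [crn]
  refine ⟨c1 / 4, C1 + 2, by positivity, by positivity, ?_⟩
  intro r hr
  constructor
  · have e1 : Pr (BB (r : ℤ)) (fun ω => Leave (BB r) ω (1, 1)) ≤
        (planeMeasure {ω | TwoArm r ω}).toReal := by
      rw [← prob_eq]
      exact coins_mono fun ω hω => twoArm_of_leave hr hω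
    have e2 := leave_quarter (R := (r : ℤ)) (by omega) 3
    rw [hcr] at e2
    have e3 := h1 (r : ℤ) (by omega)
    rw [Int.cast_natCast] at e3
    rw [e2] at e1
    linarith
  · have hpos : (0 : ℝ) < (r : ℝ) ^ (-(1 / 4 : ℝ)) := Real.rpow_pos_of_pos (by positivity) _
    rcases Nat.lt_or_ge r 4 with hr4 | hr4
    · have e1 : (planeMeasure {ω | TwoArm r ω}).toReal ≤ 1 := by
        rw [planeMeasure_eq]
        exact (ENNReal.toReal_mono ENNReal.one_ne_top prob_le_one).trans_eq ENNReal.toReal_one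
      have e2 : (1 / 2 : ℝ) ≤ (r : ℝ) ^ (-(1 / 4 : ℝ)) := by
        have e3 : (16 : ℝ) ^ (-(1 / 4 : ℝ)) = 1 / 2 := by
          rw [show (16 : ℝ) = 2 ^ (4 : ℝ) by norm_num, ← Real.rpow_mul (by norm_num)]
          norm_num [Real.rpow_neg_one]
        rw [← e3]
        apply Real.rpow_le_rpow_of_nonpos (by positivity) _ (by norm_num)
        have : (r : ℝ) < 4 := by exact_mod_cast hr4
        linarith
      nlinarith
    · have e1 : (planeMeasure {ω | TwoArm r ω}).toReal ≤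
          Pr (BB (r : ℤ)) (fun ω => Leave (BB ((r : ℤ) - 3)) ω (1, 1)) := by
        rw [← prob_eq]
        exact coins_mono fun ω hω => leave_of_twoArm hr4 hω
      rw [Pr_leave_sub (by
        unfold BB
        exact Bx_sub (by omega) (by omega) (by omega) (by omega))] at e1
      have e2 := leave_quarter (R := (r : ℤ) - 3) (by omega) 3
      rw [hcr] at e2
      have e3 := h2 ((r : ℤ) - 3) (by omega)
      rw [e2] at e1
      have e4 : (((r : ℤ) - 3 : ℤ) : ℝ) ^ (-(1 / 4 : ℝ)) ≤ 2 * (r : ℝ) ^ (-(1 / 4 : ℝ)) := by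
        have hr4' : (4 : ℝ) ≤ (r : ℝ) := by exact_mod_cast hr4
        have e5 : (1 / 16 : ℝ) ^ (-(1 / 4 : ℝ)) = 2 := by
          rw [show (1 / 16 : ℝ) = 2 ^ (-4 : ℝ) by
            rw [Real.rpow_neg (by norm_num)]; norm_num, ← Real.rpow_mul (by norm_num)]
          norm_num
        rw [← e5, ← Real.mul_rpow (by norm_num) (by positivity)]
        apply Real.rpow_le_rpow_of_nonpos (by positivity) _ (by norm_num)
        push_cast
        linarith
      have e6 : C1 * (((r : ℤ) - 3 : ℤ) : ℝ) ^ (-(1 / 4 : ℝ)) ≤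
          C1 * (2 * (r : ℝ) ^ (-(1 / 4 : ℝ))) := mul_le_mul_of_nonneg_left e4 hC1.le
      nlinarith

end Pool.Agent.H75.TwoArm
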