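import Mathlib
import Pool.Agent.H75.TwoArm.Plane
import Pool.Agent.H65.Two.Defs
import Pool.Agent.H63.Bulk.Lower

set_option autoImplicit false
open Finset

/-! Two arms, part TC2: if the two clusters at the origin of the cylinder wind, then the loop at the
origin leaves a box of the plane. -/

namespace Pool.Agent.H75.TwoArm

open Pool.Agent.H75.Perc
open Pool.Agent.H63.Perc (coins tr coins_tr coins_mono mem_tr tr_sub)
open Pool.Agent.H63.Bulk (BConf BWinds bulkMeasure bulkGraph phB phB_val)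
open Pool.Agent.H65.Two (TwoWinds FWinds dualGraph)
open MeasureTheory

namespace CylUpAux

lemma phB_injBB {n : ℕ} {M : ℤ} (h : 2 * M + 1 ≤ n) : Set.InjOn (phB n) (BB M) := by
  intro e he e' he' heq
  unfold BB at he he'
  rw [mem_coe, mem_Bx] at he he'
  unfold phB at heq
  simp only [Prod.mk.injEq, decide_eq_decide] at heq
  obtain ⟨h3, h4, h5⟩ := heq
  rw [ZMod.intCast_eq_intCast_iff, Int.modEq_iff_dvd] at h4
  have h6 : e'.1 / 2 - e.1 / 2 = 0 := by
    refine Int.eq_zero_of_abs_lt_dvd h4 ?_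
    rw [abs_lt]
    omega
  have h7 : e.1 = e'.1 := by omega
  refine Prod.ext h7 ?_
  omega

lemma bulk_adj' {n : ℕ} {ω : BConf n} {u v : ℤ × ℤ} (h : (bulkGraph n ω).Adj u v) :
    IsUnit4 (v - u) ∧ ω (phB n (u + v)) = true := by
  have k1 : ∀ a b : ℤ, phB n ((a, b) + (a + 1, b)) = (a + b, (a : ZMod n), true) := by
    intro a b
    exact phB_val _ _ _ (by simp only [Prod.mk_add_mk]; omega) (by simp only [Prod.mk_add_mk]; omega)
      (by simp only [Prod.mk_add_mk, iff_true]; omega)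
  have k2 : ∀ a b : ℤ, phB n ((a, b) + (a, b + 1)) = (a + b, (a : ZMod n), false) := by
    intro a b
    exact phB_val _ _ _ (by simp only [Prod.mk_add_mk]; omega) (by simp only [Prod.mk_add_mk]; omega)
      (by simp only [Prod.mk_add_mk, Bool.false_eq_true, iff_false]; omega)
  obtain ⟨a, b⟩ := u
  obtain ⟨c, d⟩ := v
  unfold bulkGraph at h
  rw [SimpleGraph.fromRel_adj] at h
  obtain ⟨-, (⟨h3, h4⟩ | ⟨h3, h4⟩) | (⟨h3, h4⟩ | ⟨h3, h4⟩)⟩ := h
  · refine ⟨?_, by rw [h3, k1]; exact h4⟩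
    rw [h3]; unfold IsUnit4; simp
  · refine ⟨?_, by rw [h3, k2]; exact h4⟩
    rw [h3]; unfold IsUnit4; simp
  · refine ⟨?_, by rw [h3, add_comm (_ + 1, _) (c, d), k1]; exact h4⟩
    rw [h3]; unfold IsUnit4; simp
  · refine ⟨?_, by rw [h3, add_comm (_, _ + 1) (c, d), k2]; exact h4⟩
    rw [h3]; unfold IsUnit4; simp

lemma dual_adj' {n : ℕ} {ω : BConf n} {f g : ℤ × ℤ} (h : (dualGraph n ω).Adj f g) :
    IsUnit4 (g - f) ∧ ω (phB n (f + g + (1, 1))) = false := by
  have k1 : ∀ a b : ℤ, phB n ((a, b) + (a + 1, b) + (1, 1)) =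
      (a + 1 + b, ((a + 1 : ℤ) : ZMod n), false) := by
    intro a b
    exact phB_val _ _ _ (by simp only [Prod.mk_add_mk]; omega) (by simp only [Prod.mk_add_mk]; omega)
      (by simp only [Prod.mk_add_mk, Bool.false_eq_true, iff_false]; omega)
  have k2 : ∀ a b : ℤ, phB n ((a, b) + (a, b + 1) + (1, 1)) =
      (a + (b + 1), (a : ZMod n), true) := by
    intro a b
    exact phB_val _ _ _ (by simp only [Prod.mk_add_mk]; omega) (by simp only [Prod.mk_add_mk]; omega)
      (by simp only [Prod.mk_add_mk, iff_true]; omega)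
  obtain ⟨a, b⟩ := f
  obtain ⟨c, d⟩ := g
  unfold dualGraph at h
  rw [SimpleGraph.fromRel_adj] at h
  obtain ⟨-, (⟨h3, h4⟩ | ⟨h3, h4⟩) | (⟨h3, h4⟩ | ⟨h3, h4⟩)⟩ := h
  · refine ⟨?_, by rw [h3, k1]; exact h4⟩
    rw [h3]; unfold IsUnit4; simp
  · refine ⟨?_, by rw [h3, k2]; exact h4⟩
    rw [h3]; unfold IsUnit4; simp
  · refine ⟨?_, by rw [h3, add_comm (_ + 1, _) (c, d), k1]; exact h4⟩
    rw [h3]; unfold IsUnit4; simp
  · refine ⟨?_, by rw [h3, add_comm (_, _ + 1) (c, d), k2]; exact h4⟩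
    rw [h3]; unfold IsUnit4; simp

lemma leave_of_two {n : ℕ} {r : ℤ} (hr : 1 ≤ r) (hn : 4 * r + 20 ≤ n) {ω : BConf n}
    (h : TwoWinds n ω) : Leave (BB r) (tr (BB (r + 3)) (phB n) ω) (1, 0) := by
  have e1 : vx (1, 0) = (0, 0) := by unfold vx; simp
  have e2 : fi (1, 0) = (1, 0) := by unfold fi; simp
  apply arms_leave (E := BB (r + 3)) hr (fun e he => by
    unfold BB at he; exact (mem_Bx.1 he).2.2) (tr_sub _ _ _) (Or.inr (Or.inl rfl))
  obtain ⟨⟨m1, hm1, h2⟩, m2, hm2, h4⟩ := h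
  have big : ∀ m : ℤ, m ≠ 0 → (n : ℤ) ≤ |m * n| := by
    intro m hm
    rw [abs_mul]
    have h1 : (1 : ℤ) ≤ |m| := Int.one_le_abs hm
    have h2 : |(n : ℤ)| = n := abs_of_nonneg (by positivity)
    rw [h2]
    nlinarith
  have b1 := big m1 hm1
  have b2 := big m2 hm2
  refine ⟨?_, ?_⟩
  · rw [e1]
    rw [SimpleGraph.reachable_iff_reflTransGen] at h2
    obtain ⟨z, z', hz, hz', had, hc⟩ := exit_rel
      (X := fun z : ℤ × ℤ => |z.1| < r + 2 ∧ |z.2| < r + 2) h2
      (by simp only [abs_zero]; omega) (by rintro ⟨h5, h6⟩; simp only at h5; omega)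
    have had := bulk_adj' had
    have h5 := unit_cases had.1
    have key : ∀ a b : ℤ × ℤ, IsUnit4 (b - a) → |a.1| < r + 2 → |a.2| < r + 2 →
        a + b ∈ BB (r + 3) := by
      intro a b hab ha1 ha2
      have h6 := unit_cases hab
      unfold BB
      rw [mem_Bx]
      rw [abs_lt] at ha1 ha2
      simp only [Prod.fst_add, Prod.snd_add]
      omega
    refine ⟨z', ?_, ?_⟩
    · rw [abs_lt, abs_lt] at hz
      rw [not_and_or, not_lt, not_lt, le_abs, le_abs] at hz'
      rw [abs_eq (by omega), abs_eq (by omega)]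
      omega
    · have h7 : Co (tr (BB (r + 3)) (phB n) ω) (0, 0) z := by
        refine Relation.ReflTransGen.mono (fun a b hab => ?_) _ _ hc
        obtain ⟨h8, h9, h10⟩ := hab
        have h8 := bulk_adj' h8
        exact ⟨h8.1, mem_tr.2 ⟨key a b h8.1 h9.1 h9.2, h8.2⟩⟩
      exact Relation.ReflTransGen.tail h7 ⟨had.1, mem_tr.2 ⟨key _ _ had.1 hz.1 hz.2, had.2⟩⟩
  · rw [e2]
    rw [SimpleGraph.reachable_iff_reflTransGen] at h4
    obtain ⟨z, z', hz, hz', had, hc⟩ := exit_rel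
      (X := fun z : ℤ × ℤ => |(z + (1, 1)).1| < r + 2 ∧ |(z + (1, 1)).2| < r + 2) h4
      (by
        have e : ((0, -1) : ℤ × ℤ) + (1, 1) = (1, 0) := by simp
        simp only [e, abs_one, abs_zero]; omega)
      (by
        simp only [Prod.fst_add, Prod.snd_add]
        rw [abs_lt, abs_lt]
        rw [le_abs] at b2
        omega)
    have had := dual_adj' had
    have h5 := unit_cases had.1
    have key : ∀ a b : ℤ × ℤ, IsUnit4 (b - a) → |(a + (1, 1)).1| < r + 2 →
        |(a + (1, 1)).2| < r + 2 → a + b + (1, 1) ∈ BB (r + 3) := by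
      intro a b hab ha1 ha2
      have h6 := unit_cases hab
      unfold BB
      rw [mem_Bx]
      rw [abs_lt] at ha1 ha2
      simp only [Prod.fst_add, Prod.snd_add] at ha1 ha2 ⊢
      omega
    have had' : ∀ a b : ℤ × ℤ, IsUnit4 (b - a) ∧ ω (phB n (a + b + (1, 1))) = false →
        |(a + (1, 1)).1| < r + 2 → |(a + (1, 1)).2| < r + 2 →
        Ad (du (BB (r + 3)) (tr (BB (r + 3)) (phB n) ω)) (a + (1, 1)) (b + (1, 1)) := by
      intro a b hab ha1 ha2
      have e4 : b + (1, 1) - (a + (1, 1)) = b - a := by ring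
      have e5 : a + (1, 1) + (b + (1, 1)) - (1, 1) = a + b + (1, 1) := by ring
      refine ⟨by rw [e4]; exact hab.1, ?_⟩
      rw [PlaneAux.mem_du_iff, e5, mem_tr]
      refine ⟨key a b hab.1 ha1 ha2, ?_⟩
      rintro ⟨_, h6⟩
      rw [hab.2] at h6
      cases h6
    refine ⟨z' + (1, 1), ?_, ?_⟩
    · simp only [Prod.fst_add, Prod.snd_add] at hz hz' ⊢
      rw [abs_lt, abs_lt] at hz
      rw [not_and_or, not_lt, not_lt, le_abs, le_abs] at hz'
      rw [abs_eq (by omega), abs_eq (by omega)]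
      omega
    · have h7 : ∀ w, Relation.ReflTransGen (fun a b : ℤ × ℤ => (dualGraph n ω).Adj a b ∧
          (|(a + (1, 1)).1| < r + 2 ∧ |(a + (1, 1)).2| < r + 2) ∧
          (|(b + (1, 1)).1| < r + 2 ∧ |(b + (1, 1)).2| < r + 2)) (0, -1) w →
          Co (du (BB (r + 3)) (tr (BB (r + 3)) (phB n) ω)) (1, 0) (w + (1, 1)) := by
        intro w hw
        induction hw with
        | refl =>
          have : ((0, -1) : ℤ × ℤ) + (1, 1) = (1, 0) := by simp
          rw [this]
          exact Co.refl _ _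
        | @tail a b _ hab ih =>
          refine Relation.ReflTransGen.tail ih ?_
          exact had' a b (dual_adj' hab.1) hab.2.1.1 hab.2.1.2
      exact Relation.ReflTransGen.tail (h7 z hc) (had' z z' had hz.1 hz.2)

end CylUpAux

theorem two_winds_le_aa {n : ℕ} {r : ℤ} (hr : 1 ≤ r) (hn : 4 * r + 20 ≤ n) :
    ((bulkMeasure n) {ω | TwoWinds n ω}).toReal ≤ aa r := by
  have h1 : ((bulkMeasure n) {ω | TwoWinds n ω}).toReal ≤
      Pr (BB (r + 3)) (fun w => Leave (BB r) w (1, 0)) := by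
    rw [← coins_tr (CylUpAux.phB_injBB (n := n) (M := r + 3) (by omega))
      (fun w => Leave (BB r) w (1, 0))]
    exact coins_mono (fun ω hω => CylUpAux.leave_of_two hr hn hω)
  rw [PlaneAux.Pr_leave_sub (by
    unfold BB
    exact Bx_sub (by omega) (by omega) (by omega) (by omega))] at h1
  refine h1.trans ?_
  unfold aa
  have p1 := Pr_nonneg (BB r) (fun ω => Leave (BB r) ω (0, 0))
  have p2 := Pr_nonneg (BB r) (fun ω => Leave (BB r) ω (0, 1))
  have p3 := Pr_nonneg (BB r) (fun ω => Leave (BB r) ω (1, 1))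
  linarith

end Pool.Agent.H75.TwoArm
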