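import Pool.Agent.H75.TwoArm.FinalCore
import Pool.Agent.H75.TwoArm.CylLaw
import Pool.Agent.H75.TwoArm.CylUp
import Pool.Agent.H65.Two.Final

set_option autoImplicit false

/-! The two-arm exponent `1/4` and the length `n ^ (7 / 4)` of the exploration path for critical bond
percolation on `ℤ²`. -/

namespace Pool.Agent.H75.TwoArm

open Pool.Agent.H75.Perc
open Pool.Agent.H65.Perc (PConf planeMeasure)
open MeasureTheory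
open scoped ENNReal

theorem exps :
    (∃ c1 : ℝ, 0 < c1 ∧ ∀ r : ℤ, 1 ≤ r → c1 * (r : ℝ) ^ (-(1 / 4 : ℝ)) ≤ aa r) ∧
    (∃ C1 : ℝ, 0 < C1 ∧ ∀ r : ℤ, 1 ≤ r → aa r ≤ C1 * (r : ℝ) ^ (-(1 / 4 : ℝ))) ∧
    ∃ (k : ℕ) (c2 : ℝ), 0 < c2 ∧ ∀ w : ℤ, 1 ≤ w →
      c2 * (w : ℝ) ^ (-(1 / 4 : ℝ)) ≤ gg (4 ^ k * w) (4 ^ k * (4 ^ k * w)) w :=
  exponents two_winds_law (fun h h' => two_winds_le_aa h h') Pool.Agent.H65.Two.gg_le_twoWinds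

/-- The expected length of the exploration path in rectangles. -/
theorem length_bounds (K : ℕ) :
    ∃ c C : ℝ, 0 < c ∧ 0 < C ∧ ∀ m n a b : ℕ, 1 ≤ m → 1 ≤ n → m ≤ K * n → n ≤ K * m →
      a ≤ m → b ≤ m →
      ENNReal.ofReal (c * (n : ℝ) ^ (7 / 4 : ℝ)) ≤ ∫⁻ ω, pathLen m n a b ω ∂planeMeasure ∧
      ∫⁻ ω, pathLen m n a b ω ∂planeMeasure ≤ ENNReal.ofReal (C * (n : ℝ) ^ (7 / 4 : ℝ)) :=
  length_of exps K

/-- The probability of an open arm and a dual-open arm to distance `r`. -/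
theorem two_arm_plane :
    ∃ c C : ℝ, 0 < c ∧ 0 < C ∧ ∀ r : ℕ, 1 ≤ r →
      c * (r : ℝ) ^ (-(1 / 4 : ℝ)) ≤ (planeMeasure {ω | TwoArm r ω}).toReal ∧
      (planeMeasure {ω | TwoArm r ω}).toReal ≤ C * (r : ℝ) ^ (-(1 / 4 : ℝ)) :=
  twoArm_of exps

end Pool.Agent.H75.TwoArm
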