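import Pool.Agent.H75.TwoArm.BadCore
import Pool.Agent.H75.TwoArm.Track

set_option autoImplicit false
open Finset

/-! Job TA7 (helper33): surviving bad exits. -/

namespace Pool.Agent.H75.TwoArm

open Pool.Agent.H75.Perc

theorem bad_survive {r L w y1 y2 : ℤ} (hr : 1 ≤ r) (hL : 2 * r ≤ L) (hy : |y1 - y2| ≤ w)
    {ω ω' : Finset (ℤ × ℤ)} {c : ℤ × ℤ} (hc : C0 c)
    (h : East r L ω c y1 y2) {q g : ℤ × ℤ} (hq : q.1 = 2 * r) (hg : g.1 = 2 * r + 1)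
    (h1 : Co (mix (UU (BE r L) ω c) ω ω' ∩ BB (2 * r)) (vx c) q)
    (h2 : Co (du (BB (2 * r)) (mix (UU (BE r L) ω c) ω ω')) (fi c) g) :
    (∃ u : ℤ × ℤ, |u.1 - r| ≤ w + 2 ∧ |u.2 - y1| ≤ w + 2 ∧ Co ω' u q) ∨
    (∃ f : ℤ × ℤ, |f.1 - r| ≤ w + 2 ∧ |f.2 - y1| ≤ w + 2 ∧ Co (du (BB (2 * r)) ω') f g) := by
  obtain ⟨S, hS⟩ := exists_TC hr (by omega) hc h
  exact bad_survive_of_TC hr hL hy hc hS hq hg h1 h2

end Pool.Agent.H75.TwoArm
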