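import Mathlib
import Pool.Agent.H75.TwoArm.PathDefs

set_option autoImplicit false
open Finset

/-! The expected number of visited corners (definition shared by PathSum and PathLaw). -/

namespace Pool.Agent.H75.TwoArm

open Pool.Agent.H75.Perc

/-- expected number of visited corners -/
noncomputable def EV (m n a b : ℕ) : ℝ :=
  ∑ c ∈ (Icc (0 : ℤ) (2 * m + 1)) ×ˢ (Icc (0 : ℤ) (2 * n + 1)),
    Pr (Bx 0 m 0 n) (fun ω => Vis 0 m 0 n a b ω c)

end Pool.Agent.H75.TwoArm
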