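import Pool.Agent.H75.TwoArm.Strand
import Pool.Agent.H75.TwoArm.Decay
import Pool.Agent.H75.TwoArm.Symm
import Pool.Agent.H75.TwoArm.Bad
import Pool.Agent.H75.TwoArm.Exit

/-!
# The recursion for the two-arm probability
-/

set_option autoImplicit false
open Finset

namespace Pool.Agent.H75.TwoArm

open Pool.Agent.H75.Perc

namespace RecAux

lemma BB_sub {a b : ℤ} (h : a ≤ b) : BB a ⊆ BB b :=
  Bx_sub (by omega) (by omega) (by omega) (by omega)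

lemma BB_odd {r : ℤ} {e : ℤ × ℤ} (h : e ∈ BB r) : (e.1 + e.2) % 2 = 1 := (mem_Bx.1 h).2.2

lemma UU_sub (B ω : Finset (ℤ × ℤ)) (c : ℤ × ℤ) : UU B ω c ⊆ B := by
  classical
  unfold UU
  exact filter_subset _ _

lemma loc_inter {B ω : Finset (ℤ × ℤ)} {c : ℤ × ℤ} :
    (∀ x, FX B (ω ∩ B) c x ↔ FX B ω c x) ∧ (Leave B (ω ∩ B) c ↔ Leave B ω c) := by
  have h := local_UU (B := B) (ω := ω) (ω1 := ω ∩ B) (c := c) (fun e he => by
    rw [mem_inter]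
    exact ⟨fun h => h.1, fun h => ⟨h, UU_sub B ω c he⟩⟩)
  exact ⟨h.2.2.1, h.2.2.2.2⟩

lemma EF_loc {R : ℤ} {ω : Finset (ℤ × ℤ)} {c : ℤ × ℤ} :
    EF R (ω ∩ BB R) c ↔ EF R ω c := by
  unfold EF
  constructor
  · rintro ⟨x, h1, h2⟩; exact ⟨x, (loc_inter.1 x).1 h1, h2⟩
  · rintro ⟨x, h1, h2⟩; exact ⟨x, (loc_inter.1 x).2 h1, h2⟩

lemma Pr_EF {r L : ℤ} (h : r ≤ L) (c : ℤ × ℤ) :
    Pr (BB r) (fun ω => EF r ω c) = Pr (BB L) (fun ω => EF r ω c) := by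
  rw [← Pr_restrict (BB_sub h) (fun ω => EF r ω c)]
  exact Pr_congr fun ω _ => EF_loc

lemma Pr_Leave {r L : ℤ} (h : r ≤ L) (c : ℤ × ℤ) :
    Pr (BB L) (fun ω => Leave (BB r) ω c) = Pr (BB r) (fun ω => Leave (BB r) ω c) := by
  rw [← Pr_restrict (BB_sub h) (fun ω => Leave (BB r) ω c)]
  exact Pr_congr fun ω _ => loc_inter.2.symm

lemma vx_C0 {c : ℤ × ℤ} (hc : C0 c) : vx c = (0, 0) := by
  rcases hc with rfl | rfl | rfl | rfl <;> decide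

/-- Last exit from the box of radius `r`. -/
lemma last_exit {r : ℤ} {ω : Finset (ℤ × ℤ)} {p q : ℤ × ℤ} (h : Co ω p q)
    (hp : |p.1| ≤ r ∧ |p.2| ≤ r) :
    ∃ u : ℤ × ℤ, |u.1| ≤ r ∧ |u.2| ≤ r ∧ Co (ω \ BB r) u q := by
  induction h with
  | refl => exact ⟨p, hp.1, hp.2, Co.refl _ _⟩
  | @tail b c hab hbc ih =>
    obtain ⟨u, hu1, hu2, hu3⟩ := ih
    by_cases hc : |c.1| ≤ r ∧ |c.2| ≤ r
    · exact ⟨c, hc.1, hc.2, Co.refl _ _⟩
    · refine ⟨u, hu1, hu2, Relation.ReflTransGen.tail hu3 ⟨hbc.1, ?_⟩⟩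
      rw [mem_sdiff]
      refine ⟨hbc.2, fun h1 => hc ?_⟩
      have h2 := mem_Bx.1 h1
      have h3 := unit_cases hbc.1
      simp only [Prod.fst_add, Prod.snd_add] at h2
      rw [abs_le, abs_le]
      omega

lemma far_leave {δ : ℝ} (hδ : ∀ (E : Finset (ℤ × ℤ)),
    (∀ e ∈ E, (e.1 + e.2) % 2 = 1) → ∀ (x : ℤ × ℤ) (ρ : ℤ), 1 ≤ ρ → ∀ k : ℕ,
    Pr E (fun ω => ∃ u v : ℤ × ℤ, |u.1 - x.1| ≤ ρ ∧ |u.2 - x.2| ≤ ρ ∧
      (4 ^ k * ρ ≤ |v.1 - x.1| ∨ 4 ^ k * ρ ≤ |v.2 - x.2|) ∧ Co ω u v) ≤ (1 - δ) ^ k)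
    {r L : ℤ} {k : ℕ} (hr : 1 ≤ r) (hL : 4 ^ k * r ≤ L) {c : ℤ × ℤ} (hc : C0 c) :
    Pr (BB (2 * L)) (fun ω => Leave (BB L) ω c) ≤
      Pr (BB r) (fun ω => Leave (BB r) ω c) * (1 - δ) ^ k := by
  have hrL : r ≤ L := by
    have h1 : (1 : ℤ) ≤ 4 ^ k := one_le_pow₀ (by norm_num)
    nlinarith
  set D : Finset (ℤ × ℤ) → Prop := fun ω => ∃ u v : ℤ × ℤ, |u.1 - ((0, 0) : ℤ × ℤ).1| ≤ r ∧
      |u.2 - ((0, 0) : ℤ × ℤ).2| ≤ r ∧
      (4 ^ k * r ≤ |v.1 - ((0, 0) : ℤ × ℤ).1| ∨ 4 ^ k * r ≤ |v.2 - ((0, 0) : ℤ × ℤ).2|) ∧ Co ω u v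
    with hD
  have h1 : Pr (BB (2 * L)) (fun ω => Leave (BB L) ω c) ≤
      Pr (BB (2 * L)) (fun ω => Leave (BB r) (ω ∩ BB r) c ∧ D (ω \ BB r)) := by
    apply Pr_mono
    intro ω _ hω
    constructor
    · rw [loc_inter.2]
      obtain ⟨j, hj⟩ := hω
      exact ⟨j, fun h => hj (BB_sub hrL h)⟩
    · obtain ⟨q, hq1, hq2⟩ := leave_co (by omega) hc hω
      rw [vx_C0 hc] at hq2
      obtain ⟨u, hu1, hu2, hu3⟩ := last_exit (r := r) hq2 (by simp; omega)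
      refine ⟨u, q, by simpa using hu1, by simpa using hu2, ?_, hu3.mono ?_⟩
      · simp only [sub_zero]
        rcases hq1 with h | h
        · left; rw [h]; exact hL
        · right; rw [h]; exact hL
      · exact sdiff_subset_sdiff inter_subset_left (subset_refl _)
  refine h1.trans ?_
  rw [Pr_split (BB_sub (by omega)) (fun ω => Leave (BB r) ω c) D]
  apply mul_le_mul_of_nonneg_left _ (Pr_nonneg _ _)
  exact hδ _ (fun e he => BB_odd (mem_sdiff.1 he).1) (0, 0) r hr k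

lemma FX_unique {B ω : Finset (ℤ × ℤ)} {c x x' : ℤ × ℤ} (h : FX B ω c x) (h' : FX B ω c x') :
    x' = x := by
  obtain ⟨j, h1, h2, h3⟩ := h'
  exact Str_FX h (Or.inl ⟨j, h1, h3⟩) h2

lemma east_y {r L : ℤ} {ω : Finset (ℤ × ℤ)} {c : ℤ × ℤ} {y1 y2 y1' y2' : ℤ}
    (h : East r L ω c y1 y2) (h' : East r L ω c y1' y2') : y1' = y1 := by
  have h1 := FX_unique h.1 h'.1
  have h2 := congrArg Prod.snd h1
  simp only at h2
  omega

lemma east_leave {r L : ℤ} {ω : Finset (ℤ × ℤ)} {c : ℤ × ℤ} {y1 y2 : ℤ}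
    (h : East r L ω c y1 y2) : Leave (BB r) ω c := by
  obtain ⟨⟨j, h1, h2, -⟩, -⟩ := h
  refine ⟨j, ?_⟩
  rw [h1]
  intro h3
  have h4 := mem_Bx.1 h3
  have h5 : lab (2 * r + 1, 2 * y1) = (2 * r + 1, 2 * y1) := by
    unfold lab
    simp only
    rw [if_pos (by omega), if_neg (by omega)]
  rw [h5] at h4
  simp only at h4
  omega

/-- The bad event: both strands leave to the right, at small distance, and the forward one goes on
to distance `2r`. -/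
def Bd (r L w : ℤ) (ω : Finset (ℤ × ℤ)) (c : ℤ × ℤ) : Prop :=
  ∃ y1 y2, East r (2 * L) ω c y1 y2 ∧ |y1 - y2| < w

lemma du_inter (B ω : Finset (ℤ × ℤ)) : du B (ω ∩ B) = du B ω := by
  unfold du
  congr 1
  ext e
  simp only [mem_sdiff, mem_inter]
  tauto

lemma bad_le {δ : ℝ} (hδ1 : δ < 1) (hδ : ∀ (E : Finset (ℤ × ℤ)),
    (∀ e ∈ E, (e.1 + e.2) % 2 = 1) → ∀ (x : ℤ × ℤ) (ρ : ℤ), 1 ≤ ρ → ∀ k : ℕ,
    Pr E (fun ω => ∃ u v : ℤ × ℤ, |u.1 - x.1| ≤ ρ ∧ |u.2 - x.2| ≤ ρ ∧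
      (4 ^ k * ρ ≤ |v.1 - x.1| ∨ 4 ^ k * ρ ≤ |v.2 - x.2|) ∧ Co ω u v) ≤ (1 - δ) ^ k)
    {r w L : ℤ} {k : ℕ} (hw : 1 ≤ w) (hr : 4 ^ (k + 1) * w ≤ r) (hL : 4 * r ≤ L) {c : ℤ × ℤ}
    (hc : C0 c) :
    Pr (BB (2 * L)) (fun ω => EF (2 * r) ω c ∧ Bd r L w ω c) ≤
      Pr (BB r) (fun ω => Leave (BB r) ω c) * (2 * (1 - δ) ^ k) := by
  have hk : (1 : ℤ) ≤ 4 ^ k := one_le_pow₀ (by norm_num)
  have hk' : (4 : ℤ) ^ (k + 1) * w = 4 ^ k * (4 * w) := by ring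
  have hr1 : 1 ≤ r := by nlinarith
  have hB1 : Pr (BB (2 * L)) (fun ω => Bd r L w ω c) ≤
      Pr (BB r) (fun ω => Leave (BB r) ω c) := by
    rw [← Pr_Leave (show r ≤ 2 * L by omega) c]
    apply Pr_mono
    rintro ω _ ⟨y1, y2, h1, -⟩
    exact east_leave h1
  set D : ℤ → Finset (ℤ × ℤ) → Prop := fun y ω => ∃ u v : ℤ × ℤ, |u.1 - ((r, y) : ℤ × ℤ).1| ≤ 4 * w ∧
      |u.2 - ((r, y) : ℤ × ℤ).2| ≤ 4 * w ∧
      (4 ^ k * (4 * w) ≤ |v.1 - ((r, y) : ℤ × ℤ).1| ∨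
        4 ^ k * (4 * w) ≤ |v.2 - ((r, y) : ℤ × ℤ).2|) ∧ Co ω u v with hD
  have hres := resample_le (BB (2 * L)) (fun ω => UU (BE r (2 * L)) ω c)
    (fun ω ω' _ _ => UU_mix _ _ _ _) (fun ω => EF (2 * r) ω c) (fun ω => Bd r L w ω c)
    (fun ω ω' => ∃ y1 y2, East r (2 * L) ω c y1 y2 ∧
      (D y1 ω' ∨ D y1 (du (BB (2 * r)) ω'))) (2 * (1 - δ) ^ k) ?_ ?_ ?_
  · refine hres.trans ?_
    apply mul_le_mul_of_nonneg_right hB1
    have : 0 ≤ (1 - δ) ^ k := pow_nonneg (by linarith) _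
    linarith
  · -- locality of the bad event
    rintro ω ω' _ _ ⟨y1, y2, ⟨h1, h2⟩, h3⟩
    have hloc := local_UU (B := BE r (2 * L)) (ω := ω)
      (ω1 := mix (UU (BE r (2 * L)) ω c) ω ω') (c := c) (fun e he => by
        rw [mem_mix]; tauto)
    exact ⟨y1, y2, ⟨(hloc.2.2.1 _).1 h1, (hloc.2.2.2.1 _).1 h2⟩, h3⟩
  · -- the probability of the survival
    rintro ω _ ⟨y1, y2, h1, h2⟩
    have h3 : Pr (BB (2 * L)) (fun ω' => ∃ y1 y2, East r (2 * L) ω c y1 y2 ∧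
        (D y1 ω' ∨ D y1 (du (BB (2 * r)) ω'))) ≤
        Pr (BB (2 * L)) (fun ω' => D y1 ω' ∨ D y1 (du (BB (2 * r)) ω')) := by
      apply Pr_mono
      rintro ω' _ ⟨y1', y2', h4, h5⟩
      rw [east_y h1 h4] at h5
      exact h5
    refine h3.trans ((Pr_or_le _ _ _).trans ?_)
    have h4 : Pr (BB (2 * L)) (D y1) ≤ (1 - δ) ^ k :=
      hδ _ (fun e he => BB_odd he) (r, y1) (4 * w) (by omega) k
    have h5 : Pr (BB (2 * L)) (fun ω' => D y1 (du (BB (2 * r)) ω')) ≤ (1 - δ) ^ k := by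
      have h6 : Pr (BB (2 * L)) (fun ω' => D y1 (du (BB (2 * r)) ω')) =
          Pr (BB (2 * r)) (fun ω' => D y1 (du (BB (2 * r)) ω')) := by
        rw [← Pr_restrict (BB_sub (show 2 * r ≤ 2 * L by omega))]
        exact Pr_congr fun ω' _ => by rw [du_inter]
      rw [h6, Pr_du]
      refine hδ _ (fun e he => ?_) (r, y1) (4 * w) (by omega) k
      rw [mem_map] at he
      obtain ⟨e', he', rfl⟩ := he
      have := BB_odd he'
      simp only [sh1, Function.Embedding.coeFn_mk]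
      omega
    linarith
  · -- survival
    rintro ω ω' _ _ ⟨y1, y2, h1, h2⟩ hA
    obtain ⟨⟨q, hq1, hq2⟩, g, hg1, hg2⟩ := EF_co (show 1 ≤ 2 * r by omega) hc hA
    refine ⟨y1, y2, h1, ?_⟩
    rcases bad_survive hr1 (show 2 * r ≤ 2 * L by omega) h2.le hc h1 hq1 hg1 hq2 hg2 with
      ⟨u, hu1, hu2, hu3⟩ | ⟨f, hf1, hf2, hf3⟩
    · left
      refine ⟨u, q, ?_, ?_, Or.inl ?_, hu3⟩
      · simp only; omega
      · simp only; omega
      · simp only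
        rw [← hk', hq1]
        refine hr.trans ?_
        rw [show 2 * r - r = r by ring]
        exact le_abs_self r
    · right
      refine ⟨f, g, ?_, ?_, Or.inl ?_, hf3⟩
      · simp only; omega
      · simp only; omega
      · simp only
        rw [← hk', hg1]
        refine hr.trans ?_
        rw [show 2 * r + 1 - r = r + 1 by ring]
        exact (by omega : r ≤ r + 1).trans (le_abs_self _)

end RecAux

open RecAux in
theorem recursion (ε : ℝ) (hε : 0 < ε) : ∃ (k : ℕ), ∀ r w L : ℤ, 1 ≤ w → 4 ^ k * w ≤ r →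
    4 ^ k * r ≤ L → aa (2 * r) ≤ 4 * gg r L w + ε * aa r := by
  obtain ⟨δ, hδ0, hδ1, hδ⟩ := open_arm_decay
  obtain ⟨k, hk⟩ := exists_pow_lt_of_lt_one (show (0 : ℝ) < ε / 12 by positivity)
    (show 1 - δ < 1 by linarith)
  refine ⟨k + 1, fun r w L hw hr hL => ?_⟩
  have h4 : (1 : ℤ) ≤ 4 ^ k := one_le_pow₀ (by norm_num)
  have h4' : (4 : ℤ) ^ (k + 1) = 4 * 4 ^ k := by ring
  have hr1 : 1 ≤ r := by
    rw [h4'] at hr
    nlinarith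
  have hL4 : 4 * r ≤ L := by
    rw [h4'] at hL
    nlinarith
  have hpow0 : 0 ≤ (1 - δ) ^ k := pow_nonneg (by linarith) _
  have hpow1 : (1 - δ) ^ (k + 1) ≤ (1 - δ) ^ k := by
    rw [pow_succ]
    nlinarith
  have hmain : ∀ c : ℤ × ℤ, C0 c → Pr (BB (2 * r)) (fun ω => EF (2 * r) ω c) ≤
      Pr (BB (2 * L)) (fun ω => Good r L w ω c) +
        3 * (1 - δ) ^ k * Pr (BB r) (fun ω => Leave (BB r) ω c) := by
    intro c hc
    rw [Pr_EF (show 2 * r ≤ 2 * L by omega) c]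
    have h1 : Pr (BB (2 * L)) (fun ω => EF (2 * r) ω c) ≤
        Pr (BB (2 * L)) (fun ω => Good r L w ω c ∨ ((EF (2 * r) ω c ∧ Bd r L w ω c) ∨
          Leave (BB L) ω c)) := by
      apply Pr_mono
      intro ω _ hω
      rcases EF_east hr1 hL4 hc hω with ⟨y1, y2, h1, h2, h3⟩ | h1
      · by_cases h5 : w ≤ |y1 - y2|
        · exact Or.inl ⟨y1, y2, h1, h2, h3, h5⟩
        · exact Or.inr (Or.inl ⟨hω, y1, y2, h1, not_le.1 h5⟩)
      · exact Or.inr (Or.inr h1)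
    have h2 := Pr_or_le (BB (2 * L)) (fun ω => Good r L w ω c)
      (fun ω => (EF (2 * r) ω c ∧ Bd r L w ω c) ∨ Leave (BB L) ω c)
    have h3 := Pr_or_le (BB (2 * L)) (fun ω => EF (2 * r) ω c ∧ Bd r L w ω c)
      (fun ω => Leave (BB L) ω c)
    have h5 := bad_le hδ1 hδ hw hr hL4 hc
    have h6 := far_leave hδ hr1 hL hc
    have h7 := Pr_nonneg (BB r) (fun ω => Leave (BB r) ω c)
    have h8 := mul_le_mul_of_nonneg_left hpow1 h7
    linarith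
  have h0 := aa_le (2 * r) (by omega)
  have e1 := hmain (0, 0) (Or.inl rfl)
  have e2 := hmain (1, 0) (Or.inr (Or.inl rfl))
  have e3 := hmain (0, 1) (Or.inr (Or.inr (Or.inl rfl)))
  have e4 := hmain (1, 1) (Or.inr (Or.inr (Or.inr rfl)))
  have haa : 0 ≤ aa r := by
    unfold aa
    have := Pr_nonneg (BB r) (fun ω => Leave (BB r) ω (0, 0))
    have := Pr_nonneg (BB r) (fun ω => Leave (BB r) ω (1, 0))
    have := Pr_nonneg (BB r) (fun ω => Leave (BB r) ω (0, 1))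
    have := Pr_nonneg (BB r) (fun ω => Leave (BB r) ω (1, 1))
    linarith
  have h9 : 12 * (1 - δ) ^ k * aa r ≤ ε * aa r := by
    apply mul_le_mul_of_nonneg_right _ haa
    linarith
  have h10 : aa (2 * r) ≤ 4 * gg r L w + 12 * (1 - δ) ^ k * aa r := by
    unfold gg
    unfold aa at h0 ⊢
    nlinarith
  linarith

end Pool.Agent.H75.TwoArm
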