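import Pool.Agent.H75.TwoArm.ExpoCore
import Pool.Agent.H75.TwoArm.Rec

/-!
# MP_fe58d8_pr: the two-arm exponent from its two one-sided inputs

helper37 (PERC2 TB7).  `exponents_of`: `exponents_of_rec` with the recursion of `Rec.lean`.
-/

namespace Pool.Agent.H75.TwoArm

theorem exponents_of
    (H1 : ∀ k : ℕ, ∃ C : ℝ, ∀ w : ℤ, 1 ≤ w →
      gg (4 ^ k * w) (4 ^ k * (4 ^ k * w)) w ≤ C * (w : ℝ) ^ (-(1 / 4 : ℝ)))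
    (H2 : ∃ c : ℝ, 0 < c ∧ ∀ r : ℤ, 1 ≤ r → c * (r : ℝ) ^ (-(1 / 4 : ℝ)) ≤ aa r) :
    (∃ C1 : ℝ, 0 < C1 ∧ ∀ r : ℤ, 1 ≤ r → aa r ≤ C1 * (r : ℝ) ^ (-(1 / 4 : ℝ))) ∧
    ∃ (k : ℕ) (c2 : ℝ), 0 < c2 ∧ ∀ w : ℤ, 1 ≤ w →
      c2 * (w : ℝ) ^ (-(1 / 4 : ℝ)) ≤ gg (4 ^ k * w) (4 ^ k * (4 ^ k * w)) w :=
  exponents_of_rec recursion H1 H2

end Pool.Agent.H75.TwoArm
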