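import Mathlib
import Pool.Agent.H75.TwoArm.Strand

set_option autoImplicit false
open Finset

/-! From the recursion to the exponents. -/

namespace Pool.Agent.H75.TwoArm

open Pool.Agent.H75.Perc

namespace ExpoAux

lemma BB_sub {r r' : ℤ} (h : r ≤ r') : BB r ⊆ BB r' :=
  Bx_sub (by omega) h (by omega) h

lemma leave_mono {B B' ω : Finset (ℤ × ℤ)} (h : B ⊆ B') {c : ℤ × ℤ} (hl : Leave B' ω c) :
    Leave B ω c := by
  obtain ⟨j, hj⟩ := hl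
  exact ⟨j, fun hj' => hj (h hj')⟩

lemma leave_inter (B ω : Finset (ℤ × ℤ)) (c : ℤ × ℤ) :
    Leave B (ω ∩ B) c ↔ Leave B ω c := by
  classical
  refine (local_UU (B := B) (ω := ω) (ω1 := ω ∩ B) (c := c) ?_).2.2.2.2
  intro e he
  have he' : e ∈ B := by
    unfold UU at he
    exact (@mem_filter _ _ _ _ _).1 he |>.1
  rw [mem_inter]
  exact ⟨fun h => h.1, fun h => ⟨h, he'⟩⟩

lemma leave_anti {r r' : ℤ} (h : r ≤ r') (c : ℤ × ℤ) :
    Pr (BB r') (fun ω => Leave (BB r') ω c) ≤ Pr (BB r) (fun ω => Leave (BB r) ω c) := by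
  rw [← Pr_restrict (BB_sub h) (fun ω => Leave (BB r) ω c)]
  apply Pr_mono
  intro ω _ hl
  rw [leave_inter]
  exact leave_mono (BB_sub h) hl

end ExpoAux

open ExpoAux

theorem aa_anti {r r' : ℤ} (h : r ≤ r') : aa r' ≤ aa r := by
  unfold aa
  have h1 := leave_anti h (0, 0)
  have h2 := leave_anti h (1, 0)
  have h3 := leave_anti h (0, 1)
  have h4 := leave_anti h (1, 1)
  linarith

namespace ExpoAux

lemma aa_le_four (r : ℤ) : aa r ≤ 4 := by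
  unfold aa
  have h1 := Pr_le_one (BB r) (fun ω => Leave (BB r) ω (0, 0))
  have h2 := Pr_le_one (BB r) (fun ω => Leave (BB r) ω (1, 0))
  have h3 := Pr_le_one (BB r) (fun ω => Leave (BB r) ω (0, 1))
  have h4 := Pr_le_one (BB r) (fun ω => Leave (BB r) ω (1, 1))
  linarith

lemma aa_nonneg (r : ℤ) : 0 ≤ aa r := by
  unfold aa
  have h1 := Pr_nonneg (BB r) (fun ω => Leave (BB r) ω (0, 0))
  have h2 := Pr_nonneg (BB r) (fun ω => Leave (BB r) ω (1, 0))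
  have h3 := Pr_nonneg (BB r) (fun ω => Leave (BB r) ω (0, 1))
  have h4 := Pr_nonneg (BB r) (fun ω => Leave (BB r) ω (1, 1))
  linarith

lemma q_half : (1 / 2 : ℝ) ≤ (2 : ℝ) ^ (-(1 / 4 : ℝ)) := by
  have h1 : (2 : ℝ) ^ (-(1 : ℝ)) ≤ (2 : ℝ) ^ (-(1 / 4 : ℝ)) :=
    Real.rpow_le_rpow_of_exponent_le (by norm_num) (by norm_num)
  rw [Real.rpow_neg_one] at h1
  linarith

lemma pow_q (j : ℕ) : ((2 : ℝ) ^ j) ^ (-(1 / 4 : ℝ)) = ((2 : ℝ) ^ (-(1 / 4 : ℝ))) ^ j := by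
  rw [← Real.rpow_natCast, ← Real.rpow_natCast, ← Real.rpow_mul (by norm_num),
    ← Real.rpow_mul (by norm_num), mul_comm]

/-- geometric iteration -/
lemma iter (a : ℕ → ℝ) (C q : ℝ) (hq : 1 / 2 ≤ q) (h0 : 0 ≤ a 0)
    (h : ∀ j, a (j + 1) ≤ 4 * (C * q ^ j) + 1 / 4 * a j) :
    ∀ j, a j ≤ (a 0 + 16 * |C|) * q ^ j := by
  intro j
  have hC := abs_nonneg C
  have hC' := le_abs_self C
  induction j with
  | zero => rw [pow_zero, mul_one]; linarith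
  | succ j ih =>
    have hqj : 0 ≤ q ^ j := pow_nonneg (by linarith) j
    have h1 : a (j + 1) ≤ (4 * C + 1 / 4 * (a 0 + 16 * |C|)) * q ^ j := by
      have := h j
      nlinarith
    refine h1.trans ?_
    rw [pow_succ, ← mul_assoc, mul_right_comm]
    apply mul_le_mul_of_nonneg_right _ hqj
    nlinarith

end ExpoAux

/-- The statement `exponents_of`, with the recursion as a hypothesis. -/
theorem exponents_of_rec
    (hrec : ∀ ε : ℝ, 0 < ε → ∃ (k : ℕ), ∀ r w L : ℤ, 1 ≤ w → 4 ^ k * w ≤ r →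
      4 ^ k * r ≤ L → aa (2 * r) ≤ 4 * gg r L w + ε * aa r)
    (H1 : ∀ k : ℕ, ∃ C : ℝ, ∀ w : ℤ, 1 ≤ w →
      gg (4 ^ k * w) (4 ^ k * (4 ^ k * w)) w ≤ C * (w : ℝ) ^ (-(1 / 4 : ℝ)))
    (H2 : ∃ c : ℝ, 0 < c ∧ ∀ r : ℤ, 1 ≤ r → c * (r : ℝ) ^ (-(1 / 4 : ℝ)) ≤ aa r) :
    (∃ C1 : ℝ, 0 < C1 ∧ ∀ r : ℤ, 1 ≤ r → aa r ≤ C1 * (r : ℝ) ^ (-(1 / 4 : ℝ))) ∧
    ∃ (k : ℕ) (c2 : ℝ), 0 < c2 ∧ ∀ w : ℤ, 1 ≤ w →
      c2 * (w : ℝ) ^ (-(1 / 4 : ℝ)) ≤ gg (4 ^ k * w) (4 ^ k * (4 ^ k * w)) w := by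
  have part1 : ∃ C1 : ℝ, 0 < C1 ∧ ∀ r : ℤ, 1 ≤ r → aa r ≤ C1 * (r : ℝ) ^ (-(1 / 4 : ℝ)) := by
    obtain ⟨k, hk⟩ := hrec (1 / 4) (by norm_num)
    obtain ⟨C, hC⟩ := H1 k
    set q : ℝ := (2 : ℝ) ^ (-(1 / 4 : ℝ)) with hq
    have hqpos : 0 < q := by positivity
    have hit := iter (fun j => aa (4 ^ k * 2 ^ j)) C q q_half (aa_nonneg _) (by
      intro j
      have h2j : (1 : ℤ) ≤ 2 ^ j := one_le_pow₀ (by norm_num)
      have h1 := hk (4 ^ k * 2 ^ j) (2 ^ j) (4 ^ k * (4 ^ k * 2 ^ j)) h2j le_rfl le_rfl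
      have h2 := hC (2 ^ j) h2j
      have e1 : (2 : ℤ) * (4 ^ k * 2 ^ j) = 4 ^ k * 2 ^ (j + 1) := by ring
      rw [e1] at h1
      have e2 : (((2 : ℤ) ^ j : ℤ) : ℝ) ^ (-(1 / 4 : ℝ)) = q ^ j := by
        push_cast
        exact pow_q j
      rw [e2] at h2
      linarith)
    set A : ℝ := aa (4 ^ k * 2 ^ 0) + 16 * |C| with hA
    have hA0 : 0 ≤ A := by
      have := aa_nonneg (4 ^ k * 2 ^ 0)
      have := abs_nonneg C
      positivity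
    set B : ℝ := ((4 : ℝ) ^ k * 2) ^ (1 / 4 : ℝ) with hB
    have hBpos : 0 < B := by positivity
    refine ⟨(A + 4) * B, by positivity, ?_⟩
    intro r hr
    have hr1 : (1 : ℝ) ≤ r := by exact_mod_cast hr
    have hr0 : (0 : ℝ) < r := by linarith
    have h4k : (0 : ℝ) < (4 : ℝ) ^ k := by positivity
    -- comparison of powers
    have hcomp : ∀ t : ℝ, 0 < t → (r : ℝ) ≤ (4 : ℝ) ^ k * 2 * t →
        t ^ (-(1 / 4 : ℝ)) ≤ B * (r : ℝ) ^ (-(1 / 4 : ℝ)) := by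
      intro t ht h
      have h1 : ((4 : ℝ) ^ k * 2 * t) ^ (-(1 / 4 : ℝ)) ≤ (r : ℝ) ^ (-(1 / 4 : ℝ)) :=
        Real.rpow_le_rpow_of_nonpos hr0 h (by norm_num)
      rw [Real.mul_rpow (by positivity) ht.le] at h1
      have h2 : B * ((4 : ℝ) ^ k * 2) ^ (-(1 / 4 : ℝ)) = 1 := by
        rw [hB, ← Real.rpow_add (by positivity)]
        norm_num
      calc t ^ (-(1 / 4 : ℝ)) = B * (((4 : ℝ) ^ k * 2) ^ (-(1 / 4 : ℝ)) * t ^ (-(1 / 4 : ℝ))) := by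
            rw [← mul_assoc, h2, one_mul]
        _ ≤ B * (r : ℝ) ^ (-(1 / 4 : ℝ)) := mul_le_mul_of_nonneg_left h1 hBpos.le
    rcases lt_or_ge (r : ℝ) ((4 : ℝ) ^ k) with hlt | hge
    · have h1 := hcomp 1 one_pos (by linarith)
      rw [Real.one_rpow] at h1
      have h2 := aa_le_four r
      nlinarith
    · obtain ⟨j, hj1, hj2⟩ := exists_nat_pow_near (x := (r : ℝ) / 4 ^ k) (y := (2 : ℝ))
        ((one_le_div h4k).2 hge) (by norm_num)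
      rw [le_div_iff₀ h4k] at hj1
      rw [div_lt_iff₀ h4k] at hj2
      have h1 := hcomp (2 ^ j) (by positivity) (by rw [pow_succ] at hj2; nlinarith)
      rw [pow_q j] at h1
      have h2 : aa r ≤ aa (4 ^ k * 2 ^ j) := by
        apply aa_anti
        have : ((4 ^ k * 2 ^ j : ℤ) : ℝ) ≤ (r : ℝ) := by push_cast; linarith
        exact_mod_cast this
      have h3 := hit j
      have h4 : A * q ^ j ≤ A * (B * (r : ℝ) ^ (-(1 / 4 : ℝ))) := mul_le_mul_of_nonneg_left h1 hA0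
      have h5 : 0 ≤ B * (r : ℝ) ^ (-(1 / 4 : ℝ)) := by positivity
      nlinarith
  refine ⟨part1, ?_⟩
  obtain ⟨C1, hC1, hup⟩ := part1
  obtain ⟨c, hc, hlow⟩ := H2
  set q : ℝ := (2 : ℝ) ^ (-(1 / 4 : ℝ)) with hq
  have hqpos : 0 < q := by positivity
  obtain ⟨k, hk⟩ := hrec (c * q / (2 * C1)) (by positivity)
  set s : ℝ := ((4 : ℝ) ^ k) ^ (-(1 / 4 : ℝ)) with hs
  have hspos : 0 < s := by positivity
  refine ⟨k, c * q * s / 8, by positivity, ?_⟩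
  intro w hw
  have hw1 : (1 : ℝ) ≤ w := by exact_mod_cast hw
  have h4k : (1 : ℤ) ≤ 4 ^ k := one_le_pow₀ (by norm_num)
  have hr : (1 : ℤ) ≤ 4 ^ k * w := by nlinarith
  have h1 := hk (4 ^ k * w) w (4 ^ k * (4 ^ k * w)) hw le_rfl le_rfl
  have h2 := hup (4 ^ k * w) hr
  have h3 := hlow (2 * (4 ^ k * w)) (by omega)
  have e1 : ((4 ^ k * w : ℤ) : ℝ) ^ (-(1 / 4 : ℝ)) = s * (w : ℝ) ^ (-(1 / 4 : ℝ)) := by
    push_cast
    rw [Real.mul_rpow (by positivity) (by linarith)]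
  have e2 : ((2 * (4 ^ k * w) : ℤ) : ℝ) ^ (-(1 / 4 : ℝ)) = q * (s * (w : ℝ) ^ (-(1 / 4 : ℝ))) := by
    rw [← e1]
    push_cast
    rw [Real.mul_rpow (by norm_num) (by positivity)]
  rw [e1] at h2
  rw [e2] at h3
  set W : ℝ := (w : ℝ) ^ (-(1 / 4 : ℝ)) with hW
  have hWpos : 0 < W := by positivity
  have h4 : c * q / (2 * C1) * aa (4 ^ k * w) ≤ c * q / (2 * C1) * (C1 * (s * W)) :=
    mul_le_mul_of_nonneg_left h2 (by positivity)
  have h5 : c * q / (2 * C1) * (C1 * (s * W)) = c * q * (s * W) / 2 := by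
    field_simp
  rw [h5] at h4
  linarith

end Pool.Agent.H75.TwoArm
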