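import Mathlib
import Pool.Agent.H75.TwoArm.EVDef
import Pool.Agent.H75.Perc.ArmD

set_option autoImplicit false
open Finset

/-! The exploration path of the final statement and the orbit of `pv`; the law of its length. -/

namespace Pool.Agent.H75.TwoArm

open Pool.Agent.H75.Perc
open Pool.Agent.H65.Perc (PConf planeMeasure)
open MeasureTheory
open scoped ENNReal

namespace PLaw

lemma pv_q0 (w : Finset (ℤ × ℤ)) (x y : ℤ) : pv w (2 * x + 1, 2 * y + 1) =
    if ((2 * x + 1, 2 * y) : ℤ × ℤ) ∈ w then (2 * x + 2, 2 * y + 1) else (2 * x + 1, 2 * y) := by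
  unfold pv
  have h1 : ¬ ((2 * y + 1) % 2 = 0) := by omega
  have h2 : ¬ ((2 * x + 1) % 2 = 0) := by omega
  simp only [if_neg h1, if_neg h2]
  have e1 : 2 * y + 1 - 1 = 2 * y := by ring
  have e2 : 2 * x + 1 + 1 = 2 * x + 2 := by ring
  rw [e1, e2]

lemma pv_q1 (w : Finset (ℤ × ℤ)) (x y : ℤ) : pv w (2 * x, 2 * y + 1) =
    if ((2 * x, 2 * y + 1) : ℤ × ℤ) ∈ w then (2 * x, 2 * y + 2) else (2 * x + 1, 2 * y + 1) := by
  unfold pv
  have h1 : ¬ ((2 * y + 1) % 2 = 0) := by omega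
  have h2 : (2 * x) % 2 = 0 := by omega
  simp only [if_neg h1, if_pos h2]
  have e1 : 2 * y + 1 + 1 = 2 * y + 2 := by ring
  rw [e1]

lemma pv_q2 (w : Finset (ℤ × ℤ)) (x y : ℤ) : pv w (2 * x, 2 * y) =
    if ((2 * x - 1, 2 * y) : ℤ × ℤ) ∈ w then (2 * x - 1, 2 * y) else (2 * x, 2 * y + 1) := by
  unfold pv
  have h1 : (2 * y) % 2 = 0 := by omega
  have h2 : (2 * x) % 2 = 0 := by omega
  simp only [if_pos h1, if_pos h2]

lemma pv_q3 (w : Finset (ℤ × ℤ)) (x y : ℤ) : pv w (2 * x + 1, 2 * y) =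
    if ((2 * x, 2 * y - 1) : ℤ × ℤ) ∈ w then (2 * x + 1, 2 * y - 1) else (2 * x, 2 * y) := by
  unfold pv
  have h1 : (2 * y) % 2 = 0 := by omega
  have h2 : ¬ ((2 * x + 1) % 2 = 0) := by omega
  simp only [if_pos h1, if_neg h2]
  have e1 : 2 * x + 1 - 1 = 2 * x := by ring
  rw [e1]

lemma cnr_inj : Function.Injective cnr := by
  rintro ⟨⟨x, y⟩, k⟩ ⟨⟨x', y'⟩, k'⟩ h
  have h1 := congrArg Prod.fst h
  have h2 := congrArg Prod.snd h
  fin_cases k <;> fin_cases k' <;> simp [cnr] at h1 h2 <;>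
    first
      | (exfalso; omega)
      | (simp only [Prod.mk.injEq]; refine ⟨⟨by omega, by omega⟩, ?_⟩; trivial)

end PLaw

lemma cnr_xstep {η : PConf} {W : Finset (ℤ × ℤ)}
    (hW : ∀ (v : ℤ × ℤ), ((2 * v.1 + 1, 2 * v.2) ∈ W ↔ η (v, true) = true) ∧
      ((2 * v.1, 2 * v.2 + 1) ∈ W ↔ η (v, false) = true)) (s : (ℤ × ℤ) × Fin 4) :
    cnr (xstep η s) = pv W (cnr s) := by
  obtain ⟨⟨x, y⟩, k⟩ := s
  fin_cases k
  · change cnr (if est η (x, y) 0 = true then ((x, y) + dirv 0, 0 + 1) else ((x, y), 0 - 1)) =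
      pv W (2 * x + 1, 2 * y + 1)
    rw [PLaw.pv_q0]
    have h := (hW (x, y)).1
    simp only at h
    have he : est η (x, y) 0 = η ((x, y), true) := rfl
    by_cases hc : η ((x, y), true) = true
    · rw [if_pos (he.trans hc), if_pos (h.2 hc)]
      change ((2 * (x + 1), 2 * (y + 0) + 1) : ℤ × ℤ) = _
      refine Prod.ext ?_ ?_ <;> simp only <;> ring
    · rw [if_neg (by rw [he]; exact hc), if_neg (fun h' => hc (h.1 h'))]
      rfl
  · change cnr (if est η (x, y) 1 = true then ((x, y) + dirv 1, 1 + 1) else ((x, y), 1 - 1)) =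
      pv W (2 * x, 2 * y + 1)
    rw [PLaw.pv_q1]
    have h := (hW (x, y)).2
    simp only at h
    have he : est η (x, y) 1 = η ((x, y), false) := rfl
    by_cases hc : η ((x, y), false) = true
    · rw [if_pos (he.trans hc), if_pos (h.2 hc)]
      change ((2 * (x + 0), 2 * (y + 1)) : ℤ × ℤ) = _
      refine Prod.ext ?_ ?_ <;> simp only <;> ring
    · rw [if_neg (by rw [he]; exact hc), if_neg (fun h' => hc (h.1 h'))]
      rfl
  · change cnr (if est η (x, y) 2 = true then ((x, y) + dirv 2, 2 + 1) else ((x, y), 2 - 1)) =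
      pv W (2 * x, 2 * y)
    rw [PLaw.pv_q2]
    have h := (hW (x - 1, y)).1
    have e1 : 2 * (x - 1) + 1 = 2 * x - 1 := by ring
    simp only [e1] at h
    have he : est η (x, y) 2 = η ((x - 1, y), true) := by
      change η ((x, y) - (1, 0), true) = _
      rw [Prod.mk_sub_mk, sub_zero]
    by_cases hc : η ((x - 1, y), true) = true
    · rw [if_pos (he.trans hc), if_pos (h.2 hc)]
      change ((2 * (x + -1) + 1, 2 * (y + 0)) : ℤ × ℤ) = _
      refine Prod.ext ?_ ?_ <;> simp only <;> ring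
    · rw [if_neg (by rw [he]; exact hc), if_neg (fun h' => hc (h.1 h'))]
      rfl
  · change cnr (if est η (x, y) 3 = true then ((x, y) + dirv 3, 3 + 1) else ((x, y), 3 - 1)) =
      pv W (2 * x + 1, 2 * y)
    rw [PLaw.pv_q3]
    have h := (hW (x, y - 1)).2
    have e1 : 2 * (y - 1) + 1 = 2 * y - 1 := by ring
    simp only [e1] at h
    have he : est η (x, y) 3 = η ((x, y - 1), false) := by
      change η ((x, y) - (0, 1), false) = _
      rw [Prod.mk_sub_mk, sub_zero]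
    by_cases hc : η ((x, y - 1), false) = true
    · rw [if_pos (he.trans hc), if_pos (h.2 hc)]
      change ((2 * (x + 0) + 1, 2 * (y + -1) + 1) : ℤ × ℤ) = _
      refine Prod.ext ?_ ?_ <;> simp only <;> ring
    · rw [if_neg (by rw [he]; exact hc), if_neg (fun h' => hc (h.1 h'))]
      rfl

namespace PLaw

lemma phi_odd (x y : ℤ) : phi (2 * x + 1, 2 * y) = ((x, y), true) := by
  unfold phi
  simp only [Prod.mk.injEq, decide_eq_true_eq]
  omega

lemma phi_even (x y : ℤ) : phi (2 * x, 2 * y + 1) = ((x, y), false) := by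
  unfold phi
  simp only [Prod.mk.injEq, decide_eq_false_iff_not]
  omega

/-- the wired configuration of the trace -/
lemma wire_dob (m n a b : ℕ) (ω : PConf) (v : ℤ × ℤ) :
    ((2 * v.1 + 1, 2 * v.2) ∈ wire 0 m 0 n a b (Pool.Agent.H63.Perc.tr (Bx 0 m 0 n) phi ω) ↔
      dob m n a b ω (v, true) = true) ∧
    ((2 * v.1, 2 * v.2 + 1) ∈ wire 0 m 0 n a b (Pool.Agent.H63.Perc.tr (Bx 0 m 0 n) phi ω) ↔
      dob m n a b ω (v, false) = true) := by
  obtain ⟨x, y⟩ := v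
  constructor
  · unfold wire arcE dob
    rw [mem_union, mem_inter, mem_filter, Pool.Agent.H63.Perc.mem_tr, mem_Bx, phi_odd]
    simp only [if_true, Bool.and_eq_true, Bool.or_eq_true, decide_eq_true_eq]
    constructor
    · rintro (⟨⟨h1, h2⟩, h3⟩ | ⟨h1, h2⟩)
      · exact ⟨by omega, Or.inr h2⟩
      · exact ⟨by omega, Or.inl (by omega)⟩
    · rintro ⟨h1, h2 | h2⟩
      · right
        exact ⟨by omega, by omega⟩
      · left
        exact ⟨⟨by omega, h2⟩, by omega⟩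
  · unfold wire arcE dob
    rw [mem_union, mem_inter, mem_filter, Pool.Agent.H63.Perc.mem_tr, mem_Bx, phi_even]
    simp only [Bool.false_eq_true, if_false, Bool.and_eq_true, Bool.or_eq_true, decide_eq_true_eq]
    constructor
    · rintro (⟨⟨h1, h2⟩, h3⟩ | ⟨h1, h2⟩)
      · exact ⟨by omega, Or.inr h2⟩
      · exact ⟨by omega, Or.inl (by omega)⟩
    · rintro ⟨h1, h2 | h2⟩
      · right
        exact ⟨by omega, by omega⟩
      · left
        exact ⟨⟨by omega, h2⟩, by omega⟩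

lemma cnr_iter (m n a b : ℕ) (ω : PConf) (j : ℕ) (s : (ℤ × ℤ) × Fin 4) :
    cnr ((xstep (dob m n a b ω))^[j] s) =
      (pv (wire 0 m 0 n a b (Pool.Agent.H63.Perc.tr (Bx 0 m 0 n) phi ω)))^[j] (cnr s) := by
  induction j with
  | zero => rfl
  | succ j ih =>
    rw [Function.iterate_succ_apply', Function.iterate_succ_apply',
      cnr_xstep (wire_dob m n a b ω), ih]

/-- the length of the exploration path is the first hitting time of the corner of the end -/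
lemma pathLen_eq {m n a b : ℕ} (ω : PConf) {T : ℕ}
    (h1 : (pv (wire 0 m 0 n a b (Pool.Agent.H63.Perc.tr (Bx 0 m 0 n) phi ω)))^[T]
      (2 * (a : ℤ), 2 * 0) = (2 * (b : ℤ), 2 * (n : ℤ) + 1))
    (h2 : ∀ j < T, (pv (wire 0 m 0 n a b (Pool.Agent.H63.Perc.tr (Bx 0 m 0 n) phi ω)))^[j]
      (2 * (a : ℤ), 2 * 0) ≠ (2 * (b : ℤ), 2 * (n : ℤ) + 1)) :
    pathLen m n a b ω = T := by
  have key : ∀ j, (xstep (dob m n a b ω))^[j] (((a : ℤ), 0), 2) = (((b : ℤ), (n : ℤ)), 1) ↔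
      (pv (wire 0 m 0 n a b (Pool.Agent.H63.Perc.tr (Bx 0 m 0 n) phi ω)))^[j]
        (2 * (a : ℤ), 2 * 0) = (2 * (b : ℤ), 2 * (n : ℤ) + 1) := by
    intro j
    rw [← cnr_inj.eq_iff, cnr_iter]
    rfl
  unfold pathLen
  apply le_antisymm
  · exact iInf₂_le T ((key T).2 h1)
  · refine le_iInf₂ (fun j hj => ?_)
    by_contra hlt
    rw [not_le] at hlt
    have h3 : j < T := by exact_mod_cast hlt
    exact h2 j h3 ((key j).1 hj)

theorem lintegral_of {m n a b : ℕ}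
    (hcv : ∀ ω : Finset (ℤ × ℤ), ∃ T : ℕ,
      (pv (wire 0 m 0 n a b ω))^[T] (2 * (a : ℤ), 2 * 0) = (2 * (b : ℤ), 2 * (n : ℤ) + 1) ∧
      (∀ j < T, (pv (wire 0 m 0 n a b ω))^[j] (2 * (a : ℤ), 2 * 0) ≠ (2 * (b : ℤ), 2 * (n : ℤ) + 1)) ∧
      T = (@Finset.filter _ (Vis 0 m 0 n a b ω) (Classical.decPred _)
        ((Icc (2 * 0) (2 * (m : ℤ) + 1)) ×ˢ (Icc (2 * 0) (2 * (n : ℤ) + 1)))).card) :
    ∫⁻ ω, pathLen m n a b ω ∂planeMeasure = ENNReal.ofReal (EV m n a b) := by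
  classical
  have hphi : Set.InjOn phi (Bx 0 m 0 n : Finset (ℤ × ℤ)) := phi_inj (fun e he => (mem_Bx.1 he).2.2)
  have h1 : ∀ ω, pathLen m n a b ω =
      ∑ c ∈ (Icc (0 : ℤ) (2 * m + 1)) ×ˢ (Icc (0 : ℤ) (2 * n + 1)),
        Set.indicator {ω | Vis 0 m 0 n a b (Pool.Agent.H63.Perc.tr (Bx 0 m 0 n) phi ω) c}
          (fun _ => (1 : ℝ≥0∞)) ω := by
    intro ω
    obtain ⟨T, hT1, hT2, hT3⟩ := hcv (Pool.Agent.H63.Perc.tr (Bx 0 m 0 n) phi ω)
    rw [pathLen_eq ω hT1 hT2, hT3]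
    have e0 : (2 * 0 : ℤ) = 0 := by norm_num
    rw [e0, Finset.card_filter, Nat.cast_sum]
    apply Finset.sum_congr rfl
    intro c _
    by_cases hc : Vis 0 m 0 n a b (Pool.Agent.H63.Perc.tr (Bx 0 m 0 n) phi ω) c
    · rw [if_pos hc, Set.indicator_of_mem (show ω ∈ {ω | Vis 0 m 0 n a b
        (Pool.Agent.H63.Perc.tr (Bx 0 m 0 n) phi ω) c} from hc)]
      simp
    · rw [if_neg hc, Set.indicator_of_notMem (show ω ∉ {ω | Vis 0 m 0 n a b
        (Pool.Agent.H63.Perc.tr (Bx 0 m 0 n) phi ω) c} from hc)]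
      simp
  have hm : ∀ c : ℤ × ℤ, MeasurableSet {ω : PConf | Vis 0 m 0 n a b
      (Pool.Agent.H63.Perc.tr (Bx 0 m 0 n) phi ω) c} := fun c =>
    Pool.Agent.H63.Perc.measurable_tr hphi (fun ω => Vis 0 m 0 n a b ω c)
  rw [lintegral_congr h1, lintegral_finset_sum _ (fun c _ => (measurable_const.indicator (hm c)))]
  unfold EV
  rw [ENNReal.ofReal_sum_of_nonneg (fun c _ => Pr_nonneg _ _)]
  apply Finset.sum_congr rfl
  intro c _
  rw [lintegral_indicator_const (hm c), one_mul]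
  have h2 := Pool.Agent.H63.Perc.coins_tr hphi (fun ω => Vis 0 m 0 n a b ω c)
  rw [← h2, ← planeMeasure_eq]
  haveI : IsProbabilityMeasure planeMeasure := by
    rw [planeMeasure_eq]; infer_instance
  rw [ENNReal.ofReal_toReal (measure_ne_top _ _)]

end PLaw

end Pool.Agent.H75.TwoArm
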