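import Mathlib
import Pool.Agent.H75.TwoArm.PathLaw
import Pool.Agent.H75.TwoArm.PathGeo

/-!
# The expected length of the exploration path (TB5, final step)
-/

set_option autoImplicit false
open Finset
namespace Pool.Agent.H75.TwoArm
open Pool.Agent.H75.Perc
open Pool.Agent.H65.Perc (PConf planeMeasure)
open MeasureTheory
open scoped ENNReal

theorem lintegral_pathLen {m n a b : ℕ} (hm : 1 ≤ m) (hn : 1 ≤ n) (ha : a ≤ m) (hb : b ≤ m) :
    ∫⁻ ω, pathLen m n a b ω ∂planeMeasure = ENNReal.ofReal (EV m n a b) :=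
  PLaw.lintegral_of (fun ω => (card_vis (x0 := 0) (x1 := m) (y0 := 0) (y1 := n) (a := a) (b := b)
    (by omega) (by omega) (by omega) (by omega) ω).2)

end Pool.Agent.H75.TwoArm
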