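import Mathlib
import Pool.Agent.H75.TwoArm.PathDefs
import Pool.Agent.H75.TwoArm.Strand
import Pool.Agent.H75.TwoArm.Symm
import Pool.Agent.H75.TwoArm.PathGeo

set_option autoImplicit false
open Finset

/-! TB2: translation of the exploration path and the upper bound by `aa`. -/

namespace Pool.Agent.H75.TwoArm

open Pool.Agent.H75.Perc

namespace ShiftAux

open SymmAux (pvO pvC pv_eq)

variable (t : ℤ × ℤ)

/-- translation of labels and corners -/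
def tr (c : ℤ × ℤ) : ℤ × ℤ := (c.1 + 2 * t.1, c.2 + 2 * t.2)

lemma G_eq (c : ℤ × ℤ) : (syT t).G c = tr t c := rfl

lemma tr_inj {c d : ℤ × ℤ} : tr t c = tr t d ↔ c = d := by
  unfold tr
  rw [Prod.ext_iff, Prod.ext_iff]
  simp only
  omega

lemma lab_tr (c : ℤ × ℤ) : lab (tr t c) = tr t (lab c) := by
  obtain ⟨a, b⟩ := c
  unfold lab tr
  simp only
  split_ifs <;> first | (exfalso; omega) | (refine Prod.ext ?_ ?_ <;> simp only <;> omega)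

lemma plab_tr (c : ℤ × ℤ) : plab (tr t c) = tr t (plab c) := by
  obtain ⟨a, b⟩ := c
  unfold plab tr
  simp only
  split_ifs <;> first | (exfalso; omega) | (refine Prod.ext ?_ ?_ <;> simp only <;> omega)

lemma nxO_tr (c : ℤ × ℤ) : nxO (tr t c) = tr t (nxO c) := by
  obtain ⟨a, b⟩ := c
  unfold nxO tr
  simp only
  split_ifs <;> first | (exfalso; omega) | (refine Prod.ext ?_ ?_ <;> simp only <;> omega)

lemma nxC_tr (c : ℤ × ℤ) : nxC (tr t c) = tr t (nxC c) := by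
  obtain ⟨a, b⟩ := c
  unfold nxC tr
  simp only
  split_ifs <;> first | (exfalso; omega) | (refine Prod.ext ?_ ?_ <;> simp only <;> omega)

lemma pvO_tr (c : ℤ × ℤ) : pvO (tr t c) = tr t (pvO c) := by
  obtain ⟨a, b⟩ := c
  unfold pvO tr
  simp only
  split_ifs <;> first | (exfalso; omega) | (refine Prod.ext ?_ ?_ <;> simp only <;> omega)

lemma pvC_tr (c : ℤ × ℤ) : pvC (tr t c) = tr t (pvC c) := by
  obtain ⟨a, b⟩ := c
  unfold pvC tr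
  simp only
  split_ifs <;> first | (exfalso; omega) | (refine Prod.ext ?_ ?_ <;> simp only <;> omega)

lemma mem_map_tr {ω : Finset (ℤ × ℤ)} {e : ℤ × ℤ} : tr t e ∈ ω.map (syT t).G ↔ e ∈ ω := by
  rw [← G_eq, Finset.mem_map' (syT t).G]

lemma nx_tr (ω : Finset (ℤ × ℤ)) (c : ℤ × ℤ) :
    nx (ω.map (syT t).G) (tr t c) = tr t (nx ω c) := by
  unfold nx
  rw [lab_tr]
  by_cases h : lab c ∈ ω
  · rw [if_pos h, if_pos ((mem_map_tr t).2 h), nxO_tr]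
  · rw [if_neg h, if_neg (fun h' => h ((mem_map_tr t).1 h')), nxC_tr]

lemma pv_tr (ω : Finset (ℤ × ℤ)) (c : ℤ × ℤ) :
    pv (ω.map (syT t).G) (tr t c) = tr t (pv ω c) := by
  rw [pv_eq, pv_eq, plab_tr]
  by_cases h : plab c ∈ ω
  · rw [if_pos h, if_pos ((mem_map_tr t).2 h), pvO_tr]
  · rw [if_neg h, if_neg (fun h' => h ((mem_map_tr t).1 h')), pvC_tr]

lemma nx_tr_iter (ω : Finset (ℤ × ℤ)) (c : ℤ × ℤ) (j : ℕ) :
    (nx (ω.map (syT t).G))^[j] (tr t c) = tr t ((nx ω)^[j] c) := by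
  induction j with
  | zero => rfl
  | succ j ih => rw [Function.iterate_succ_apply', Function.iterate_succ_apply', ih, nx_tr]

lemma pv_tr_iter (ω : Finset (ℤ × ℤ)) (c : ℤ × ℤ) (j : ℕ) :
    (pv (ω.map (syT t).G))^[j] (tr t c) = tr t ((pv ω)^[j] c) := by
  induction j with
  | zero => rfl
  | succ j ih => rw [Function.iterate_succ_apply', Function.iterate_succ_apply', ih, pv_tr]

lemma mem_map_G {ω : Finset (ℤ × ℤ)} {e : ℤ × ℤ} :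
    e ∈ ω.map (syT t).G ↔ (e.1 - 2 * t.1, e.2 - 2 * t.2) ∈ ω := (syT t).mem_map ω e

lemma wire_tr (x0 x1 y0 y1 a b : ℤ) (ω : Finset (ℤ × ℤ)) :
    wire (x0 + t.1) (x1 + t.1) (y0 + t.2) (y1 + t.2) (a + t.1) (b + t.1) (ω.map (syT t).G) =
      (wire x0 x1 y0 y1 a b ω).map (syT t).G := by
  classical
  ext e
  rw [mem_map_G]
  unfold wire arcE
  simp only [mem_union, mem_inter, mem_filter, mem_Bx, mem_map_G]
  have k1 : ((2 * (x0 + t.1) ≤ e.1 ∧ e.1 ≤ 2 * (x1 + t.1)) ∧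
      (2 * (y0 + t.2) ≤ e.2 ∧ e.2 ≤ 2 * (y1 + t.2)) ∧ (e.1 + e.2) % 2 = 1) ↔
      ((2 * x0 ≤ e.1 - 2 * t.1 ∧ e.1 - 2 * t.1 ≤ 2 * x1) ∧
      (2 * y0 ≤ e.2 - 2 * t.2 ∧ e.2 - 2 * t.2 ≤ 2 * y1) ∧
      (e.1 - 2 * t.1 + (e.2 - 2 * t.2)) % 2 = 1) := by omega
  have k2 : (e.2 = 2 * (y0 + t.2) ∧ 2 * (a + t.1) ≤ e.1 ∨ e.1 = 2 * (x1 + t.1) ∨
      e.2 = 2 * (y1 + t.2) ∧ 2 * (b + t.1) ≤ e.1) ↔
      (e.2 - 2 * t.2 = 2 * y0 ∧ 2 * a ≤ e.1 - 2 * t.1 ∨ e.1 - 2 * t.1 = 2 * x1 ∨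
      e.2 - 2 * t.2 = 2 * y1 ∧ 2 * b ≤ e.1 - 2 * t.1) := by omega
  rw [k1, k2]

lemma leave_tr {B ω : Finset (ℤ × ℤ)} {c : ℤ × ℤ} :
    Leave (B.map (syT t).G) (ω.map (syT t).G) (tr t c) ↔ Leave B ω c := by
  unfold Leave
  apply exists_congr
  intro j
  rw [nx_tr_iter, lab_tr, mem_map_tr]

lemma leave_inter {B ω : Finset (ℤ × ℤ)} {c : ℤ × ℤ} : Leave B ω c ↔ Leave B (ω ∩ B) c := by
  refine (local_UU (B := B) (ω := ω ∩ B) (ω1 := ω) (c := c) ?_).2.2.2.2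
  intro e he
  have := (StrandAux.mem_UU.1 he).1
  rw [mem_inter]
  tauto

lemma Pr_leave (v : ℤ × ℤ) (d : ℤ) (i : Fin 4) :
    Pr (Bx (v.1 - d) (v.1 + d) (v.2 - d) (v.2 + d))
      (fun ω => Leave (Bx (v.1 - d) (v.1 + d) (v.2 - d) (v.2 + d)) ω (crn v i)) =
    Pr (BB d) (fun ω => Leave (BB d) ω (crn (0, 0) i)) := by
  have hB : (BB d).map (syT v).G = Bx (v.1 - d) (v.1 + d) (v.2 - d) (v.2 + d) := by
    ext e
    rw [mem_map_G]
    unfold BB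
    rw [mem_Bx, mem_Bx]
    simp only
    omega
  have hc : crn v i = tr v (crn (0, 0) i) := by
    unfold crn tr
    fin_cases i <;> refine Prod.ext ?_ ?_ <;> simp <;> ring
  rw [← hB, Pr_map, hc]
  exact Pr_congr fun ω _ => leave_tr v

lemma vx_crn (v : ℤ × ℤ) (i : Fin 4) : vx (crn v i) = v := by
  unfold vx crn
  fin_cases i <;> simp <;> refine Prod.ext ?_ ?_ <;> simp only <;> omega

lemma sum_leave (d : ℤ) : ∑ i, Pr (BB d) (fun ω => Leave (BB d) ω (crn (0, 0) i)) = aa d := by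
  rw [Fin.sum_univ_four]
  unfold aa
  rfl

end ShiftAux

open ShiftAux

theorem vis_shift {x0 x1 y0 y1 a b : ℤ} {ω : Finset (ℤ × ℤ)} {c t : ℤ × ℤ} :
    Vis (x0 + t.1) (x1 + t.1) (y0 + t.2) (y1 + t.2) (a + t.1) (b + t.1) (ω.map (syT t).G)
      (c.1 + 2 * t.1, c.2 + 2 * t.2) ↔ Vis x0 x1 y0 y1 a b ω c := by
  unfold Vis
  rw [wire_tr]
  have e1 : ((2 * (a + t.1), 2 * (y0 + t.2)) : ℤ × ℤ) = tr t (2 * a, 2 * y0) := by
    unfold tr; refine Prod.ext ?_ ?_ <;> simp only <;> ring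
  have e2 : ((2 * (b + t.1), 2 * (y1 + t.2) + 1) : ℤ × ℤ) = tr t (2 * b, 2 * y1 + 1) := by
    unfold tr; refine Prod.ext ?_ ?_ <;> simp only <;> ring
  have e3 : ((c.1 + 2 * t.1, c.2 + 2 * t.2) : ℤ × ℤ) = tr t c := rfl
  rw [e1, e2, e3]
  simp only [pv_tr_iter, tr_inj, ne_eq]

namespace ShiftAux

/-- the upper bound, with the statement of `vis_leave` as a hypothesis -/
theorem vis_le_aa_of {x0 x1 y0 y1 a b : ℤ} {v : ℤ × ℤ} {d : ℤ}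
    (hd1 : x0 < v.1 - d ∧ v.1 + d < x1) (hd2 : y0 < v.2 - d ∧ v.2 + d < y1)
    (H : ∀ (ω : Finset (ℤ × ℤ)) (c : ℤ × ℤ), vx c = v → Vis x0 x1 y0 y1 a b ω c →
      Leave (Bx (v.1 - d) (v.1 + d) (v.2 - d) (v.2 + d)) ω c) :
    ∑ i, Pr (Bx x0 x1 y0 y1) (fun ω => Vis x0 x1 y0 y1 a b ω (crn v i)) ≤ aa d := by
  rw [← sum_leave d]
  apply Finset.sum_le_sum
  intro i _
  rw [← Pr_leave v d i]
  have hsub : Bx (v.1 - d) (v.1 + d) (v.2 - d) (v.2 + d) ⊆ Bx x0 x1 y0 y1 :=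
    Bx_sub (by omega) (by omega) (by omega) (by omega)
  rw [← Pr_restrict hsub]
  refine Pr_mono fun ω _ h => ?_
  exact leave_inter.1 (H ω _ (vx_crn v i) h)

end ShiftAux

/-- upper bound for the expected number of visited corners at `v` -/
theorem vis_le_aa {x0 x1 y0 y1 a b : ℤ} (hx : x0 < x1) (hy : y0 < y1) (ha : x0 ≤ a ∧ a ≤ x1)
    (hb : x0 ≤ b ∧ b ≤ x1) {v : ℤ × ℤ} {d : ℤ} (hd : 1 ≤ d)
    (hd1 : x0 < v.1 - d ∧ v.1 + d < x1) (hd2 : y0 < v.2 - d ∧ v.2 + d < y1) :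
    ∑ i, Pr (Bx x0 x1 y0 y1) (fun ω => Vis x0 x1 y0 y1 a b ω (crn v i)) ≤ aa d :=
  ShiftAux.vis_le_aa_of hd1 hd2 (fun ω c hc h => by
    subst hc
    exact vis_leave hx hy ha hb (by omega) hd1 hd2 h)

end Pool.Agent.H75.TwoArm
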