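import Pool.Agent.H75.TwoArm.PathSum0
import Pool.Agent.H75.TwoArm.PathShift
import Pool.Agent.H75.TwoArm.Corr

set_option autoImplicit false
open Finset

/-! The expected number of visited corners is of order `n ^ (7 / 4)`. -/

namespace Pool.Agent.H75.TwoArm

open Pool.Agent.H75.Perc

theorem EV_bounds {c1 C1 c2 : ℝ} (_hc1 : 0 < c1) (hC1 : 0 < C1) (hc2 : 0 < c2) (k : ℕ)
    (haa : ∀ r : ℤ, 1 ≤ r → aa r ≤ C1 * (r : ℝ) ^ (-(1 / 4 : ℝ)))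
    (hgg : ∀ w : ℤ, 1 ≤ w → c2 * (w : ℝ) ^ (-(1 / 4 : ℝ)) ≤ gg (4 ^ k * w) (4 ^ k * (4 ^ k * w)) w)
    (K : ℕ) :
    ∃ c C : ℝ, 0 < c ∧ 0 < C ∧ ∀ m n a b : ℕ, 1 ≤ m → 1 ≤ n → m ≤ K * n → n ≤ K * m →
      a ≤ m → b ≤ m →
      c * (n : ℝ) ^ (7 / 4 : ℝ) ≤ EV m n a b ∧ EV m n a b ≤ C * (n : ℝ) ^ (7 / 4 : ℝ) :=
  EV_bounds_of vis_shift vis_le_aa vis_lower0 hC1 hc2 k haa hgg K

end Pool.Agent.H75.TwoArm
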