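import Mathlib
import Pool.Agent.H75.TwoArm.Rec
import Pool.Agent.H75.TwoArm.ExpoCore
import Pool.Agent.H75.TwoArm.PathSum
import Pool.Agent.H75.TwoArm.PathLen
import Pool.Agent.H75.TwoArm.Plane
import Pool.Agent.H65.Two.Defs
import Pool.Agent.H98.Izer.Asym3

set_option autoImplicit false
open Finset

/-! Final assembly of the two-arm exponent and of the length of the exploration path, from the
comparison with the cylinder. -/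

namespace Pool.Agent.H75.TwoArm

open Pool.Agent.H75.Perc
open Pool.Agent.H65.Perc (PConf planeMeasure)
open Pool.Agent.H98.Izer (rR rR_bounds)
open Pool.Agent.H65.Two (TwoWinds)
open Pool.Agent.H63.Bulk (bulkMeasure)
open MeasureTheory
open scoped ENNReal

namespace FinAux

lemma gg_anti_w {r L w w' : ℤ} (h : w ≤ w') : gg r L w' ≤ gg r L w := by
  unfold gg
  have h1 : ∀ c : ℤ × ℤ, Pr (BB (2 * L)) (fun ω => Good r L w' ω c) ≤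
      Pr (BB (2 * L)) (fun ω => Good r L w ω c) := by
    intro c
    apply Pr_mono
    rintro ω _ ⟨y1, y2, a1, a2, a3, a4⟩
    exact ⟨y1, y2, a1, a2, a3, h.trans a4⟩
  have := h1 (0, 0)
  have := h1 (1, 0)
  have := h1 (0, 1)
  have := h1 (1, 1)
  linarith

lemma gg_le_four (r L w : ℤ) : gg r L w ≤ 4 := by
  unfold gg
  have h1 := Pr_le_one (BB (2 * L)) (fun ω => Good r L w ω (0, 0))
  have h2 := Pr_le_one (BB (2 * L)) (fun ω => Good r L w ω (1, 0))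
  have h3 := Pr_le_one (BB (2 * L)) (fun ω => Good r L w ω (0, 1))
  have h4 := Pr_le_one (BB (2 * L)) (fun ω => Good r L w ω (1, 1))
  linarith

end FinAux

open FinAux

/-- (H1) from the cylinder. -/
theorem gg_upper
    (law : ∀ n : ℕ, 1 ≤ n → ((bulkMeasure n) {ω | TwoWinds n ω}).toReal = rR n)
    (C3 : ∀ K : ℤ, ∃ C : ℝ, ∀ s r L : ℤ, 1 ≤ s → 16 * s ≤ r → r ≤ L → L ≤ K * s → ∀ n : ℕ,
      (n : ℤ) = 64 * L → gg r L (16 * s) ≤ C * ((bulkMeasure n) {ω | TwoWinds n ω}).toReal) :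
    ∀ k : ℕ, ∃ C : ℝ, ∀ w : ℤ, 1 ≤ w →
      gg (4 ^ k * w) (4 ^ k * (4 ^ k * w)) w ≤ C * (w : ℝ) ^ (-(1 / 4 : ℝ)) := by
  intro k
  obtain ⟨c0, C0, hc0, hC0, hb⟩ := rR_bounds
  have h4k : (1 : ℤ) ≤ 4 ^ k := one_le_pow₀ (by norm_num)
  obtain ⟨C, hC⟩ := C3 (31 * (4 ^ k * 4 ^ k))
  refine ⟨max 8 (|C| * C0), ?_⟩
  intro w hw
  have hw' : (1 : ℝ) ≤ (w : ℝ) := by exact_mod_cast hw
  have hpos : (0 : ℝ) < (w : ℝ) ^ (-(1 / 4 : ℝ)) := Real.rpow_pos_of_pos (by linarith) _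
  rcases lt_or_ge w 16 with hlt | hge
  · have h1 : (1 / 2 : ℝ) ≤ (w : ℝ) ^ (-(1 / 4 : ℝ)) := by
      have h2 : (16 : ℝ) ^ (-(1 / 4 : ℝ)) ≤ (w : ℝ) ^ (-(1 / 4 : ℝ)) := by
        apply Real.rpow_le_rpow_of_nonpos (by linarith) _ (by norm_num)
        have : (w : ℝ) < 16 := by exact_mod_cast hlt
        exact this.le
      have h3 : (16 : ℝ) ^ (-(1 / 4 : ℝ)) = 1 / 2 := by
        rw [show (16 : ℝ) = 2 ^ (4 : ℝ) by norm_num, ← Real.rpow_mul (by norm_num)]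
        rw [show (4 : ℝ) * -(1 / 4) = -1 by norm_num, Real.rpow_neg_one]
        norm_num
      linarith
    have h4 := gg_le_four (4 ^ k * w) (4 ^ k * (4 ^ k * w)) w
    have h5 : (8 : ℝ) ≤ max 8 (|C| * C0) := le_max_left _ _
    nlinarith
  · obtain ⟨s, hs⟩ : ∃ s : ℤ, s = w / 16 := ⟨_, rfl⟩
    have hs1 : 1 ≤ s := by omega
    have hs2 : 16 * s ≤ w := by omega
    have hs3 : w ≤ 31 * s := by omega
    set r : ℤ := 4 ^ k * w with hr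
    set L : ℤ := 4 ^ k * r with hL
    have hr1 : w ≤ r := by nlinarith
    have hL1 : r ≤ L := by nlinarith
    have hL2 : L ≤ 31 * (4 ^ k * 4 ^ k) * s := by
      have : L = (4 ^ k * 4 ^ k) * w := by rw [hL, hr]; ring
      rw [this]
      have h7 : (0 : ℤ) ≤ 4 ^ k * 4 ^ k := by positivity
      nlinarith
    have h1 := hC s r L hs1 (by omega) hL1 hL2 (64 * L).toNat (by omega)
    rw [law _ (by omega)] at h1
    have h2 := (hb (64 * L).toNat (by omega)).2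
    have h3 : gg r L w ≤ gg r L (16 * s) := gg_anti_w hs2
    have hR0 : 0 ≤ rR (64 * L).toNat := by
      have := (hb (64 * L).toNat (by omega)).1
      have h8 : 0 ≤ c0 * (((64 * L).toNat : ℕ) : ℝ) ^ (-(1 / 4) : ℝ) := by positivity
      linarith
    have h4 : (((64 * L).toNat : ℕ) : ℝ) ^ (-(1 / 4) : ℝ) ≤ (w : ℝ) ^ (-(1 / 4 : ℝ)) := by
      apply Real.rpow_le_rpow_of_nonpos (by linarith) _ (by norm_num)
      have h9 : w ≤ (((64 * L).toNat : ℕ) : ℤ) := by omega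
      exact_mod_cast h9
    calc gg r L w ≤ C * rR (64 * L).toNat := h3.trans h1
      _ ≤ |C| * rR (64 * L).toNat := mul_le_mul_of_nonneg_right (le_abs_self C) hR0
      _ ≤ |C| * (C0 * (w : ℝ) ^ (-(1 / 4 : ℝ))) := by
          apply mul_le_mul_of_nonneg_left _ (abs_nonneg C)
          exact h2.trans (mul_le_mul_of_nonneg_left h4 hC0.le)
      _ = (|C| * C0) * (w : ℝ) ^ (-(1 / 4 : ℝ)) := by ring
      _ ≤ max 8 (|C| * C0) * (w : ℝ) ^ (-(1 / 4 : ℝ)) :=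
          mul_le_mul_of_nonneg_right (le_max_right _ _) hpos.le

/-- (H2) from the cylinder. -/
theorem aa_lower
    (law : ∀ n : ℕ, 1 ≤ n → ((bulkMeasure n) {ω | TwoWinds n ω}).toReal = rR n)
    (up : ∀ {n : ℕ} {r : ℤ}, 1 ≤ r → 4 * r + 20 ≤ n →
      ((bulkMeasure n) {ω | TwoWinds n ω}).toReal ≤ aa r) :
    ∃ c : ℝ, 0 < c ∧ ∀ r : ℤ, 1 ≤ r → c * (r : ℝ) ^ (-(1 / 4 : ℝ)) ≤ aa r := by
  obtain ⟨c0, C0, hc0, hC0, hb⟩ := rR_bounds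
  refine ⟨c0 * (24 : ℝ) ^ (-(1 / 4 : ℝ)), by positivity, ?_⟩
  intro r hr
  have hr' : (1 : ℝ) ≤ (r : ℝ) := by exact_mod_cast hr
  have h1 := up (n := (4 * r + 20).toNat) hr (by omega)
  rw [law _ (by omega)] at h1
  have h2 := (hb (4 * r + 20).toNat (by omega)).1
  refine le_trans ?_ (h2.trans h1)
  rw [mul_assoc, ← Real.mul_rpow (by norm_num) (by linarith)]
  apply mul_le_mul_of_nonneg_left _ hc0.le
  apply Real.rpow_le_rpow_of_nonpos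
  · have : (0 : ℤ) < (((4 * r + 20).toNat : ℕ) : ℤ) := by omega
    exact_mod_cast this
  · have : (((4 * r + 20).toNat : ℕ) : ℤ) ≤ 24 * r := by omega
    exact_mod_cast this
  · norm_num

/-- The exponents of `aa` and `gg`. -/
theorem exponents
    (law : ∀ n : ℕ, 1 ≤ n → ((bulkMeasure n) {ω | TwoWinds n ω}).toReal = rR n)
    (up : ∀ {n : ℕ} {r : ℤ}, 1 ≤ r → 4 * r + 20 ≤ n →
      ((bulkMeasure n) {ω | TwoWinds n ω}).toReal ≤ aa r)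
    (C3 : ∀ K : ℤ, ∃ C : ℝ, ∀ s r L : ℤ, 1 ≤ s → 16 * s ≤ r → r ≤ L → L ≤ K * s → ∀ n : ℕ,
      (n : ℤ) = 64 * L → gg r L (16 * s) ≤ C * ((bulkMeasure n) {ω | TwoWinds n ω}).toReal) :
    (∃ c1 : ℝ, 0 < c1 ∧ ∀ r : ℤ, 1 ≤ r → c1 * (r : ℝ) ^ (-(1 / 4 : ℝ)) ≤ aa r) ∧
    (∃ C1 : ℝ, 0 < C1 ∧ ∀ r : ℤ, 1 ≤ r → aa r ≤ C1 * (r : ℝ) ^ (-(1 / 4 : ℝ))) ∧
    ∃ (k : ℕ) (c2 : ℝ), 0 < c2 ∧ ∀ w : ℤ, 1 ≤ w →
      c2 * (w : ℝ) ^ (-(1 / 4 : ℝ)) ≤ gg (4 ^ k * w) (4 ^ k * (4 ^ k * w)) w :=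
  ⟨aa_lower law up, exponents_of_rec recursion (gg_upper law C3) (aa_lower law up)⟩

/-- The expected length of the exploration path. -/
theorem length_of
    (E : (∃ c1 : ℝ, 0 < c1 ∧ ∀ r : ℤ, 1 ≤ r → c1 * (r : ℝ) ^ (-(1 / 4 : ℝ)) ≤ aa r) ∧
    (∃ C1 : ℝ, 0 < C1 ∧ ∀ r : ℤ, 1 ≤ r → aa r ≤ C1 * (r : ℝ) ^ (-(1 / 4 : ℝ))) ∧
    ∃ (k : ℕ) (c2 : ℝ), 0 < c2 ∧ ∀ w : ℤ, 1 ≤ w →
      c2 * (w : ℝ) ^ (-(1 / 4 : ℝ)) ≤ gg (4 ^ k * w) (4 ^ k * (4 ^ k * w)) w) (K : ℕ) :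
    ∃ c C : ℝ, 0 < c ∧ 0 < C ∧ ∀ m n a b : ℕ, 1 ≤ m → 1 ≤ n → m ≤ K * n → n ≤ K * m →
      a ≤ m → b ≤ m →
      ENNReal.ofReal (c * (n : ℝ) ^ (7 / 4 : ℝ)) ≤ ∫⁻ ω, pathLen m n a b ω ∂planeMeasure ∧
      ∫⁻ ω, pathLen m n a b ω ∂planeMeasure ≤ ENNReal.ofReal (C * (n : ℝ) ^ (7 / 4 : ℝ)) := by
  obtain ⟨_, ⟨C1, hC1, hC⟩, k, c2, hc2, hg⟩ := E
  obtain ⟨c, C, hc, hC', h⟩ := EV_bounds one_pos hC1 hc2 k hC hg K
  refine ⟨c, C, hc, hC', ?_⟩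
  intro m n a b hm hn h1 h2 ha hb
  have h3 := h m n a b hm hn h1 h2 ha hb
  rw [lintegral_pathLen hm hn ha hb]
  exact ⟨ENNReal.ofReal_le_ofReal h3.1, ENNReal.ofReal_le_ofReal h3.2⟩

/-- The two-arm probability in the plane. -/
theorem twoArm_of
    (E : (∃ c1 : ℝ, 0 < c1 ∧ ∀ r : ℤ, 1 ≤ r → c1 * (r : ℝ) ^ (-(1 / 4 : ℝ)) ≤ aa r) ∧
    (∃ C1 : ℝ, 0 < C1 ∧ ∀ r : ℤ, 1 ≤ r → aa r ≤ C1 * (r : ℝ) ^ (-(1 / 4 : ℝ))) ∧
    ∃ (k : ℕ) (c2 : ℝ), 0 < c2 ∧ ∀ w : ℤ, 1 ≤ w →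
      c2 * (w : ℝ) ^ (-(1 / 4 : ℝ)) ≤ gg (4 ^ k * w) (4 ^ k * (4 ^ k * w)) w) :
    ∃ c C : ℝ, 0 < c ∧ 0 < C ∧ ∀ r : ℕ, 1 ≤ r →
      c * (r : ℝ) ^ (-(1 / 4 : ℝ)) ≤ (planeMeasure {ω | TwoArm r ω}).toReal ∧
      (planeMeasure {ω | TwoArm r ω}).toReal ≤ C * (r : ℝ) ^ (-(1 / 4 : ℝ)) := by
  obtain ⟨⟨c1, hc1, h1⟩, ⟨C1, hC1, h2⟩, _⟩ := E
  exact twoArm_bounds hc1 hC1 h1 h2

end Pool.Agent.H75.TwoArm
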