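import Mathlib
import Pool.Agent.H75.TwoArm.Defs
import Pool.Agent.H75.TwoArm.Strand
import Pool.Agent.H75.TwoArm.Track
import Pool.Agent.H75.TwoArm.HookCore

set_option autoImplicit false
open Finset

/-! Hooking the ends of the two strands to paths of fresh edges (TA6). -/

namespace Pool.Agent.H75.TwoArm

open Pool.Agent.H75.Perc

theorem hook_open {r L s X y1 y2 : ℤ} (hr : 1 ≤ r) (hL : r ≤ L) (hs : 1 ≤ s) (hsr : 2 * s ≤ r)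
    (hX : r + 1 ≤ X) (hy : 2 * s + 2 ≤ |y1 - y2|) (hyL : |y1| + 2 * s ≤ L)
    {ω ω' : Finset (ℤ × ℤ)} {c : ℤ × ℤ} (hc : C0 c) (h : East r L ω c y1 y2) {p q : ℤ × ℤ}
    (hp : inB (r - 2 * s) X (y1 + s) (y1 + 2 * s) p) (hp1 : p.1 = r - 2 * s) (hq1 : q.1 = X)
    (hpq : Co (ω' ∩ Bx (r - 2 * s) X (y1 + s) (y1 + 2 * s)) p q)
    (h2 : VC (r - 2 * s) (r - s) (y1 - 2 * s) (y1 + 2 * s) ω')
    (h3 : HC (r - 2 * s) (r + 1) (y1 - 2 * s) (y1 - s) ω') :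
    Co (mix (UU (BE r L) ω c) ω ω') (vx c) q := by
  obtain ⟨S, hT⟩ := exists_TC hr hL hc h
  exact HookAux.hook_open_core hr hL hs hsr hX hy hyL hT (fun z hz => (Str_co hz).1) hp hp1 hq1
    hpq h2 h3

theorem hook_dual {r L s X y1 y2 : ℤ} (hr : 1 ≤ r) (hL : r ≤ L) (hs : 1 ≤ s) (hsr : 2 * s ≤ r)
    (hX : r + 2 ≤ X) (hy : 2 * s + 4 ≤ |y1 - y2|) (hyL : |y2| + 2 * s + 1 ≤ L)
    {E ω ω' : Finset (ℤ × ℤ)} (hE : BE r L ⊆ E) {c : ℤ × ℤ} (hc : C0 c)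
    (h : East r L ω c y1 y2) {p q : ℤ × ℤ}
    (hp : inB (r + 1 - 2 * s) X (y2 + 1 + s) (y2 + 1 + 2 * s) p) (hp1 : p.1 = r + 1 - 2 * s)
    (hq1 : q.1 = X)
    (hpq : Co (du E ω' ∩ Bx (r + 1 - 2 * s) X (y2 + 1 + s) (y2 + 1 + 2 * s)) p q)
    (h2 : VC (r + 1 - 2 * s) (r + 1 - s) (y2 + 1 - 2 * s) (y2 + 1 + 2 * s) (du E ω'))
    (h3 : HC (r + 1 - 2 * s) (r + 2) (y2 + 1 - 2 * s) (y2 + 1 - s) (du E ω')) :
    Co (du E (mix (UU (BE r L) ω c) ω ω')) (fi c) q := by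
  obtain ⟨S, hT⟩ := exists_TC hr hL hc h
  exact HookAux.hook_dual_core hr hL hs hsr hX hy hyL hE hT (fun z hz => (Str_co hz).2) hp hp1 hq1
    hpq h2 h3

end Pool.Agent.H75.TwoArm
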