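import Pool.Agent.H75.TwoArm.EVDef

set_option autoImplicit false
open Finset

/-! Summation over the rectangle: the expected number of visited corners, from the bounds for one
vertex. -/

namespace Pool.Agent.H75.TwoArm

open Pool.Agent.H75.Perc

namespace Ps98

/-- number of the quadrant of a corner -/
def qd (c : ℤ × ℤ) : Fin 4 :=
  if c.2 % 2 = 0 then (if c.1 % 2 = 0 then 0 else 1) else (if c.1 % 2 = 0 then 2 else 3)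

lemma crn_eq (v : ℤ × ℤ) : crn v 0 = (2 * v.1, 2 * v.2) ∧ crn v 1 = (2 * v.1 + 1, 2 * v.2) ∧
    crn v 2 = (2 * v.1, 2 * v.2 + 1) ∧ crn v 3 = (2 * v.1 + 1, 2 * v.2 + 1) := ⟨rfl, rfl, rfl, rfl⟩

lemma crn_bd (v : ℤ × ℤ) (i : Fin 4) : (2 * v.1 ≤ (crn v i).1 ∧ (crn v i).1 ≤ 2 * v.1 + 1) ∧
    (2 * v.2 ≤ (crn v i).2 ∧ (crn v i).2 ≤ 2 * v.2 + 1) := by
  obtain ⟨h0, h1, h2, h3⟩ := crn_eq v
  fin_cases i
  · simp only [Fin.zero_eta]; rw [h0]; simp only; omega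
  · simp only [Fin.mk_one]; rw [h1]; simp only; omega
  · simp only [Fin.reduceFinMk]; rw [h2]; simp only; omega
  · simp only [Fin.reduceFinMk]; rw [h3]; simp only; omega

lemma crn_qd (c : ℤ × ℤ) : crn (c.1 / 2, c.2 / 2) (qd c) = c := by
  obtain ⟨h0, h1, h2, h3⟩ := crn_eq (c.1 / 2, c.2 / 2)
  unfold qd
  split_ifs with g1 g2 g2
  · rw [h0]; refine Prod.ext ?_ ?_ <;> simp only <;> omega
  · rw [h1]; refine Prod.ext ?_ ?_ <;> simp only <;> omega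
  · rw [h2]; refine Prod.ext ?_ ?_ <;> simp only <;> omega
  · rw [h3]; refine Prod.ext ?_ ?_ <;> simp only <;> omega

lemma qd_crn (v : ℤ × ℤ) (i : Fin 4) : qd (crn v i) = i := by
  obtain ⟨h0, h1, h2, h3⟩ := crn_eq v
  fin_cases i
  · simp only [Fin.zero_eta]; rw [h0]; unfold qd; simp only; rw [if_pos (by omega), if_pos (by omega)]
  · simp only [Fin.mk_one]; rw [h1]; unfold qd; simp only; rw [if_pos (by omega), if_neg (by omega)]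
  · simp only [Fin.reduceFinMk]; rw [h2]; unfold qd; simp only; rw [if_neg (by omega), if_pos (by omega)]
  · simp only [Fin.reduceFinMk]; rw [h3]; unfold qd; simp only; rw [if_neg (by omega), if_neg (by omega)]

lemma sum_crn (m n : ℕ) (F : ℤ × ℤ → ℝ) :
    ∑ c ∈ (Icc (0 : ℤ) (2 * m + 1)) ×ˢ (Icc (0 : ℤ) (2 * n + 1)), F c =
      ∑ v ∈ (Icc (0 : ℤ) m) ×ˢ (Icc (0 : ℤ) n), ∑ i : Fin 4, F (crn v i) := by
  rw [← Finset.sum_product' (f := fun v i => F (crn v i))]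
  refine Finset.sum_nbij' (fun c => ((c.1 / 2, c.2 / 2), qd c)) (fun p => crn p.1 p.2) ?_ ?_ ?_ ?_ ?_
  · intro c hc
    rw [mem_product, mem_Icc, mem_Icc] at hc
    simp only [mem_product, mem_Icc, mem_univ, and_true]
    omega
  · intro p hp
    simp only [mem_product, mem_Icc, mem_univ, and_true] at hp
    have := crn_bd p.1 p.2
    rw [mem_product, mem_Icc, mem_Icc]
    omega
  · intro c _
    exact crn_qd c
  · intro p _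
    refine Prod.ext ?_ ?_
    · have := crn_bd p.1 p.2
      refine Prod.ext ?_ ?_ <;> simp only <;> omega
    · exact qd_crn p.1 p.2
  · intro c _
    rw [crn_qd c]

lemma int_sum (N : ℕ) (f : ℤ → ℝ) : ∑ j ∈ Icc (0 : ℤ) N, f j = ∑ k ∈ range (N + 1), f k := by
  refine Finset.sum_nbij' (fun j => j.toNat) (fun k => (k : ℤ)) ?_ ?_ ?_ ?_ ?_
  · intro j hj
    rw [mem_Icc] at hj
    rw [mem_range]; omega
  · intro k hk
    rw [mem_range] at hk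
    rw [mem_Icc]; omega
  · intro j hj
    rw [mem_Icc] at hj
    omega
  · intro k _
    simp
  · intro j hj
    rw [mem_Icc] at hj
    congr 1; omega

lemma int_sum_rev (N : ℕ) (f : ℤ → ℝ) : ∑ j ∈ Icc (0 : ℤ) N, f (N - j) = ∑ j ∈ Icc (0 : ℤ) N, f j := by
  refine Finset.sum_nbij' (fun j => N - j) (fun j => N - j) ?_ ?_ ?_ ?_ ?_
  · intro j hj
    rw [mem_Icc] at hj ⊢
    omega
  · intro j hj
    rw [mem_Icc] at hj ⊢
    omega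
  · intro j _; omega
  · intro j _; omega
  · intro j _; rfl

lemma pow_step (x : ℝ) (hx : 0 ≤ x) :
    2 * x ^ (3 / 4 : ℝ) + (x + 1) ^ (-(1 / 4 : ℝ)) ≤ 2 * (x + 1) ^ (3 / 4 : ℝ) := by
  have h1 := Real.geom_mean_le_arith_mean2_weighted (w₁ := 3 / 4) (w₂ := 1 / 4) (p₁ := x)
    (p₂ := x + 1) (by norm_num) (by norm_num) hx (by linarith) (by norm_num)
  have h2 : 0 < (x + 1) ^ (-(1 / 4 : ℝ)) := Real.rpow_pos_of_pos (by linarith) _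
  have h3 : (x + 1) ^ (1 / 4 : ℝ) * (x + 1) ^ (-(1 / 4 : ℝ)) = 1 := by
    rw [← Real.rpow_add (by linarith)]; norm_num
  have h4 : (x + 1) ^ (3 / 4 : ℝ) = (x + 1) * (x + 1) ^ (-(1 / 4 : ℝ)) := by
    nth_rewrite 2 [← Real.rpow_one (x + 1)]
    rw [← Real.rpow_add (by linarith)]; norm_num
  have h5 : x ^ (3 / 4 : ℝ) ≤ (x + 1 / 4) * (x + 1) ^ (-(1 / 4 : ℝ)) := by
    calc x ^ (3 / 4 : ℝ) = x ^ (3 / 4 : ℝ) * (x + 1) ^ (1 / 4 : ℝ) * (x + 1) ^ (-(1 / 4 : ℝ)) := by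
          rw [mul_assoc, h3, mul_one]
      _ ≤ (3 / 4 * x + 1 / 4 * (x + 1)) * (x + 1) ^ (-(1 / 4 : ℝ)) :=
          mul_le_mul_of_nonneg_right h1 h2.le
      _ = _ := by ring
  rw [h4]
  nlinarith

lemma pow_sum (N : ℕ) :
    ∑ j ∈ Icc (0 : ℤ) N, ((j : ℝ) + 1) ^ (-(1 / 4 : ℝ)) ≤ 2 * ((N : ℝ) + 1) ^ (3 / 4 : ℝ) := by
  rw [int_sum N (fun j => ((j : ℝ) + 1) ^ (-(1 / 4 : ℝ)))]
  induction N with
  | zero =>
    simp
  | succ N ih =>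
    rw [sum_range_succ]
    have := pow_step ((N : ℝ) + 1) (by positivity)
    push_cast at ih this ⊢
    linarith

lemma pow_sum_rev (N : ℕ) :
    ∑ j ∈ Icc (0 : ℤ) N, (((N : ℝ) - (j : ℝ)) + 1) ^ (-(1 / 4 : ℝ)) ≤ 2 * ((N : ℝ) + 1) ^ (3 / 4 : ℝ) := by
  have := int_sum_rev N (fun j => ((j : ℝ) + 1) ^ (-(1 / 4 : ℝ)))
  push_cast at this
  rw [this]
  exact pow_sum N

/-- comparison of two powers -/
lemma pow_cmp {x y t : ℝ} (hy : 0 < y) (ht : 1 ≤ t) (h : y / t ≤ x) :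
    x ^ (-(1 / 4 : ℝ)) ≤ t * y ^ (-(1 / 4 : ℝ)) := by
  have h1 : x ^ (-(1 / 4 : ℝ)) ≤ (y / t) ^ (-(1 / 4 : ℝ)) :=
    Real.rpow_le_rpow_of_nonpos (by positivity) h (by norm_num)
  have h2 : (y / t) ^ (-(1 / 4 : ℝ)) = y ^ (-(1 / 4 : ℝ)) * t ^ (1 / 4 : ℝ) := by
    rw [Real.div_rpow hy.le (by linarith), Real.rpow_neg (by linarith : (0:ℝ) ≤ t), div_inv_eq_mul]
  have h3 : t ^ (1 / 4 : ℝ) ≤ t := by
    calc t ^ (1 / 4 : ℝ) ≤ t ^ (1 : ℝ) := Real.rpow_le_rpow_of_exponent_le ht (by norm_num)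
      _ = t := Real.rpow_one t
  have h4 : 0 ≤ y ^ (-(1 / 4 : ℝ)) := Real.rpow_nonneg hy.le _
  calc x ^ (-(1 / 4 : ℝ)) ≤ y ^ (-(1 / 4 : ℝ)) * t ^ (1 / 4 : ℝ) := by rw [← h2]; exact h1
    _ ≤ y ^ (-(1 / 4 : ℝ)) * t := mul_le_mul_of_nonneg_left h3 h4
    _ = _ := mul_comm _ _

lemma sum_le_four (m n a b : ℕ) (v : ℤ × ℤ) :
    ∑ i, Pr (Bx 0 m 0 n) (fun ω => Vis 0 m 0 n a b ω (crn v i)) ≤ 4 := by
  calc ∑ i, Pr (Bx 0 m 0 n) (fun ω => Vis 0 m 0 n a b ω (crn v i)) ≤ ∑ _i : Fin 4, (1 : ℝ) :=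
        Finset.sum_le_sum fun i _ => Pr_le_one _ _
    _ = 4 := by simp

/-- bound at one vertex -/
lemma up_v {C1 : ℝ} (hC1 : 0 < C1)
    (haa : ∀ r : ℤ, 1 ≤ r → aa r ≤ C1 * (r : ℝ) ^ (-(1 / 4 : ℝ)))
    (H2 : ∀ {x0 x1 y0 y1 a b : ℤ} (_ : x0 < x1) (_ : y0 < y1) (_ : x0 ≤ a ∧ a ≤ x1)
      (_ : x0 ≤ b ∧ b ≤ x1) {v : ℤ × ℤ} {d : ℤ} (_ : 1 ≤ d)
      (_ : x0 < v.1 - d ∧ v.1 + d < x1) (_ : y0 < v.2 - d ∧ v.2 + d < y1),
      ∑ i, Pr (Bx x0 x1 y0 y1) (fun ω => Vis x0 x1 y0 y1 a b ω (crn v i)) ≤ aa d)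
    {m n a b : ℕ} (hm : 1 ≤ m) (hn : 1 ≤ n) (ha : a ≤ m) (hb : b ≤ m) {v : ℤ × ℤ}
    (hv : v ∈ (Icc (0 : ℤ) m) ×ˢ (Icc (0 : ℤ) n)) :
    ∑ i, Pr (Bx 0 m 0 n) (fun ω => Vis 0 m 0 n a b ω (crn v i)) ≤
      (8 + 3 * C1) * ((((v.1 : ℝ) + 1) ^ (-(1 / 4 : ℝ)) + (((m : ℝ) - (v.1 : ℝ)) + 1) ^ (-(1 / 4 : ℝ))) +
        (((v.2 : ℝ) + 1) ^ (-(1 / 4 : ℝ)) + (((n : ℝ) - (v.2 : ℝ)) + 1) ^ (-(1 / 4 : ℝ)))) := by
  rw [mem_product, mem_Icc, mem_Icc] at hv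
  obtain ⟨⟨g1, g2⟩, g3, g4⟩ := hv
  have g1' : (0 : ℝ) ≤ (v.1 : ℝ) := by exact_mod_cast g1
  have g2' : (v.1 : ℝ) ≤ m := by exact_mod_cast g2
  have g3' : (0 : ℝ) ≤ (v.2 : ℝ) := by exact_mod_cast g3
  have g4' : (v.2 : ℝ) ≤ n := by exact_mod_cast g4
  have p1 : 0 ≤ ((v.1 : ℝ) + 1) ^ (-(1 / 4 : ℝ)) := Real.rpow_nonneg (by linarith) _
  have p2 : 0 ≤ (((m : ℝ) - (v.1 : ℝ)) + 1) ^ (-(1 / 4 : ℝ)) := Real.rpow_nonneg (by linarith) _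
  have p3 : 0 ≤ ((v.2 : ℝ) + 1) ^ (-(1 / 4 : ℝ)) := Real.rpow_nonneg (by linarith) _
  have p4 : 0 ≤ (((n : ℝ) - (v.2 : ℝ)) + 1) ^ (-(1 / 4 : ℝ)) := Real.rpow_nonneg (by linarith) _
  obtain ⟨d, hd0, hd1, hd2, hd3, hd4, hd⟩ : ∃ d : ℤ, 0 ≤ d ∧ d ≤ v.1 ∧ d ≤ m - v.1 ∧ d ≤ v.2 ∧
      d ≤ n - v.2 ∧ (d = v.1 ∨ d = m - v.1 ∨ d = v.2 ∨ d = n - v.2) :=
    ⟨min (min v.1 (m - v.1)) (min v.2 (n - v.2)), by omega, by omega, by omega, by omega, by omega,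
      by omega⟩
  have key : ∑ i, Pr (Bx 0 m 0 n) (fun ω => Vis 0 m 0 n a b ω (crn v i)) ≤
      (8 + 3 * C1) * ((d : ℝ) + 1) ^ (-(1 / 4 : ℝ)) := by
    have hdr : (0 : ℝ) ≤ (d : ℝ) := by exact_mod_cast hd0
    have q0 : 0 ≤ ((d : ℝ) + 1) ^ (-(1 / 4 : ℝ)) := Real.rpow_nonneg (by linarith) _
    rcases le_or_gt d 1 with h | h
    · have h' : (d : ℝ) ≤ 1 := by exact_mod_cast h
      have e1 : (1 : ℝ) ≤ 2 * ((d : ℝ) + 1) ^ (-(1 / 4 : ℝ)) := by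
        have := pow_cmp (x := 1) (y := (d : ℝ) + 1) (t := 2) (by linarith) (by norm_num)
          (by linarith)
        rwa [Real.one_rpow] at this
      have e2 := sum_le_four m n a b v
      nlinarith
    · have h' : (2 : ℝ) ≤ (d : ℝ) := by exact_mod_cast h
      have e1 := H2 (x0 := 0) (x1 := m) (y0 := 0) (y1 := n) (a := a) (b := b) (by omega) (by omega)
        ⟨by omega, by omega⟩ ⟨by omega, by omega⟩ (v := v) (d := d - 1) (by omega)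
        ⟨by omega, by omega⟩ ⟨by omega, by omega⟩
      have e2 := haa (d - 1) (by omega)
      push_cast at e2
      have e3 := pow_cmp (x := (d : ℝ) - 1) (y := (d : ℝ) + 1) (t := 3) (by linarith) (by norm_num)
        (by linarith)
      have e4 : C1 * ((d : ℝ) - 1) ^ (-(1 / 4 : ℝ)) ≤ C1 * (3 * ((d : ℝ) + 1) ^ (-(1 / 4 : ℝ))) :=
        mul_le_mul_of_nonneg_left e3 hC1.le
      nlinarith
  refine key.trans (mul_le_mul_of_nonneg_left ?_ (by positivity))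
  rcases hd with h | h | h | h <;> rw [h] <;> push_cast <;> linarith

lemma rp1 {n : ℕ} (hn : 1 ≤ n) : (n : ℝ) * (n : ℝ) ^ (3 / 4 : ℝ) = (n : ℝ) ^ (7 / 4 : ℝ) := by
  have : (0 : ℝ) < n := by exact_mod_cast hn
  nth_rewrite 1 [← Real.rpow_one (n : ℝ)]
  rw [← Real.rpow_add this]; norm_num

lemma rp2 {n : ℕ} (hn : 1 ≤ n) :
    (n : ℝ) * (n : ℝ) * (n : ℝ) ^ (-(1 / 4 : ℝ)) = (n : ℝ) ^ (7 / 4 : ℝ) := by
  have : (0 : ℝ) < n := by exact_mod_cast hn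
  rw [← rp1 hn, mul_assoc]
  congr 1
  nth_rewrite 1 [← Real.rpow_one (n : ℝ)]
  rw [← Real.rpow_add this]; norm_num

lemma rp3 {x t : ℝ} {y : ℝ} (hy : 0 ≤ y) (hx : 0 ≤ x) (ht : 1 ≤ t) (h : x ≤ t * y) :
    x ^ (3 / 4 : ℝ) ≤ t * y ^ (3 / 4 : ℝ) := by
  calc x ^ (3 / 4 : ℝ) ≤ (t * y) ^ (3 / 4 : ℝ) := Real.rpow_le_rpow hx h (by norm_num)
    _ = t ^ (3 / 4 : ℝ) * y ^ (3 / 4 : ℝ) := Real.mul_rpow (by linarith) hy
    _ ≤ t ^ (1 : ℝ) * y ^ (3 / 4 : ℝ) :=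
        mul_le_mul_of_nonneg_right (Real.rpow_le_rpow_of_exponent_le ht (by norm_num))
          (Real.rpow_nonneg hy _)
    _ = _ := by rw [Real.rpow_one]

lemma EV_upper {C1 : ℝ} (hC1 : 0 < C1)
    (haa : ∀ r : ℤ, 1 ≤ r → aa r ≤ C1 * (r : ℝ) ^ (-(1 / 4 : ℝ)))
    (H2 : ∀ {x0 x1 y0 y1 a b : ℤ} (_ : x0 < x1) (_ : y0 < y1) (_ : x0 ≤ a ∧ a ≤ x1)
      (_ : x0 ≤ b ∧ b ≤ x1) {v : ℤ × ℤ} {d : ℤ} (_ : 1 ≤ d)
      (_ : x0 < v.1 - d ∧ v.1 + d < x1) (_ : y0 < v.2 - d ∧ v.2 + d < y1),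
      ∑ i, Pr (Bx x0 x1 y0 y1) (fun ω => Vis x0 x1 y0 y1 a b ω (crn v i)) ≤ aa d)
    (K : ℕ) {m n a b : ℕ} (hm : 1 ≤ m) (hn : 1 ≤ n) (hmn : m ≤ K * n) (ha : a ≤ m) (hb : b ≤ m) :
    EV m n a b ≤ (8 + 3 * C1) * (16 * ((K : ℝ) + 1)) * (n : ℝ) ^ (7 / 4 : ℝ) := by
  unfold EV
  rw [sum_crn m n (fun c => Pr (Bx 0 m 0 n) (fun ω => Vis 0 m 0 n a b ω c))]
  refine (Finset.sum_le_sum fun v hv => up_v hC1 haa H2 hm hn ha hb hv).trans ?_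
  rw [← Finset.mul_sum, mul_assoc, mul_assoc]
  refine mul_le_mul_of_nonneg_left ?_ (by positivity)
  rw [Finset.sum_product]
  simp only
  have hsum : ∑ x ∈ Icc (0 : ℤ) m, ∑ y ∈ Icc (0 : ℤ) n,
      ((((x : ℝ) + 1) ^ (-(1 / 4 : ℝ)) + (((m : ℝ) - (x : ℝ)) + 1) ^ (-(1 / 4 : ℝ))) +
        (((y : ℝ) + 1) ^ (-(1 / 4 : ℝ)) + (((n : ℝ) - (y : ℝ)) + 1) ^ (-(1 / 4 : ℝ)))) =
      ((n : ℝ) + 1) * (∑ x ∈ Icc (0 : ℤ) m, ((x : ℝ) + 1) ^ (-(1 / 4 : ℝ)) +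
        ∑ x ∈ Icc (0 : ℤ) m, (((m : ℝ) - (x : ℝ)) + 1) ^ (-(1 / 4 : ℝ))) +
      ((m : ℝ) + 1) * (∑ y ∈ Icc (0 : ℤ) n, ((y : ℝ) + 1) ^ (-(1 / 4 : ℝ)) +
        ∑ y ∈ Icc (0 : ℤ) n, (((n : ℝ) - (y : ℝ)) + 1) ^ (-(1 / 4 : ℝ))) := by
    have hc : ∀ N : ℕ, ((Icc (0 : ℤ) N).card : ℝ) = (N : ℝ) + 1 := by
      intro N
      rw [Int.card_Icc]
      have : ((N : ℤ) + 1 - 0).toNat = N + 1 := by omega
      rw [this]; push_cast; ring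
    simp only [Finset.sum_add_distrib, Finset.sum_const, nsmul_eq_mul, hc, ← Finset.mul_sum]
    ring
  rw [hsum]
  have s1 := pow_sum m
  have s2 := pow_sum_rev m
  have s3 := pow_sum n
  have s4 := pow_sum_rev n
  have hn' : (1 : ℝ) ≤ n := by exact_mod_cast hn
  have hm' : (1 : ℝ) ≤ m := by exact_mod_cast hm
  have hmn' : (m : ℝ) ≤ K * n := by exact_mod_cast hmn
  have hK : (0 : ℝ) ≤ K := by positivity
  have t1 : ((m : ℝ) + 1) ^ (3 / 4 : ℝ) ≤ ((K : ℝ) + 1) * (n : ℝ) ^ (3 / 4 : ℝ) :=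
    rp3 (by linarith) (by linarith) (by linarith) (by nlinarith)
  have t2 : ((n : ℝ) + 1) ^ (3 / 4 : ℝ) ≤ 2 * (n : ℝ) ^ (3 / 4 : ℝ) :=
    rp3 (by linarith) (by linarith) (by linarith) (by nlinarith)
  have u1 : (m : ℝ) + 1 ≤ ((K : ℝ) + 1) * n := by nlinarith
  have u2 : (n : ℝ) + 1 ≤ 2 * n := by linarith
  have hp : 0 ≤ (n : ℝ) ^ (3 / 4 : ℝ) := Real.rpow_nonneg (by linarith) _
  rw [← rp1 hn]
  have v1 : ((n : ℝ) + 1) * (∑ x ∈ Icc (0 : ℤ) m, ((x : ℝ) + 1) ^ (-(1 / 4 : ℝ)) +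
        ∑ x ∈ Icc (0 : ℤ) m, (((m : ℝ) - (x : ℝ)) + 1) ^ (-(1 / 4 : ℝ))) ≤
      (2 * n) * (4 * (((K : ℝ) + 1) * (n : ℝ) ^ (3 / 4 : ℝ))) := by
    apply mul_le_mul u2 _ _ (by linarith)
    · linarith
    · apply add_nonneg
      · exact Finset.sum_nonneg fun x hx => Real.rpow_nonneg (by
          rw [mem_Icc] at hx
          have : (0 : ℝ) ≤ (x : ℝ) := by exact_mod_cast hx.1
          linarith) _
      · exact Finset.sum_nonneg fun x hx => Real.rpow_nonneg (by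
          rw [mem_Icc] at hx
          have : (x : ℝ) ≤ m := by exact_mod_cast hx.2
          linarith) _
  have v2 : ((m : ℝ) + 1) * (∑ y ∈ Icc (0 : ℤ) n, ((y : ℝ) + 1) ^ (-(1 / 4 : ℝ)) +
        ∑ y ∈ Icc (0 : ℤ) n, (((n : ℝ) - (y : ℝ)) + 1) ^ (-(1 / 4 : ℝ))) ≤
      (((K : ℝ) + 1) * n) * (4 * (2 * (n : ℝ) ^ (3 / 4 : ℝ))) := by
    apply mul_le_mul u1 _ _ (by positivity)
    · linarith
    · apply add_nonneg
      · exact Finset.sum_nonneg fun x hx => Real.rpow_nonneg (by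
          rw [mem_Icc] at hx
          have : (0 : ℝ) ≤ (x : ℝ) := by exact_mod_cast hx.1
          linarith) _
      · exact Finset.sum_nonneg fun x hx => Real.rpow_nonneg (by
          rw [mem_Icc] at hx
          have : (x : ℝ) ≤ n := by exact_mod_cast hx.2
          linarith) _
  linarith

/-! ### lower bound -/

lemma EV_nonneg_part (m n a b : ℕ) (s : Finset (ℤ × ℤ)) (hs : s ⊆ (Icc (0 : ℤ) m) ×ˢ (Icc (0 : ℤ) n)) :
    ∑ v ∈ s, ∑ i : Fin 4, Pr (Bx 0 m 0 n) (fun ω => Vis 0 m 0 n a b ω (crn v i)) ≤ EV m n a b := by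
  unfold EV
  rw [sum_crn m n (fun c => Pr (Bx 0 m 0 n) (fun ω => Vis 0 m 0 n a b ω c))]
  exact Finset.sum_le_sum_of_subset_of_nonneg hs
    (fun v _ _ => Finset.sum_nonneg fun i _ => Pr_nonneg _ _)

lemma EV_ge_one {m n a b : ℕ} (ha : a ≤ m) : 1 ≤ EV m n a b := by
  have h1 := EV_nonneg_part m n a b {((a : ℤ), (0 : ℤ))} (by
    intro v hv
    rw [mem_singleton] at hv
    subst hv
    rw [mem_product, mem_Icc, mem_Icc]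
    simp only
    omega)
  rw [Finset.sum_singleton] at h1
  refine le_trans ?_ h1
  have h2 : Pr (Bx 0 m 0 n) (fun ω => Vis 0 m 0 n a b ω (crn ((a : ℤ), (0 : ℤ)) 0)) = 1 := by
    rw [← Pr_true (Bx 0 m 0 n)]
    apply Pr_congr
    intro ω _
    refine ⟨fun _ => trivial, fun _ => ?_⟩
    refine ⟨0, ?_, ?_⟩
    · rw [(crn_eq _).1]; rfl
    · intro j hj h
      obtain rfl : j = 0 := by omega
      have := congrArg Prod.snd h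
      simp only [Function.iterate_zero, id] at this
      omega
  rw [← h2]
  exact Finset.single_le_sum (f := fun i : Fin 4 =>
    Pr (Bx 0 m 0 n) (fun ω => Vis 0 m 0 n a b ω (crn ((a : ℤ), (0 : ℤ)) i)))
    (fun i _ => Pr_nonneg _ _) (mem_univ (0 : Fin 4))

/-- one vertex in the middle of the rectangle -/
lemma low_v
    (H1 : ∀ {x0 x1 y0 y1 a b : ℤ} {ω : Finset (ℤ × ℤ)} {c t : ℤ × ℤ},
      Vis (x0 + t.1) (x1 + t.1) (y0 + t.2) (y1 + t.2) (a + t.1) (b + t.1) (ω.map (syT t).G)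
        (c.1 + 2 * t.1, c.2 + 2 * t.2) ↔ Vis x0 x1 y0 y1 a b ω c)
    {c0 c2 : ℝ} (hc0 : 0 < c0) {k K' : ℕ}
    (hgg : ∀ w : ℤ, 1 ≤ w → c2 * (w : ℝ) ^ (-(1 / 4 : ℝ)) ≤ gg (4 ^ k * w) (4 ^ k * (4 ^ k * w)) w)
    (H3 : ∀ x0 x1 y0 y1 a b s r L : ℤ, 1 ≤ s →
      r = 4 ^ k * (16 * s) → L = 4 ^ k * r → 8 * L ≤ -x0 → 8 * L ≤ x1 → 8 * L ≤ -y0 → 8 * L ≤ y1 →
      -x0 ≤ K' * s → x1 ≤ K' * s → -y0 ≤ K' * s → y1 ≤ K' * s → x0 ≤ a → a ≤ x1 → x0 ≤ b →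
      b ≤ x1 → ∀ i : Fin 4, c0 * Pr (BB (2 * L)) (fun ω => Good r L (16 * s) ω (crn (0, 0) i)) ≤
        Pr (Bx x0 x1 y0 y1) (fun ω => Vis x0 x1 y0 y1 a b ω (crn (0, 0) i)))
    {m n a b : ℕ} (ha : a ≤ m) (hb : b ≤ m) {s L : ℤ} (hs : 1 ≤ s)
    (hL : L = 4 ^ k * (4 ^ k * (16 * s))) {v : ℤ × ℤ}
    (h1 : 8 * L ≤ v.1) (h2 : 8 * L ≤ m - v.1) (h3 : 8 * L ≤ v.2) (h4 : 8 * L ≤ n - v.2)
    (h5 : (m : ℤ) ≤ K' * s) (h6 : (n : ℤ) ≤ K' * s) :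
    c0 * (c2 * ((16 * s : ℤ) : ℝ) ^ (-(1 / 4 : ℝ))) ≤
      ∑ i : Fin 4, Pr (Bx 0 m 0 n) (fun ω => Vis 0 m 0 n a b ω (crn v i)) := by
  have hL0 : 0 < L := by rw [hL]; positivity
  have e : ∀ i : Fin 4, Pr (Bx 0 m 0 n) (fun ω => Vis 0 m 0 n a b ω (crn v i)) =
      Pr (Bx (-v.1) (m - v.1) (-v.2) (n - v.2)) (fun ω => Vis (-v.1) (m - v.1) (-v.2) (n - v.2)
        (a - v.1) (b - v.1) ω (crn (0, 0) i)) := by
    intro i
    rw [(syT v).Pr (E1 := Bx (-v.1) (m - v.1) (-v.2) (n - v.2)) (E2 := Bx 0 m 0 n)]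
    · apply Pr_congr
      intro ω _
      have := H1 (x0 := -v.1) (x1 := m - v.1) (y0 := -v.2) (y1 := n - v.2) (a := a - v.1)
        (b := b - v.1) (ω := ω) (c := crn (0, 0) i) (t := v)
      rw [← this]
      have e1 : ((crn (0, 0) i).1 + 2 * v.1, (crn (0, 0) i).2 + 2 * v.2) = crn v i := by
        obtain ⟨h0, h1, h2, h3⟩ := crn_eq v
        obtain ⟨k0, k1, k2, k3⟩ := crn_eq (0, 0)
        fin_cases i
        · simp only [Fin.zero_eta]; rw [h0, k0]; refine Prod.ext ?_ ?_ <;> simp only <;> ring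
        · simp only [Fin.mk_one]; rw [h1, k1]; refine Prod.ext ?_ ?_ <;> simp only <;> ring
        · simp only [Fin.reduceFinMk]; rw [h2, k2]; refine Prod.ext ?_ ?_ <;> simp only <;> ring
        · simp only [Fin.reduceFinMk]; rw [h3, k3]; refine Prod.ext ?_ ?_ <;> simp only <;> ring
      rw [e1, neg_add_cancel, neg_add_cancel, sub_add_cancel, sub_add_cancel, sub_add_cancel,
        sub_add_cancel]
    · intro e
      rw [mem_Bx, mem_Bx]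
      simp only [syT]
      omega
  have g := fun i => H3 (-v.1) (m - v.1) (-v.2) (n - v.2) (a - v.1) (b - v.1) s (4 ^ k * (16 * s)) L hs
    rfl hL (by omega) (by omega) (by omega) (by omega) (by omega) (by omega) (by omega) (by omega)
    (by omega) (by omega) (by omega) (by omega) i
  have hsum : c0 * gg (4 ^ k * (16 * s)) L (16 * s) =
      ∑ i : Fin 4, c0 * Pr (BB (2 * L)) (fun ω => Good (4 ^ k * (16 * s)) L (16 * s) ω (crn (0, 0) i)) := by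
    rw [Fin.sum_univ_four]
    unfold gg
    have k0 : crn (0, 0) 0 = (0, 0) := rfl
    have k1 : crn (0, 0) 1 = (1, 0) := rfl
    have k2 : crn (0, 0) 2 = (0, 1) := rfl
    have k3 : crn (0, 0) 3 = (1, 1) := rfl
    rw [k0, k1, k2, k3]
    ring
  calc c0 * (c2 * ((16 * s : ℤ) : ℝ) ^ (-(1 / 4 : ℝ)))
      ≤ c0 * gg (4 ^ k * (16 * s)) L (16 * s) := by
        rw [hL]
        exact mul_le_mul_of_nonneg_left (hgg (16 * s) (by omega)) hc0.le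
    _ = _ := hsum
    _ ≤ ∑ i : Fin 4, Pr (Bx (-v.1) (m - v.1) (-v.2) (n - v.2)) (fun ω => Vis (-v.1) (m - v.1)
        (-v.2) (n - v.2) (a - v.1) (b - v.1) ω (crn (0, 0) i)) := Finset.sum_le_sum fun i _ => g i
    _ = _ := Finset.sum_congr rfl fun i _ => (e i).symm

lemma EV_lower
    (H1 : ∀ {x0 x1 y0 y1 a b : ℤ} {ω : Finset (ℤ × ℤ)} {c t : ℤ × ℤ},
      Vis (x0 + t.1) (x1 + t.1) (y0 + t.2) (y1 + t.2) (a + t.1) (b + t.1) (ω.map (syT t).G)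
        (c.1 + 2 * t.1, c.2 + 2 * t.2) ↔ Vis x0 x1 y0 y1 a b ω c)
    (H3 : ∀ k K : ℕ, ∃ c0 : ℝ, 0 < c0 ∧ ∀ x0 x1 y0 y1 a b s r L : ℤ, 1 ≤ s →
      r = 4 ^ k * (16 * s) → L = 4 ^ k * r → 8 * L ≤ -x0 → 8 * L ≤ x1 → 8 * L ≤ -y0 → 8 * L ≤ y1 →
      -x0 ≤ K * s → x1 ≤ K * s → -y0 ≤ K * s → y1 ≤ K * s → x0 ≤ a → a ≤ x1 → x0 ≤ b → b ≤ x1 →
      ∀ i : Fin 4, c0 * Pr (BB (2 * L)) (fun ω => Good r L (16 * s) ω (crn (0, 0) i)) ≤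
        Pr (Bx x0 x1 y0 y1) (fun ω => Vis x0 x1 y0 y1 a b ω (crn (0, 0) i)))
    {c2 : ℝ} (hc2 : 0 < c2) (k : ℕ)
    (hgg : ∀ w : ℤ, 1 ≤ w → c2 * (w : ℝ) ^ (-(1 / 4 : ℝ)) ≤ gg (4 ^ k * w) (4 ^ k * (4 ^ k * w)) w)
    (K : ℕ) (hK : 1 ≤ K) :
    ∃ c : ℝ, 0 < c ∧ ∀ m n a b : ℕ, 1 ≤ m → 1 ≤ n → m ≤ K * n → n ≤ K * m →
      a ≤ m → b ≤ m → c * (n : ℝ) ^ (7 / 4 : ℝ) ≤ EV m n a b := by
  -- `Q = 512 * 16 ^ k`, `s = min m n / Q`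
  set Q : ℕ := 512 * 16 ^ k with hQ
  have hQ1 : 512 ≤ Q := by
    have : 1 ≤ 16 ^ k := Nat.one_le_pow _ _ (by norm_num)
    omega
  obtain ⟨c0, hc0, H⟩ := H3 k (2 * K * Q)
  have hQr : (512 : ℝ) ≤ Q := by exact_mod_cast hQ1
  have hKr : (1 : ℝ) ≤ K := by exact_mod_cast hK
  refine ⟨min (c0 * c2 / (16 * K)) (1 / ((K : ℝ) * Q) ^ 2), by positivity, ?_⟩
  intro m n a b hm hn hmn hnm ha hb
  have hnr : (1 : ℝ) ≤ n := by exact_mod_cast hn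
  rcases Nat.lt_or_ge (min m n) Q with hlt | hge
  · -- small rectangle
    have h1 : n ≤ K * Q := by
      rcases le_total m n with h | h
      · rw [min_eq_left h] at hlt
        exact hnm.trans (Nat.mul_le_mul_left _ hlt.le)
      · rw [min_eq_right h] at hlt
        calc n ≤ Q := hlt.le
          _ = 1 * Q := (one_mul _).symm
          _ ≤ K * Q := Nat.mul_le_mul_right _ hK
    have h1r : (n : ℝ) ≤ K * Q := by exact_mod_cast h1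
    have h2 : (n : ℝ) ^ (7 / 4 : ℝ) ≤ ((K : ℝ) * Q) ^ 2 := by
      calc (n : ℝ) ^ (7 / 4 : ℝ) ≤ (n : ℝ) ^ (2 : ℝ) :=
            Real.rpow_le_rpow_of_exponent_le hnr (by norm_num)
        _ = (n : ℝ) ^ 2 := Real.rpow_two _
        _ ≤ _ := pow_le_pow_left₀ (by linarith) h1r 2
    have h3 : 0 ≤ (n : ℝ) ^ (7 / 4 : ℝ) := Real.rpow_nonneg (by linarith) _
    have h4 : (0 : ℝ) < ((K : ℝ) * Q) ^ 2 := by positivity
    calc min (c0 * c2 / (16 * K)) (1 / ((K : ℝ) * Q) ^ 2) * (n : ℝ) ^ (7 / 4 : ℝ)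
        ≤ (1 / ((K : ℝ) * Q) ^ 2) * (n : ℝ) ^ (7 / 4 : ℝ) :=
          mul_le_mul_of_nonneg_right (min_le_right _ _) h3
      _ ≤ (1 / ((K : ℝ) * Q) ^ 2) * ((K : ℝ) * Q) ^ 2 :=
          mul_le_mul_of_nonneg_left h2 (by positivity)
      _ = 1 := by field_simp
      _ ≤ _ := EV_ge_one ha
  · -- large rectangle
    have hmQ : Q ≤ m := hge.trans (min_le_left _ _)
    have hnQ : Q ≤ n := hge.trans (min_le_right _ _)
    obtain ⟨s, hs⟩ : ∃ s : ℕ, s = min m n / Q := ⟨_, rfl⟩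
    have hs1 : 1 ≤ s := by
      rw [hs]
      exact Nat.div_pos hge (by omega)
    have hsQ : s * Q ≤ min m n := by rw [hs]; exact Nat.div_mul_le_self _ _
    have hsQ2 : min m n < (s + 1) * Q := by
      rw [hs]
      exact Nat.lt_mul_of_div_lt (Nat.lt_succ_self _) (by omega)
    have hmin : min m n ≤ 2 * Q * s := by nlinarith
    have hm2 : m ≤ 2 * K * Q * s := by
      rcases le_total m n with h | h
      · rw [min_eq_left h] at hmin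
        calc m ≤ 2 * Q * s := hmin
          _ = 1 * (2 * Q * s) := (one_mul _).symm
          _ ≤ K * (2 * Q * s) := Nat.mul_le_mul_right _ hK
          _ = _ := by ring
      · rw [min_eq_right h] at hmin
        calc m ≤ K * n := hmn
          _ ≤ K * (2 * Q * s) := Nat.mul_le_mul_left _ hmin
          _ = _ := by ring
    have hn2 : n ≤ 2 * K * Q * s := by
      rcases le_total m n with h | h
      · rw [min_eq_left h] at hmin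
        calc n ≤ K * m := hnm
          _ ≤ K * (2 * Q * s) := Nat.mul_le_mul_left _ hmin
          _ = _ := by ring
      · rw [min_eq_right h] at hmin
        calc n ≤ 2 * Q * s := hmin
          _ = 1 * (2 * Q * s) := (one_mul _).symm
          _ ≤ K * (2 * Q * s) := Nat.mul_le_mul_right _ hK
          _ = _ := by ring
    have hm2' : (m : ℤ) ≤ ((2 * K * Q : ℕ) : ℤ) * (s : ℤ) := by exact_mod_cast hm2
    have hn2' : (n : ℤ) ≤ ((2 * K * Q : ℕ) : ℤ) * (s : ℤ) := by exact_mod_cast hn2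
    obtain ⟨L, hL⟩ : ∃ L : ℤ, L = 4 ^ k * (4 ^ k * (16 * (s : ℤ))) := ⟨_, rfl⟩
    have hLQ : 32 * L = (s : ℤ) * Q := by
      rw [hL, hQ]
      push_cast
      have : (16 : ℤ) ^ k = 4 ^ k * 4 ^ k := by rw [← mul_pow]; norm_num
      rw [this]; ring
    have hLm : 32 * L ≤ m := by
      rw [hLQ]
      exact_mod_cast hsQ.trans (min_le_left _ _)
    have hLn : 32 * L ≤ n := by
      rw [hLQ]
      exact_mod_cast hsQ.trans (min_le_right _ _)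
    set J := (Icc (((m / 4 : ℕ) : ℤ) + 1) (3 * ((m / 4 : ℕ) : ℤ))) ×ˢ
      (Icc (((n / 4 : ℕ) : ℤ) + 1) (3 * ((n / 4 : ℕ) : ℤ))) with hJ
    have hJsub : J ⊆ (Icc (0 : ℤ) m) ×ˢ (Icc (0 : ℤ) n) := by
      intro v hv
      rw [hJ, mem_product, mem_Icc, mem_Icc] at hv
      rw [mem_product, mem_Icc, mem_Icc]
      omega
    have hcard : (J.card : ℝ) = (2 * ((m / 4 : ℕ) : ℝ)) * (2 * ((n / 4 : ℕ) : ℝ)) := by
      rw [hJ, card_product, Int.card_Icc, Int.card_Icc]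
      have e1 : (3 * ((m / 4 : ℕ) : ℤ) + 1 - (((m / 4 : ℕ) : ℤ) + 1)).toNat = 2 * (m / 4) := by omega
      have e2 : (3 * ((n / 4 : ℕ) : ℤ) + 1 - (((n / 4 : ℕ) : ℤ) + 1)).toNat = 2 * (n / 4) := by omega
      rw [e1, e2]
      push_cast
      ring
    have hq1 : (m : ℝ) / 4 ≤ 2 * ((m / 4 : ℕ) : ℝ) := by
      have : m ≤ 8 * (m / 4) := by omega
      have : (m : ℝ) ≤ 8 * ((m / 4 : ℕ) : ℝ) := by exact_mod_cast this
      linarith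
    have hq2 : (n : ℝ) / 4 ≤ 2 * ((n / 4 : ℕ) : ℝ) := by
      have : n ≤ 8 * (n / 4) := by omega
      have : (n : ℝ) ≤ 8 * ((n / 4 : ℕ) : ℝ) := by exact_mod_cast this
      linarith
    have hs16 : 16 * (s : ℤ) ≤ n := by
      have h1 : s * 512 ≤ s * Q := Nat.mul_le_mul_left _ hQ1
      have h2 := hsQ.trans (min_le_right m n)
      omega
    have hs16r : ((16 * (s : ℤ) : ℤ) : ℝ) ≤ n := by exact_mod_cast hs16
    have hpow : (n : ℝ) ^ (-(1 / 4 : ℝ)) ≤ ((16 * (s : ℤ) : ℤ) : ℝ) ^ (-(1 / 4 : ℝ)) := by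
      apply Real.rpow_le_rpow_of_nonpos _ hs16r (by norm_num)
      have : (0 : ℤ) < 16 * (s : ℤ) := by omega
      exact_mod_cast this
    have hnp : 0 ≤ (n : ℝ) ^ (-(1 / 4 : ℝ)) := Real.rpow_nonneg (by linarith) _
    have hv : ∀ v ∈ J, c0 * (c2 * (n : ℝ) ^ (-(1 / 4 : ℝ))) ≤
        ∑ i : Fin 4, Pr (Bx 0 m 0 n) (fun ω => Vis 0 m 0 n a b ω (crn v i)) := by
      intro v hv
      rw [hJ, mem_product, mem_Icc, mem_Icc] at hv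
      refine le_trans ?_ (low_v H1 hc0 hgg H ha hb (s := (s : ℤ)) (L := L) (by omega) hL
        (v := v) (by omega) (by omega) (by omega) (by omega) hm2' hn2')
      exact mul_le_mul_of_nonneg_left (mul_le_mul_of_nonneg_left hpow hc2.le) hc0.le
    have htot : (J.card : ℝ) * (c0 * (c2 * (n : ℝ) ^ (-(1 / 4 : ℝ)))) ≤ EV m n a b := by
      refine le_trans ?_ (EV_nonneg_part m n a b J hJsub)
      rw [← nsmul_eq_mul, ← Finset.sum_const]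
      exact Finset.sum_le_sum hv
    have hmr : (n : ℝ) ≤ K * m := by exact_mod_cast hnm
    have h7 : 0 ≤ (n : ℝ) ^ (7 / 4 : ℝ) := Real.rpow_nonneg (by linarith) _
    have hm4 : (n : ℝ) / (4 * K) ≤ 2 * ((m / 4 : ℕ) : ℝ) := by
      refine le_trans ?_ hq1
      rw [div_le_div_iff₀ (by positivity) (by norm_num)]
      nlinarith
    calc min (c0 * c2 / (16 * K)) (1 / ((K : ℝ) * Q) ^ 2) * (n : ℝ) ^ (7 / 4 : ℝ)
        ≤ (c0 * c2 / (16 * K)) * (n : ℝ) ^ (7 / 4 : ℝ) :=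
          mul_le_mul_of_nonneg_right (min_le_left _ _) h7
      _ = ((n : ℝ) / (4 * K)) * ((n : ℝ) / 4) * (c0 * (c2 * (n : ℝ) ^ (-(1 / 4 : ℝ)))) := by
          rw [← rp2 hn]
          field_simp
          ring
      _ ≤ (J.card : ℝ) * (c0 * (c2 * (n : ℝ) ^ (-(1 / 4 : ℝ)))) := by
          rw [hcard]
          apply mul_le_mul_of_nonneg_right _ (by positivity)
          exact mul_le_mul hm4 hq2 (by positivity) (by positivity)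
      _ ≤ _ := htot

end Ps98

/-- the summation, from the bounds for one vertex -/
theorem EV_bounds_of
    (H1 : ∀ {x0 x1 y0 y1 a b : ℤ} {ω : Finset (ℤ × ℤ)} {c t : ℤ × ℤ},
      Vis (x0 + t.1) (x1 + t.1) (y0 + t.2) (y1 + t.2) (a + t.1) (b + t.1) (ω.map (syT t).G)
        (c.1 + 2 * t.1, c.2 + 2 * t.2) ↔ Vis x0 x1 y0 y1 a b ω c)
    (H2 : ∀ {x0 x1 y0 y1 a b : ℤ} (_ : x0 < x1) (_ : y0 < y1) (_ : x0 ≤ a ∧ a ≤ x1)
      (_ : x0 ≤ b ∧ b ≤ x1) {v : ℤ × ℤ} {d : ℤ} (_ : 1 ≤ d)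
      (_ : x0 < v.1 - d ∧ v.1 + d < x1) (_ : y0 < v.2 - d ∧ v.2 + d < y1),
      ∑ i, Pr (Bx x0 x1 y0 y1) (fun ω => Vis x0 x1 y0 y1 a b ω (crn v i)) ≤ aa d)
    (H3 : ∀ k K : ℕ, ∃ c0 : ℝ, 0 < c0 ∧ ∀ x0 x1 y0 y1 a b s r L : ℤ, 1 ≤ s →
      r = 4 ^ k * (16 * s) → L = 4 ^ k * r → 8 * L ≤ -x0 → 8 * L ≤ x1 → 8 * L ≤ -y0 → 8 * L ≤ y1 →
      -x0 ≤ K * s → x1 ≤ K * s → -y0 ≤ K * s → y1 ≤ K * s → x0 ≤ a → a ≤ x1 → x0 ≤ b → b ≤ x1 →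
      ∀ i : Fin 4, c0 * Pr (BB (2 * L)) (fun ω => Good r L (16 * s) ω (crn (0, 0) i)) ≤
        Pr (Bx x0 x1 y0 y1) (fun ω => Vis x0 x1 y0 y1 a b ω (crn (0, 0) i)))
    {C1 c2 : ℝ} (hC1 : 0 < C1) (hc2 : 0 < c2) (k : ℕ)
    (haa : ∀ r : ℤ, 1 ≤ r → aa r ≤ C1 * (r : ℝ) ^ (-(1 / 4 : ℝ)))
    (hgg : ∀ w : ℤ, 1 ≤ w → c2 * (w : ℝ) ^ (-(1 / 4 : ℝ)) ≤ gg (4 ^ k * w) (4 ^ k * (4 ^ k * w)) w)
    (K : ℕ) :
    ∃ c C : ℝ, 0 < c ∧ 0 < C ∧ ∀ m n a b : ℕ, 1 ≤ m → 1 ≤ n → m ≤ K * n → n ≤ K * m →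
      a ≤ m → b ≤ m →
      c * (n : ℝ) ^ (7 / 4 : ℝ) ≤ EV m n a b ∧ EV m n a b ≤ C * (n : ℝ) ^ (7 / 4 : ℝ) := by
  obtain ⟨c, hc, hlow⟩ := Ps98.EV_lower H1 H3 hc2 k hgg (K + 1) (by omega)
  refine ⟨c, (8 + 3 * C1) * (16 * ((K : ℝ) + 1)), hc, by positivity, ?_⟩
  intro m n a b hm hn hmn hnm ha hb
  refine ⟨hlow m n a b hm hn ?_ ?_ ha hb, Ps98.EV_upper hC1 haa H2 K hm hn hmn ha hb⟩
  · nlinarith
  · nlinarith

end Pool.Agent.H75.TwoArm
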